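import Mathlib

/-!
MP_673eb1_lc, module Aniso: the form `x² + r y² + l z² - 4 l r ξ²` is anisotropic at a prime `v` of `K`
of degree one, unramified, of norm `l ≡ 1 mod 4`, when `r` is not a square modulo `l`.
-/

set_option autoImplicit false

open NumberField IsDedekindDomain

namespace Pool.Agent.Lib.MP_673eb1_lc

variable {K : Type} [Field K] [NumberField K]

private theorem Aniso_mem (v : HeightOneSpectrum (𝓞 K)) (l : ℕ) (hl : l.Prime)
    (hN : Ideal.absNorm v.asIdeal = l) (c : ℤ) (hc : ¬ IsSquare ((c : ℤ) : ZMod l)) (a : 𝓞 K) :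
    a ^ 2 - (c : 𝓞 K) ∉ v.asIdeal ∧ 1 - (c : 𝓞 K) * a ^ 2 ∉ v.asIdeal := by
  classical
  have hcard : Nat.card (𝓞 K ⧸ v.asIdeal) = l := by
    rw [← hN, Ideal.absNorm_apply, Submodule.cardQuot_apply]
  have hfin : Finite (𝓞 K ⧸ v.asIdeal) := by
    apply Nat.finite_of_card_ne_zero
    rw [hcard]
    exact hl.ne_zero
  have _ := Fintype.ofFinite (𝓞 K ⧸ v.asIdeal)
  rw [Nat.card_eq_fintype_card] at hcard
  have hlp : Fact l.Prime := ⟨hl⟩
  obtain ⟨e, -⟩ : ∃ e : ZMod l ≃+* (𝓞 K ⧸ v.asIdeal), e = e :=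
    ⟨ZMod.ringEquivOfPrime _ hl hcard, rfl⟩
  obtain ⟨b, hb⟩ : ∃ b : ZMod l, e b = Ideal.Quotient.mk v.asIdeal a :=
    ⟨e.symm (Ideal.Quotient.mk v.asIdeal a), e.apply_symm_apply _⟩
  constructor
  · intro h
    apply hc
    refine ⟨b, e.injective ?_⟩
    rw [← Ideal.Quotient.eq_zero_iff_mem, map_sub, map_pow, map_intCast, ← hb, sub_eq_zero] at h
    rw [map_intCast, map_mul, ← h, pow_two]
  · intro h
    apply hc
    rw [← Ideal.Quotient.eq_zero_iff_mem, map_sub, map_mul, map_pow, map_intCast, map_one, ← hb,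
      sub_eq_zero] at h
    have h1 : (c : ZMod l) * b ^ 2 = 1 := by
      apply e.injective
      rw [map_mul, map_pow, map_intCast, map_one, h]
    have hb0 : b ≠ 0 := by
      rintro rfl
      simp at h1
    refine ⟨b⁻¹, ?_⟩
    field_simp
    exact h1

private theorem Aniso_unit (v : HeightOneSpectrum (𝓞 K)) (l : ℕ) (hl : l.Prime)
    (hN : Ideal.absNorm v.asIdeal = l) (c : ℤ) (hc : ¬ IsSquare ((c : ℤ) : ZMod l)) (u : K)
    (hu : v.valuation K u ≤ 1) :
    v.valuation K (u ^ 2 - c) = 1 ∧ v.valuation K (1 - c * u ^ 2) = 1 := by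
  obtain ⟨a, ha⟩ := HeightOneSpectrum.exists_valuation_sub_lt_of_integer v hu 1
  rw [Units.val_one] at ha
  obtain ⟨h1, h2⟩ := Aniso_mem v l hl hN c hc a
  have hca : v.valuation K (algebraMap (𝓞 K) K a) ≤ 1 := v.valuation_le_one a
  have hcc : v.valuation K (c : K) ≤ 1 := by
    have := v.valuation_le_one (K := K) (c : 𝓞 K)
    rwa [Algebra.cast, map_intCast] at this
  have hs : v.valuation K ((algebraMap (𝓞 K) K a - u) * (algebraMap (𝓞 K) K a + u)) < 1 := by
    rw [map_mul]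
    refine lt_of_le_of_lt (mul_le_of_le_one_right' ?_) ha
    exact (Valuation.map_add _ _ _).trans (max_le hca hu)
  rw [← HeightOneSpectrum.valuation_eq_one_iff_notMem (K := K)] at h1 h2
  rw [map_sub, map_pow, map_intCast] at h1
  rw [map_sub, map_mul, map_pow, map_intCast, map_one] at h2
  constructor
  · have e1 : u ^ 2 - (c : K) = ((algebraMap (𝓞 K) K a) ^ 2 - c) -
        (algebraMap (𝓞 K) K a - u) * (algebraMap (𝓞 K) K a + u) := by ring
    rw [e1, Valuation.map_sub_eq_of_lt_left, h1]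
    rw [h1]
    exact hs
  · have e1 : 1 - (c : K) * u ^ 2 = (1 - (c : K) * (algebraMap (𝓞 K) K a) ^ 2) +
        c * ((algebraMap (𝓞 K) K a - u) * (algebraMap (𝓞 K) K a + u)) := by ring
    rw [e1, Valuation.map_add_eq_of_lt_left, h2]
    rw [h2, map_mul]
    exact lt_of_le_of_lt (mul_le_of_le_one_left' hcc) hs

/-- `c` a unit at `v` which is not a square modulo `v`: `v (x² - c y²) = max (v x) (v y) ^ 2`.
PROOF. The case `x = y = 0` is clear. Divide by the one of the larger valuation: it is enough to show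
that `x² - c y²` is a unit at `v` if `x, y` are `v`-integral and one of them is a unit. Otherwise
`x² ≡ c y² mod v`; then `y` is a unit (else `x` is not a unit) and `c ≡ (x/y)²` is a square in the residue
field. (To work with residues: every `v`-integral element of `K` is congruent modulo `v` to an element
of `𝓞 K`, and `𝓞 K / v` is a field with `l` elements, so `≃ ZMod l`: every element of `𝓞 K` is
congruent to an integer; so `x ≡ m`, `y ≡ n` with integers `m, n`.) -/
theorem val_sq_sub (v : HeightOneSpectrum (𝓞 K)) (l : ℕ) (hl : l.Prime)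
    (hN : Ideal.absNorm v.asIdeal = l) (c : ℤ) (hc : ¬ IsSquare ((c : ℤ) : ZMod l)) (x y : K) :
    v.valuation K (x ^ 2 - c * y ^ 2) = max (v.valuation K x) (v.valuation K y) ^ 2 := by
  rcases le_total (v.valuation K x) (v.valuation K y) with h | h
  · rw [max_eq_right h]
    by_cases hy : y = 0
    · have hx : x = 0 := by
        rw [hy, map_zero, le_zero_iff, map_eq_zero] at h
        exact h
      rw [hx, hy]
      simp
    · have hvy : v.valuation K y ≠ 0 := (Valuation.ne_zero_iff _).2 hy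
      have hu : v.valuation K (x / y) ≤ 1 := by
        rw [map_div₀]
        exact div_le_one_of_le₀ h zero_le'
      have e1 : x ^ 2 - (c : K) * y ^ 2 = y ^ 2 * ((x / y) ^ 2 - c) := by
        field_simp
      rw [e1, map_mul, (Aniso_unit v l hl hN c hc _ hu).1, mul_one, map_pow]
  · rw [max_eq_left h]
    by_cases hx : x = 0
    · have hy : y = 0 := by
        rw [hx, map_zero, le_zero_iff, map_eq_zero] at h
        exact h
      rw [hx, hy]
      simp
    · have hu : v.valuation K (y / x) ≤ 1 := by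
        rw [map_div₀]
        exact div_le_one_of_le₀ h zero_le'
      have e1 : x ^ 2 - (c : K) * y ^ 2 = x ^ 2 * (1 - c * (y / x) ^ 2) := by
        field_simp
      rw [e1, map_mul, (Aniso_unit v l hl hN c hc _ hu).2, mul_one, map_pow]

/-- PROOF. `-r` and `4 r` are not squares modulo `l` (`l ≡ 1 mod 4`, so `-1` is a square). Let
`N₁ = x² + r y²`, `N₂ = z² - 4 r ξ²`: `1 = N₁ + l N₂`, `v N₁ = m₁²`, `v (l N₂) = exp(-1) m₂²` with
`m₂ = max (v z) (v ξ)`. If `N₂ ≠ 0` the two valuations are different (parity), so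
`1 = v 1 = max (..)`, hence `exp(-1) m₂² ≤ 1`, `m₂ ≤ 1`. If `N₂ = 0` then `m₂ = 0`. -/
theorem aniso (v : HeightOneSpectrum (𝓞 K)) (l r : ℕ) (hl : l.Prime)
    (hN : Ideal.absNorm v.asIdeal = l) (hunr : v.valuation K (l : K) = WithZero.exp (-1 : ℤ))
    (hl4 : l % 4 = 1) (hnr : ¬ IsSquare ((r : ℕ) : ZMod l)) (x y z ξ : K)
    (hx : x ^ 2 + r * y ^ 2 + l * z ^ 2 = 1 + 4 * l * r * ξ ^ 2) : v.valuation K ξ ≤ 1 := by
  have hlp : Fact l.Prime := ⟨hl⟩
  have hc1 : ¬ IsSquare (((-(r : ℤ) : ℤ)) : ZMod l) := by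
    intro h
    apply hnr
    have h1 : IsSquare (-1 : ZMod l) := ZMod.exists_sq_eq_neg_one_iff.2 (by omega)
    have h2 := h1.mul h
    have h3 : (-1 : ZMod l) * (((-(r : ℤ) : ℤ)) : ZMod l) = ((r : ℕ) : ZMod l) := by
      push_cast
      ring
    rwa [h3] at h2
  have h20 : (2 : ZMod l) ≠ 0 := by
    intro h
    have h1 : ((2 : ℕ) : ZMod l) = 0 := by exact_mod_cast h
    rw [ZMod.natCast_eq_zero_iff] at h1
    have h2 := Nat.le_of_dvd (by norm_num) h1
    have h3 := hl.two_le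
    omega
  have hc2 : ¬ IsSquare (((4 * (r : ℤ) : ℤ)) : ZMod l) := by
    rintro ⟨s, hs⟩
    apply hnr
    refine ⟨s / 2, ?_⟩
    push_cast at hs
    field_simp
    linear_combination hs
  obtain ⟨m₁, hm₁⟩ : ∃ m₁, m₁ = max (v.valuation K x) (v.valuation K y) := ⟨_, rfl⟩
  obtain ⟨m₂, hm₂⟩ : ∃ m₂, m₂ = max (v.valuation K z) (v.valuation K ξ) := ⟨_, rfl⟩
  have h1 := val_sq_sub v l hl hN _ hc1 x y
  have h2 := val_sq_sub v l hl hN _ hc2 z ξ
  rw [← hm₁] at h1
  rw [← hm₂] at h2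
  have hξ : v.valuation K ξ ≤ m₂ := by
    rw [hm₂]
    exact le_max_right _ _
  refine hξ.trans ?_
  by_contra hgt
  push Not at hgt
  have hm0 : m₂ ≠ 0 := by
    rintro h
    rw [h] at hgt
    exact absurd hgt (not_lt.2 zero_le')
  obtain ⟨k, hk⟩ : ∃ k : ℤ, m₂ = WithZero.exp k := ⟨_, (WithZero.exp_log hm0).symm⟩
  have hk1 : 0 < k := by
    rw [hk, ← WithZero.exp_zero, WithZero.exp_lt_exp] at hgt
    exact hgt
  obtain ⟨N, hNd⟩ : ∃ N : K, N = l * (z ^ 2 - ((4 * (r : ℤ) : ℤ) : K) * ξ ^ 2) := ⟨_, rfl⟩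
  have hNv : v.valuation K N = WithZero.exp (2 * k - 1) := by
    rw [hNd, map_mul, hunr, h2, hk, ← WithZero.exp_nsmul, ← WithZero.exp_add]
    congr 1
    rw [nsmul_eq_mul]
    push_cast
    ring
  have hN1 : x ^ 2 - ((-(r : ℤ) : ℤ) : K) * y ^ 2 = 1 - N := by
    rw [hNd]
    push_cast
    linear_combination hx
  rw [hN1, Valuation.map_sub_eq_of_lt_right, hNv] at h1
  · have hm1 : m₁ ≠ 0 := by
      rintro h
      rw [h, zero_pow two_ne_zero] at h1
      exact WithZero.exp_ne_zero h1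
    obtain ⟨j, hj⟩ : ∃ j : ℤ, m₁ = WithZero.exp j := ⟨_, (WithZero.exp_log hm1).symm⟩
    rw [hj, ← WithZero.exp_nsmul, WithZero.exp_inj, nsmul_eq_mul] at h1
    push_cast at h1
    omega
  · rw [map_one, hNv, ← WithZero.exp_zero, WithZero.exp_lt_exp]
    omega

end Pool.Agent.Lib.MP_673eb1_lc
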