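import Pool.Agent.Lib.MP_673eb1_lc.Pol

/-!
MP_673eb1_lc, module DioC: closure properties of Diophantine sets (`Dio` of DefsDio). (helper69)
-/

set_option autoImplicit false

namespace Pool.Agent.Lib.MP_673eb1_lc

variable {K : Type*} [Field K] {R : Subring K} {V W : Type*} [AddCommGroup V] [Module K V]
  [AddCommGroup W] [Module K W]

/-- A Diophantine set from a description with variables in `ι → K`, `ι` any finite type. -/
private theorem dio_of {ι : Type*} [Finite ι] {S : Set V} (P : Set (V × (ι → K) → K))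
    (hP : P.Finite) (hpol : ∀ p ∈ P, p ∈ polFun K (V × (ι → K)))
    (h : ∀ v, v ∈ S ↔ ∃ z : ι → K, (∀ i, z i ∈ R) ∧ ∀ p ∈ P, p (v, z) = 0) : Dio R S := by
  obtain ⟨n, ⟨e⟩⟩ := Finite.exists_equiv_fin ι
  refine ⟨n, (fun (p : V × (ι → K) → K) (x : V × (Fin n → K)) => p (x.1, fun i => x.2 (e i))) '' P,
    hP.image _, ?_, ?_⟩
  · rintro _ ⟨p, hp, rfl⟩
    exact polFun_comp (φ := fun x : V × (Fin n → K) => (x.1, fun i => x.2 (e i)))
      (IsPol.fst.prodMk (IsPol.pi fun i => IsPol.snd.apply (e i))) (hpol p hp)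
  · intro v
    rw [h v]
    constructor
    · rintro ⟨z, hz, hp⟩
      refine ⟨fun j => z (e.symm j), fun j => hz _, ?_⟩
      rintro _ ⟨p, hp', rfl⟩
      simpa using hp p hp'
    · rintro ⟨z, hz, hp⟩
      exact ⟨fun i => z (e i), fun i => hz _, fun p hp' => hp _ ⟨p, hp', rfl⟩⟩

/-- selection of coordinates -/
private theorem pol_sel {ι κ : Type*} [Finite κ] (g : κ → ι) :
    IsPol K (fun x : V × (ι → K) => (x.1, fun k => x.2 (g k))) :=
  IsPol.fst.prodMk (IsPol.pi fun k => IsPol.snd.apply (g k))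

theorem Dio.univ : Dio R (Set.univ : Set V) :=
  ⟨0, ∅, Set.finite_empty, fun p hp => absurd hp (Set.notMem_empty p), fun v =>
    ⟨fun _ => ⟨fun i => i.elim0, fun i => i.elim0, fun p hp => absurd hp (Set.notMem_empty p)⟩,
      fun _ => Set.mem_univ v⟩⟩

theorem Dio.empty : Dio R (∅ : Set V) := by
  refine ⟨0, {1}, Set.finite_singleton _, ?_, ?_⟩
  · intro p hp
    rw [Set.mem_singleton_iff] at hp
    rw [hp]
    exact Subalgebra.one_mem _
  · intro v
    constructor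
    · intro h
      exact absurd h (Set.notMem_empty v)
    · rintro ⟨z, -, hz⟩
      exact absurd (hz 1 rfl) one_ne_zero

theorem Dio.inter {S T : Set V} (hS : Dio R S) (hT : Dio R T) : Dio R (S ∩ T) := by
  obtain ⟨m, P, hP, hpol, h⟩ := hS
  obtain ⟨m', P', hP', hpol', h'⟩ := hT
  refine dio_of (ι := Fin m ⊕ Fin m')
    ((fun (p : V × (Fin m → K) → K) (x : V × (Fin m ⊕ Fin m' → K)) =>
      p (x.1, fun i => x.2 (Sum.inl i))) '' P ∪
    (fun (p : V × (Fin m' → K) → K) (x : V × (Fin m ⊕ Fin m' → K)) =>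
      p (x.1, fun i => x.2 (Sum.inr i))) '' P') ((hP.image _).union (hP'.image _)) ?_ ?_
  · rintro _ (⟨p, hp, rfl⟩ | ⟨p, hp, rfl⟩)
    · exact polFun_comp (pol_sel Sum.inl) (hpol p hp)
    · exact polFun_comp (pol_sel Sum.inr) (hpol' p hp)
  · intro v
    rw [Set.mem_inter_iff, h v, h' v]
    constructor
    · rintro ⟨⟨z, hz, hp⟩, ⟨z', hz', hp'⟩⟩
      refine ⟨Sum.elim z z', ?_, ?_⟩
      · rintro (i | i)
        · exact hz i
        · exact hz' i
      · rintro _ (⟨p, hq, rfl⟩ | ⟨p, hq, rfl⟩)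
        · exact hp p hq
        · exact hp' p hq
    · rintro ⟨z, hz, hp⟩
      exact ⟨⟨fun i => z (Sum.inl i), fun i => hz _, fun p hq => hp _ (Or.inl ⟨p, hq, rfl⟩)⟩,
        ⟨fun i => z (Sum.inr i), fun i => hz _, fun p hq => hp _ (Or.inr ⟨p, hq, rfl⟩)⟩⟩

/-- `P P'` for all pairs (the variables of both sets, `0` is in `R`). -/
theorem Dio.union {S T : Set V} (hS : Dio R S) (hT : Dio R T) : Dio R (S ∪ T) := by
  obtain ⟨m, P, hP, hpol, h⟩ := hS
  obtain ⟨m', P', hP', hpol', h'⟩ := hT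
  refine dio_of (ι := Fin m ⊕ Fin m')
    ((fun (q : (V × (Fin m → K) → K) × (V × (Fin m' → K) → K)) (x : V × (Fin m ⊕ Fin m' → K)) =>
      q.1 (x.1, fun i => x.2 (Sum.inl i)) * q.2 (x.1, fun i => x.2 (Sum.inr i))) '' (P ×ˢ P'))
    ((hP.prod hP').image _) ?_ ?_
  · rintro _ ⟨⟨p, p'⟩, ⟨hp, hp'⟩, rfl⟩
    exact Subalgebra.mul_mem _ (polFun_comp (pol_sel Sum.inl) (hpol p hp))
      (polFun_comp (pol_sel Sum.inr) (hpol' p' hp'))
  · intro v
    rw [Set.mem_union, h v, h' v]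
    constructor
    · rintro (⟨z, hz, hp⟩ | ⟨z, hz, hp⟩)
      · refine ⟨Sum.elim z 0, ?_, ?_⟩
        · rintro (i | i)
          · exact hz i
          · exact R.zero_mem
        · rintro _ ⟨⟨p, p'⟩, ⟨hq, hq'⟩, rfl⟩
          have : p (v, z) = 0 := hp p hq
          change p (v, z) * _ = 0
          rw [this, zero_mul]
      · refine ⟨Sum.elim 0 z, ?_, ?_⟩
        · rintro (i | i)
          · exact R.zero_mem
          · exact hz i
        · rintro _ ⟨⟨p, p'⟩, ⟨hq, hq'⟩, rfl⟩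
          have : p' (v, z) = 0 := hp p' hq'
          change _ * p' (v, z) = 0
          rw [this, mul_zero]
    · rintro ⟨z, hz, hp⟩
      by_cases h1 : ∀ p ∈ P, p (v, fun i => z (Sum.inl i)) = 0
      · exact Or.inl ⟨fun i => z (Sum.inl i), fun i => hz _, h1⟩
      · refine Or.inr ⟨fun i => z (Sum.inr i), fun i => hz _, fun p' hq' => ?_⟩
        push Not at h1
        obtain ⟨p, hq, hne⟩ := h1
        exact (mul_eq_zero.1 (hp _ ⟨(p, p'), ⟨hq, hq'⟩, rfl⟩)).resolve_left hne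

theorem Dio.iInter {ι : Type*} [Finite ι] {S : ι → Set V} (hS : ∀ i, Dio R (S i)) :
    Dio R {v | ∀ i, v ∈ S i} := by
  classical
  have := Fintype.ofFinite ι
  have key : ∀ s : Finset ι, Dio R {v | ∀ i ∈ s, v ∈ S i} := by
    intro s
    induction s using Finset.induction_on with
    | empty =>
      have : {v : V | ∀ i ∈ (∅ : Finset ι), v ∈ S i} = Set.univ := by
        ext v; simp
      rw [this]
      exact Dio.univ
    | insert a s _ ih =>
      have : {v : V | ∀ i ∈ insert a s, v ∈ S i} = S a ∩ {v | ∀ i ∈ s, v ∈ S i} := by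
        ext v; simp
      rw [this]
      exact (hS a).inter ih
  simpa using key Finset.univ

theorem Dio.iUnion {ι : Type*} [Finite ι] {S : ι → Set V} (hS : ∀ i, Dio R (S i)) :
    Dio R {v | ∃ i, v ∈ S i} := by
  classical
  have := Fintype.ofFinite ι
  have key : ∀ s : Finset ι, Dio R {v | ∃ i ∈ s, v ∈ S i} := by
    intro s
    induction s using Finset.induction_on with
    | empty =>
      have : {v : V | ∃ i ∈ (∅ : Finset ι), v ∈ S i} = ∅ := by
        ext v; simp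
      rw [this]
      exact Dio.empty
    | insert a s _ ih =>
      have : {v : V | ∃ i ∈ insert a s, v ∈ S i} = S a ∪ {v | ∃ i ∈ s, v ∈ S i} := by
        ext v; simp
      rw [this]
      exact (hS a).union ih
  simpa using key Finset.univ

theorem Dio.preimage {S : Set W} (hS : Dio R S) {φ : V → W} (hφ : IsPol K φ) :
    Dio R {v | φ v ∈ S} := by
  obtain ⟨m, P, hP, hpol, h⟩ := hS
  refine ⟨m, (fun (p : W × (Fin m → K) → K) (x : V × (Fin m → K)) => p (φ x.1, x.2)) '' P,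
    hP.image _, ?_, ?_⟩
  · rintro _ ⟨p, hp, rfl⟩
    exact polFun_comp (φ := fun x : V × (Fin m → K) => (φ x.1, x.2))
      ((hφ.comp IsPol.fst).prodMk IsPol.snd) (hpol p hp)
  · intro v
    rw [Set.mem_ofPred_eq, h (φ v)]
    constructor
    · rintro ⟨z, hz, hp⟩
      refine ⟨z, hz, ?_⟩
      rintro _ ⟨p, hq, rfl⟩
      exact hp p hq
    · rintro ⟨z, hz, hp⟩
      exact ⟨z, hz, fun p hq => hp _ ⟨p, hq, rfl⟩⟩

theorem Dio.eqZero [FiniteDimensional K W] {φ : V → W} (hφ : IsPol K φ) : Dio R {v | φ v = 0} := by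
  let b := Module.finBasis K W
  refine ⟨0, Set.range fun (i : Fin (Module.finrank K W)) (x : V × (Fin 0 → K)) =>
    b.coord i (φ x.1), Set.finite_range _, ?_, ?_⟩
  · rintro _ ⟨i, rfl⟩
    exact (hφ.comp IsPol.fst) (b.coord i)
  · intro v
    rw [Set.mem_ofPred_eq]
    constructor
    · intro h
      refine ⟨fun i => i.elim0, fun i => i.elim0, ?_⟩
      rintro _ ⟨i, rfl⟩
      change b.coord i (φ v) = 0
      rw [h, map_zero]
    · rintro ⟨z, -, hp⟩
      refine b.ext_elem fun i => ?_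
      rw [map_zero]
      exact hp _ ⟨i, rfl⟩

theorem Dio.eq [FiniteDimensional K W] {φ ψ : V → W} (hφ : IsPol K φ) (hψ : IsPol K ψ) :
    Dio R {v | φ v = ψ v} := by
  have h := Dio.eqZero (R := R) (hφ.sub hψ)
  simpa only [sub_eq_zero] using h

/-- Existential quantifier over vectors with coordinates in `R`. -/
theorem Dio.exR {ι : Type*} [Finite ι] {S : Set (V × (ι → K))} (hS : Dio R S) :
    Dio R {v | ∃ w : ι → K, (∀ i, w i ∈ R) ∧ (v, w) ∈ S} := by
  obtain ⟨m, P, hP, hpol, h⟩ := hS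
  refine dio_of (ι := ι ⊕ Fin m)
    ((fun (p : (V × (ι → K)) × (Fin m → K) → K) (x : V × (ι ⊕ Fin m → K)) =>
      p ((x.1, fun i => x.2 (Sum.inl i)), fun i => x.2 (Sum.inr i))) '' P) (hP.image _) ?_ ?_
  · rintro _ ⟨p, hp, rfl⟩
    exact polFun_comp (φ := fun x : V × (ι ⊕ Fin m → K) =>
      ((x.1, fun i => x.2 (Sum.inl i)), fun i => x.2 (Sum.inr i)))
      ((pol_sel Sum.inl).prodMk (IsPol.pi fun k => IsPol.snd.apply (Sum.inr k))) (hpol p hp)
  · intro v
    rw [Set.mem_ofPred_eq]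
    constructor
    · rintro ⟨w, hw, hv⟩
      obtain ⟨z, hz, hp⟩ := (h (v, w)).1 hv
      refine ⟨Sum.elim w z, ?_, ?_⟩
      · rintro (i | i)
        · exact hw i
        · exact hz i
      · rintro _ ⟨p, hq, rfl⟩
        exact hp p hq
    · rintro ⟨z, hz, hp⟩
      exact ⟨fun i => z (Sum.inl i), fun i => hz _, (h _).2
        ⟨fun i => z (Sum.inr i), fun i => hz _, fun p hq => hp _ ⟨p, hq, rfl⟩⟩⟩

/-- The same for an arbitrary basis. -/
theorem Dio.exRb {ι : Type*} [Finite ι] (b : Module.Basis ι K W) {S : Set (V × W)} (hS : Dio R S) :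
    Dio R {v | ∃ w : W, (∀ i, b.repr w i ∈ R) ∧ (v, w) ∈ S} := by
  have h1 := hS.preimage (φ := fun x : V × (ι → K) => (x.1, b.equivFun.symm x.2))
    (IsPol.fst.prodMk ((IsPol.linear (b.equivFun.symm : (ι → K) →ₗ[K] W)).comp IsPol.snd))
  have h2 := h1.exR
  convert h2 using 1
  ext v
  constructor
  · rintro ⟨w, hw, hv⟩
    refine ⟨b.equivFun w, fun i => hw i, ?_⟩
    change (v, b.equivFun.symm (b.equivFun w)) ∈ S
    rwa [LinearEquiv.symm_apply_apply]
  · rintro ⟨c, hc, hv⟩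
    refine ⟨b.equivFun.symm c, fun i => ?_, hv⟩
    have : b.equivFun (b.equivFun.symm c) i = c i := by rw [LinearEquiv.apply_symm_apply]
    rw [Module.Basis.equivFun_apply] at this
    rw [this]
    exact hc i

theorem Dio.memR {φ : V → K} (hφ : IsPol K φ) : Dio R {v | φ v ∈ R} := by
  have h1 : Dio R {x : V × (Unit → K) | φ x.1 = x.2 ()} :=
    Dio.eq (hφ.comp IsPol.fst) (IsPol.snd.apply ())
  have h2 := h1.exR
  convert h2 using 1
  ext v
  constructor
  · intro hv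
    exact ⟨fun _ => φ v, fun _ => hv, rfl⟩
  · rintro ⟨w, hw, hv⟩
    have hv' : φ v = w () := hv
    change φ v ∈ R
    rw [hv']
    exact hw ()

/-- Membership in the lattice `⊕ R b_i`. -/
theorem Dio.memRb {ι : Type*} [Finite ι] (b : Module.Basis ι K W) {φ : V → W} (hφ : IsPol K φ) :
    Dio R {v | ∀ i, b.repr (φ v) i ∈ R} :=
  Dio.iInter (S := fun i => {v | b.repr (φ v) i ∈ R}) fun i =>
    Dio.memR (φ := fun v => b.repr (φ v) i) ((IsPol.linear (b.coord i)).comp hφ)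

/-- Every element of `K` is a fraction of elements of `R`, and `{x ∈ R : x ≠ 0}` is Diophantine. -/
structure GoodR (R : Subring K) : Prop where
  frac : ∀ x : K, ∃ a ∈ R, ∃ b ∈ R, b ≠ 0 ∧ x = a / b
  nz : Dio R {x : K | x ∈ R ∧ x ≠ 0}

/-- A common denominator. -/
private theorem common_den (hR : ∀ x : K, ∃ a ∈ R, ∃ b ∈ R, b ≠ 0 ∧ x = a / b) {ι : Type*}
    [Finite ι] (c : ι → K) : ∃ β ∈ R, β ≠ 0 ∧ ∀ i, β * c i ∈ R := by
  classical
  have := Fintype.ofFinite ι
  have key : ∀ s : Finset ι, ∃ β ∈ R, β ≠ 0 ∧ ∀ i ∈ s, β * c i ∈ R := by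
    intro s
    induction s using Finset.induction_on with
    | empty => exact ⟨1, R.one_mem, one_ne_zero, by simp⟩
    | insert a s _ ih =>
      obtain ⟨β, hβ, hβ0, h⟩ := ih
      obtain ⟨x, hx, y, hy, hy0, hxy⟩ := hR (c a)
      refine ⟨β * y, R.mul_mem hβ hy, mul_ne_zero hβ0 hy0, fun i hi => ?_⟩
      rcases Finset.mem_insert.1 hi with rfl | hi
      · rw [hxy]
        have : β * y * (x / y) = β * x := by field_simp
        rw [this]
        exact R.mul_mem hβ hx
      · have : β * y * c i = y * (β * c i) := by ring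
        rw [this]
        exact R.mul_mem hy (h i hi)
  obtain ⟨β, h1, h2, h3⟩ := key Finset.univ
  exact ⟨β, h1, h2, fun i => h3 i (Finset.mem_univ i)⟩

/-- Existential quantifier over a finite dimensional `K`-vector space: a vector of `K^ι` is `b⁻¹ • x`
with `x` in `R^ι`, `b ∈ R`, `b ≠ 0` (common denominator); homogenise the equations
(`polFun_homog`; the auxiliary variables `z` of `S` belong to the factor `V`). -/
theorem Dio.exK [FiniteDimensional K W] (hR : GoodR R) {S : Set (V × W)} (hS : Dio R S) :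
    Dio R {v | ∃ w : W, (v, w) ∈ S} := by
  obtain ⟨m, P, hP, hpol, h⟩ := hS
  let n := Module.finrank K W
  let b := Module.finBasis K W
  -- the polynomials in the coordinates of `w`
  have hq : ∀ p ∈ P, ∃ (N : ℕ) (p' : ((V × (Fin m → K)) × (Fin n → K)) × K → K),
      p' ∈ polFun K (((V × (Fin m → K)) × (Fin n → K)) × K) ∧
      ∀ (v : V × (Fin m → K)) (x : Fin n → K) (β : K), β ≠ 0 →
        p' ((v, x), β) = β ^ N * p ((v.1, b.equivFun.symm (β⁻¹ • x)), v.2) := by
    intro p hp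
    have h1 : (fun y : (V × (Fin m → K)) × (Fin n → K) =>
        p ((y.1.1, b.equivFun.symm y.2), y.1.2)) ∈ polFun K ((V × (Fin m → K)) × (Fin n → K)) :=
      polFun_comp (φ := fun y : (V × (Fin m → K)) × (Fin n → K) =>
        ((y.1.1, b.equivFun.symm y.2), y.1.2))
        (((IsPol.fst.comp IsPol.fst).prodMk
          ((IsPol.linear (b.equivFun.symm : (Fin n → K) →ₗ[K] W)).comp IsPol.snd)).prodMk
          (IsPol.snd.comp IsPol.fst)) (hpol p hp)
    obtain ⟨N, p', hp', h2⟩ := polFun_homog h1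
    exact ⟨N, p', hp', fun v x β hβ => h2 v x β hβ⟩
  choose! N p' hp' hpp using hq
  -- the set in the variables `v`, `z`, `x`, `β`
  have h3 : Dio R {y : V × ((Fin m ⊕ Fin n) ⊕ Unit → K) | (y.2 (Sum.inr ()) ∈ R ∧
      y.2 (Sum.inr ()) ≠ 0) ∧ ∀ p : P, p' p.1 (((y.1, fun i => y.2 (Sum.inl (Sum.inl i))),
        fun i => y.2 (Sum.inl (Sum.inr i))), y.2 (Sum.inr ())) = 0} := by
    have : Finite P := hP
    refine Dio.inter (hR.nz.preimage (φ := fun y : V × ((Fin m ⊕ Fin n) ⊕ Unit → K) =>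
      y.2 (Sum.inr ())) (IsPol.snd.apply _)) ?_
    refine Dio.iInter (S := fun p : P => {y : V × ((Fin m ⊕ Fin n) ⊕ Unit → K) |
      p' p.1 (((y.1, fun i => y.2 (Sum.inl (Sum.inl i))),
        fun i => y.2 (Sum.inl (Sum.inr i))), y.2 (Sum.inr ())) = 0}) fun p => ?_
    refine Dio.eqZero (W := K) (isPol_iff.2 ?_)
    exact polFun_comp (φ := fun y : V × ((Fin m ⊕ Fin n) ⊕ Unit → K) =>
      (((y.1, fun i => y.2 (Sum.inl (Sum.inl i))),
        fun i => y.2 (Sum.inl (Sum.inr i))), y.2 (Sum.inr ())))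
      (((pol_sel fun i => Sum.inl (Sum.inl i)).prodMk
        (IsPol.pi fun k => IsPol.snd.apply (Sum.inl (Sum.inr k)))).prodMk (IsPol.snd.apply _))
      (hp' p.1 p.2)
  have h4 := h3.exR
  convert h4 using 1
  ext v
  constructor
  · rintro ⟨w, hw⟩
    obtain ⟨z, hz, hp⟩ := (h (v, w)).1 hw
    obtain ⟨β, hβ, hβ0, hβc⟩ := common_den hR.frac (b.equivFun w)
    refine ⟨Sum.elim (Sum.elim z (β • b.equivFun w)) fun _ => β, ?_, ⟨hβ, hβ0⟩, fun p => ?_⟩
    · rintro ((i | i) | i)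
      · exact hz i
      · exact hβc i
      · exact hβ
    · have h5 := hpp p.1 p.2 (v, z) (β • b.equivFun w) β hβ0
      rw [smul_smul, inv_mul_cancel₀ hβ0, one_smul, LinearEquiv.symm_apply_apply] at h5
      change p' p.1 (((v, z), β • b.equivFun w), β) = 0
      rw [h5]
      have h6 : p.1 ((v, w), z) = 0 := hp p.1 p.2
      rw [h6, mul_zero]
  · rintro ⟨y, hy, ⟨hβ, hβ0⟩, hp⟩
    refine ⟨b.equivFun.symm ((y (Sum.inr ()))⁻¹ • fun i => y (Sum.inl (Sum.inr i))), (h _).2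
      ⟨fun i => y (Sum.inl (Sum.inl i)), fun i => hy _, fun p hq => ?_⟩⟩
    have h5 := hpp p hq (v, fun i => y (Sum.inl (Sum.inl i))) (fun i => y (Sum.inl (Sum.inr i)))
      (y (Sum.inr ())) hβ0
    have h6 := hp ⟨p, hq⟩
    change p' p (((v, fun i => y (Sum.inl (Sum.inl i))), fun i => y (Sum.inl (Sum.inr i))),
      y (Sum.inr ())) = 0 at h6
    rw [h6] at h5
    exact (mul_eq_zero.1 h5.symm).resolve_left (pow_ne_zero _ hβ0)

/-- `φ v ≠ 0` iff some coordinate `c` of `φ v` has an inverse. -/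
theorem Dio.ne [FiniteDimensional K W] (hR : GoodR R) {φ : V → W} (hφ : IsPol K φ) :
    Dio R {v | φ v ≠ 0} := by
  let b := Module.finBasis K W
  have h1 : ∀ i, Dio R {v | ∃ y : K, b.coord i (φ v) * y = 1} := fun i =>
    Dio.exK (W := K) hR (S := {x : V × K | b.coord i (φ x.1) * x.2 = 1})
      (Dio.eq (W := K) ((((IsPol.linear (b.coord i)).comp (hφ.comp IsPol.fst))).mul IsPol.snd)
        (IsPol.const 1))
  have h2 := Dio.iUnion h1
  convert h2 using 1
  ext v
  constructor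
  · intro hv
    by_contra hne
    refine hv (b.ext_elem fun i => ?_)
    rw [map_zero]
    by_contra h3
    exact hne ⟨i, (b.coord i (φ v))⁻¹, mul_inv_cancel₀ h3⟩
  · rintro ⟨i, y, hy⟩ h0
    rw [h0, map_zero, zero_mul] at hy
    exact zero_ne_one hy

private theorem eval_pol {m : ℕ} (F : MvPolynomial (Fin (m + 1)) K) :
    (fun y : K × (Fin m → K) => MvPolynomial.eval (Fin.cons y.1 y.2) F) ∈
      polFun K (K × (Fin m → K)) := by
  have hX : ∀ i : Fin (m + 1), (fun y : K × (Fin m → K) => (Fin.cons y.1 y.2 : Fin (m + 1) → K) i) ∈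
      polFun K (K × (Fin m → K)) := by
    intro i
    refine isPol_iff.1 ?_
    refine Fin.cases ?_ (fun j => ?_) i
    · exact IsPol.fst
    · exact IsPol.snd.apply j
  induction F using MvPolynomial.induction_on with
  | C a =>
    simp only [MvPolynomial.eval_C]
    exact Subalgebra.algebraMap_mem _ a
  | add p q hp hq =>
    simp only [map_add]
    exact Subalgebra.add_mem _ hp hq
  | mul_X p i hp =>
    simp only [map_mul, MvPolynomial.eval_X]
    exact Subalgebra.mul_mem _ hp (hX i)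

/-- The polynomials of a Diophantine set over a subfield, in the big field. -/
private theorem trans_aux {K₀ : Type*} [Field K₀] [Algebra K₀ K] {R₀ : Subring K₀}
    (hR : Dio R {x : K | ∃ y ∈ R₀, algebraMap K₀ K y = x}) {S : Set K₀} (hSR : ∀ s ∈ S, s ∈ R₀)
    (hS : Dio R₀ S) : ∃ (m : ℕ) (T : Set (K × (Fin m → K))), Dio R T ∧
      (∀ x w, (x, w) ∈ T → ∀ i, ∃ y ∈ R₀, algebraMap K₀ K y = w i) ∧
      ∀ x, (∃ y ∈ S, algebraMap K₀ K y = x) ↔ ∃ w, (x, w) ∈ T := by
  obtain ⟨m, P, hP, hpol, h⟩ := hS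
  have hF : ∀ p ∈ P, ∃ f : MvPolynomial (Fin (m + 1)) K₀, ∀ (x : K₀) (z : Fin m → K₀),
      MvPolynomial.eval (Fin.cons x z) f = p (x, z) := fun p hp => polFun_mvPolynomial (hpol p hp)
  choose! f hf using hF
  have hev : ∀ p ∈ P, ∀ (x : K₀) (z : Fin m → K₀), MvPolynomial.eval
      (Fin.cons (algebraMap K₀ K x) (fun i => algebraMap K₀ K (z i)))
      (MvPolynomial.map (algebraMap K₀ K) (f p)) = algebraMap K₀ K (p (x, z)) := by
    intro p hp x z
    rw [← hf p hp x z, MvPolynomial.eval₂_comp, MvPolynomial.eval_map]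
    congr 1
    funext i
    refine Fin.cases ?_ (fun j => ?_) i
    · simp
    · simp
  have hPf : Finite P := hP
  refine ⟨m, {x : K × (Fin m → K) | x.1 ∈ {x : K | ∃ y ∈ R₀, algebraMap K₀ K y = x}} ∩
    ({x : K × (Fin m → K) | ∀ i, x.2 i ∈ {x : K | ∃ y ∈ R₀, algebraMap K₀ K y = x}} ∩
      {x : K × (Fin m → K) | ∀ p : P, MvPolynomial.eval (Fin.cons x.1 x.2)
        (MvPolynomial.map (algebraMap K₀ K) (f p.1)) = 0}), ?_, ?_, ?_⟩
  · refine (hR.preimage IsPol.fst).inter (Dio.inter ?_ ?_)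
    · exact Dio.iInter (S := fun i => {x : K × (Fin m → K) |
        x.2 i ∈ {x : K | ∃ y ∈ R₀, algebraMap K₀ K y = x}}) fun i =>
          hR.preimage (φ := fun x : K × (Fin m → K) => x.2 i) (IsPol.snd.apply i)
    · refine Dio.iInter (S := fun p : P => {x : K × (Fin m → K) |
        MvPolynomial.eval (Fin.cons x.1 x.2)
          (MvPolynomial.map (algebraMap K₀ K) (f p.1)) = 0}) fun p => ?_
      exact Dio.eqZero (W := K) (isPol_iff.2 (eval_pol _))
  · rintro x w ⟨-, h2, -⟩ i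
    exact h2 i
  · intro x
    constructor
    · rintro ⟨y, hy, rfl⟩
      obtain ⟨z, hz, hp⟩ := (h y).1 hy
      refine ⟨fun i => algebraMap K₀ K (z i), ⟨y, hSR y hy, rfl⟩, fun i => ⟨z i, hz i, rfl⟩,
        fun p => ?_⟩
      have h1 := hev p.1 p.2 y z
      rw [hp p.1 p.2, map_zero] at h1
      exact h1
    · rintro ⟨w, ⟨y, hy, hyx⟩, hw, hp⟩
      have hyx' : algebraMap K₀ K y = x := hyx
      have hw' : ∀ i, ∃ z ∈ R₀, algebraMap K₀ K z = w i := hw
      choose z hz hzw using hw'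
      refine ⟨y, (h y).2 ⟨z, hz, fun p hq => ?_⟩, hyx'⟩
      have h1 := hev p hq y z
      have h2 := hp ⟨p, hq⟩
      change MvPolynomial.eval (Fin.cons x w) (MvPolynomial.map (algebraMap K₀ K) (f p)) = 0 at h2
      have h3 : (fun i => algebraMap K₀ K (z i)) = w := funext hzw
      rw [h3, hyx', h2] at h1
      exact (map_eq_zero (algebraMap K₀ K)).1 h1.symm

/-- Transitivity: `K₀ → K` fields, `R₀ ⊆ K₀`, `R ⊆ K`, the image of `R₀` in `K` is contained in `R`
and Diophantine over `R`; a subset of `R₀` which is Diophantine over `R₀` has an image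
Diophantine over `R`. -/
theorem Dio.trans {K₀ : Type*} [Field K₀] [Algebra K₀ K] {R₀ : Subring K₀}
    (hsub : ∀ y ∈ R₀, algebraMap K₀ K y ∈ R)
    (hR : Dio R {x : K | ∃ y ∈ R₀, algebraMap K₀ K y = x}) {S : Set K₀} (hSR : ∀ s ∈ S, s ∈ R₀)
    (hS : Dio R₀ S) : Dio R {x : K | ∃ y ∈ S, algebraMap K₀ K y = x} := by
  obtain ⟨m, T, hT, h1, h2⟩ := trans_aux hR hSR hS
  have h3 := hT.exR
  convert h3 using 1
  ext x
  refine (h2 x).trans ⟨?_, ?_⟩
  · rintro ⟨w, hw⟩
    refine ⟨w, fun i => ?_, hw⟩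
    obtain ⟨y, hy, hyw⟩ := h1 x w hw i
    rw [← hyw]
    exact hsub y hy
  · rintro ⟨w, -, hw⟩
    exact ⟨w, hw⟩

/-- Transitivity, second form: `R` is good. -/
theorem Dio.trans' {K₀ : Type*} [Field K₀] [Algebra K₀ K] {R₀ : Subring K₀} (hG : GoodR R)
    (hR : Dio R {x : K | ∃ y ∈ R₀, algebraMap K₀ K y = x}) {S : Set K₀} (hSR : ∀ s ∈ S, s ∈ R₀)
    (hS : Dio R₀ S) : Dio R {x : K | ∃ y ∈ S, algebraMap K₀ K y = x} := by
  obtain ⟨m, T, hT, -, h2⟩ := trans_aux hR hSR hS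
  have h3 := hT.exK hG
  convert h3 using 1
  ext x
  exact h2 x

end Pool.Agent.Lib.MP_673eb1_lc
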