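import Pool.Agent.Lib.MP_673eb1_lc.Defs

/-!
MP_673eb1_lc, block PD, file A (helper31): basic facts on `PR D S` and `QR D a`; the Frobenius law.
-/

set_option autoImplicit false

open scoped BigOperators

namespace Pool.Agent.Lib.MP_673eb1_lc

variable {h f : ℕ} [Fact h.Prime] (D : PerData h f)

namespace PR

section basic

variable {S : Type*} [CommRing S]

theorem sh_algebraMap (r : S) : sh D (algebraMap S (PR D S) r) = algebraMap S (PR D S) r := by
  ext c
  simp

theorem sh_iterate (i : ℕ) (x : PR D S) (c : ZMod h) : (sh D)^[i] x c = x (c - i) := by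
  induction i generalizing x with
  | zero => simp
  | succ i ih =>
    rw [Function.iterate_succ_apply, ih]
    simp only [sh_apply]
    congr 1
    push_cast
    ring

theorem sh_iterate_add (i : ℕ) (x y : PR D S) :
    (sh D)^[i] (x + y) = (sh D)^[i] x + (sh D)^[i] y := by
  ext c
  simp only [sh_iterate, add_apply]

theorem sh_iterate_mul (i : ℕ) (x y : PR D S) :
    (sh D)^[i] (x * y) = (sh D)^[i] x * (sh D)^[i] y := by
  induction i with
  | zero => rfl
  | succ i ih => rw [Function.iterate_succ_apply', Function.iterate_succ_apply',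
      Function.iterate_succ_apply', ih, map_mul]

theorem sh_iterate_h (x : PR D S) : (sh D)^[h] x = x := by
  ext c
  rw [sh_iterate]
  simp

theorem sh_iterate_mod (i j : ℕ) (hij : (i : ZMod h) = j) (x : PR D S) :
    (sh D)^[i] x = (sh D)^[j] x := by
  ext c
  rw [sh_iterate, sh_iterate, hij]

theorem map_sh {S' : Type*} [CommRing S'] (φ : S →+* S') (x : PR D S) :
    map D φ (sh D x) = sh D (map D φ x) := rfl

theorem map_algebraMap {S' : Type*} [CommRing S'] (φ : S →+* S') (r : S) :
    map D φ (algebraMap S (PR D S) r) = algebraMap S' (PR D S') (φ r) := by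
  ext c
  simp

theorem map_e {S' : Type*} [CommRing S'] (φ : S →+* S') (c : ZMod h) :
    map D φ (e D c) = e D c := by
  ext k
  simp only [map_apply, e_apply]
  split_ifs <;> simp

theorem sh_e (c : ZMod h) : sh D (e D c : PR D S) = e D (c + 1) := by
  ext k
  simp only [sh_apply, e_apply]
  congr 1
  rw [eq_iff_iff]
  constructor
  · intro hk
    rw [← hk]
    ring
  · intro hk
    rw [hk]
    ring

theorem sum_apply {ι : Type*} (s : Finset ι) (x : ι → PR D S) (c : ZMod h) :
    (∑ i ∈ s, x i) c = ∑ i ∈ s, x i c := by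
  classical
  induction s using Finset.induction_on with
  | empty => simp
  | insert a s ha ih => rw [Finset.sum_insert ha, Finset.sum_insert ha, add_apply, ih]

theorem eq_sum (x : PR D S) : x = ∑ c, x c • e D c := by
  ext k
  rw [sum_apply]
  simp

theorem smul_eq_mul (r : S) (x : PR D S) : r • x = algebraMap S (PR D S) r * x :=
  Algebra.smul_def r x

theorem natCast_mul_apply (n : ℕ) (x : PR D S) (c : ZMod h) : ((n : PR D S) * x) c = n * x c := by
  rw [← map_natCast (algebraMap S (PR D S)) n, ← Algebra.smul_def, smul_apply]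

/-- the fixed points of `σ` -/
theorem fixed (x : PR D S) (hx : sh D x = x) : x = algebraMap S (PR D S) (-x 0) := by
  have h1 : ∀ n : ℕ, x (n : ZMod h) = x 0 := by
    intro n
    induction n with
    | zero => simp
    | succ n ih =>
      have := congrFun hx ((n : ZMod h) + 1)
      change sh D x ((n : ZMod h) + 1) = x ((n : ZMod h) + 1) at this
      rw [sh_apply, add_sub_cancel_right] at this
      push_cast
      rw [← this, ih]
  ext c
  rw [algebraMap_apply, neg_neg]
  have := h1 c.val
  rwa [ZMod.natCast_zmod_val] at this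

theorem algebraMap_inj {r s : S} (hrs : algebraMap S (PR D S) r = algebraMap S (PR D S) s) :
    r = s := by
  have := congrFun hrs 0
  change (algebraMap S (PR D S) r) 0 = (algebraMap S (PR D S) s) 0 at this
  simpa using this

instance [Nontrivial S] : Nontrivial (PR D S) :=
  ⟨0, 1, fun h0 => by
    have := algebraMap_inj D (r := (0 : S)) (s := 1) (by rw [map_zero, map_one, h0])
    exact zero_ne_one this⟩

end basic

/-- The ring homomorphism `PR D ℤ → ℝ`. -/
noncomputable def toReal : PR D ℤ →+* ℝ where
  toFun x := ∑ c, (x c : ℝ) * D.η c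
  map_zero' := by simp
  map_one' := by
    have : ∑ c, (((1 : PR D ℤ) c : ℤ) : ℝ) * D.η c = - ∑ c, D.η c := by
      rw [← Finset.sum_neg_distrib]
      refine Finset.sum_congr rfl fun c _ => ?_
      simp
    rw [this, D.sum_η, neg_neg]
  map_add' x y := by
    rw [← Finset.sum_add_distrib]
    refine Finset.sum_congr rfl fun c _ => ?_
    rw [add_apply]
    push_cast
    ring
  map_mul' x y := by
    rw [Finset.sum_mul_sum]
    have h1 : ∀ c c' : ZMod h, (x c : ℝ) * D.η c * ((y c' : ℝ) * D.η c')
        = ∑ k, (x c : ℝ) * y c' * ((D.m c c' k : ℝ) * D.η k) := by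
      intro c c'
      rw [← Finset.mul_sum, ← D.mul_η]
      ring
    simp_rw [h1]
    have h2 : ∀ k, (((x * y) k : ℤ) : ℝ) * D.η k
        = ∑ c, ∑ c', (x c : ℝ) * y c' * ((D.m c c' k : ℝ) * D.η k) := by
      intro k
      rw [mul_apply]
      push_cast
      rw [Finset.sum_mul]
      refine Finset.sum_congr rfl fun c _ => ?_
      rw [Finset.sum_mul]
      refine Finset.sum_congr rfl fun c' _ => ?_
      ring
    simp_rw [h2]
    rw [Finset.sum_comm]
    refine Finset.sum_congr rfl fun c _ => ?_
    rw [Finset.sum_comm]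

theorem toReal_apply (x : PR D ℤ) : toReal D x = ∑ c, (x c : ℝ) * D.η c := rfl

theorem toReal_injective : Function.Injective (toReal D) := by
  intro x y hxy
  rw [toReal_apply, toReal_apply] at hxy
  exact int_eq_of_sum D x y hxy

theorem toReal_e (c : ZMod h) : toReal D (e D c) = D.η c := by
  rw [toReal_apply]
  simp

/-- The Frobenius law for the integral periods. -/
theorem frob_int (p : ℕ) (hp : p.Prime) (hpf : p ≠ f) (c : ZMod h) :
    ∃ d : PR D ℤ, (e D c : PR D ℤ) ^ p = e D (c + D.ind p) + (p : PR D ℤ) * d := by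
  obtain ⟨d, hd⟩ := D.frob p hp hpf c
  refine ⟨d, ?_⟩
  apply toReal_injective D
  rw [map_pow, map_add, map_mul, toReal_e, toReal_e, map_natCast, hd, toReal_apply]

section charp

variable {S : Type*} [CommRing S]

theorem frob_e (p : ℕ) (hp : p.Prime) (hpf : p ≠ f) [CharP S p] (c : ZMod h) :
    (e D c : PR D S) ^ p = e D (c + D.ind p) := by
  obtain ⟨d, hd⟩ := frob_int D p hp hpf c
  have h1 := congrArg (map D (Int.castRingHom S)) hd
  rw [map_pow, map_add, map_mul, map_e, map_e, map_natCast] at h1
  rw [h1]
  have h2 : (p : PR D S) = 0 := by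
    rw [← map_natCast (algebraMap S (PR D S)) p, CharP.cast_eq_zero, map_zero]
  rw [h2, zero_mul, add_zero]

theorem charP (p : ℕ) [CharP S p] : CharP (PR D S) p := by
  constructor
  intro n
  rw [← CharP.cast_eq_zero_iff S p n]
  have h1 : (n : PR D S) = algebraMap S (PR D S) n := (map_natCast (algebraMap S (PR D S)) n).symm
  constructor
  · intro h0
    rw [h1] at h0
    exact algebraMap_inj D (by rw [h0, map_zero])
  · intro h0
    rw [h1, h0, map_zero]

/-- The Frobenius law in characteristic `p`. -/
theorem pow_char (p : ℕ) (hp : p.Prime) (hpf : p ≠ f) [CharP S p] (x : PR D S) (k : ZMod h) :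
    (x ^ p) k = (x (k - D.ind p)) ^ p := by
  have : Fact p.Prime := ⟨hp⟩
  have hc : CharP (PR D S) p := charP D p
  have h1 : x ^ p = ∑ c, (x c) ^ p • e D (c + D.ind p) := by
    conv_lhs => rw [eq_sum D x]
    rw [sum_pow_char]
    refine Finset.sum_congr rfl fun c _ => ?_
    rw [smul_pow, frob_e D p hp hpf]
  rw [h1, sum_apply]
  rw [Finset.sum_eq_single (k - D.ind p)]
  · simp
  · intro b _ hb
    rw [smul_apply, e_apply, if_neg, mul_zero]
    intro hk
    apply hb
    rw [hk]
    ring
  · intro hk
    exact absurd (Finset.mem_univ _) hk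

theorem pow_char_pow (p : ℕ) (hp : p.Prime) (hpf : p ≠ f) [CharP S p] (n : ℕ) (x : PR D S)
    (k : ZMod h) : (x ^ p ^ n) k = (x (k - n * D.ind p)) ^ p ^ n := by
  induction n generalizing x k with
  | zero => simp
  | succ n ih =>
    have e1 : x ^ p ^ (n + 1) = (x ^ p ^ n) ^ p := by rw [pow_succ, pow_mul]
    have e2 : k - D.ind p - (n : ZMod h) * D.ind p = k - ((n + 1 : ℕ) : ZMod h) * D.ind p := by
      push_cast
      ring
    rw [e1, pow_char D p hp hpf, ih, e2, ← pow_mul, ← pow_succ]

end charp

end PR

/-- `ind` of a power. -/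
theorem ind_one : D.ind 1 = 0 := by
  have h1 := D.ind_mul 1 1 (Nat.coprime_one_left f) (Nat.coprime_one_left f)
  rw [mul_one] at h1
  exact left_eq_add.1 h1

theorem ind_pow (a : ℕ) (ha : a.Coprime f) (n : ℕ) : D.ind (a ^ n) = n * D.ind a := by
  induction n with
  | zero => rw [pow_zero, ind_one, Nat.cast_zero, zero_mul]
  | succ n ih =>
    rw [pow_succ, D.ind_mul _ _ (Nat.Coprime.pow_left n ha) ha, ih]
    push_cast
    ring

section finite

variable (k : Type*) [Field k] [Fintype k]

/-- The Frobenius law over a finite field. -/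
theorem PR.pow_card (hN : (Fintype.card k).Coprime f) (x : PR D k) :
    x ^ Fintype.card k = (PR.sh D)^[(D.ind (Fintype.card k)).val] x := by
  obtain ⟨p, hp⟩ := CharP.exists k
  obtain ⟨n, hpp, hn⟩ := FiniteField.card k p
  have hpf : p ≠ f := by
    rintro rfl
    rw [hn] at hN
    have h1 := Nat.Coprime.coprime_dvd_left (dvd_pow_self p n.pos.ne') hN
    rw [Nat.coprime_self] at h1
    exact hpp.ne_one h1
  have hcop : p.Coprime f := (Nat.coprime_primes hpp D.hf).2 hpf
  ext c
  rw [PR.sh_iterate, ZMod.natCast_zmod_val, hn, PR.pow_char_pow D p hpp hpf,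
    ind_pow D p hcop]
  rw [← hn, FiniteField.pow_card]

end finite

end Pool.Agent.Lib.MP_673eb1_lc
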