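import Mathlib

/-!
MP_673eb1_lc: the ring `Wring K W` of `W`-integers and Diophantine sets over a subring `R` of a
field `K`, in a coordinate free form: `Dio R S` for a set `S` of vectors of a `K`-vector space `V`
(in the applications `V` is a product of copies of `K` and of finite `K`-algebras).
-/

set_option autoImplicit false

open NumberField IsDedekindDomain

namespace Pool.Agent.Lib.MP_673eb1_lc

section Wring

variable (K : Type) [Field K] [NumberField K]

/-- The ring of `W`-integers: `v(x) ≥ 0` for all `v ∉ W`. -/
def Wring (W : Set (HeightOneSpectrum (𝓞 K))) : Subring K where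
  carrier := {x | ∀ v ∉ W, v.valuation K x ≤ 1}
  mul_mem' {x y} hx hy v hv := by
    rw [map_mul]
    exact mul_le_one' (hx v hv) (hy v hv)
  one_mem' v _ := by rw [map_one]
  add_mem' {x y} hx hy v hv :=
    ((v.valuation K).map_add x y).trans (max_le (hx v hv) (hy v hv))
  zero_mem' v _ := by
    rw [map_zero]
    exact zero_le_one
  neg_mem' {x} hx v hv := by
    rw [Valuation.map_neg]
    exact hx v hv

end Wring

section Dio

variable (K : Type*) [Field K]

/-- Polynomial functions `V → K`: the algebra generated by the linear functionals. -/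
def polFun (V : Type*) [AddCommGroup V] [Module K V] : Subalgebra K (V → K) :=
  Algebra.adjoin K (Set.range fun l : V →ₗ[K] K => (l : V → K))

/-- Polynomial maps between `K`-vector spaces. -/
def IsPol {V W : Type*} [AddCommGroup V] [Module K V] [AddCommGroup W] [Module K W]
    (φ : V → W) : Prop :=
  ∀ l : W →ₗ[K] K, (fun v => l (φ v)) ∈ polFun K V

variable {K}

/-- `S ⊆ V` is Diophantine over the subring `R` of `K`: it is the projection of the set of points
of `V × R^m` satisfying finitely many polynomial equations over `K`. -/
def Dio (R : Subring K) {V : Type*} [AddCommGroup V] [Module K V] (S : Set V) : Prop :=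
  ∃ (m : ℕ) (P : Set (V × (Fin m → K) → K)), P.Finite ∧ (∀ p ∈ P, p ∈ polFun K (V × (Fin m → K))) ∧
    ∀ v, v ∈ S ↔ ∃ z : Fin m → K, (∀ i, z i ∈ R) ∧ ∀ p ∈ P, p (v, z) = 0

end Dio

end Pool.Agent.Lib.MP_673eb1_lc
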