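import Pool.Agent.Lib.MP_673eb1_lc.Defs
import Pool.Agent.Lib.MP_673eb1_lc.DefsDio
import Pool.Agent.Lib.ZD.Split

/-!
MP_673eb1_lc: the interface between the main theorem (totally real fields) and the CM step / the
final assembly.
-/

set_option autoImplicit false

open NumberField IsDedekindDomain Pool.Agent.ZD

namespace Pool.Agent.Lib.MP_673eb1_lc

/-- `v` is good for the period data `D`: not above `f` and of nonzero index (so `v` is inert in
`K(periods)`). -/
def Inert {h f : ℕ} [Fact h.Prime] (D : PerData h f) {K : Type} [Field K] [NumberField K]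
    (v : HeightOneSpectrum (𝓞 K)) : Prop :=
  ((f : ℕ) : 𝓞 K) ∉ v.asIdeal ∧ D.ind (nm v) ≠ 0

/-- `v` has degree one over `ℚ`, is unramified over `ℚ`, and its norm is `1` modulo `4`. -/
def Deg1 {K : Type} [Field K] [NumberField K] (v : HeightOneSpectrum (𝓞 K)) : Prop :=
  (nm v).Prime ∧ nm v % 4 = 1 ∧ v.valuation K ((nm v : ℕ) : K) = WithZero.exp (-1 : ℤ)

/-- **Theorem TR** (the main theorem, `K` totally real). `K'` is an auxiliary finite extension of `K`
in which the inverted primes `p i` are required to have only primes of degree one above them. For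
every `ε > 0` there are `h > 1/ε`, period data `D`, a finite set `B` and three primes `p i` such that
for EVERY set `W` of primes which contains the `p i` and otherwise only consists of primes outside `B`
which are inert for `D`, the set `ℤ` is Diophantine over `Wring K W`. -/
def S_TR : Prop :=
  ∀ (K : Type) [Field K] [NumberField K] [IsTotallyReal K]
    (K' : Type) [Field K'] [NumberField K'] [Algebra K K'] [IsGalois K K'] (ε : ℝ), 0 < ε →
    ∃ (h f : ℕ) (_ : Fact h.Prime) (D : PerData h f) (B : Set (HeightOneSpectrum (𝓞 K)))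
      (p : Fin 3 → HeightOneSpectrum (𝓞 K)),
      1 / (h : ℝ) < ε ∧ Module.finrank ℚ K' < h ∧ B.Finite ∧ Function.Injective p ∧
      (∀ i, Deg1 (p i) ∧ D.ind (nm (p i)) = 0 ∧ ((f : ℕ) : 𝓞 K) ∉ (p i).asIdeal ∧
        ∀ w ∈ abv K' (p i), Deg1 w) ∧
      (∀ v : HeightOneSpectrum (𝓞 K), ((2 : ℕ) : 𝓞 K) ∈ v.asIdeal → v ∈ B) ∧
      ∀ W : Set (HeightOneSpectrum (𝓞 K)), (∀ i, p i ∈ W) →
        (∀ v ∈ W, (∃ i, v = p i) ∨ (v ∉ B ∧ Inert D v)) →
        Dio (Wring K W) {x : K | ∃ m : ℤ, (m : K) = x}

end Pool.Agent.Lib.MP_673eb1_lc
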