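import Pool.Agent.Lib.MP_673eb1_lc.PDFr

/-!
MP_673eb1_lc, block PD, file G (helper31): the frame `L = QR D (-1 : K)` for a totally real field `K`.
-/

set_option autoImplicit false

open scoped BigOperators
open NumberField IsDedekindDomain Pool.Agent.ZD Pool.Agent.ZT Pool.Agent.C50

namespace Pool.Agent.Lib.MP_673eb1_lc

variable {h f : ℕ} [Fact h.Prime] (D : PerData h f) (K : Type) [Field K] [NumberField K]

/-- A nonzero element of `LL D K` is a unit. -/
theorem LL.exists_inv [IsTotallyReal K] (hK : Module.finrank ℚ K < h) (x : LL D K) (hx : x ≠ 0) :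
    ∃ y : LL D K, x * y = 1 := by
  let := PR.field D K hK
  obtain ⟨p, r⟩ := x
  have hN : p ^ 2 + r ^ 2 ≠ 0 := by
    intro h0
    by_cases hi : r = 0
    · rw [hi] at h0
      have h1 : p = 0 := by
        have h2 : p ^ 2 = 0 := by
          linear_combination h0
        exact pow_eq_zero_iff (two_ne_zero) |>.1 h2
      exact hx (QuadraticAlgebra.ext h1 hi)
    · have h1 : (p / r) ^ 2 = -1 := by
        rw [div_pow, div_eq_iff (pow_ne_zero 2 hi)]
        linear_combination h0
      refine PR.not_sq D (p / r) ?_
      rw [h1, map_neg, map_one, zero_mul, add_zero]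
  obtain ⟨u, hu⟩ := PR.exists_inv D K hK _ hN
  have h3 : algebraMap K (PR D K) (-1) = -1 := by rw [map_neg, map_one]
  refine ⟨⟨p * u, -r * u⟩, ?_⟩
  refine QuadraticAlgebra.ext ?_ ?_
  · rw [QuadraticAlgebra.re_mul]
    change p * (p * u) + algebraMap K (PR D K) (-1) * r * (-r * u) = 1
    linear_combination hu + r * (-r * u) * h3
  · rw [QuadraticAlgebra.im_mul]
    change p * (-r * u) + r * (p * u) + 0 * r * (-r * u) = 0
    ring

open Classical in
/-- The field structure on `LL D K`. -/
noncomputable abbrev LL.field [IsTotallyReal K] (hK : Module.finrank ℚ K < h) : Field (LL D K) :=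
  { (inferInstance : CommRing (LL D K)) with
    inv := fun x => if hx : x = 0 then 0 else Classical.choose (LL.exists_inv D K hK x hx)
    exists_pair_ne := ⟨0, 1, fun h0 => zero_ne_one (α := PR D K)
      (congrArg QuadraticAlgebra.re h0)⟩
    mul_inv_cancel := fun x hx => by
      change x * (if hx : x = 0 then 0 else Classical.choose (LL.exists_inv D K hK x hx)) = 1
      rw [dif_neg hx]
      exact Classical.choose_spec (LL.exists_inv D K hK x hx)
    inv_zero := by
      change (if hx : (0 : LL D K) = 0 then 0 else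
        Classical.choose (LL.exists_inv D K hK 0 hx)) = 0
      rw [dif_pos rfl]
    nnqsmul := _
    nnqsmul_def := fun _ _ => rfl
    qsmul := _
    qsmul_def := fun _ _ => rfl }

/-- `LL D K` as a module. -/
def LL.lin : LL D K ≃ₗ[K] (ZMod h → K) × (ZMod h → K) where
  toFun x := (x.re, x.im)
  invFun x := ⟨x.1, x.2⟩
  left_inv x := rfl
  right_inv x := rfl
  map_add' x y := rfl
  map_smul' r x := rfl

theorem LL.finrank : Module.finrank K (LL D K) = 2 * h := by
  rw [(LL.lin D K).finrank_eq, Module.finrank_prod, Module.finrank_fintype_fun_eq_card,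
    ZMod.card]
  ring

instance LL.finite : Module.Finite K (LL D K) := Module.Finite.equiv (LL.lin D K).symm

/-- `PR D K` as a module. -/
def PR.lin : PR D K ≃ₗ[K] (ZMod h → K) where
  toFun x := x
  invFun x := x
  left_inv x := rfl
  right_inv x := rfl
  map_add' x y := rfl
  map_smul' r x := rfl

theorem PR.finrank : Module.finrank K (PR D K) = h := by
  rw [(PR.lin D K).finrank_eq, Module.finrank_fintype_fun_eq_card, ZMod.card]

instance PR.finite : Module.Finite K (PR D K) := Module.Finite.equiv (PR.lin D K).symm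

section frame

variable {K} {L : Type} [Field L] [NumberField L] [Algebra K L] (e : LL D K ≃ₐ[K] L)

/-- The Galois group of `L`. -/
noncomputable def galE (x : Fin h × Bool) : L ≃ₐ[K] L := AlgEquiv.autCongr e (LL.gal D K x)

theorem galE_injective : Function.Injective (galE D e) :=
  (AlgEquiv.autCongr e).injective.comp (LL.gal_injective D K)

include e in
theorem finrank_of_equiv : Module.finrank K L = 2 * h := by
  rw [← e.toLinearEquiv.finrank_eq, LL.finrank]

include e in
theorem card_of_equiv : Nat.card (L ≃ₐ[K] L) = 2 * h := by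
  apply le_antisymm
  · rw [Nat.card_eq_fintype_card, ← finrank_of_equiv D e]
    exact AlgEquiv.card_le
  · have h1 := Nat.card_le_card_of_injective _ (galE_injective D e)
    rw [Nat.card_prod, Nat.card_eq_fintype_card, Nat.card_eq_fintype_card, Fintype.card_fin,
      Fintype.card_bool] at h1
    omega

include e in
theorem isGalois_of_equiv : IsGalois K L := by
  apply IsGalois.of_card_aut_eq_finrank
  rw [card_of_equiv D e, finrank_of_equiv D e]

theorem galE_surjective : Function.Surjective (galE D e) := by
  refine ((Fintype.bijective_iff_injective_and_card _).2 ⟨galE_injective D e, ?_⟩).2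
  rw [← Nat.card_eq_fintype_card, ← Nat.card_eq_fintype_card, card_of_equiv D e,
    Nat.card_eq_fintype_card, Fintype.card_prod, Fintype.card_fin, Fintype.card_bool]
  ring

theorem LL.decomp (y : LL D K) :
    y = algebraMap (PR D K) (LL D K) y.re + ⟨0, 1⟩ * algebraMap (PR D K) (LL D K) y.im := by
  refine QuadraticAlgebra.ext ?_ ?_
  · simp
  · simp

theorem LL.conj_of [IsTotallyReal K] (ψ : LL D K →+* ℂ) (y : LL D K) :
    ψ (star y) = (starRingEnd ℂ) (ψ y) := by
  have h1 : ψ ⟨0, 1⟩ ^ 2 = -1 := by
    rw [← map_pow, ← map_one ψ, ← map_neg]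
    congr 1
    refine QuadraticAlgebra.ext ?_ ?_
    · rw [pow_two, QuadraticAlgebra.re_mul]
      simp
      rfl
    · rw [pow_two, QuadraticAlgebra.im_mul]
      simp
      rfl
  have h2 : (starRingEnd ℂ) (ψ ⟨0, 1⟩) = -ψ ⟨0, 1⟩ := by
    have h3 : (ψ ⟨0, 1⟩ - Complex.I) * (ψ ⟨0, 1⟩ + Complex.I) = 0 := by
      have := Complex.I_sq
      linear_combination h1 - this
    rcases mul_eq_zero.1 h3 with h4 | h4
    · rw [sub_eq_zero] at h4
      rw [h4, Complex.conj_I]
    · have h5 : ψ ⟨0, 1⟩ = -Complex.I := by linear_combination h4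
      rw [h5, map_neg, Complex.conj_I]
  have h3 : ∀ x : PR D K, (starRingEnd ℂ) (ψ (algebraMap (PR D K) (LL D K) x)) =
      ψ (algebraMap (PR D K) (LL D K) x) := fun x =>
    PR.real_of_real D (ψ.comp (algebraMap (PR D K) (LL D K))) x
  have h4 : star y = algebraMap (PR D K) (LL D K) y.re -
      ⟨0, 1⟩ * algebraMap (PR D K) (LL D K) y.im := by
    refine QuadraticAlgebra.ext ?_ ?_
    · simp
    · simp
  rw [h4]
  conv_rhs => rw [LL.decomp D y]
  rw [map_sub, map_mul, map_add, map_mul, map_add, map_mul, h2, h3, h3]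
  ring

theorem LL.gal_eq (x : Fin h × Bool) : LL.gal D K x =
    if x.2 then LL.sig D K ^ (x.1 : ℕ) * LL.ta D K else LL.sig D K ^ (x.1 : ℕ) := rfl

/-- The frame. -/
noncomputable def frameOf [IsTotallyReal K] (h2 : h ≠ 2) : Fr D K L where
  T :=
    { σ := AlgEquiv.autCongr e (LL.sig D K)
      τ := AlgEquiv.autCongr e (LL.ta D K)
      pq := Fact.out
      q2 := h2
      σq := by rw [← map_pow, LL.sig_pow_h, map_one]
      τ2 := by rw [← map_mul, LL.ta_ta, map_one]
      comm := by rw [← map_mul, ← map_mul, LL.comm]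
      gen := fun g => by
        obtain ⟨⟨i, b⟩, rfl⟩ := galE_surjective D e g
        refine ⟨i, i.2, ?_⟩
        cases b
        · left
          rw [galE, LL.gal_eq, ← map_pow]
          rfl
        · right
          rw [galE, LL.gal_eq, ← map_pow, ← map_mul]
          rfl
      card := card_of_equiv D e
      cpx := fun φ x => by
        obtain ⟨y, rfl⟩ := e.surjective x
        have h1 := LL.conj_of D (φ.comp (e : LL D K →+* L)) y
        have h3 : AlgEquiv.autCongr e (LL.ta D K) (e y) = e (star y) := by
          simp [AlgEquiv.autCongr_apply, LL.ta_apply]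
        rw [h3]
        exact h1 }
  e := e
  es y := by
    change e (sL D y) = AlgEquiv.autCongr e (LL.sig D K) (e y)
    simp [AlgEquiv.autCongr_apply, LL.sig_apply]
  et y := by
    change e (star y) = AlgEquiv.autCongr e (LL.ta D K) (e y)
    simp [AlgEquiv.autCongr_apply, LL.ta_apply]

end frame

/-- **Existence of the frame** -/
theorem exists_frame [IsTotallyReal K] (hK : Module.finrank ℚ K < h) (h2 : h ≠ 2) :
    ∃ (L : Type) (_ : Field L) (_ : NumberField L) (_ : Algebra K L),
      IsGalois K L ∧ Nonempty (Fr D K L) := by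
  let i1 : Field (LL D K) := LL.field D K hK
  have i2 : Module.Finite K (LL D K) := LL.finite D K
  have i3 : NumberField (LL D K) := NumberField.of_module_finite K (LL D K)
  let e : LL D K ≃ₐ[K] LL D K := AlgEquiv.refl
  exact ⟨LL D K, i1, i3, inferInstance, isGalois_of_equiv D e, ⟨frameOf D e h2⟩⟩

end Pool.Agent.Lib.MP_673eb1_lc
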