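import Pool.Agent.Lib.MP_673eb1_lc.Defs

/-!
MP_673eb1_lc, module PDExists: existence of the Gaussian period data.
-/

set_option autoImplicit false

open scoped BigOperators

namespace Pool.Agent.Lib.MP_673eb1_lc

private theorem PD_dvd (h f : ℕ) (hfh : f % h = 1) : h ∣ f - 1 := by
  refine ⟨f / h, ?_⟩
  have := Nat.div_add_mod f h
  omega

private theorem PD_lam (h f : ℕ) [Fact h.Prime] [Fact f.Prime] (hh : h ≠ 2) (hfh : f % h = 1) :
    ∃ lam : ZMod f → ZMod h, (∀ x y, x ≠ 0 → y ≠ 0 → lam (x * y) = lam x + lam y) ∧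
      (∃ g, g ≠ 0 ∧ lam g = 1) ∧ (∀ x, x ≠ 0 → (lam x = 0 ↔ ∃ w, w ^ h = x)) ∧
      (∀ x, x ≠ 0 → lam (-x) = lam x) := by
  classical
  have hhp : h.Prime := Fact.out
  have hfp : f.Prime := Fact.out
  have hdvd := PD_dvd h f hfh
  have hcard : Nat.card (ZMod f)ˣ = f - 1 := by
    rw [Nat.card_eq_fintype_card, ZMod.card_units]
  obtain ⟨e⟩ : Nonempty (Multiplicative (ZMod (f - 1)) ≃* (ZMod f)ˣ) := by
    rw [← hcard]
    exact ⟨zmodCyclicMulEquiv inferInstance⟩
  have hf1 : NeZero (f - 1) := ⟨by have := hfp.two_le; omega⟩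
  let q : ZMod (f - 1) →+* ZMod h := ZMod.castHom hdvd (ZMod h)
  obtain ⟨L, hL⟩ : ∃ L : (ZMod f)ˣ → ZMod h, ∀ u, L u = q (Multiplicative.toAdd (e.symm u)) :=
    ⟨_, fun _ => rfl⟩
  have hLm : ∀ u v, L (u * v) = L u + L v := by
    intro u v
    rw [hL, hL, hL, map_mul, toAdd_mul, map_add]
  have hL1 : L 1 = 0 := by
    rw [hL, map_one, toAdd_one, map_zero]
  have hLp : ∀ (u : (ZMod f)ˣ) (n : ℕ), L (u ^ n) = n * L u := by
    intro u n
    induction n with
    | zero => rw [pow_zero, hL1, Nat.cast_zero, zero_mul]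
    | succ n ih =>
      rw [pow_succ, hLm, ih]
      push_cast
      ring
  obtain ⟨lam, hlam⟩ : ∃ lam : ZMod f → ZMod h, ∀ (x : ZMod f) (hx : x ≠ 0),
      lam x = L (Units.mk0 x hx) := by
    exact ⟨fun x => if hx : x = 0 then 0 else L (Units.mk0 x hx), fun x hx => dif_neg hx⟩
  have h1 : ∀ x y, x ≠ 0 → y ≠ 0 → lam (x * y) = lam x + lam y := by
    intro x y hx hy
    rw [hlam x hx, hlam y hy, hlam _ (mul_ne_zero hx hy), Units.mk0_mul, hLm]
  refine ⟨lam, h1, ?_, ?_, ?_⟩
  · refine ⟨(e (Multiplicative.ofAdd 1) : (ZMod f)ˣ), Units.ne_zero _, ?_⟩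
    rw [hlam _ (Units.ne_zero _), Units.mk0_val, hL, e.symm_apply_apply, toAdd_ofAdd, map_one]
  · intro x hx
    constructor
    · intro h0
      rw [hlam x hx, hL] at h0
      obtain ⟨z, hz⟩ : ∃ z : ZMod (f - 1), z = Multiplicative.toAdd (e.symm (Units.mk0 x hx)) :=
        ⟨_, rfl⟩
      rw [← hz] at h0
      have h2 : ((z.val : ℕ) : ZMod (f - 1)) = z := ZMod.natCast_zmod_val z
      rw [← h2, map_natCast, ZMod.natCast_eq_zero_iff] at h0
      obtain ⟨k, hk⟩ := h0
      have h3 : e.symm (Units.mk0 x hx) = (Multiplicative.ofAdd ((k : ℕ) : ZMod (f - 1))) ^ h := by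
        rw [← ofAdd_nsmul, nsmul_eq_mul, ← Nat.cast_mul, ← hk, h2, hz, ofAdd_toAdd]
      have h4 : Units.mk0 x hx = (e (Multiplicative.ofAdd ((k : ℕ) : ZMod (f - 1)))) ^ h := by
        rw [← map_pow, ← h3, e.apply_symm_apply]
      refine ⟨(e (Multiplicative.ofAdd ((k : ℕ) : ZMod (f - 1))) : (ZMod f)ˣ), ?_⟩
      have h5 := congrArg Units.val h4
      rw [Units.val_mk0, Units.val_pow_eq_pow_val] at h5
      exact h5.symm
    · rintro ⟨w, hw⟩
      have hw0 : w ≠ 0 := by
        rintro rfl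
        rw [zero_pow hhp.ne_zero] at hw
        exact hx hw.symm
      have h2 : Units.mk0 x hx = (Units.mk0 w hw0) ^ h := by
        apply Units.ext
        rw [Units.val_mk0, Units.val_pow_eq_pow_val, Units.val_mk0, hw]
      rw [hlam x hx, h2, hLp, ZMod.natCast_self, zero_mul]
  · have h2 : lam 1 = 0 := by
      have := h1 1 1 one_ne_zero one_ne_zero
      rw [mul_one] at this
      exact left_eq_add.1 this
    have h3 : lam (-1) = 0 := by
      have h4 := h1 (-1) (-1) (neg_ne_zero.2 one_ne_zero) (neg_ne_zero.2 one_ne_zero)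
      rw [neg_mul_neg, one_mul, h2] at h4
      have h5 : (2 : ZMod h) * lam (-1) = 0 := by
        rw [two_mul]
        exact h4.symm
      rcases mul_eq_zero.1 h5 with h6 | h6
      · exfalso
        have h7 : ((2 : ℕ) : ZMod h) = 0 := by exact_mod_cast h6
        rw [ZMod.natCast_eq_zero_iff] at h7
        exact hh ((Nat.prime_dvd_prime_iff_eq hhp Nat.prime_two).1 h7)
      · exact h6
    intro x hx
    rw [neg_eq_neg_one_mul, h1 _ _ (neg_ne_zero.2 one_ne_zero) hx, h3, zero_add]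

/-- A rational relation between the `f`-th roots of unity is constant. -/
private theorem PD_const (f : ℕ) [Fact f.Prime] (a : ZMod f → ℚ)
    (h : ∑ u, (a u : ℂ) * ZMod.stdAddChar u = 0) : ∀ u, a u = a 0 := by
  classical
  have hfp : f.Prime := Fact.out
  obtain ⟨ζ, hζd⟩ : ∃ ζ : ℂ, ζ = Complex.exp (2 * Real.pi * Complex.I / f) := ⟨_, rfl⟩
  have hζ : IsPrimitiveRoot ζ f := by
    rw [hζd]
    exact Complex.isPrimitiveRoot_exp f hfp.ne_zero
  have h1 : (ZMod.stdAddChar (1 : ZMod f) : ℂ) = ζ := by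
    have h2 := ZMod.stdAddChar_coe (N := f) 1
    rw [Int.cast_one] at h2
    rw [h2, hζd]
    congr 1
    push_cast
    ring
  have hpow : ∀ i : ℕ, (ZMod.stdAddChar (i : ZMod f) : ℂ) = ζ ^ i := by
    intro i
    rw [← h1, ← AddChar.map_nsmul_eq_pow, nsmul_eq_mul, mul_one]
  obtain ⟨P, hP⟩ : ∃ P : Polynomial ℚ, P = ∑ i ∈ Finset.range f,
      Polynomial.C (a (i : ZMod f)) * Polynomial.X ^ i := ⟨_, rfl⟩
  have hcoe : ∀ i < f, P.coeff i = a (i : ZMod f) := by
    intro i hi
    rw [hP, Polynomial.finsetSum_coeff]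
    simp only [Polynomial.coeff_C_mul_X_pow]
    rw [Finset.sum_ite_eq, if_pos (Finset.mem_range.2 hi)]
  have hdeg : P.natDegree ≤ f - 1 := by
    rw [hP]
    refine Polynomial.natDegree_sum_le_of_forall_le _ _ fun i hi => ?_
    refine (Polynomial.natDegree_C_mul_X_pow_le _ _).trans ?_
    rw [Finset.mem_range] at hi
    omega
  have heval : Polynomial.aeval ζ P = 0 := by
    rw [← h, hP, map_sum]
    have h2 : ∑ u : ZMod f, (a u : ℂ) * ZMod.stdAddChar u =
        ∑ i ∈ Finset.range f, (a (i : ZMod f) : ℂ) * ZMod.stdAddChar (i : ZMod f) := by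
      symm
      refine Finset.sum_bij' (fun i _ => (i : ZMod f)) (fun u _ => u.val) ?_ ?_ ?_ ?_ ?_
      · intro i _
        exact Finset.mem_univ _
      · intro u _
        exact Finset.mem_range.2 (ZMod.val_lt u)
      · intro i hi
        exact ZMod.val_cast_of_lt (Finset.mem_range.1 hi)
      · intro u _
        exact ZMod.natCast_zmod_val u
      · intro i _
        rfl
    rw [h2]
    refine Finset.sum_congr rfl fun i _ => ?_
    rw [map_mul, map_pow, Polynomial.aeval_X, Polynomial.aeval_C, hpow]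
    rfl
  have hdvd : Polynomial.cyclotomic f ℚ ∣ P := by
    rw [Polynomial.cyclotomic_eq_minpoly_rat hζ hfp.pos]
    exact minpoly.dvd ℚ ζ heval
  obtain ⟨Q, hQ⟩ := hdvd
  have hQ0 : Q.natDegree = 0 := by
    by_cases hQz : Q = 0
    · rw [hQz, Polynomial.natDegree_zero]
    · have h2 : P.natDegree = (Polynomial.cyclotomic f ℚ).natDegree + Q.natDegree := by
        rw [hQ, Polynomial.natDegree_mul (Polynomial.cyclotomic_ne_zero f ℚ) hQz]
      rw [Polynomial.natDegree_cyclotomic, Nat.totient_prime hfp] at h2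
      omega
  obtain ⟨c, hc⟩ : ∃ c : ℚ, Q = Polynomial.C c := ⟨_, Polynomial.eq_C_of_natDegree_eq_zero hQ0⟩
  have hall : ∀ i < f, a (i : ZMod f) = c := by
    intro i hi
    rw [← hcoe i hi, hQ, hc, Polynomial.coeff_mul_C, Polynomial.cyclotomic_prime,
      Polynomial.finsetSum_coeff]
    simp only [Polynomial.coeff_X_pow]
    rw [Finset.sum_ite_eq, if_pos (Finset.mem_range.2 hi), one_mul]
  intro u
  have h2 := hall u.val (ZMod.val_lt u)
  have h3 := hall 0 hfp.pos
  rw [ZMod.natCast_zmod_val] at h2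
  rw [Nat.cast_zero] at h3
  rw [h2, h3]

private noncomputable def PD_ev (f : ℕ) [NeZero f] : (ZMod f → ℤ) →+ ℂ where
  toFun a := ∑ u, (a u : ℂ) * ZMod.stdAddChar u
  map_zero' := by simp
  map_add' a b := by
    rw [← Finset.sum_add_distrib]
    refine Finset.sum_congr rfl fun u _ => ?_
    rw [Pi.add_apply]
    push_cast
    ring

private theorem PD_ev_apply (f : ℕ) [NeZero f] (a : ZMod f → ℤ) :
    PD_ev f a = ∑ u, (a u : ℂ) * ZMod.stdAddChar u := rfl

private theorem PD_ev_const (f : ℕ) [Fact f.Prime] (a : ZMod f → ℤ) (h : PD_ev f a = 0) :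
    ∀ u, a u = a 0 := by
  intro u
  have h1 := PD_const f (fun u => (a u : ℚ)) (by
    rw [← h, PD_ev_apply]
    refine Finset.sum_congr rfl fun u _ => ?_
    push_cast
    rfl) u
  exact_mod_cast h1

private theorem PD_sum0 (f : ℕ) [Fact f.Prime] : ∑ u : ZMod f, (ZMod.stdAddChar u : ℂ) = 0 := by
  rw [AddChar.sum_eq_zero_iff_ne_zero]
  intro h
  have h1 : (ZMod.stdAddChar (1 : ZMod f) : ℂ) = ZMod.stdAddChar (0 : ZMod f) := by
    rw [h]
    rfl
  exact one_ne_zero (ZMod.injective_stdAddChar h1)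

section

variable {h f : ℕ} [Fact h.Prime] [Fact f.Prime] (lam : ZMod f → ZMod h)

/-- The class of `c`. -/
private def PD_cls (c : ZMod h) : Finset (ZMod f) :=
  Finset.univ.filter fun u => u ≠ 0 ∧ lam u = c

private theorem PD_mem_cls {c : ZMod h} {u : ZMod f} :
    u ∈ PD_cls lam c ↔ u ≠ 0 ∧ lam u = c := by
  unfold PD_cls
  rw [Finset.mem_filter]
  simp

/-- The period. -/
private noncomputable def PD_per (c : ZMod h) : ℂ := ∑ u ∈ PD_cls lam c, ZMod.stdAddChar u

private theorem PD_fib (F : ZMod f → ℂ) : ∑ u, F u = F 0 + ∑ c, ∑ u ∈ PD_cls lam c, F u := by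
  have h1 : ∑ c, ∑ u ∈ PD_cls lam c, F u = ∑ u ∈ Finset.univ.filter (fun u => u ≠ 0), F u := by
    rw [← Finset.sum_fiberwise _ lam]
    refine Finset.sum_congr rfl fun c _ => ?_
    unfold PD_cls
    rw [Finset.filter_filter]
  rw [h1, Finset.filter_ne' , Finset.add_sum_erase _ _ (Finset.mem_univ _)]

private theorem PD_inv (a : ZMod f → ℤ) (x : ZMod h → ℤ)
    (hx : ∀ u, u ≠ 0 → a u - a 0 = x (lam u)) :
    PD_ev f a = ∑ k, (x k : ℂ) * PD_per lam k := by
  have h1 : PD_ev f a = ∑ u, ((a u - a 0 : ℤ) : ℂ) * ZMod.stdAddChar u := by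
    have h2 : ∑ u, ((a u - a 0 : ℤ) : ℂ) * ZMod.stdAddChar u =
        PD_ev f a - (a 0 : ℂ) * ∑ u : ZMod f, (ZMod.stdAddChar u : ℂ) := by
      rw [PD_ev_apply, Finset.mul_sum, ← Finset.sum_sub_distrib]
      refine Finset.sum_congr rfl fun u _ => ?_
      push_cast
      ring
    rw [h2, PD_sum0, mul_zero, sub_zero]
  rw [h1, PD_fib lam, sub_self, Int.cast_zero, zero_mul, zero_add]
  refine Finset.sum_congr rfl fun k _ => ?_
  unfold PD_per
  rw [Finset.mul_sum]
  refine Finset.sum_congr rfl fun u hu => ?_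
  rw [PD_mem_cls] at hu
  rw [hx u hu.1, hu.2]

/-- The number of the representations. -/
private def PD_N (c c' : ZMod h) (v : ZMod f) : ℕ :=
  ((PD_cls lam c ×ˢ PD_cls lam c').filter fun q => q.1 + q.2 = v).card

private theorem PD_mul (c c' : ZMod h) :
    PD_per lam c * PD_per lam c' = PD_ev f (fun v => (PD_N lam c c' v : ℤ)) := by
  unfold PD_per
  rw [Finset.sum_mul_sum, ← Finset.sum_product', PD_ev_apply]
  rw [← Finset.sum_fiberwise (PD_cls lam c ×ˢ PD_cls lam c') (fun q => q.1 + q.2)]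
  refine Finset.sum_congr rfl fun v _ => ?_
  have h1 : ∀ q ∈ (PD_cls lam c ×ˢ PD_cls lam c').filter (fun q => q.1 + q.2 = v),
      (ZMod.stdAddChar q.1 : ℂ) * ZMod.stdAddChar q.2 = ZMod.stdAddChar v := by
    intro q hq
    rw [Finset.mem_filter] at hq
    rw [← AddChar.map_add_eq_mul, hq.2]
  rw [Finset.sum_congr rfl h1, Finset.sum_const, nsmul_eq_mul]
  push_cast
  rfl

variable {lam}

private theorem PD_cls_mul (h1 : ∀ x y, x ≠ 0 → y ≠ 0 → lam (x * y) = lam x + lam y)
    {w : ZMod f} (hw : w ≠ 0) (c : ZMod h) (u : ZMod f) :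
    w * u ∈ PD_cls lam (c + lam w) ↔ u ∈ PD_cls lam c := by
  rw [PD_mem_cls, PD_mem_cls]
  constructor
  · rintro ⟨h2, h3⟩
    have hu : u ≠ 0 := right_ne_zero_of_mul h2
    rw [h1 w u hw hu, add_comm] at h3
    exact ⟨hu, add_right_cancel h3⟩
  · rintro ⟨hu, h3⟩
    rw [h1 w u hw hu, h3, add_comm]
    exact ⟨mul_ne_zero hw hu, rfl⟩

private theorem PD_N_shift (h1 : ∀ x y, x ≠ 0 → y ≠ 0 → lam (x * y) = lam x + lam y)
    {w : ZMod f} (hw : w ≠ 0) (c c' : ZMod h) (v : ZMod f) :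
    PD_N lam (c + lam w) (c' + lam w) (w * v) = PD_N lam c c' v := by
  symm
  unfold PD_N
  refine Finset.card_bij' (fun q _ => (w * q.1, w * q.2)) (fun q _ => (w⁻¹ * q.1, w⁻¹ * q.2))
    ?_ ?_ ?_ ?_
  · intro q hq
    rw [Finset.mem_filter, Finset.mem_product] at hq ⊢
    refine ⟨⟨(PD_cls_mul h1 hw c _).2 hq.1.1, (PD_cls_mul h1 hw c' _).2 hq.1.2⟩, ?_⟩
    show w * q.1 + w * q.2 = w * v
    rw [← mul_add, hq.2]
  · intro q hq
    rw [Finset.mem_filter, Finset.mem_product] at hq ⊢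
    have e1 : w * (w⁻¹ * q.1) = q.1 := mul_inv_cancel_left₀ hw _
    have e2 : w * (w⁻¹ * q.2) = q.2 := mul_inv_cancel_left₀ hw _
    refine ⟨⟨(PD_cls_mul h1 hw c _).1 ?_, (PD_cls_mul h1 hw c' _).1 ?_⟩, ?_⟩
    · show w * (w⁻¹ * q.1) ∈ _
      rw [e1]
      exact hq.1.1
    · show w * (w⁻¹ * q.2) ∈ _
      rw [e2]
      exact hq.1.2
    · show w⁻¹ * q.1 + w⁻¹ * q.2 = v
      rw [← mul_add, hq.2, inv_mul_cancel_left₀ hw]
  · intro q _
    ext
    · exact inv_mul_cancel_left₀ hw _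
    · exact inv_mul_cancel_left₀ hw _
  · intro q _
    ext
    · exact mul_inv_cancel_left₀ hw _
    · exact mul_inv_cancel_left₀ hw _

private theorem PD_N_inv (h1 : ∀ x y, x ≠ 0 → y ≠ 0 → lam (x * y) = lam x + lam y)
    (c c' : ZMod h) {u v : ZMod f} (hu : u ≠ 0) (hv : v ≠ 0) (huv : lam u = lam v) :
    PD_N lam c c' u = PD_N lam c c' v := by
  have hw : u / v ≠ 0 := div_ne_zero hu hv
  have h2 : lam (u / v) = 0 := by
    have h3 := h1 (u / v) v hw hv
    rw [div_mul_cancel₀ u hv, huv] at h3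
    exact right_eq_add.1 h3
  have h3 := PD_N_shift h1 hw c c' v
  rw [h2, add_zero, add_zero, div_mul_cancel₀ u hv] at h3
  exact h3

private theorem PD_frob (s : Finset (ZMod f)) (p : ℕ) (hp : p.Prime) :
    ∃ Q : Polynomial ℤ, (∑ u ∈ s, Polynomial.X ^ u.val) ^ p =
      ∑ u ∈ s, Polynomial.X ^ (p * u.val) + (p : Polynomial ℤ) * Q := by
  classical
  induction s using Finset.induction_on with
  | empty =>
    refine ⟨0, ?_⟩
    rw [Finset.sum_empty, Finset.sum_empty, zero_pow hp.ne_zero, mul_zero, add_zero]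
  | insert a s ha ih =>
    obtain ⟨Q, hQ⟩ := ih
    obtain ⟨r, hr⟩ := exists_add_pow_prime_eq hp (Polynomial.X ^ a.val : Polynomial ℤ)
      (∑ u ∈ s, Polynomial.X ^ u.val)
    refine ⟨Q + Polynomial.X ^ a.val * (∑ u ∈ s, Polynomial.X ^ u.val) * r, ?_⟩
    rw [Finset.sum_insert ha, Finset.sum_insert ha, hr, hQ, ← pow_mul, mul_comm a.val p]
    ring

private theorem PD_aeval (Q : Polynomial ℤ) :
    ∃ r : ZMod f → ℤ, Polynomial.aeval (ZMod.stdAddChar (1 : ZMod f) : ℂ) Q = PD_ev f r := by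
  have h1 : ∀ u : ZMod f, (ZMod.stdAddChar u : ℂ) ∈ (PD_ev f).range := by
    intro u
    refine ⟨Pi.single u 1, ?_⟩
    rw [PD_ev_apply, Finset.sum_eq_single u]
    · rw [Pi.single_eq_same, Int.cast_one, one_mul]
    · intro v _ hv
      rw [Pi.single_eq_of_ne hv, Int.cast_zero, zero_mul]
    · intro h
      exact absurd (Finset.mem_univ u) h
  have h2 : Polynomial.aeval (ZMod.stdAddChar (1 : ZMod f) : ℂ) Q ∈ (PD_ev f).range := by
    rw [Polynomial.aeval_eq_sum_range]
    refine AddSubgroup.sum_mem _ fun i _ => AddSubgroup.zsmul_mem _ ?_ _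
    rw [← AddChar.map_nsmul_eq_pow]
    exact h1 _
  obtain ⟨r, hr⟩ := h2
  exact ⟨r, hr.symm⟩

end

theorem exists_perData (h f : ℕ) [Fact h.Prime] (hh : h ≠ 2) (hf : f.Prime) (hfh : f % h = 1) :
    Nonempty (PerData h f) := by
  classical
  have hfF : Fact f.Prime := ⟨hf⟩
  obtain ⟨lam, h1, ⟨g, hg0, hg⟩, h3, h4⟩ := PD_lam h f hh hfh
  have hl1 : lam 1 = 0 := by
    have := h1 1 1 one_ne_zero one_ne_zero
    rw [mul_one] at this
    exact left_eq_add.1 this
  have hpow : ∀ n : ℕ, lam (g ^ n) = n := by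
    intro n
    induction n with
    | zero => rw [pow_zero, hl1, Nat.cast_zero]
    | succ n ih =>
      rw [pow_succ, h1 _ _ (pow_ne_zero n hg0) hg0, ih, hg]
      push_cast
      ring
  obtain ⟨rep, hrep0, hrep⟩ : ∃ rep : ZMod h → ZMod f, (∀ k, rep k ≠ 0) ∧
      ∀ k, lam (rep k) = k := by
    refine ⟨fun k => g ^ k.val, fun k => pow_ne_zero _ hg0, fun k => ?_⟩
    show lam (g ^ k.val) = k
    rw [hpow, ZMod.natCast_zmod_val]
  have hcop : ∀ a : ℕ, a.Coprime f → (a : ZMod f) ≠ 0 := by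
    intro a ha h0
    rw [ZMod.natCast_eq_zero_iff] at h0
    have h5 : f = 1 := ha.symm.eq_one_of_dvd h0
    exact hf.one_lt.ne' h5
  obtain ⟨m, hm⟩ : ∃ m : ZMod h → ZMod h → ZMod h → ℤ, ∀ c c' k,
      m c c' k = (PD_N lam c c' (rep k) : ℤ) - PD_N lam c c' 0 := ⟨_, fun _ _ _ => rfl⟩
  obtain ⟨η, hηd⟩ : ∃ η : ZMod h → ℝ, ∀ c, η c = (PD_per lam c).re := ⟨_, fun _ => rfl⟩
  have hη : ∀ c, (η c : ℂ) = PD_per lam c := by
    intro c
    rw [hηd, ← Complex.conj_eq_iff_re]
    unfold PD_per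
    rw [map_sum]
    refine Finset.sum_bij' (fun u _ => -u) (fun u _ => -u) ?_ ?_ ?_ ?_ ?_
    · intro u hu
      rw [PD_mem_cls] at hu ⊢
      exact ⟨neg_ne_zero.2 hu.1, by rw [h4 u hu.1, hu.2]⟩
    · intro u hu
      rw [PD_mem_cls] at hu ⊢
      exact ⟨neg_ne_zero.2 hu.1, by rw [h4 u hu.1, hu.2]⟩
    · intro u _
      exact neg_neg u
    · intro u _
      exact neg_neg u
    · intro u _
      exact (AddChar.map_neg_eq_conj _ u).symm
  have hmulC : ∀ c c', PD_per lam c * PD_per lam c' = ∑ k, (m c c' k : ℂ) * PD_per lam k := by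
    intro c c'
    rw [PD_mul, PD_inv lam _ (m c c')]
    intro u hu
    rw [hm, PD_N_inv h1 c c' hu (hrep0 _) (hrep (lam u)).symm]
  -- the lattice of the periods
  let lin : (ZMod h → ℤ) →+ ℂ :=
    { toFun := fun x => ∑ k, (x k : ℂ) * PD_per lam k
      map_zero' := by simp
      map_add' := fun a b => by
        rw [← Finset.sum_add_distrib]
        refine Finset.sum_congr rfl fun u _ => ?_
        rw [Pi.add_apply]
        push_cast
        ring }
  have hlin : ∀ x, lin x = ∑ k, (x k : ℂ) * PD_per lam k := fun _ => rfl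
  have hper : ∀ c, PD_per lam c ∈ lin.range := by
    intro c
    refine ⟨Pi.single c 1, ?_⟩
    rw [hlin, Finset.sum_eq_single c]
    · rw [Pi.single_eq_same, Int.cast_one, one_mul]
    · intro v _ hv
      rw [Pi.single_eq_of_ne hv, Int.cast_zero, zero_mul]
    · intro h
      exact absurd (Finset.mem_univ c) h
  have hclosed : ∀ z ∈ lin.range, ∀ c, z * PD_per lam c ∈ lin.range := by
    rintro z ⟨x, rfl⟩ c
    rw [hlin, Finset.sum_mul]
    refine AddSubgroup.sum_mem _ fun k _ => ?_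
    rw [mul_assoc, ← zsmul_eq_mul]
    refine AddSubgroup.zsmul_mem _ ?_ _
    rw [hmulC, ← hlin]
    exact ⟨_, rfl⟩
  have hpowm : ∀ (n : ℕ) (c : ZMod h), PD_per lam c ^ (n + 1) ∈ lin.range := by
    intro n c
    induction n with
    | zero =>
      rw [zero_add, pow_one]
      exact hper c
    | succ n ih =>
      rw [pow_succ]
      exact hclosed _ ih c
  refine ⟨{
    hodd := hh
    hf := hf
    hfh := hfh
    m := m
    η := η
    indep := ?_
    sum_η := ?_
    mul_η := ?_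
    shift := ?_
    ind := fun n => lam (n : ZMod f)
    ind_mul := ?_
    ind_mod := ?_
    ind_zero := ?_
    ind_surj := ?_
    frob := ?_ }⟩
  · -- indep
    rw [Fintype.linearIndependent_iff]
    intro a ha c
    have h5 : ∑ k, (a k : ℂ) * PD_per lam k = 0 := by
      have h6 : ((∑ k, a k • η k : ℝ) : ℂ) = 0 := by
        rw [ha, Complex.ofReal_zero]
      rw [← h6, Complex.ofReal_sum]
      refine Finset.sum_congr rfl fun k _ => ?_
      rw [Rat.smul_def, Complex.ofReal_mul, hη]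
      push_cast
      rfl
    have h6 := PD_const f (fun u => if u = 0 then 0 else a (lam u)) (by
      rw [PD_fib lam, if_pos rfl, Rat.cast_zero, zero_mul, zero_add, ← h5]
      refine Finset.sum_congr rfl fun k _ => ?_
      unfold PD_per
      rw [Finset.mul_sum]
      refine Finset.sum_congr rfl fun u hu => ?_
      rw [PD_mem_cls] at hu
      rw [if_neg hu.1, hu.2]) (rep c)
    rw [if_neg (hrep0 c), if_pos rfl, hrep] at h6
    exact h6
  · -- sum
    have h5 : ((∑ c, η c : ℝ) : ℂ) = ((-1 : ℝ) : ℂ) := by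
      rw [Complex.ofReal_sum]
      simp only [hη]
      have h6 := PD_fib lam (fun u : ZMod f => (ZMod.stdAddChar u : ℂ))
      rw [PD_sum0, AddChar.map_zero_eq_one] at h6
      have h7 : ∑ c, PD_per lam c = ∑ c, ∑ u ∈ PD_cls lam c, (ZMod.stdAddChar u : ℂ) := rfl
      rw [h7]
      push_cast
      linear_combination -h6
    exact Complex.ofReal_injective h5
  · -- mul
    intro c c'
    apply Complex.ofReal_injective
    rw [Complex.ofReal_mul, hη, hη, hmulC, Complex.ofReal_sum]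
    refine Finset.sum_congr rfl fun k _ => ?_
    rw [Complex.ofReal_mul, hη]
    push_cast
    rfl
  · -- shift
    intro c c' k
    rw [hm, hm]
    have e1 := PD_N_shift h1 hg0 c c' (rep k)
    have e2 := PD_N_shift h1 hg0 c c' 0
    rw [hg] at e1 e2
    rw [mul_zero] at e2
    have e3 : lam (g * rep k) = lam (rep (k + 1)) := by
      rw [h1 _ _ hg0 (hrep0 k), hg, hrep, hrep, add_comm]
    rw [PD_N_inv h1 _ _ (mul_ne_zero hg0 (hrep0 k)) (hrep0 _) e3] at e1
    rw [e1, e2]
  · -- ind_mul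
    intro a b ha hb
    show lam ((a * b : ℕ) : ZMod f) = lam a + lam b
    rw [Nat.cast_mul, h1 _ _ (hcop a ha) (hcop b hb)]
  · -- ind_mod
    intro a b hab
    show lam a = lam b
    rw [(ZMod.natCast_eq_natCast_iff' a b f).2 hab]
  · -- ind_zero
    intro a ha
    show lam a = 0 ↔ _
    rw [h3 _ (hcop a ha)]
    constructor
    · rintro ⟨w, hw⟩
      refine ⟨w.val, ?_⟩
      rw [← ZMod.natCast_eq_natCast_iff', Nat.cast_pow, ZMod.natCast_zmod_val, hw]
    · rintro ⟨b, hb⟩
      refine ⟨(b : ZMod f), ?_⟩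
      rw [← ZMod.natCast_eq_natCast_iff', Nat.cast_pow] at hb
      exact hb
  · -- ind_surj
    refine ⟨g.val, ?_, ?_⟩
    · exact (ZMod.val_coe_unit_coprime (Units.mk0 g hg0))
    · show lam ((g.val : ℕ) : ZMod f) = 1
      rw [ZMod.natCast_zmod_val, hg]
  · -- frob
    intro p hp hpf c
    have hp0 : (p : ZMod f) ≠ 0 := hcop p ((Nat.coprime_primes hp hf).2 hpf)
    obtain ⟨Q, hQ⟩ := PD_frob (PD_cls lam c) p hp
    obtain ⟨r, hr⟩ := PD_aeval (f := f) Q
    have hpw : ∀ i : ℕ, (ZMod.stdAddChar (1 : ZMod f) : ℂ) ^ i = ZMod.stdAddChar (i : ZMod f) := by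
      intro i
      rw [← AddChar.map_nsmul_eq_pow, nsmul_eq_mul, mul_one]
    have e1 : PD_per lam c ^ p = PD_per lam (c + lam p) + p * PD_ev f r := by
      have e2 := congrArg (Polynomial.aeval (ZMod.stdAddChar (1 : ZMod f) : ℂ)) hQ
      rw [map_pow, map_add, map_mul, map_sum, map_sum, hr, map_natCast] at e2
      simp only [map_pow, Polynomial.aeval_X, hpw] at e2
      have e3 : ∑ u ∈ PD_cls lam c, (ZMod.stdAddChar ((u.val : ℕ) : ZMod f) : ℂ) =
          PD_per lam c := by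
        unfold PD_per
        refine Finset.sum_congr rfl fun u _ => ?_
        rw [ZMod.natCast_zmod_val]
      have e4 : ∑ u ∈ PD_cls lam c, (ZMod.stdAddChar ((p * u.val : ℕ) : ZMod f) : ℂ) =
          PD_per lam (c + lam p) := by
        unfold PD_per
        refine Finset.sum_bij' (fun u _ => (p : ZMod f) * u) (fun u _ => (p : ZMod f)⁻¹ * u)
          ?_ ?_ ?_ ?_ ?_
        · intro u hu
          exact (PD_cls_mul h1 hp0 c u).2 hu
        · intro u hu
          refine (PD_cls_mul h1 hp0 c _).1 ?_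
          rw [mul_inv_cancel_left₀ hp0]
          exact hu
        · intro u _
          exact inv_mul_cancel_left₀ hp0 _
        · intro u _
          exact mul_inv_cancel_left₀ hp0 _
        · intro u _
          rw [Nat.cast_mul, ZMod.natCast_zmod_val]
      rw [e3, e4] at e2
      exact e2
    obtain ⟨x, hx⟩ : ∃ x : ZMod h → ℤ, lin x = PD_per lam c ^ p - PD_per lam (c + lam p) := by
      have e2 : PD_per lam c ^ p - PD_per lam (c + lam p) ∈ lin.range := by
        refine AddSubgroup.sub_mem _ ?_ (hper _)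
        have e3 := hpowm (p - 1) c
        rw [Nat.sub_add_cancel hp.one_lt.le] at e3
        exact e3
      exact e2
    have e5 : PD_ev f (fun u => (if u = 0 then 0 else x (lam u)) - p * r u) = 0 := by
      have e6 : (fun u => (if u = 0 then 0 else x (lam u)) - (p : ℤ) * r u) =
          (fun u : ZMod f => (if u = 0 then 0 else x (lam u))) - (p : ℤ) • r := by
        funext u
        rw [Pi.sub_apply, Pi.smul_apply, smul_eq_mul]
      rw [e6, map_sub, map_zsmul, PD_inv lam _ x, ← hlin, hx, e1, zsmul_eq_mul]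
      · push_cast
        ring
      · intro u hu
        rw [if_neg hu, if_pos rfl, sub_zero]
    have e6 := PD_ev_const f _ e5
    have hxk : ∀ k, x k = p * (r (rep k) - r 0) := by
      intro k
      have e7 := e6 (rep k)
      simp only [if_neg (hrep0 k), if_pos, hrep] at e7
      linarith
    refine ⟨fun k => r (rep k) - r 0, ?_⟩
    apply Complex.ofReal_injective
    rw [Complex.ofReal_pow, Complex.ofReal_add, Complex.ofReal_mul, hη, hη, Complex.ofReal_sum]
    have e8 : PD_per lam c ^ p = PD_per lam (c + lam p) + lin x := by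
      rw [hx]
      ring
    rw [e8, hlin, Complex.ofReal_natCast, Finset.mul_sum]
    congr 1
    refine Finset.sum_congr rfl fun k _ => ?_
    rw [Complex.ofReal_mul, hη, hxk]
    push_cast
    ring

end Pool.Agent.Lib.MP_673eb1_lc
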