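import Pool.Agent.Lib.MP_673eb1_lc.TRDef
import Pool.Agent.Lib.MP_673eb1_lc.PDA
import Pool.Agent.Lib.MP_673eb1_lc.PDExists
import Pool.Agent.Lib.ZD.Sel

/-!
MP_673eb1_lc: the choice of `q`, `f`, the period data and of (infinitely many) primes `v` of `K`:
degree one, norm `p = 1 mod 4`, `ind p = 0`, `p` a primitive root modulo `q`, all primes of `K'`
above `v` of degree one.
-/

set_option autoImplicit false

open NumberField IsDedekindDomain Pool.Agent.ZD

namespace Pool.Agent.Lib.MP_673eb1_lc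

/-- The selected primes. -/
theorem sel_primes (K : Type) [Field K] [NumberField K]
    (K' : Type) [Field K'] [NumberField K'] [Algebra K K'] [IsGalois K K']
    {q f : ℕ} [hq : Fact q.Prime] (D : PerData q f) (hqb : q ∉ bad K') (S : Set ℕ)
    (hS : S.Finite) :
    {v : HeightOneSpectrum (𝓞 K) | Deg1 v ∧ D.ind (nm v) = 0 ∧ ((f : ℕ) : 𝓞 K) ∉ v.asIdeal ∧
      orderOf ((nm v : ℕ) : ZMod q) = q - 1 ∧ nm v ∉ S ∧ nm v % f = 1 ∧
      ∀ w ∈ abv K' v, Deg1 w}.Infinite := by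
  have hf0 : NeZero f := ⟨D.hf.ne_zero⟩
  have hf1 : 1 < f := D.hf.one_lt
  have hn : NeZero (4 * f) := ⟨mul_ne_zero (by norm_num) D.hf.ne_zero⟩
  have hqn : ¬ q ∣ 4 * f := by
    intro h
    rcases (Nat.Prime.dvd_mul hq.out).1 h with h | h
    · have h2 : q ∣ 2 ^ 2 := by norm_num; exact h
      have h3 : q ∣ 2 := hq.out.dvd_of_dvd_pow h2
      exact D.hodd ((Nat.prime_dvd_prime_iff_eq hq.out Nat.prime_two).1 h3)
    · have h2 : q = f := (Nat.prime_dvd_prime_iff_eq hq.out D.hf).1 h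
      have h3 := D.hfh
      rw [← h2, Nat.mod_self] at h3
      omega
  have h1 := sel_ext K K' (4 * f) q hqn hqb (S ∪ {f}) (hS.union (Set.finite_singleton f))
  refine h1.mono ?_
  rintro v ⟨hv1, hv2, hv3, hv4, hv5, hv6⟩
  have hp2 := hv1.two_le
  have hvf : nm v ≠ f := fun h => hv4 (Or.inr h)
  obtain ⟨k, hk⟩ := hv2
  have e1 : nm v = 4 * f * k + 1 := by omega
  have hm4 : nm v % 4 = 1 := by
    rw [e1, mul_assoc]
    omega
  have hmf : nm v % f = 1 := by
    rw [e1, show 4 * f * k + 1 = 1 + f * (4 * k) by ring, Nat.add_mul_mod_self_left]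
    exact Nat.mod_eq_of_lt hf1
  refine ⟨⟨hv1, hm4, hv5⟩, ?_, ?_, hv3, fun h => hv4 (Or.inl h), hmf, ?_⟩
  · rw [D.ind_mod (nm v) 1 (by rw [hmf, Nat.mod_eq_of_lt hf1])]
    exact ind_one D
  · intro h
    have h2 := nm_mem v
    exact hvf (prime_unique hv1 D.hf h2 h)
  · intro w hw
    obtain ⟨h2, h3⟩ := hv6 w hw
    refine ⟨by rw [h2]; exact hv1, by rw [h2]; exact hm4, h3⟩

/-- The choice of `q` and `f` (both larger than a given number `N`) and of the period data. -/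
theorem sel_data (K' : Type) [Field K'] [NumberField K'] (ε : ℝ) (hε : 0 < ε) (N : ℕ) :
    ∃ (q f : ℕ) (_ : Fact q.Prime) (_ : PerData q f), 1 / (q : ℝ) < ε ∧
      Module.finrank ℚ K' < q ∧ N < q ∧ N < f ∧ q ∉ bad K' ∧ f ∉ bad K' := by
  obtain ⟨M, hM⟩ := (finite_bad K').bddAbove
  obtain ⟨E, hE⟩ := exists_nat_gt (1 / ε)
  obtain ⟨q, hq1, hq⟩ := Nat.exists_infinite_primes (M + E + N + Module.finrank ℚ K' + 3)
  have hqF : Fact q.Prime := ⟨hq⟩
  obtain ⟨f, hf, hf1, hf2⟩ := Nat.exists_prime_gt_modEq_one (k := q) (M + N + 1) hq.ne_zero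
  have hfq : f % q = 1 := by
    have h : f % q = 1 % q := hf2
    rwa [Nat.mod_eq_of_lt hq.one_lt] at h
  obtain ⟨D⟩ := exists_perData q f (by omega) hf hfq
  refine ⟨q, f, hqF, D, ?_, by omega, by omega, by omega, ?_, ?_⟩
  · have h1 : (E : ℝ) ≤ q := by
      have : E ≤ q := by omega
      exact_mod_cast this
    have h2 : 1 / ε < q := hE.trans_le h1
    have hq0 : (0 : ℝ) < q := by exact_mod_cast hq.pos
    rw [div_lt_iff₀ hε] at h2
    rw [div_lt_iff₀ hq0]
    linarith [mul_comm (q : ℝ) ε]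
  · intro h
    have := hM h
    omega
  · intro h
    have := hM h
    omega

end Pool.Agent.Lib.MP_673eb1_lc
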