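import Pool.Agent.Lib.MP_673eb1_lc.HFa

/-!
MP_673eb1_lc, module HFb: valuations of norms and of the height form.
-/

set_option autoImplicit false

open NumberField IsDedekindDomain Pool.Agent.ZD

namespace Pool.Agent.Lib.MP_673eb1_lc.HF

variable {h f : ℕ} [Fact h.Prime] (D : PerData h f) {K : Type} [Field K] [NumberField K]

/-! ### Over `ℤ` -/

/-- Evaluation at the periods. -/
private noncomputable def hfb_ev : PR D ℤ →+* ℝ where
  toFun x := ∑ c, (x c : ℝ) * D.η c
  map_one' := by
    have h1 : ∀ c : ZMod h, (((1 : PR D ℤ) c : ℤ) : ℝ) * D.η c = -D.η c := by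
      intro c
      rw [PR.one_apply]
      push_cast
      ring
    rw [Finset.sum_congr rfl fun c _ => h1 c, Finset.sum_neg_distrib, D.sum_η, neg_neg]
  map_zero' := by
    refine Finset.sum_eq_zero fun c _ => ?_
    rw [PR.zero_apply, Int.cast_zero, zero_mul]
  map_add' x y := by
    rw [← Finset.sum_add_distrib]
    refine Finset.sum_congr rfl fun c _ => ?_
    rw [PR.add_apply, Int.cast_add, add_mul]
  map_mul' x y := by
    rw [Finset.sum_mul_sum]
    have e1 : ∀ c c', (x c : ℝ) * D.η c * ((y c' : ℝ) * D.η c') =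
        ∑ k, (D.m c c' k : ℝ) * x c * y c' * D.η k := by
      intro c c'
      calc (x c : ℝ) * D.η c * ((y c' : ℝ) * D.η c') = x c * y c' * (D.η c * D.η c') := by ring
        _ = x c * y c' * ∑ k, (D.m c c' k : ℝ) * D.η k := by rw [D.mul_η]
        _ = _ := by
            rw [Finset.mul_sum]
            exact Finset.sum_congr rfl fun k _ => by ring
    simp_rw [e1]
    have e2 : ∀ k, (((x * y : PR D ℤ) k : ℤ) : ℝ) * D.η k =
        ∑ c, ∑ c', (D.m c c' k : ℝ) * x c * y c' * D.η k := by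
      intro k
      rw [PR.mul_apply]
      push_cast
      rw [Finset.sum_mul]
      refine Finset.sum_congr rfl fun c _ => ?_
      rw [Finset.sum_mul]
    simp_rw [e2]
    rw [Finset.sum_comm]
    refine Finset.sum_congr rfl fun c _ => ?_
    rw [Finset.sum_comm]

private theorem hfb_ev_apply (x : PR D ℤ) : hfb_ev D x = ∑ c, (x c : ℝ) * D.η c := rfl

private theorem hfb_ev_inj (x y : PR D ℤ) (hxy : hfb_ev D x = hfb_ev D y) : x = y :=
  PR.int_eq_of_sum D x y hxy

private theorem hfb_ev_e (c : ZMod h) : hfb_ev D (PR.e D c) = D.η c := by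
  rw [hfb_ev_apply, Finset.sum_eq_single c]
  · rw [PR.e_apply, if_pos rfl, Int.cast_one, one_mul]
  · intro b _ hb
    rw [PR.e_apply, if_neg hb, Int.cast_zero, zero_mul]
  · intro hc
    exact absurd (Finset.mem_univ c) hc

private theorem hfb_frobZ (p : ℕ) (hp : p.Prime) (hpf : p ≠ f) (c : ZMod h) :
    ∃ d : PR D ℤ, (PR.e D c : PR D ℤ) ^ p = PR.e D (c + D.ind p) + (p : PR D ℤ) * d := by
  obtain ⟨d, hd⟩ : ∃ d : PR D ℤ, D.η c ^ p = D.η (c + D.ind p) + p * hfb_ev D d :=
    D.frob p hp hpf c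
  refine ⟨d, hfb_ev_inj D _ _ ?_⟩
  rw [map_pow, map_add, map_mul, hfb_ev_e, hfb_ev_e, map_natCast, hd]

/-! ### Over a field of characteristic `p` -/

private theorem hfb_map_e {S S' : Type*} [CommRing S] [CommRing S'] (φ : S →+* S') (c : ZMod h) :
    PR.map D φ (PR.e D c) = PR.e D c := by
  ext k
  rw [PR.map_apply, PR.e_apply, PR.e_apply]
  split_ifs <;> simp

private theorem hfb_map_sh {S S' : Type*} [CommRing S] [CommRing S'] (φ : S →+* S')
    (x : PR D S) : PR.map D φ (PR.sh D x) = PR.sh D (PR.map D φ x) := rfl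

private theorem hfb_iter {S : Type*} [CommRing S] (x : PR D S) (j : ℕ) (c : ZMod h) :
    ((PR.sh D)^[j] x) c = x (c - (j : ZMod h)) := by
  induction j generalizing c with
  | zero => rw [Function.iterate_zero, id, Nat.cast_zero, sub_zero]
  | succ j ih =>
    rw [Function.iterate_succ_apply', PR.sh_apply, ih]
    congr 1
    push_cast
    ring

/-- Translation of the coordinates. -/
private def hfb_tr {S : Type*} [CommRing S] (a : ZMod h) (x : PR D S) : PR D S := fun c => x (c - a)

private theorem hfb_tr_apply {S : Type*} [CommRing S] (a : ZMod h) (x : PR D S) (c : ZMod h) :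
    hfb_tr D a x c = x (c - a) := rfl

private theorem hfb_ind_one : D.ind 1 = 0 := by
  have h1 := D.ind_mul 1 1 (Nat.coprime_one_left f) (Nat.coprime_one_left f)
  rw [mul_one] at h1
  exact left_eq_add.1 h1

private theorem hfb_ind_pow (p : ℕ) (hp : p.Coprime f) (n : ℕ) :
    D.ind (p ^ n) = n * D.ind p := by
  induction n with
  | zero => rw [pow_zero, hfb_ind_one, Nat.cast_zero, zero_mul]
  | succ n ih =>
    rw [pow_succ, D.ind_mul _ _ (Nat.Coprime.pow_left n hp) hp, ih]
    push_cast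
    ring

section field

variable {k : Type} [Field k] (p n : ℕ) [Fact p.Prime] [CharP k p]

private theorem hfb_e_pow (hpf : p ≠ f) (c : ZMod h) :
    (PR.e D c : PR D k) ^ p = PR.e D (c + D.ind p) := by
  obtain ⟨d, hd⟩ := hfb_frobZ D p Fact.out hpf c
  have h1 := congrArg (PR.map D (Int.castRingHom k)) hd
  rw [map_pow, map_add, map_mul, hfb_map_e, hfb_map_e, map_natCast] at h1
  have h2 : ((p : ℕ) : PR D k) = 0 := by
    rw [← map_natCast (algebraMap k (PR D k)) p, CharP.cast_eq_zero, map_zero]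
  rw [h1, h2, zero_mul, add_zero]

private theorem hfb_e_pow_n (hpf : p ≠ f) (c : ZMod h) :
    (PR.e D c : PR D k) ^ (p ^ n) = PR.e D (c + D.ind (p ^ n)) := by
  have hco : p.Coprime f := (Nat.coprime_primes Fact.out D.hf).2 hpf
  induction n with
  | zero => rw [pow_zero, pow_one, hfb_ind_one, add_zero]
  | succ n ih =>
    rw [pow_succ, pow_mul, ih, hfb_e_pow D p hpf,
      D.ind_mul _ _ (Nat.Coprime.pow_left n hco) hco, add_assoc]

private theorem hfb_inj : Function.Injective (algebraMap k (PR D k)) := by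
  intro a b hab
  have h1 := congrFun hab (0 : ZMod h)
  rw [PR.algebraMap_apply, PR.algebraMap_apply] at h1
  exact neg_injective h1

private theorem hfb_sum_e (x : PR D k) : x = ∑ c, x c • (PR.e D c : PR D k) := by
  have h1 : ∀ (s : Finset (ZMod h)) (F : ZMod h → PR D k) (j : ZMod h),
      (∑ c ∈ s, F c) j = ∑ c ∈ s, F c j := by
    intro s F j
    classical
    induction s using Finset.induction_on with
    | empty => rw [Finset.sum_empty, Finset.sum_empty, PR.zero_apply]
    | insert a s ha ih => rw [Finset.sum_insert ha, Finset.sum_insert ha, PR.add_apply, ih]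
  ext j
  rw [h1, Finset.sum_eq_single j]
  · rw [PR.smul_apply, PR.e_apply, if_pos rfl, mul_one]
  · intro b _ hb
    rw [PR.smul_apply, PR.e_apply, if_neg hb.symm, mul_zero]
  · intro hj
    exact absurd (Finset.mem_univ j) hj

/-- The Frobenius law. -/
private theorem hfb_frob (hpf : p ≠ f) (hk : ∀ s : k, s ^ (p ^ n) = s) (x : PR D k)
    : x ^ (p ^ n) = hfb_tr D (D.ind (p ^ n)) x := by
  have : CharP (PR D k) p := charP_of_injective_algebraMap (hfb_inj D) p
  have h1 : x ^ (p ^ n) = ∑ c, x c • (PR.e D (c + D.ind (p ^ n)) : PR D k) := by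
    conv_lhs => rw [hfb_sum_e D x]
    rw [sum_pow_char_pow]
    refine Finset.sum_congr rfl fun c _ => ?_
    rw [smul_pow, hk, hfb_e_pow_n D p n hpf]
  have h2 : hfb_tr D (D.ind (p ^ n)) x =
      ∑ c, x c • (PR.e D (c + D.ind (p ^ n)) : PR D k) := by
    rw [hfb_sum_e D (hfb_tr D (D.ind (p ^ n)) x)]
    refine (Fintype.sum_equiv (Equiv.addRight (D.ind (p ^ n))) _ _ fun c => ?_).symm
    rw [hfb_tr_apply, Equiv.coe_addRight, add_sub_cancel_right]
  rw [h1, ← h2]

private theorem hfb_nrm (x : PR D k) :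
    PR.nrm D x = ∏ a : ZMod h, hfb_tr D a x := by
  unfold PR.nrm
  refine Finset.prod_bij' (fun i _ => (i : ZMod h)) (fun a _ => a.val) ?_ ?_ ?_ ?_ ?_
  · intro i _
    exact Finset.mem_univ _
  · intro a _
    exact Finset.mem_range.2 (ZMod.val_lt a)
  · intro i hi
    exact ZMod.val_cast_of_lt (Finset.mem_range.1 hi)
  · intro a _
    exact ZMod.natCast_zmod_val a
  · intro i _
    ext c
    rw [hfb_iter, hfb_tr_apply]

/-- If the index of `q` is not zero, then an element of norm zero is zero. -/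
private theorem hfb_nrm_zero (hpf : p ≠ f) (hk : ∀ s : k, s ^ (p ^ n) = s)
    (hj : D.ind (p ^ n) ≠ 0) (hq : 2 ≤ p ^ n) (x : PR D k) (hx : PR.nrm D x = 0) : x = 0 := by
  have h1 : ∀ i : ℕ, x ^ ((p ^ n) ^ i) = hfb_tr D (i * D.ind (p ^ n)) x := by
    intro i
    induction i with
    | zero =>
      rw [pow_zero, pow_one]
      ext c
      rw [hfb_tr_apply, Nat.cast_zero, zero_mul, sub_zero]
    | succ i ih =>
      rw [pow_succ, pow_mul, ih]
      ext c
      rw [hfb_frob D p n hpf hk, hfb_tr_apply, hfb_tr_apply, hfb_tr_apply]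
      congr 1
      push_cast
      ring
  have h2 : x ^ ((p ^ n) ^ h) = x := by
    rw [h1 h]
    ext c
    rw [hfb_tr_apply, ZMod.natCast_self, zero_mul, sub_zero]
  have h3 : x ^ (∑ i ∈ Finset.range h, (p ^ n) ^ i) = 0 := by
    rw [← Finset.prod_pow_eq_pow_sum, ← hx, hfb_nrm]
    rw [← Equiv.prod_comp (Equiv.mulRight₀ (D.ind (p ^ n)) hj)]
    symm
    refine Finset.prod_bij' (fun a _ => ZMod.val a) (fun i _ => (i : ZMod h)) ?_ ?_ ?_ ?_ ?_
    · intro a _
      exact Finset.mem_range.2 (ZMod.val_lt a)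
    · intro i _
      exact Finset.mem_univ _
    · intro a _
      exact ZMod.natCast_zmod_val a
    · intro i hi
      exact ZMod.val_cast_of_lt (Finset.mem_range.1 hi)
    · intro a _
      rw [h1, ZMod.natCast_zmod_val]
      rfl
  have h4 : ∑ i ∈ Finset.range h, (p ^ n) ^ i < (p ^ n) ^ h :=
    Nat.geomSum_lt hq fun i hi => Finset.mem_range.1 hi
  rw [← h2]
  exact pow_eq_zero_of_le h4.le h3

private theorem hfb_nrm_ne (hpf : p ≠ f) (hk : ∀ s : k, s ^ (p ^ n) = s)
    (hj : D.ind (p ^ n) ≠ 0) (hq : 2 ≤ p ^ n) (x : PR D k) (hx : x ≠ 0) :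
    -(PR.nrm D x) 0 ≠ 0 := by
  intro h0
  apply hx
  apply hfb_nrm_zero D p n hpf hk hj hq
  rw [PR.nrm_eq, h0, map_zero]

omit [Fact h.Prime] in
private theorem hfb_h3 [Fact h.Prime] (D : PerData h f) : 3 ≤ h := by
  have h1 : h.Prime := Fact.out
  have h2 := h1.two_le
  have h3 := D.hodd
  omega

private theorem hfb_01 : (0 : ZMod h) ≠ 1 := by
  have : Nontrivial (ZMod h) := inferInstance
  exact zero_ne_one

/-- The height form does not vanish over the residue field of an inert prime. -/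
private theorem hfb_Df_ne (hpf : p ≠ f) (hk : ∀ s : k, s ^ (p ^ n) = s)
    (hj : D.ind (p ^ n) ≠ 0) (hq : 2 ≤ p ^ n) (g : ℕ) (x : k) : Df D g x ≠ 0 := by
  intro h0
  have h1 : PR.nrm D ((algebraMap k (PR D k) x - PR.e D 0) ^ 2 + (g : PR D k)) = 0 := by
    rw [← Df_spec, h0, map_zero]
  have h2 := hfb_nrm_zero D p n hpf hk hj hq _ h1
  have h3 : (algebraMap k (PR D k) x - PR.e D 1) ^ 2 + (g : PR D k) = 0 := by
    have h4 := congrArg (PR.sh D) h2
    rw [map_add, map_pow, map_sub, map_natCast, map_zero] at h4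
    have e1 : PR.sh D (algebraMap k (PR D k) x) = algebraMap k (PR D k) x := by
      ext c
      simp
    have e2 : PR.sh D (PR.e D 0 : PR D k) = PR.e D 1 := by
      ext c
      rw [PR.sh_apply, PR.e_apply, PR.e_apply]
      simp only [sub_eq_zero]
    rw [e1, e2] at h4
    exact h4
  have h5 : ((PR.e D 1 : PR D k) - PR.e D 0) *
      (2 * algebraMap k (PR D k) x - PR.e D 0 - PR.e D 1) = 0 := by
    linear_combination h2 - h3
  have h7 : PR.nrm D (0 : PR D k) = 0 := by
    unfold PR.nrm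
    exact Finset.prod_eq_zero (Finset.mem_range.2 (Nat.Prime.pos Fact.out : 0 < h)) rfl
  have h01 := hfb_01 (h := h)
  have n1 : (PR.e D 1 : PR D k) - PR.e D 0 ≠ 0 := by
    intro hz
    have := congrFun hz (1 : ZMod h)
    rw [PR.sub_apply, PR.e_apply, PR.e_apply, if_pos rfl, if_neg h01.symm, sub_zero] at this
    exact one_ne_zero this
  have n2 : 2 * algebraMap k (PR D k) x - PR.e D 0 - PR.e D 1 ≠ 0 := by
    intro hz
    have e0 : ∀ c : ZMod h, (2 * algebraMap k (PR D k) x - PR.e D 0 - PR.e D 1 : PR D k) c =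
        -(2 * x) - (if c = 0 then 1 else 0) - (if c = 1 then 1 else 0) := by
      intro c
      have e3 : (2 : PR D k) * algebraMap k (PR D k) x = algebraMap k (PR D k) (2 * x) := by
        rw [map_mul, map_ofNat]
      rw [e3, PR.sub_apply, PR.sub_apply, PR.algebraMap_apply, PR.e_apply, PR.e_apply]
    have q1 := congrFun hz (0 : ZMod h)
    have q2 := congrFun hz (2 : ZMod h)
    have h20 : (2 : ZMod h) ≠ 0 := by
      intro h9
      have h10 : ((2 : ℕ) : ZMod h) = 0 := by exact_mod_cast h9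
      rw [ZMod.natCast_eq_zero_iff] at h10
      have := Nat.le_of_dvd (by norm_num) h10
      have := hfb_h3 D
      omega
    have h21 : (2 : ZMod h) ≠ 1 := by
      intro h9
      have h10 : (1 : ZMod h) = 0 := by linear_combination h9
      exact h01 h10.symm
    rw [e0, if_pos rfl, if_neg h01, PR.zero_apply] at q1
    rw [e0, if_neg h20, if_neg h21, PR.zero_apply] at q2
    have : (1 : k) = 0 := by linear_combination q2 - q1
    exact one_ne_zero this
  have m1 := hfb_nrm_ne D p n hpf hk hj hq _ n1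
  have m2 := hfb_nrm_ne D p n hpf hk hj hq _ n2
  apply mul_ne_zero m1 m2
  apply hfb_inj D
  rw [map_mul, ← PR.nrm_eq, ← PR.nrm_eq, ← PR.nrm_mul, h5, map_zero, h7]

/-- The height form does not vanish over `ZMod p` if `-g` is not a square and the index of `p` is
zero. -/
private theorem hfb_Df_ne' (hpf : p ≠ f) (hk : ∀ s : k, s ^ p = s) (hj : D.ind p = 0) (g : ℕ)
    (hg : ¬ IsSquare (((-(g : ℤ)) : ℤ) : ZMod p)) (x : k) : Df D g x ≠ 0 := by
  intro h0
  have hk1 : ∀ s : k, s ^ p ^ 1 = s := by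
    intro s
    rw [pow_one, hk]
  set b : PR D k := algebraMap k (PR D k) x - PR.e D 0 with hb
  have hbp : b ^ p = b := by
    have h1 := hfb_frob D p 1 hpf hk1 b
    rw [pow_one, hj] at h1
    rw [h1]
    ext c
    rw [hfb_tr_apply, sub_zero]
  set y : PR D k := b ^ 2 + (g : PR D k) with hy
  have hp2 : p ≠ 2 := by
    rintro rfl
    apply hg
    have hsq : ∀ z : ZMod 2, IsSquare z := by
      intro z
      fin_cases z
      · exact ⟨0, rfl⟩
      · exact ⟨1, rfl⟩
    exact hsq _
  have hpodd : p % 2 = 1 := by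
    rcases Nat.Prime.eq_two_or_odd (Fact.out : p.Prime) with h1 | h1
    · exact absurd h1 hp2
    · exact h1
  have hp3 : 2 ≤ p := (Fact.out : p.Prime).two_le
  have hg0 : (((-(g : ℤ)) : ℤ) : ZMod p) ≠ 0 := by
    intro h1
    apply hg
    rw [h1]
    exact ⟨0, by rw [mul_zero]⟩
  have heul : (((-(g : ℤ)) : ℤ) : ZMod p) ^ (p / 2) = -1 := by
    rcases ZMod.pow_div_two_eq_neg_one_or_one p hg0 with h1 | h1
    · exact absurd ((ZMod.euler_criterion p hg0).2 h1) hg
    · exact h1
  have heulk : (-(g : k)) ^ (p / 2) = -1 := by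
    have h1 := congrArg (ZMod.castHom (dvd_refl p) k) heul
    rw [map_pow, map_intCast, map_neg, map_one] at h1
    push_cast at h1
    exact h1
  have hgk : (g : k) ≠ 0 := by
    intro h1
    rw [h1, neg_zero, zero_pow (by omega)] at heulk
    have : (1 : k) = 0 := by linear_combination heulk
    exact one_ne_zero this
  have h2k : (2 : k) ≠ 0 := by
    intro h1
    have h2 : ((2 : ℕ) : k) = 0 := by exact_mod_cast h1
    rw [CharP.cast_eq_zero_iff k p] at h2
    have := Nat.le_of_dvd (by norm_num) h2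
    have := (Fact.out : p.Prime).two_le
    omega
  obtain ⟨w, hw⟩ : y ∣ (b ^ 2) ^ (p / 2) - (-(g : PR D k)) ^ (p / 2) := by
    have h1 := sub_dvd_pow_sub_pow (b ^ 2) (-(g : PR D k)) (p / 2)
    rwa [sub_neg_eq_add] at h1
  have hgB : (-(g : PR D k)) ^ (p / 2) = -1 := by
    have h1 := congrArg (algebraMap k (PR D k)) heulk
    rw [map_pow, map_neg, map_neg, map_natCast, map_one] at h1
    exact h1
  have h3 : b = b * (b ^ 2) ^ (p / 2) := by
    conv_lhs => rw [← hbp]
    rw [← pow_mul, ← pow_succ']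
    congr 1
    omega
  rw [hgB] at hw
  have h4 : 2 * b = y * (b * w) := by linear_combination h3 + b * hw
  have h5 : y * (4 - y * (b * w) ^ 2) = 4 * (g : PR D k) := by
    rw [hy] at h4 ⊢
    linear_combination (2 * b + (b ^ 2 + (g : PR D k)) * (b * w)) * h4
  have hu : IsUnit (4 * (g : PR D k)) := by
    have h6 : 4 * (g : PR D k) = algebraMap k (PR D k) (4 * g) := by
      rw [map_mul, map_ofNat, map_natCast]
    rw [h6]
    apply RingHom.isUnit_map
    rw [isUnit_iff_ne_zero]
    have : (4 : k) = 2 * 2 := by norm_num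
    rw [this]
    exact mul_ne_zero (mul_ne_zero h2k h2k) hgk
  have huy : IsUnit y := isUnit_of_mul_isUnit_left (h5 ▸ hu)
  have hun : IsUnit (PR.nrm D y) := by
    unfold PR.nrm
    refine Finset.prod_induction _ IsUnit (fun a b ha hb => ha.mul hb) isUnit_one ?_
    intro i _
    have : ∀ (j : ℕ) (z : PR D k), IsUnit z → IsUnit ((PR.sh D)^[j] z) := by
      intro j
      induction j with
      | zero => exact fun z hz => hz
      | succ j ih =>
        intro z hz
        rw [Function.iterate_succ_apply]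
        exact ih _ (hz.map (PR.sh D))
    exact this i y huy
  have h7 : PR.nrm D y = 0 := by
    rw [← Df_spec, h0, map_zero]
  rw [h7] at hun
  have : Nontrivial (PR D k) := (hfb_inj D).nontrivial
  exact not_isUnit_zero hun

end field

/-! ### The residue field of `v` -/

section res

variable (v : HeightOneSpectrum (𝓞 K))

/-- The valuation ring. -/
private noncomputable abbrev HfbA : ValuationSubring K := (v.valuation K).valuationSubring

/-- The residue field. -/
private noncomputable abbrev HfbK : Type := IsLocalRing.ResidueField (HfbA v)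

private theorem hfb_mem (x : K) : x ∈ HfbA v ↔ v.valuation K x ≤ 1 := Iff.rfl

private theorem hfb_res (a : HfbA v) :
    IsLocalRing.residue (HfbA v) a = 0 ↔ v.valuation K (a : K) < 1 := by
  rw [IsLocalRing.residue_eq_zero_iff, IsLocalRing.mem_maximalIdeal, mem_nonunits_iff,
    (Valuation.valuationSubring.integers (v.valuation K)).isUnit_iff_valuation_eq_one]
  constructor
  · intro h1
    exact lt_of_le_of_ne a.2 h1
  · intro h1
    exact h1.ne

private theorem hfb_res_one (a : HfbA v) :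
    IsLocalRing.residue (HfbA v) a ≠ 0 ↔ v.valuation K (a : K) = 1 := by
  rw [Ne, hfb_res]
  constructor
  · intro h1
    exact le_antisymm a.2 (not_lt.1 h1)
  · intro h1 h2
    exact h2.ne h1

/-- The integers of `K` in the valuation ring. -/
private noncomputable def hfb_O (r : 𝓞 K) : HfbA v := ⟨algebraMap (𝓞 K) K r, v.valuation_le_one r⟩

private theorem hfb_O_res (r : 𝓞 K) :
    IsLocalRing.residue (HfbA v) (hfb_O v r) = 0 ↔ r ∈ v.asIdeal := by
  rw [hfb_res]
  exact v.valuation_lt_one_iff_mem (K := K) r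

private theorem hfb_surj (s : HfbK v) :
    ∃ r : 𝓞 K, IsLocalRing.residue (HfbA v) (hfb_O v r) = s := by
  obtain ⟨a, rfl⟩ := IsLocalRing.residue_surjective s
  obtain ⟨r, hr⟩ := v.exists_valuation_sub_lt_of_integer (K := K) a.2 1
  rw [Units.val_one] at hr
  refine ⟨r, ?_⟩
  rw [← sub_eq_zero, ← map_sub, hfb_res]
  exact hr

private theorem hfb_pow_mem (r : 𝓞 K) : r ^ nm v - r ∈ v.asIdeal := by
  classical
  have hcard : Nat.card (𝓞 K ⧸ v.asIdeal) = nm v := by
    unfold nm
    rw [Ideal.absNorm_apply, Submodule.cardQuot_apply]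
  have hfin : Finite (𝓞 K ⧸ v.asIdeal) := by
    apply Nat.finite_of_card_ne_zero
    rw [hcard]
    exact (nm_pos v).ne'
  have : v.asIdeal.IsMaximal := v.isMaximal
  let F : Field (𝓞 K ⧸ v.asIdeal) := Ideal.Quotient.field v.asIdeal
  let ft : Fintype (𝓞 K ⧸ v.asIdeal) := Fintype.ofFinite _
  have h1 := FiniteField.pow_card (Ideal.Quotient.mk v.asIdeal r)
  rw [← Nat.card_eq_fintype_card, hcard, ← map_pow, ← sub_eq_zero, ← map_sub,
    Ideal.Quotient.eq_zero_iff_mem] at h1
  exact h1

private theorem hfb_pow (s : HfbK v) : s ^ nm v = s := by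
  obtain ⟨r, rfl⟩ := hfb_surj v s
  rw [← sub_eq_zero, ← map_pow, ← map_sub]
  exact (hfb_O_res v (r ^ nm v - r)).2 (hfb_pow_mem v r)

private theorem hfb_char : ∃ p n : ℕ, p.Prime ∧ CharP (HfbK v) p ∧ nm v = p ^ n ∧
    ((p : ℕ) : 𝓞 K) ∈ v.asIdeal := by
  classical
  have hcard : Nat.card (𝓞 K ⧸ v.asIdeal) = nm v := by
    unfold nm
    rw [Ideal.absNorm_apply, Submodule.cardQuot_apply]
  have hfin : Finite (𝓞 K ⧸ v.asIdeal) := by
    apply Nat.finite_of_card_ne_zero
    rw [hcard]
    exact (nm_pos v).ne'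
  have : v.asIdeal.IsMaximal := v.isMaximal
  let F : Field (𝓞 K ⧸ v.asIdeal) := Ideal.Quotient.field v.asIdeal
  let ft : Fintype (𝓞 K ⧸ v.asIdeal) := Fintype.ofFinite _
  obtain ⟨p, hp⟩ := CharP.exists (𝓞 K ⧸ v.asIdeal)
  obtain ⟨n, hp1, hn⟩ := FiniteField.card (𝓞 K ⧸ v.asIdeal) p
  have h1 : ((p : ℕ) : 𝓞 K) ∈ v.asIdeal := by
    rw [← Ideal.Quotient.eq_zero_iff_mem, map_natCast]
    exact CharP.cast_eq_zero _ p
  have h2 : ((p : ℕ) : HfbK v) = 0 := by
    have h3 := (hfb_O_res v ((p : ℕ) : 𝓞 K)).2 h1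
    rw [← h3, ← map_natCast (IsLocalRing.residue (HfbA v)) p]
    congr 1
  refine ⟨p, n, hp1, ?_, ?_, h1⟩
  · exact (CharP.charP_iff_prime_eq_zero hp1).2 h2
  · rw [← hcard, Nat.card_eq_fintype_card, hn]

/-- The lift of an element with integral coordinates. -/
private noncomputable def hfb_lift (x : PR D K) (hx : ∀ c, v.valuation K (x c) ≤ 1) : PR D (HfbA v) :=
  fun c => ⟨x c, hx c⟩

private theorem hfb_lift_map (x : PR D K) (hx : ∀ c, v.valuation K (x c) ≤ 1) :
    PR.map D (HfbA v).subtype (hfb_lift D v x hx) = x := rfl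

private theorem hfb_map_alg {S S' : Type*} [CommRing S] [CommRing S'] (φ : S →+* S') (s : S) :
    PR.map D φ (algebraMap S (PR D S) s) = algebraMap S' (PR D S') (φ s) := by
  ext c
  rw [PR.map_apply, PR.algebraMap_apply, PR.algebraMap_apply, map_neg]

private theorem hfb_map_iter {S S' : Type*} [CommRing S] [CommRing S'] (φ : S →+* S')
    (x : PR D S) (j : ℕ) : PR.map D φ ((PR.sh D)^[j] x) = (PR.sh D)^[j] (PR.map D φ x) := by
  ext c
  rw [PR.map_apply, hfb_iter, hfb_iter, PR.map_apply]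

private theorem hfb_val (z : PR D (HfbA v)) (c : ZMod h) :
    v.valuation K ((PR.map D (HfbA v).subtype z) c) < 1 ↔
      (PR.map D (IsLocalRing.residue (HfbA v)) z) c = 0 := by
  rw [PR.map_apply, PR.map_apply, hfb_res]
  rfl

end res

/-- **Frobenius law modulo `v`**. For `x` with `v`-integral coordinates, `q = N(v)`, `v` not above `f`:
`x^q ≡ σ^(ind q) x mod v` (all coordinates of the difference have valuation `< 1`).
PROOF. `q = p^k`. `D.frob` gives integers `d` with `e_c^p = e_(c + ind p) + p d` in `PR D ℤ` (compare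
real numbers, `PR.int_eq_of_sum`), so modulo `v` `e_c^p ≡ e_(c + ind p)`, iterate: `e_c^q ≡ e_(c + ind q)`
(`ind_mul`), and `(∑ x_c e_c)^q ≡ ∑ x_c^q e_c^q`, `x_c^q ≡ x_c mod v` for `x_c` in the valuation ring
(residue field with `q` elements). -/
theorem frobK (v : HeightOneSpectrum (𝓞 K)) (hv : ((f : ℕ) : 𝓞 K) ∉ v.asIdeal) (x : PR D K)
    (hx : ∀ c, v.valuation K (x c) ≤ 1) (c : ZMod h) :
    v.valuation K ((x ^ nm v - (PR.sh D)^[(D.ind (nm v)).val] x) c) < 1 := by
  obtain ⟨p, n, hp, hch, hn, hpv⟩ := hfb_char v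
  have hp' : Fact p.Prime := ⟨hp⟩
  have hpf : p ≠ f := by
    rintro rfl
    exact hv hpv
  set X := hfb_lift D v x hx with hX
  have h1 : x ^ nm v - (PR.sh D)^[(D.ind (nm v)).val] x = PR.map D (HfbA v).subtype
      (X ^ nm v - (PR.sh D)^[(D.ind (nm v)).val] X) := by
    rw [map_sub, map_pow, hfb_map_iter, hX, hfb_lift_map]
  rw [h1, hfb_val, map_sub, map_pow, hfb_map_iter, hn]
  have hk : ∀ s : HfbK v, s ^ (p ^ n) = s := by
    intro s
    rw [← hn]
    exact hfb_pow v s
  rw [hfb_frob D p n hpf hk, PR.sub_apply, hfb_tr_apply, hfb_iter, ZMod.natCast_zmod_val, sub_self]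

private theorem hfb_val_unit (v : HeightOneSpectrum (𝓞 K)) (hv : Inert D v) (x : PR D K)
    (hx : ∀ c, v.valuation K (x c) ≤ 1) (c₀ : ZMod h) (h0 : v.valuation K (x c₀) = 1) :
    v.valuation K (-(PR.nrm D x) 0) = 1 := by
  obtain ⟨p, n, hp, hch, hn, hpv⟩ := hfb_char v
  have hp' : Fact p.Prime := ⟨hp⟩
  have hpf : p ≠ f := by
    rintro rfl
    exact hv.1 hpv
  have hk : ∀ s : HfbK v, s ^ (p ^ n) = s := by
    intro s
    rw [← hn]
    exact hfb_pow v s
  have hj : D.ind (p ^ n) ≠ 0 := by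
    rw [← hn]
    exact hv.2
  have hq : 2 ≤ p ^ n := by
    rw [← hn]
    exact two_le_nm v
  set X := hfb_lift D v x hx with hX
  have h1 : PR.map D (IsLocalRing.residue (HfbA v)) X ≠ 0 := by
    intro h2
    have h3 := congrFun h2 c₀
    have h4 := (hfb_val D v X c₀).2 h3
    rw [hX, hfb_lift_map] at h4
    exact h4.ne h0
  have h2 := hfb_nrm_ne D p n hpf hk hj hq _ h1
  rw [← PR.map_nrm, PR.map_apply, ← map_neg, hfb_res_one] at h2
  have h3 : -(PR.nrm D x) 0 = ((-(PR.nrm D X) 0 : HfbA v) : K) := by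
    have h4 : PR.nrm D x = PR.map D (HfbA v).subtype (PR.nrm D X) := by
      rw [PR.map_nrm, hX, hfb_lift_map]
    rw [h4, PR.map_apply]
    rfl
  rw [h3]
  exact h2

/-- **The norm at an inert prime.** `v (value of nrm x) = (max_c v (x c))^h`.
PROOF. `x = 0` is clear. Scale (`PR.nrm` is multiplicative, `π` a uniformizer) to `max_c v (x c) = 1`.
`≤` is clear (the coordinates of a product of elements with `v`-integral coordinates are
`v`-integral). Suppose `v (nrm x) < 1`, i.e. `nrm x ≡ 0 mod v`. Let `j = ind N(v) ≠ 0`; `j` generates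
`ZMod h`, so `nrm x = ∏_{i<h} σ^(i j) x ≡ ∏ x^(q^i) = x^(1 + q + ... + q^(h-1))` modulo `v` (`frobK`
iterated), hence `x^M ≡ 0`, `M = 1 + ... + q^(h-1)`, and `x = σ^(h j) x ≡ x^(q^h) ≡ 0 mod v` as
`q^h ≥ M`. Contradiction. -/
theorem val_nrm (v : HeightOneSpectrum (𝓞 K)) (hv : Inert D v) (x : PR D K) :
    v.valuation K (-(PR.nrm D x) 0) = (Finset.univ.sup fun c => v.valuation K (x c)) ^ h := by
  have hh : h ≠ 0 := (Fact.out : h.Prime).ne_zero
  obtain ⟨c₀, -, hc₀⟩ := Finset.exists_mem_eq_sup (Finset.univ : Finset (ZMod h))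
    Finset.univ_nonempty (fun c => v.valuation K (x c))
  have hmax : ∀ c, v.valuation K (x c) ≤ v.valuation K (x c₀) := by
    intro c
    rw [← hc₀]
    exact Finset.le_sup (f := fun c => v.valuation K (x c)) (Finset.mem_univ c)
  rw [hc₀]
  by_cases h0 : x c₀ = 0
  · have hx : x = 0 := by
      ext c
      have := hmax c
      rw [h0, map_zero, le_zero_iff, map_eq_zero] at this
      rw [this, PR.zero_apply]
    have h1 : PR.nrm D (0 : PR D K) = 0 := by
      unfold PR.nrm
      exact Finset.prod_eq_zero (Finset.mem_range.2 (Nat.pos_of_ne_zero hh)) rfl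
    rw [h0, map_zero, zero_pow hh, hx, h1, PR.zero_apply, neg_zero, map_zero]
  · have hv0 : v.valuation K (x c₀) ≠ 0 := (map_ne_zero _).2 h0
    set y : PR D K := (x c₀)⁻¹ • x with hy
    have hxy : x = algebraMap K (PR D K) (x c₀) * y := by
      rw [← Algebra.smul_def, hy, smul_smul, mul_inv_cancel₀ h0, one_smul]
    have hy1 : ∀ c, v.valuation K (y c) ≤ 1 := by
      intro c
      rw [hy, PR.smul_apply, map_mul, map_inv₀, inv_mul_le_one₀ (zero_lt_iff.2 hv0)]
      exact hmax c
    have hy0 : v.valuation K (y c₀) = 1 := by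
      rw [hy, PR.smul_apply, inv_mul_cancel₀ h0, map_one]
    have h1 := hfb_val_unit D v hv y hy1 c₀ hy0
    have h2 : -(PR.nrm D x) 0 = (x c₀) ^ h * (-(PR.nrm D y) 0) := by
      have h3 : PR.nrm D x = algebraMap K (PR D K) ((x c₀) ^ h * (-(PR.nrm D y) 0)) := by
        conv_lhs => rw [hxy]
        rw [PR.nrm_mul, PR.nrm_algebraMap, PR.nrm_eq D y, map_mul, PR.algebraMap_apply, neg_neg]
      rw [h3, PR.algebraMap_apply, neg_neg]
    rw [h2, map_mul, h1, mul_one, map_pow]

/-- Norm one elements are integral at the inert primes (`val_nrm`). -/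
theorem int_of_nrm_one (v : HeightOneSpectrum (𝓞 K)) (hv : Inert D v) (x : PR D K)
    (hx : PR.nrm D x = 1) (c : ZMod h) : v.valuation K (x c) ≤ 1 := by
  have hh : h ≠ 0 := (Fact.out : h.Prime).ne_zero
  have h1 := val_nrm D v hv x
  rw [hx, PR.one_apply, neg_neg, map_one] at h1
  have h2 : v.valuation K (x c) ≤ Finset.univ.sup fun c => v.valuation K (x c) :=
    Finset.le_sup (f := fun c => v.valuation K (x c)) (Finset.mem_univ c)
  by_contra h3
  have h4 := one_lt_pow₀ ((not_le.1 h3).trans_le h2) hh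
  exact h4.ne h1

private theorem hfb_Df_int (g : ℕ) (v : HeightOneSpectrum (𝓞 K)) (x : K)
    (hx : v.valuation K x ≤ 1) : v.valuation K (Df D g x) ≤ 1 ∧
      (Df D g (IsLocalRing.residue (HfbA v) ⟨x, hx⟩) ≠ 0 → v.valuation K (Df D g x) = 1) := by
  have h1 : Df D g x = ((Df D g (⟨x, hx⟩ : HfbA v) : HfbA v) : K) :=
    (Df_map D (HfbA v).subtype g (⟨x, hx⟩ : HfbA v)).symm
  constructor
  · rw [h1]
    exact (Df D g (⟨x, hx⟩ : HfbA v)).2
  · intro h2
    rw [← Df_map, hfb_res_one] at h2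
    rw [h1]
    exact h2

private theorem hfb_Df_gt (g : ℕ) (v : HeightOneSpectrum (𝓞 K)) (x : K)
    (hx : 1 < v.valuation K x) : v.valuation K (Df D g x) = v.valuation K x ^ (2 * h) := by
  have hx0 : x ≠ 0 := by
    rintro rfl
    rw [map_zero] at hx
    exact absurd hx (by simp)
  have hu : v.valuation K x⁻¹ < 1 := by
    rw [map_inv₀]
    exact inv_lt_one_of_one_lt₀ hx
  let u : HfbA v := ⟨x⁻¹, hu.le⟩
  have hu0 : IsLocalRing.residue (HfbA v) u = 0 := (hfb_res v u).2 hu
  let Y : PR D (HfbA v) := (1 - algebraMap _ _ u * PR.e D 0) ^ 2 + algebraMap _ _ ((g : HfbA v) * u ^ 2)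
  have hY1 : PR.map D (IsLocalRing.residue (HfbA v)) Y = 1 := by
    simp only [Y]
    rw [map_add, map_pow, map_sub, map_mul, hfb_map_alg, hfb_map_alg, hu0, map_mul, map_pow, hu0]
    simp
  have hY2 : v.valuation K (-(PR.nrm D (PR.map D (HfbA v).subtype Y)) 0) = 1 := by
    have h2 : IsLocalRing.residue (HfbA v) (-(PR.nrm D Y) 0) ≠ 0 := by
      rw [map_neg, ← PR.map_apply, PR.map_nrm, hY1, PR.nrm_one, PR.one_apply, neg_neg]
      exact one_ne_zero
    rw [hfb_res_one] at h2
    rw [← PR.map_nrm, PR.map_apply]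
    exact h2
  have hY3 : PR.map D (HfbA v).subtype Y =
      (1 - algebraMap K (PR D K) x⁻¹ * PR.e D 0) ^ 2 + algebraMap K (PR D K) ((g : K) * x⁻¹ ^ 2) := by
    simp only [Y]
    rw [map_add, map_pow, map_sub, map_mul, hfb_map_alg, hfb_map_alg, hfb_map_e, map_one, map_mul,
      map_pow, map_natCast]
    rfl
  have h3 : (algebraMap K (PR D K) x - PR.e D 0) ^ 2 + (g : PR D K) =
      algebraMap K (PR D K) (x ^ 2) * PR.map D (HfbA v).subtype Y := by
    have e1 : algebraMap K (PR D K) x * algebraMap K (PR D K) x⁻¹ = 1 := by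
      rw [← map_mul, mul_inv_cancel₀ hx0, map_one]
    rw [hY3, map_mul, map_pow, map_pow, map_natCast]
    linear_combination ((g : PR D K) * (-1 - algebraMap K (PR D K) x * algebraMap K (PR D K) x⁻¹) +
      2 * algebraMap K (PR D K) x * PR.e D 0 - (PR.e D 0) ^ 2 * (1 +
      algebraMap K (PR D K) x * algebraMap K (PR D K) x⁻¹)) * e1
  have h4 : Df D g x = x ^ (2 * h) * (-(PR.nrm D (PR.map D (HfbA v).subtype Y)) 0) := by
    have h5 : algebraMap K (PR D K) (Df D g x) = algebraMap K (PR D K)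
        (x ^ (2 * h) * (-(PR.nrm D (PR.map D (HfbA v).subtype Y)) 0)) := by
      rw [Df_spec, h3, PR.nrm_mul, PR.nrm_algebraMap, map_mul, ← PR.nrm_eq, ← pow_mul]
    have h6 := congrFun h5 (0 : ZMod h)
    rw [PR.algebraMap_apply, PR.algebraMap_apply] at h6
    exact neg_injective h6
  rw [h4, map_mul, hY2, mul_one, map_pow]

/-- For every `v`: the height form is monic and integral. If `v x ≤ 1` both sides are `1`; if
`v x > 1` then `(x - e_0)² + g = x² (1 - x⁻¹ e_0)² + ...`: `Df x = x^(2h) Df'` with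
`Df' = nrm ((1 - x⁻¹ e_0)² + g x⁻²) ≡ 1 mod v`. -/
theorem val_Df_le (g : ℕ) (v : HeightOneSpectrum (𝓞 K)) (x : K) :
    max 1 (v.valuation K (Df D g x)) = max 1 (v.valuation K x) ^ (2 * h) := by
  rcases le_or_gt (v.valuation K x) 1 with hx | hx
  · rw [max_eq_left (hfb_Df_int D g v x hx).1, max_eq_left hx, one_pow]
  · rw [max_eq_right hx.le, hfb_Df_gt D g v x hx]
    exact max_eq_right (one_le_pow₀ hx.le)

private theorem hfb_Df_all (g : ℕ) (v : HeightOneSpectrum (𝓞 K)) (x : K)
    (H : ∀ hx : v.valuation K x ≤ 1, Df D g (IsLocalRing.residue (HfbA v) ⟨x, hx⟩) ≠ 0) :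
    v.valuation K (Df D g x) = max 1 (v.valuation K x) ^ (2 * h) := by
  rcases le_or_gt (v.valuation K x) 1 with hx | hx
  · rw [(hfb_Df_int D g v x hx).2 (H hx), max_eq_left hx, one_pow]
  · rw [max_eq_right hx.le, hfb_Df_gt D g v x hx]

/-- At an inert prime not above `2`. PROOF. By `val_Df_le` it is enough that `v (Df x) = 1` for
`v x ≤ 1`, and by `val_nrm` that `y = (x - e_0)² + g` is not `≡ 0 mod v`. If `y ≡ 0` then
`y - σ y = (e_1 - e_0)(2 x - e_0 - e_1) ≡ 0`, so `nrm (e_1 - e_0) * nrm (2x - e_0 - e_1) ≡ 0 mod v`. But both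
norms are units at `v` by `val_nrm`: `e_1 - e_0` has a coordinate `1`; `2x - e_0 - e_1` has the
coordinates `-2x - 1` (twice) and `-2x` (`h ≥ 3`), whose difference is `1`. (`2` is not needed.) -/
theorem val_Df_inert (g : ℕ) (v : HeightOneSpectrum (𝓞 K)) (hv : Inert D v) (x : K) :
    v.valuation K (Df D g x) = max 1 (v.valuation K x) ^ (2 * h) := by
  obtain ⟨p, n, hp, hch, hn, hpv⟩ := hfb_char v
  have hp' : Fact p.Prime := ⟨hp⟩
  have hpf : p ≠ f := by
    rintro rfl
    exact hv.1 hpv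
  have hk : ∀ s : HfbK v, s ^ (p ^ n) = s := by
    intro s
    rw [← hn]
    exact hfb_pow v s
  have hj : D.ind (p ^ n) ≠ 0 := by
    rw [← hn]
    exact hv.2
  have hq : 2 ≤ p ^ n := by
    rw [← hn]
    exact two_le_nm v
  exact hfb_Df_all D g v x fun hx => hfb_Df_ne D p n hpf hk hj hq g _

/-- At a prime of degree one where `-g` is not a square. PROOF. Again let `v x ≤ 1`; suppose
`Df x ≡ 0 mod v`. The residue field is `ZMod l`. Let `k` be an algebraic closure of it (or any finite
field extension) and suppose first `v` is inert: `val_Df_inert`. In general: `y = (x - e_0)² + g`; it is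
enough that `y` is a unit modulo `v` in the finite ring `B = PR D (𝓞 K / v)` (then so is its norm).
Otherwise there is a maximal ideal `M` of `B` containing `y`; in the field `B/M` the element
`-g` is the square of `b = x - e_0`. If `ind l = 0` then the Frobenius law says `b^l = b`, so `b` is in
the prime field, `-g` is a square in `ZMod l`, a contradiction. -/
theorem val_Df_deg1 (g : ℕ) (v : HeightOneSpectrum (𝓞 K)) (hl : (nm v).Prime)
    (hf : ((f : ℕ) : 𝓞 K) ∉ v.asIdeal)
    (hg : ¬ IsSquare (((-(g : ℤ)) : ℤ) : ZMod (nm v))) (x : K) :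
    v.valuation K (Df D g x) = max 1 (v.valuation K x) ^ (2 * h) := by
  by_cases hj : D.ind (nm v) = 0
  · obtain ⟨p, n, hp, hch, hn, hpv⟩ := hfb_char v
    have hp' : Fact p.Prime := ⟨hp⟩
    have hpf : p ≠ f := by
      rintro rfl
      exact hf hpv
    have hpn : nm v = p := by
      have h1 : p ∣ nm v := by
        rw [hn]
        refine dvd_pow_self p ?_
        rintro rfl
        rw [pow_zero] at hn
        have := two_le_nm v
        omega
      exact ((Nat.prime_dvd_prime_iff_eq hp hl).1 h1).symm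
    have hk : ∀ s : HfbK v, s ^ p = s := by
      intro s
      rw [← hpn]
      exact hfb_pow v s
    rw [hpn] at hg hj
    exact hfb_Df_all D g v x fun hx => hfb_Df_ne' D p hpf hk hj g hg _
  · exact val_Df_inert D g v ⟨hf, hj⟩ x

end Pool.Agent.Lib.MP_673eb1_lc.HF
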