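import Pool.Agent.Lib.MP_673eb1_lc.DioC

/-!
MP_673eb1_lc, module DioF: number fields. `GoodR (Wring K W)` and the final single polynomial.
-/

set_option autoImplicit false

open NumberField IsDedekindDomain

namespace Pool.Agent.Lib.MP_673eb1_lc

variable {K : Type} [Field K] [NumberField K]

private theorem algebraMap_mem_Wring (W : Set (HeightOneSpectrum (𝓞 K))) (r : 𝓞 K) :
    algebraMap (𝓞 K) K r ∈ Wring K W := fun v _ => v.valuation_le_one r

private theorem natCast_not_unit (W : Set (HeightOneSpectrum (𝓞 K))) (p : ℕ)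
    (hp : ∃ v : HeightOneSpectrum (𝓞 K), v ∉ W ∧ ((p : ℕ) : 𝓞 K) ∈ v.asIdeal) {x : K}
    (hx : x ∈ Wring K W) : (1 : K) + p * x ≠ 0 := by
  obtain ⟨v, hv, hpv⟩ := hp
  intro h0
  have h1 : v.valuation K (p : K) < 1 := by
    have h5 : algebraMap (𝓞 K) K ((p : ℕ) : 𝓞 K) = (p : K) := map_natCast _ _
    rw [← h5]
    exact (v.valuation_lt_one_iff_mem (K := K) ((p : ℕ) : 𝓞 K)).2 hpv
  have h2 : (p : K) * x = -1 := by linear_combination h0
  have h3 : v.valuation K ((p : K) * x) = 1 := by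
    rw [h2, Valuation.map_neg, map_one]
  rw [map_mul] at h3
  have h4 : v.valuation K (p : K) * v.valuation K x < 1 :=
    mul_lt_one_of_lt_of_le h1 (hx v hv)
  exact h4.ne h3

/-- Two different rational primes `p₁, p₂` which are not units of `Wring K W`. For `x ∈ R`: `x ≠ 0` iff
there are `u, v, w ∈ R` with `x u = (1 + p₁ v) (1 + p₂ w)`. (If `x = 0` then `1 + p₁ v = 0` or
`1 + p₂ w = 0`, so `p₁` or `p₂` is a unit in `R`, which is false at the given primes. If `x ≠ 0` write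
`x = x₁ / x₂` with `x₁, x₂ ∈ 𝓞 K` nonzero; `N = |𝓞 K / x₁| ∈ x₁ 𝓞 K` is a positive integer,
`N = N₁ N₂` with `N₁` prime to `p₁`, `N₂` prime to `p₂`; use Bezout in `ℤ`.) -/
theorem goodR_Wring (W : Set (HeightOneSpectrum (𝓞 K))) (p₁ p₂ : ℕ) (hp₁ : p₁.Prime)
    (hp₂ : p₂.Prime) (hne : p₁ ≠ p₂)
    (h₁ : ∃ v : HeightOneSpectrum (𝓞 K), v ∉ W ∧ ((p₁ : ℕ) : 𝓞 K) ∈ v.asIdeal)
    (h₂ : ∃ v : HeightOneSpectrum (𝓞 K), v ∉ W ∧ ((p₂ : ℕ) : 𝓞 K) ∈ v.asIdeal) :
    GoodR (Wring K W) := by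
  have hfrac : ∀ x : K, ∃ a b : 𝓞 K, b ≠ 0 ∧ x = algebraMap (𝓞 K) K a / algebraMap (𝓞 K) K b := by
    intro x
    obtain ⟨a, b, hb, hab⟩ := IsFractionRing.div_surjective (A := 𝓞 K) x
    exact ⟨a, b, nonZeroDivisors.ne_zero hb, hab.symm⟩
  refine ⟨?_, ?_⟩
  · intro x
    obtain ⟨a, b, hb, hab⟩ := hfrac x
    refine ⟨_, algebraMap_mem_Wring W a, _, algebraMap_mem_Wring W b, ?_, hab⟩
    intro h0
    exact hb ((FaithfulSMul.algebraMap_injective (𝓞 K) K) (by rw [h0, map_zero]))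
  · have hset : {x : K | x ∈ Wring K W ∧ x ≠ 0} = {x : K | x ∈ Wring K W} ∩
        {x : K | ∃ w : Fin 3 → K, (∀ i, w i ∈ Wring K W) ∧ (x, w) ∈ {y : K × (Fin 3 → K) |
          y.1 * y.2 0 = (1 + (p₁ : K) * y.2 1) * (1 + (p₂ : K) * y.2 2)}} := by
      ext x
      constructor
      · rintro ⟨hx, hx0⟩
        refine ⟨hx, ?_⟩
        obtain ⟨x₁, x₂, hx₂, hxx⟩ := hfrac x
        have hx₂' : algebraMap (𝓞 K) K x₂ ≠ 0 := by
          intro h0
          exact hx₂ ((FaithfulSMul.algebraMap_injective (𝓞 K) K) (by rw [h0, map_zero]))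
        have hx₁ : x₁ ≠ 0 := by
          rintro rfl
          rw [map_zero, zero_div] at hxx
          exact hx0 hxx
        have hN0 : Ideal.absNorm (Ideal.span {x₁}) ≠ 0 := by
          rw [Ne, Ideal.absNorm_eq_zero_iff, Ideal.span_singleton_eq_bot]
          exact hx₁
        obtain ⟨y, hy⟩ := Ideal.mem_span_singleton'.1 (Ideal.absNorm_mem (Ideal.span {x₁}))
        obtain ⟨e, N₁, hN₁, hNe⟩ := Nat.exists_eq_pow_mul_and_not_dvd hN0 p₁ hp₁.ne_one
        have c1 : IsCoprime (N₁ : ℤ) (p₁ : ℤ) := by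
          rw [Nat.isCoprime_iff_coprime]
          exact ((Nat.Prime.coprime_iff_not_dvd hp₁).2 hN₁).symm
        have c2 : IsCoprime ((p₁ ^ e : ℕ) : ℤ) (p₂ : ℤ) := by
          rw [Nat.isCoprime_iff_coprime]
          exact Nat.Coprime.pow_left e ((Nat.coprime_primes hp₁ hp₂).2 hne)
        obtain ⟨a₁, b₁, hab₁⟩ := c1
        obtain ⟨a₂, b₂, hab₂⟩ := c2
        have k1 : (a₁ : K) * N₁ + b₁ * p₁ = 1 := by exact_mod_cast congrArg (Int.cast (R := K)) hab₁
        have k2 : (a₂ : K) * ((p₁ ^ e : ℕ) : K) + b₂ * p₂ = 1 := by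
          exact_mod_cast congrArg (Int.cast (R := K)) hab₂
        have k3 : algebraMap (𝓞 K) K y * algebraMap (𝓞 K) K x₁ = ((p₁ ^ e : ℕ) : K) * N₁ := by
          rw [← map_mul, hy, map_natCast, hNe]
          push_cast
          ring
        have hint : ∀ z : ℤ, (z : K) ∈ Wring K W := fun z => intCast_mem _ z
        refine ⟨![algebraMap (𝓞 K) K (x₂ * y) * ((a₁ * a₂ : ℤ) : K), ((-b₁ : ℤ) : K),
          ((-b₂ : ℤ) : K)], ?_, ?_⟩
        · intro i
          fin_cases i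
          · exact (Wring K W).mul_mem (algebraMap_mem_Wring W _) (hint _)
          · exact hint _
          · exact hint _
        · change x * (algebraMap (𝓞 K) K (x₂ * y) * ((a₁ * a₂ : ℤ) : K)) =
            (1 + (p₁ : K) * ((-b₁ : ℤ) : K)) * (1 + (p₂ : K) * ((-b₂ : ℤ) : K))
          have k4 : x * algebraMap (𝓞 K) K x₂ = algebraMap (𝓞 K) K x₁ := by
            rw [hxx, div_mul_cancel₀ _ hx₂']
          rw [map_mul]
          push_cast
          push_cast at k2 k3
          have e1 : (1 : K) + p₁ * -b₁ = a₁ * N₁ := by linear_combination -k1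
          have e2 : (1 : K) + p₂ * -b₂ = a₂ * p₁ ^ e := by linear_combination -k2
          rw [e1, e2]
          linear_combination (algebraMap (𝓞 K) K y * (a₁ * a₂)) * k4 + (a₁ * a₂ : K) * k3
      · rintro ⟨hx, w, hw, he⟩
        refine ⟨hx, ?_⟩
        rintro rfl
        change (0 : K) * w 0 = _ at he
        rw [zero_mul] at he
        rcases mul_eq_zero.1 he.symm with h | h
        · exact natCast_not_unit W p₁ h₁ (hw 1) h
        · exact natCast_not_unit W p₂ h₂ (hw 2) h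
    rw [hset]
    refine Dio.inter (Dio.memR IsPol.id) (Dio.exR (Dio.eq (W := K) ?_ ?_))
    · exact IsPol.fst.mul (IsPol.snd.apply 0)
    · exact ((IsPol.const 1).add ((IsPol.const _).mul (IsPol.snd.apply 1))).mul
        ((IsPol.const 1).add ((IsPol.const _).mul (IsPol.snd.apply 2)))

private theorem exists_nonsquare : ∃ c : K, ∀ y : K, y ^ 2 ≠ c := by
  obtain ⟨M, hM⟩ := Ideal.exists_maximal (𝓞 K)
  have hM0 : M ≠ ⊥ := Ring.ne_bot_of_isMaximal_of_not_isField hM (RingOfIntegers.not_isField K)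
  let v : HeightOneSpectrum (𝓞 K) := ⟨M, hM.isPrime, hM0⟩
  obtain ⟨π, hπ⟩ := v.valuation_exists_uniformizer K
  refine ⟨π, fun y hy => ?_⟩
  have h1 : v.valuation K y ^ 2 = WithZero.exp (-1 : ℤ) := by rw [← map_pow, hy, hπ]
  have h0 : v.valuation K y ≠ 0 := by
    intro h
    rw [h, zero_pow (by norm_num)] at h1
    exact WithZero.exp_ne_zero h1.symm
  have h2 := congrArg WithZero.log h1
  rw [WithZero.log_pow, WithZero.log_exp] at h2
  have h3 : 2 * WithZero.log (v.valuation K y) = -1 := by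
    rw [← h2]
    simp
  omega

private theorem clear_den {σ : Type} (f : MvPolynomial σ K) :
    ∃ (b : 𝓞 K) (F : MvPolynomial σ (𝓞 K)), b ≠ 0 ∧
      MvPolynomial.map (algebraMap (𝓞 K) K) F = MvPolynomial.C (algebraMap (𝓞 K) K b) * f := by
  induction f using MvPolynomial.induction_on with
  | C a =>
    obtain ⟨a₁, b₁, hb₁, hab⟩ := IsFractionRing.div_surjective (A := 𝓞 K) a
    have hb0 : b₁ ≠ 0 := nonZeroDivisors.ne_zero hb₁
    refine ⟨b₁, MvPolynomial.C a₁, hb0, ?_⟩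
    have hb' : algebraMap (𝓞 K) K b₁ ≠ 0 := by
      intro h0
      exact hb0 ((FaithfulSMul.algebraMap_injective (𝓞 K) K) (by rw [h0, map_zero]))
    rw [MvPolynomial.map_C, ← map_mul, ← hab, mul_div_cancel₀ _ hb']
  | add p q hp hq =>
    obtain ⟨b, F, hb, hF⟩ := hp
    obtain ⟨c, G, hc, hG⟩ := hq
    refine ⟨b * c, MvPolynomial.C c * F + MvPolynomial.C b * G, mul_ne_zero hb hc, ?_⟩
    rw [map_add, map_mul, map_mul, MvPolynomial.map_C, MvPolynomial.map_C, hF, hG, map_mul, map_mul]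
    ring
  | mul_X p i hp =>
    obtain ⟨b, F, hb, hF⟩ := hp
    refine ⟨b, F * MvPolynomial.X i, hb, ?_⟩
    rw [map_mul, MvPolynomial.map_X, hF]
    ring

private theorem one_equation {m : ℕ} (P : Set (K × (Fin m → K) → K)) (hP : P.Finite)
    (hpol : ∀ p ∈ P, p ∈ polFun K (K × (Fin m → K))) :
    ∃ f : MvPolynomial (Fin (m + 1)) K, ∀ (x : K) (z : Fin m → K),
      MvPolynomial.eval (Fin.cons x z) f = 0 ↔ ∀ p ∈ P, p (x, z) = 0 := by
  obtain ⟨c, hc⟩ := exists_nonsquare (K := K)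
  induction P, hP using Set.Finite.induction_on with
  | empty =>
    refine ⟨0, fun x z => ?_⟩
    rw [map_zero]
    exact ⟨fun _ p hp => absurd hp (Set.notMem_empty p), fun _ => rfl⟩
  | @insert a s ha _ ih =>
    obtain ⟨f, hf⟩ := ih fun p hp => hpol p (Set.mem_insert_of_mem _ hp)
    obtain ⟨g, hg⟩ := polFun_mvPolynomial (hpol a (Set.mem_insert _ _))
    refine ⟨f ^ 2 - MvPolynomial.C c * g ^ 2, fun x z => ?_⟩
    rw [map_sub, map_mul, map_pow, map_pow, MvPolynomial.eval_C, hg, Set.forall_mem_insert, ← hf x z]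
    constructor
    · intro h
      by_cases h1 : a (x, z) = 0
      · refine ⟨h1, ?_⟩
        rw [h1, zero_pow (by norm_num), mul_zero, sub_zero] at h
        exact pow_eq_zero_iff (by norm_num) |>.1 h
      · exfalso
        apply hc (MvPolynomial.eval (Fin.cons x z) f / a (x, z))
        rw [div_pow, div_eq_iff (pow_ne_zero 2 h1)]
        exact sub_eq_zero.1 h
    · rintro ⟨h1, h2⟩
      rw [h1, h2]
      ring

/-- The final form, exactly as in S14829. Finitely many equations over `K` are one equation: there is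
`c ∈ K` which is not a square (a uniformizer) and `x² - c y² = 0` iff `x = y = 0`, iterated. Clear
denominators. -/
theorem Dio.final (W : Set (HeightOneSpectrum (𝓞 K))) (S : Set K) (hS : Dio (Wring K W) S) :
    ∃ n : ℕ, ∃ F : MvPolynomial (Fin (n + 1)) (𝓞 K), ∀ x : K, (∀ v ∉ W, v.valuation K x ≤ 1) →
      (x ∈ S ↔ ∃ z : Fin (n + 1) → K, z 0 = x ∧
        (∀ i, ∀ v ∉ W, v.valuation K (z i) ≤ 1) ∧
        MvPolynomial.eval₂ (algebraMap (𝓞 K) K) z F = 0) := by
  obtain ⟨m, P, hP, hpol, h⟩ := hS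
  obtain ⟨f, hf⟩ := one_equation P hP hpol
  obtain ⟨b, F, hb, hF⟩ := clear_den f
  have hb' : algebraMap (𝓞 K) K b ≠ 0 := by
    intro h0
    exact hb ((FaithfulSMul.algebraMap_injective (𝓞 K) K) (by rw [h0, map_zero]))
  have hev : ∀ z : Fin (m + 1) → K, MvPolynomial.eval₂ (algebraMap (𝓞 K) K) z F = 0 ↔
      MvPolynomial.eval z f = 0 := by
    intro z
    rw [← MvPolynomial.eval_map, hF, map_mul, MvPolynomial.eval_C, mul_eq_zero, or_iff_right hb']
  refine ⟨m, F, fun x hx => ?_⟩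
  rw [h x]
  constructor
  · rintro ⟨z, hz, hp⟩
    refine ⟨Fin.cons x z, Fin.cons_zero _ _, ?_, ?_⟩
    · intro i
      refine Fin.cases ?_ (fun j => ?_) i
      · rw [Fin.cons_zero]
        exact hx
      · rw [Fin.cons_succ]
        exact hz j
    · rw [hev, hf]
      exact hp
  · rintro ⟨z, hz0, hz, he⟩
    refine ⟨Fin.tail z, fun i => hz i.succ, ?_⟩
    rw [← hf, ← hz0, Fin.cons_self_tail, ← hev]
    exact he

end Pool.Agent.Lib.MP_673eb1_lc
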