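import Pool.Agent.Lib.MP_673eb1_lc.Leg

/-!
MP_673eb1_lc, module Rep: representation of `1 + 4 l r ξ²` by `x² + r y² + l z²` over `ℚ`.
-/

set_option autoImplicit false

namespace Pool.Agent.Lib.MP_673eb1_lc

open scoped NumberTheorySymbols

/-- Dirichlet's theorem for two coprime moduli. -/
private theorem rep_dirichlet (m n a b N : ℕ) (hm : 0 < m) (hn : 0 < n) (hmn : m.Coprime n)
    (ha : a.Coprime m) (hb : b.Coprime n) :
    ∃ q > N, q.Prime ∧ q ≡ a [MOD m] ∧ q ≡ b [MOD n] := by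
  have : NeZero (m * n) := ⟨(Nat.mul_pos hm hn).ne'⟩
  obtain ⟨k, hk1, hk2⟩ := Nat.chineseRemainder hmn a b
  have h1 : k.Coprime m := by
    have h := Nat.ModEq.gcd_eq hk1
    unfold Nat.Coprime at ha ⊢
    rw [h, ha]
  have h2 : k.Coprime n := by
    have h := Nat.ModEq.gcd_eq hk2
    unfold Nat.Coprime at hb ⊢
    rw [h, hb]
  have hu : IsUnit ((k : ℕ) : ZMod (m * n)) :=
    (ZMod.isUnit_iff_coprime _ _).2 (Nat.Coprime.mul_right h1 h2)
  obtain ⟨q, hqN, hq, hqm⟩ := Nat.forall_exists_prime_gt_and_eq_mod hu N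
  have hmod : q ≡ k [MOD m * n] := (ZMod.natCast_eq_natCast_iff _ _ _).1 hqm
  exact ⟨q, hqN, hq, (hmod.of_mul_right n).trans hk1, (hmod.of_mul_left m).trans hk2⟩

/-- For a prime `l ≡ 1 mod 4` there is a prime `r ≡ 3 mod 4` which is not a square modulo `l`.
(There is a non square unit `u` modulo `l`; Dirichlet: `r ≡ u mod l`, `r ≡ 3 mod 4`;
`Nat.forall_exists_prime_gt_and_eq_mod` or `Nat.setOf_prime_and_eq_mod_infinite`.) -/
theorem exists_r (l : ℕ) (hl : l.Prime) (hl4 : l % 4 = 1) :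
    ∃ r : ℕ, r.Prime ∧ r % 4 = 3 ∧ ¬ IsSquare ((r : ℕ) : ZMod l) := by
  have : Fact l.Prime := ⟨hl⟩
  obtain ⟨u, hu⟩ := FiniteField.exists_nonsquare (F := ZMod l) (by
    rw [ZMod.ringChar_zmod_n]
    omega)
  have hu0 : u ≠ 0 := fun h => hu (h ▸ IsSquare.zero)
  have hval : ((u.val : ℕ) : ZMod l) = u := ZMod.natCast_zmod_val u
  have hco : u.val.Coprime l := by
    rw [← ZMod.isUnit_iff_coprime, hval]
    exact hu0.isUnit
  have h4 : Nat.Coprime 4 l := by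
    have h2 : Nat.Coprime 2 l := (Nat.coprime_primes Nat.prime_two hl).2 (by omega)
    exact Nat.Coprime.pow_left 2 h2
  obtain ⟨q, _, hq, h1, h2⟩ := rep_dirichlet 4 l 3 u.val 0 (by norm_num) hl.pos h4 (by norm_num) hco
  refine ⟨q, hq, h1, ?_⟩
  have h3 : ((q : ℕ) : ZMod l) = ((u.val : ℕ) : ZMod l) := (ZMod.natCast_eq_natCast_iff _ _ _).2 h2
  rwa [h3, hval]

/-- A residue with Jacobi symbol one modulo a prime is a square. -/
private theorem rep_sq (q : ℕ) (hq : q.Prime) (a : ℤ) (h : J(a | q) = 1) :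
    ∃ x : ℤ, (q : ℤ) ∣ x ^ 2 - a := by
  have : Fact q.Prime := ⟨hq⟩
  obtain ⟨y, hy⟩ := ZMod.isSquare_of_jacobiSym_eq_one h
  refine ⟨(y.val : ℤ), ?_⟩
  rw [← ZMod.intCast_zmod_eq_zero_iff_dvd]
  push_cast
  rw [ZMod.natCast_zmod_val, hy]
  ring

private theorem rep_one_of_mod (a b : ℕ) (h : a ≡ 1 [MOD b]) : J((a : ℤ) | b) = 1 := by
  have h1 : ((a : ℤ) % b) = ((1 : ℤ) % b) := by exact_mod_cast h
  rw [jacobiSym.mod_left' h1, jacobiSym.one_left]

/-- PROOF. `D = 1 + 4 l r ξ² > 0`, `D = D₀ s²` with `D₀` squarefree (`Nat.sq_mul_squarefree`). `D` is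
`1` modulo `4`, `l` and `r`; `s` is odd, `s² ≡ 1 mod 8`, so `D₀ ≡ 1 mod 4`; `D₀` is prime to `2 l r` and
a square modulo `l`. By Dirichlet there is a prime `q` with `q ≡ 1 mod 4 l r` and `q ≡ -l mod D₀`
(so `q` is prime to `l, r, D₀`, `q ≠ l, r`; if `D₀ = 1` nothing is asked).
(1) `legendre` for `l Y² + q Z² = D₀ X²`: `q D₀` is a square mod `l`; `l D₀` is a square mod `q`:
Jacobi symbols, `q ≡ 1 mod 4`: `(l/q) = (q/l) = 1`, `(D₀/q) = (q/D₀) = (-l/D₀) = (-1/D₀)(l/D₀) =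
(D₀/l) = 1` (`D₀ ≡ 1 mod 4`, `l ≡ 1 mod 4`); `-l q ≡ l² mod D₀`. `X ≠ 0` (else all are `0`).
(2) `legendre` for `u² + r v² = q w²`: `q ≡ 1` is a square mod `r`; `-r` is a square mod `q`:
`(-r/q) = (r/q) = (q/r) = 1` (`q ≡ 1 mod 4`). `w ≠ 0`.
Then `D = l (sY/X)² + q (sZ/X)²` and `q = (u/w)² + r (v/w)²`. -/
theorem rep (l r : ℕ) (hl : l.Prime) (hr : r.Prime) (hl4 : l % 4 = 1) (hr4 : r % 4 = 3)
    (hnr : ¬ IsSquare ((r : ℕ) : ZMod l)) (ξ : ℤ) :
    ∃ x y z : ℚ, x ^ 2 + r * y ^ 2 + l * z ^ 2 = 1 + 4 * l * r * (ξ : ℚ) ^ 2 := by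
  clear hnr
  set n : ℕ := ξ.natAbs with hn
  have hξ : ((n : ℕ) : ℚ) ^ 2 = (ξ : ℚ) ^ 2 := by
    have h1 : ((n : ℕ) : ℤ) ^ 2 = ξ ^ 2 := Int.natAbs_sq ξ
    exact_mod_cast h1
  set D : ℕ := 1 + 4 * l * r * n ^ 2 with hD
  obtain ⟨D₀, s, hDs, hsf⟩ := Nat.sq_mul_squarefree D
  have hD0 : D₀ ≠ 0 := hsf.ne_zero
  have hs0 : s ≠ 0 := by
    intro h
    rw [h] at hDs
    simp [hD] at hDs
    omega
  -- congruences of `D`
  have hDl : D ≡ 1 [MOD l] := by
    have h : D = 1 + l * (4 * r * n ^ 2) := by rw [hD]; ring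
    rw [h]
    simp [Nat.ModEq]
  have hDr : D ≡ 1 [MOD r] := by
    have h : D = 1 + r * (4 * l * n ^ 2) := by rw [hD]; ring
    rw [h]
    simp [Nat.ModEq]
  have hD4 : D % 4 = 1 := by
    have h : D = 1 + 4 * (l * r * n ^ 2) := by rw [hD]; ring
    rw [h]
    omega
  have hcoD : ∀ m, D ≡ 1 [MOD m] → D.Coprime m := by
    intro m hm
    have h := Nat.ModEq.gcd_eq hm
    unfold Nat.Coprime
    rw [h, Nat.gcd_one_left]
  have hdvd : D₀ ∣ D := ⟨s ^ 2, by rw [← hDs]; ring⟩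
  have hsdvd : s ∣ D := ⟨s * D₀, by rw [← hDs]; ring⟩
  have hD₀l : D₀.Coprime l := Nat.Coprime.coprime_dvd_left hdvd (hcoD l hDl)
  have hD₀r : D₀.Coprime r := Nat.Coprime.coprime_dvd_left hdvd (hcoD r hDr)
  have hD₀4 : D₀.Coprime 4 := Nat.Coprime.coprime_dvd_left hdvd (hcoD 4 hD4)
  have hsl : s.Coprime l := Nat.Coprime.coprime_dvd_left hsdvd (hcoD l hDl)
  have hs2 : s % 2 = 1 := by
    by_contra h
    have h1 : 2 ∣ s := Nat.dvd_of_mod_eq_zero (by omega)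
    have h2 : 2 ∣ D := h1.trans hsdvd
    omega
  have hD₀m : D₀ % 4 = 1 := by
    have h1 : s ^ 2 % 4 = 1 := by
      rcases (show s % 4 = 1 ∨ s % 4 = 3 by omega) with h | h <;> simp [Nat.pow_mod, h]
    have h2 : (s ^ 2 * D₀) % 4 = 1 := by rw [hDs]; exact hD4
    rw [Nat.mul_mod, h1, one_mul, Nat.mod_mod] at h2
    exact h2
  have hD₀o : Odd D₀ := Nat.odd_iff.2 (by omega)
  have hlo : Odd l := Nat.odd_iff.2 (by omega)
  have hro : Odd r := Nat.odd_iff.2 (by omega)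
  -- the symbol of `D₀` modulo `l`
  have hJ : J((D₀ : ℤ) | l) = 1 := by
    have h1 : J((D : ℤ) | l) = 1 := rep_one_of_mod D l hDl
    have h2 : (D : ℤ) = (s : ℤ) ^ 2 * D₀ := by exact_mod_cast hDs.symm
    rw [h2, jacobiSym.mul_left, jacobiSym.sq_one' (by exact_mod_cast hsl), one_mul] at h1
    exact h1
  -- Dirichlet
  have hM : Nat.Coprime (4 * l * r) D₀ :=
    Nat.Coprime.mul_left (Nat.Coprime.mul_left hD₀4.symm hD₀l.symm) hD₀r.symm
  have hb : Nat.Coprime ((D₀ - 1) * l) D₀ := by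
    refine Nat.Coprime.mul_left ?_ hD₀l.symm
    have h1 : Nat.Coprime (D₀ - 1) (D₀ - 1 + 1) := by simp
    rwa [Nat.sub_add_cancel (by omega)] at h1
  obtain ⟨q, hqN, hq, hq1, hq2⟩ := rep_dirichlet (4 * l * r) D₀ 1 ((D₀ - 1) * l) (l + r + D₀)
    (Nat.mul_pos (Nat.mul_pos (by norm_num) hl.pos) hr.pos) (Nat.pos_of_ne_zero hD0) hM
    (Nat.coprime_one_left _) hb
  have hql : q ≡ 1 [MOD l] := by
    have h : q ≡ 1 [MOD (l * (4 * r))] := by
      rw [show l * (4 * r) = 4 * l * r by ring]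
      exact hq1
    exact h.of_mul_right _
  have hqr : q ≡ 1 [MOD r] := by
    have h : q ≡ 1 [MOD (r * (4 * l))] := by
      rw [show r * (4 * l) = 4 * l * r by ring]
      exact hq1
    exact h.of_mul_right _
  have hq4 : q % 4 = 1 := by
    have h : q ≡ 1 [MOD (4 * (l * r))] := by
      rw [show 4 * (l * r) = 4 * l * r by ring]
      exact hq1
    exact h.of_mul_right _
  have hqo : Odd q := Nat.odd_iff.2 (by omega)
  have hcol : Nat.Coprime l q := (Nat.coprime_primes hl hq).2 (by omega)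
  have hcor : Nat.Coprime r q := (Nat.coprime_primes hr hq).2 (by omega)
  have hcoD₀ : Nat.Coprime q D₀ := (Nat.Prime.coprime_iff_not_dvd hq).2 fun h => by
    have := Nat.le_of_dvd (Nat.pos_of_ne_zero hD0) h
    omega
  -- symbols modulo `q`
  have hJlq : J((l : ℤ) | q) = 1 := by
    rw [jacobiSym.quadratic_reciprocity_one_mod_four hl4 hqo]
    exact rep_one_of_mod q l hql
  have hJrq : J((r : ℤ) | q) = 1 := by
    rw [jacobiSym.quadratic_reciprocity_one_mod_four' hro hq4]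
    exact rep_one_of_mod q r hqr
  have hqD₀ : ((q : ℤ) % D₀) = ((-(l : ℤ)) % D₀) := by
    have h1 : ((q : ℤ) % D₀) = (((D₀ - 1) * l : ℕ) : ℤ) % D₀ := by exact_mod_cast hq2
    rw [h1]
    have h2 : (((D₀ - 1) * l : ℕ) : ℤ) = -(l : ℤ) + D₀ * l := by
      rw [Nat.cast_mul, Nat.cast_sub (by omega)]
      push_cast
      ring
    rw [h2, Int.add_mul_emod_self_left]
  have hJD₀q : J((D₀ : ℤ) | q) = 1 := by
    rw [jacobiSym.quadratic_reciprocity_one_mod_four hD₀m hqo, jacobiSym.mod_left' hqD₀,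
      show (-(l : ℤ)) = (-1) * (l : ℤ) by ring, jacobiSym.mul_left, jacobiSym.at_neg_one hD₀o,
      ZMod.χ₄_nat_one_mod_four hD₀m, one_mul,
      jacobiSym.quadratic_reciprocity_one_mod_four hl4 hD₀o]
    exact hJ
  have hJnrq : J((-(r : ℤ)) | q) = 1 := by
    rw [show (-(r : ℤ)) = (-1) * (r : ℤ) by ring, jacobiSym.mul_left, jacobiSym.at_neg_one hqo,
      ZMod.χ₄_nat_one_mod_four hq4, one_mul]
    exact hJrq
  -- (1)
  obtain ⟨Y, Z, X, hYZX, hE1⟩ := legendre l q D₀ hl.pos hq.pos (Nat.pos_of_ne_zero hD0) hcol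
    hD₀l.symm hcoD₀ hl.squarefree hq.squarefree hsf
    (rep_sq l hl _ (by
      rw [jacobiSym.mul_left, rep_one_of_mod q l hql, hJ, one_mul]))
    (rep_sq q hq _ (by rw [jacobiSym.mul_left, hJlq, hJD₀q, one_mul]))
    ⟨(l : ℤ), by
      have h1 : (D₀ : ℤ) ∣ (q : ℤ) - (-(l : ℤ)) := Int.ModEq.dvd (Eq.symm hqD₀)
      obtain ⟨c, hc⟩ := h1
      exact ⟨l * c, by linear_combination (l : ℤ) * hc⟩⟩
  have hX : X ≠ 0 := by
    intro h
    rw [h] at hE1 hYZX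
    have h1 : 0 ≤ (l : ℤ) * Y ^ 2 := by positivity
    have h2 : 0 ≤ (q : ℤ) * Z ^ 2 := by positivity
    have h3 : (l : ℤ) * Y ^ 2 = 0 := by linarith
    have h4 : (q : ℤ) * Z ^ 2 = 0 := by linarith
    have h5 : (l : ℤ) ≠ 0 := by exact_mod_cast hl.ne_zero
    have h6 : (q : ℤ) ≠ 0 := by exact_mod_cast hq.ne_zero
    have h7 : Y = 0 := by
      rcases mul_eq_zero.1 h3 with h | h
      · exact absurd h h5
      · exact pow_eq_zero_iff (two_ne_zero) |>.1 h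
    have h8 : Z = 0 := by
      rcases mul_eq_zero.1 h4 with h | h
      · exact absurd h h6
      · exact pow_eq_zero_iff (two_ne_zero) |>.1 h
    rcases hYZX with h | h | h
    · exact h h7
    · exact h h8
    · exact h rfl
  -- (2)
  obtain ⟨u, v, w, huvw, hE2⟩ := legendre 1 r q one_pos hr.pos hq.pos (Nat.coprime_one_left _)
    (Nat.coprime_one_left _) hcor squarefree_one hr.squarefree hq.squarefree
    ⟨0, by simp⟩
    ⟨1, by
      have h1 : (q : ℤ) % r = 1 % r := by exact_mod_cast hqr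
      have h2 : (r : ℤ) ∣ (q : ℤ) - 1 := Int.ModEq.dvd (Eq.symm h1)
      obtain ⟨c, hc⟩ := h2
      exact ⟨-c, by push_cast; linear_combination -hc⟩⟩
    (by
      obtain ⟨x, c, hc⟩ := rep_sq q hq _ hJnrq
      exact ⟨x, c, by push_cast; linear_combination hc⟩)
  have hw : w ≠ 0 := by
    intro h
    rw [h] at hE2 huvw
    push_cast at hE2
    have h1 : 0 ≤ u ^ 2 := by positivity
    have h2 : 0 ≤ (r : ℤ) * v ^ 2 := by positivity
    have h3 : u ^ 2 = 0 := by linarith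
    have h4 : (r : ℤ) * v ^ 2 = 0 := by linarith
    have h5 : (r : ℤ) ≠ 0 := by exact_mod_cast hr.ne_zero
    have h7 : u = 0 := pow_eq_zero_iff (two_ne_zero) |>.1 h3
    have h8 : v = 0 := by
      rcases mul_eq_zero.1 h4 with h | h
      · exact absurd h h5
      · exact pow_eq_zero_iff (two_ne_zero) |>.1 h
    rcases huvw with h | h | h
    · exact h h7
    · exact h h8
    · exact h rfl
  -- the end
  have hXq : (X : ℚ) ≠ 0 := by exact_mod_cast hX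
  have hwq : (w : ℚ) ≠ 0 := by exact_mod_cast hw
  have e1 : (l : ℚ) * Y ^ 2 + q * Z ^ 2 = D₀ * X ^ 2 := by exact_mod_cast hE1
  have e2 : (u : ℚ) ^ 2 + r * v ^ 2 = q * w ^ 2 := by
    have : (1 : ℚ) * (u : ℚ) ^ 2 + r * v ^ 2 = q * w ^ 2 := by exact_mod_cast hE2
    linarith
  have e3 : (s : ℚ) ^ 2 * D₀ = 1 + 4 * l * r * (ξ : ℚ) ^ 2 := by
    rw [← hξ]
    have h : ((s ^ 2 * D₀ : ℕ) : ℚ) = ((D : ℕ) : ℚ) := by rw [hDs]
    rw [hD] at h
    push_cast at h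
    exact h
  refine ⟨u * s * Z / (w * X), v * s * Z / (w * X), s * Y / X, ?_⟩
  rw [← e3]
  have e4 : (u * s * Z / (w * X) : ℚ) ^ 2 + r * (v * s * Z / (w * X)) ^ 2 =
      q * (s * Z / X) ^ 2 := by
    field_simp
    linear_combination (Z : ℚ) ^ 2 * e2
  rw [e4]
  have e5 : (q : ℚ) * (s * Z / X) ^ 2 + l * (s * Y / X) ^ 2 = s ^ 2 * D₀ := by
    field_simp
    linear_combination e1
  exact e5

end Pool.Agent.Lib.MP_673eb1_lc
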