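import Pool.Agent.Lib.MP_673eb1_lc.DioC
import Pool.Agent.Lib.MP_673eb1_lc.Rep
import Pool.Agent.Lib.MP_673eb1_lc.Aniso

/-!
MP_673eb1_lc, module LInt: the valuation ring of a degree one unramified prime of norm `≡ 1 mod 4` is
Diophantine.
-/

set_option autoImplicit false

open NumberField IsDedekindDomain

namespace Pool.Agent.Lib.MP_673eb1_lc

variable {K : Type} [Field K] [NumberField K]

/-- PROOF. `r` from `exists_r`. `P = {ξ ∈ K : ∃ x y z ∈ K, x² + r y² + l z² = 1 + 4 l r ξ²}` is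
Diophantine (`Dio.exK`, `Dio.eq`), contains `ℤ` (`rep`, cast to `K`) and is contained in the valuation
ring (`aniso`). Let `ω_i` be a `ℤ`-basis of `𝓞 K` (`NumberField.RingOfIntegers.basis`);
`P' = {∑ ξ_i ω_i : ξ_i ∈ P}` is Diophantine, contains `𝓞 K` and is contained in the valuation ring.
Let `v.asIdeal = (l, π)` (`IsDedekindDomain.exists_eq_span_pair` or similar). Then `v(x) ≤ 1` iff there
are `A, B, B', A₁, A₂ ∈ P'` with `B x = A` and `B B' = 1 + l A₁ + π A₂`. (If: `v(B B' - 1) < 1`, so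
`v(B) = 1`. Only if: `x = A / B` with `A, B ∈ 𝓞 K`, `B ∉ v`
(`HeightOneSpectrum` / localization at the prime), and `B` is invertible modulo `v.asIdeal`.) -/
theorem dio_lint (R : Subring K) (hR : GoodR R) (v : HeightOneSpectrum (𝓞 K)) (l : ℕ)
    (hl : l.Prime) (hN : Ideal.absNorm v.asIdeal = l)
    (hunr : v.valuation K (l : K) = WithZero.exp (-1 : ℤ)) (hl4 : l % 4 = 1) :
    Dio R {x : K | v.valuation K x ≤ 1} := by
  obtain ⟨r, hr, hr4, hnr⟩ := exists_r l hl hl4
  -- the set `P`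
  obtain ⟨P, hPdef⟩ : ∃ P : Set K, P = {ξ : K | ∃ w : Fin 3 → K, (ξ, w) ∈
    {p : K × (Fin 3 → K) | p.2 0 ^ 2 + (r : K) * p.2 1 ^ 2 + (l : K) * p.2 2 ^ 2 =
      1 + 4 * (l : K) * (r : K) * p.1 ^ 2}} := ⟨_, rfl⟩
  have hPd : Dio R P := by
    rw [hPdef]
    refine Dio.exK hR (Dio.eq (W := K) ?_ ?_)
    · exact (((IsPol.snd.apply 0).pow 2).add ((IsPol.const _).mul ((IsPol.snd.apply 1).pow 2))).add
        ((IsPol.const _).mul ((IsPol.snd.apply 2).pow 2))
    · exact (IsPol.const 1).add ((IsPol.const _).mul (IsPol.fst.pow 2))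
  have hPZ : ∀ ξ : ℤ, (ξ : K) ∈ P := by
    intro ξ
    obtain ⟨x, y, z, hxyz⟩ := rep l r hl hr hl4 hr4 hnr ξ
    rw [hPdef]
    refine ⟨![(x : K), (y : K), (z : K)], ?_⟩
    change (x : K) ^ 2 + (r : K) * (y : K) ^ 2 + (l : K) * (z : K) ^ 2 =
      1 + 4 * (l : K) * (r : K) * (ξ : K) ^ 2
    have := congrArg (Rat.cast (K := K)) hxyz
    push_cast at this
    exact this
  have hPv : ∀ ξ ∈ P, v.valuation K ξ ≤ 1 := by
    intro ξ hξ
    rw [hPdef] at hξ
    obtain ⟨w, hw⟩ := hξ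
    exact aniso v l r hl hN hunr hl4 hnr (w 0) (w 1) (w 2) ξ hw
  -- the set `P'`
  obtain ⟨ι, hι, b, -⟩ : ∃ (ι : Type) (_ : Fintype ι) (b : Module.Basis ι ℤ (𝓞 K)), b = b :=
    ⟨_, inferInstance, NumberField.RingOfIntegers.basis K, rfl⟩
  obtain ⟨P', hP'def⟩ : ∃ P' : Set K, P' = {x : K | ∃ ξ : ι → K, (x, ξ) ∈
    ({p : K × (ι → K) | ∀ i, p ∈ {p : K × (ι → K) | p.2 i ∈ P}} ∩
      {p : K × (ι → K) | p.1 = ∑ i, p.2 i * algebraMap (𝓞 K) K (b i)})} := ⟨_, rfl⟩
  have hPd' : Dio R P' := by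
    rw [hP'def]
    refine Dio.exK hR (Dio.inter (Dio.iInter fun i => ?_) (Dio.eq (W := K) IsPol.fst ?_))
    · exact hPd.preimage (φ := fun p : K × (ι → K) => p.2 i) (IsPol.snd.apply i)
    · exact IsPol.sum _ fun i _ => (IsPol.snd.apply i).mul (IsPol.const _)
  have hPO : ∀ a : 𝓞 K, algebraMap (𝓞 K) K a ∈ P' := by
    intro a
    rw [hP'def]
    refine ⟨fun i => ((b.repr a i : ℤ) : K), fun i => hPZ _, ?_⟩
    change algebraMap (𝓞 K) K a = ∑ i, ((b.repr a i : ℤ) : K) * algebraMap (𝓞 K) K (b i)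
    conv_lhs => rw [← b.sum_repr a]
    rw [map_sum]
    refine Finset.sum_congr rfl fun i _ => ?_
    rw [zsmul_eq_mul, map_mul, map_intCast]
  have hPv' : ∀ x ∈ P', v.valuation K x ≤ 1 := by
    intro x hx
    rw [hP'def] at hx
    obtain ⟨ξ, h1, h2⟩ := hx
    have h2' : x = ∑ i, ξ i * algebraMap (𝓞 K) K (b i) := h2
    rw [h2']
    refine Valuation.map_sum_le _ fun i _ => ?_
    rw [map_mul]
    exact mul_le_one' (hPv _ (h1 i)) (v.valuation_le_one _)
  -- generators of the prime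
  have hlv : ((l : ℕ) : 𝓞 K) ∈ v.asIdeal := by
    rw [← hN]
    exact Ideal.absNorm_mem _
  have hl0 : ((l : ℕ) : 𝓞 K) ≠ 0 := by exact_mod_cast hl.ne_zero
  obtain ⟨π, hπ⟩ := IsDedekindDomain.exists_eq_span_pair hlv hl0
  have hπv : π ∈ v.asIdeal := by
    rw [hπ]
    exact Ideal.subset_span (by simp)
  have hvl : v.valuation K (l : K) < 1 := by
    have h5 : algebraMap (𝓞 K) K ((l : ℕ) : 𝓞 K) = (l : K) := map_natCast _ _
    rw [← h5]
    exact (v.valuation_lt_one_iff_mem (K := K) ((l : ℕ) : 𝓞 K)).2 hlv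
  have hvπ : v.valuation K (algebraMap (𝓞 K) K π) < 1 :=
    (v.valuation_lt_one_iff_mem (K := K) π).2 hπv
  have hset : {x : K | v.valuation K x ≤ 1} = {x : K | ∃ w : Fin 5 → K, (x, w) ∈
      ({p : K × (Fin 5 → K) | ∀ i, p ∈ {p : K × (Fin 5 → K) | p.2 i ∈ P'}} ∩
        ({p : K × (Fin 5 → K) | p.2 1 * p.1 = p.2 0} ∩
        {p : K × (Fin 5 → K) | p.2 1 * p.2 2 =
          1 + (l : K) * p.2 3 + algebraMap (𝓞 K) K π * p.2 4}))} := by
    ext x
    constructor
    · intro hx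
      obtain ⟨A, B, hAB⟩ := v.exists_primeCompl_mul_eq_of_integer x hx
      have hB : (B : 𝓞 K) ∉ v.asIdeal := B.2
      obtain ⟨B', i, hi, hBi⟩ := v.isMaximal.exists_inv hB
      rw [hπ] at hi
      obtain ⟨A₁, A₂, hA⟩ := Ideal.mem_span_pair.1 hi
      refine ⟨![algebraMap (𝓞 K) K A, algebraMap (𝓞 K) K B, algebraMap (𝓞 K) K B',
        algebraMap (𝓞 K) K (-A₁), algebraMap (𝓞 K) K (-A₂)], ?_, ?_, ?_⟩
      · intro j
        fin_cases j
        · exact hPO _
        · exact hPO _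
        · exact hPO _
        · exact hPO _
        · exact hPO _
      · change algebraMap (𝓞 K) K B * x = algebraMap (𝓞 K) K A
        rw [mul_comm]
        exact hAB
      · change algebraMap (𝓞 K) K B * algebraMap (𝓞 K) K B' =
          1 + (l : K) * algebraMap (𝓞 K) K (-A₁) + algebraMap (𝓞 K) K π * algebraMap (𝓞 K) K (-A₂)
        have h1 : (B : 𝓞 K) * B' = 1 + (l : 𝓞 K) * (-A₁) + π * (-A₂) := by
          linear_combination hBi + hA
        have h2 := congrArg (algebraMap (𝓞 K) K) h1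
        rw [map_mul, map_add, map_add, map_mul, map_mul, map_one, map_natCast] at h2
        exact h2
    · rintro ⟨w, h1, h2, h3⟩
      have h1' : ∀ i, v.valuation K (w i) ≤ 1 := fun i => hPv' _ (h1 i)
      have h2' : w 1 * x = w 0 := h2
      have h3' : w 1 * w 2 = 1 + (l : K) * w 3 + algebraMap (𝓞 K) K π * w 4 := h3
      have h4 : v.valuation K ((l : K) * w 3 + algebraMap (𝓞 K) K π * w 4) < 1 := by
        refine Valuation.map_add_lt _ ?_ ?_
        · rw [map_mul]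
          exact mul_lt_one_of_lt_of_le hvl (h1' 3)
        · rw [map_mul]
          exact mul_lt_one_of_lt_of_le hvπ (h1' 4)
      have h5 : v.valuation K (w 1 * w 2) = 1 := by
        rw [h3', add_assoc]
        exact Valuation.map_one_add_of_lt _ h4
      have h6 : v.valuation K (w 1) = 1 := by
        refine le_antisymm (h1' 1) ?_
        by_contra hlt
        rw [map_mul] at h5
        exact (mul_lt_one_of_lt_of_le (not_le.1 hlt) (h1' 2)).ne h5
      have h7 := congrArg (v.valuation K) h2'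
      rw [map_mul, h6, one_mul] at h7
      change v.valuation K x ≤ 1
      rw [h7]
      exact h1' 0
  rw [hset]
  refine Dio.exK hR (Dio.inter (Dio.iInter fun i => ?_) (Dio.inter (Dio.eq (W := K) ?_ ?_)
    (Dio.eq (W := K) ?_ ?_)))
  · exact hPd'.preimage (φ := fun p : K × (Fin 5 → K) => p.2 i) (IsPol.snd.apply i)
  · exact (IsPol.snd.apply 1).mul IsPol.fst
  · exact IsPol.snd.apply 0
  · exact (IsPol.snd.apply 1).mul (IsPol.snd.apply 2)
  · exact ((IsPol.const 1).add ((IsPol.const _).mul (IsPol.snd.apply 3))).add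
      ((IsPol.const _).mul (IsPol.snd.apply 4))

end Pool.Agent.Lib.MP_673eb1_lc
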