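import Pool.Agent.Lib.MP_673eb1_lc.PDH
import Pool.Agent.Lib.ZD.Ext

/-!
MP_673eb1_lc, block PD, file I (helper31): primes of `K` which split completely in `L ≅ LL D K`.
-/

set_option autoImplicit false

open scoped BigOperators
open NumberField IsDedekindDomain Pool.Agent.ZD Pool.Agent.C50

namespace Pool.Agent.Lib.MP_673eb1_lc

variable {h f : ℕ} [Fact h.Prime] (D : PerData h f) {K : Type} [Field K] [NumberField K]

/-- The order `QR D (-1 : 𝓞 K)` in `LL D K`. -/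
def LL.ofO : QR D (-1 : 𝓞 K) →+* LL D K where
  toFun y := ⟨PR.map D (algebraMap (𝓞 K) K) y.re, PR.map D (algebraMap (𝓞 K) K) y.im⟩
  map_one' := by
    refine QuadraticAlgebra.ext ?_ ?_
    · exact map_one (PR.map D (algebraMap (𝓞 K) K))
    · exact map_zero (PR.map D (algebraMap (𝓞 K) K))
  map_zero' := by
    refine QuadraticAlgebra.ext ?_ ?_
    · exact map_zero (PR.map D (algebraMap (𝓞 K) K))
    · exact map_zero (PR.map D (algebraMap (𝓞 K) K))
  map_add' x y := by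
    refine QuadraticAlgebra.ext ?_ ?_
    · exact map_add (PR.map D (algebraMap (𝓞 K) K)) x.re y.re
    · exact map_add (PR.map D (algebraMap (𝓞 K) K)) x.im y.im
  map_mul' x y := by
    obtain ⟨a, b⟩ := x
    obtain ⟨c, d⟩ := y
    have h1 : algebraMap (𝓞 K) (PR D (𝓞 K)) (-1) = -1 := by rw [map_neg, map_one]
    have h2 : algebraMap K (PR D K) (-1) = -1 := by rw [map_neg, map_one]
    refine QuadraticAlgebra.ext ?_ ?_
    · rw [QuadraticAlgebra.re_mul, QuadraticAlgebra.re_mul]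
      change PR.map D (algebraMap (𝓞 K) K) (a * c + algebraMap (𝓞 K) (PR D (𝓞 K)) (-1) * b * d) =
        PR.map D (algebraMap (𝓞 K) K) a * PR.map D (algebraMap (𝓞 K) K) c +
        algebraMap K (PR D K) (-1) * PR.map D (algebraMap (𝓞 K) K) b *
        PR.map D (algebraMap (𝓞 K) K) d
      rw [h1, h2, map_add, map_mul, map_mul, map_mul, map_neg, map_one]
    · rw [QuadraticAlgebra.im_mul, QuadraticAlgebra.im_mul]
      change PR.map D (algebraMap (𝓞 K) K) (a * d + b * c + 0 * b * d) =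
        PR.map D (algebraMap (𝓞 K) K) a * PR.map D (algebraMap (𝓞 K) K) d +
        PR.map D (algebraMap (𝓞 K) K) b * PR.map D (algebraMap (𝓞 K) K) c +
        0 * PR.map D (algebraMap (𝓞 K) K) b * PR.map D (algebraMap (𝓞 K) K) d
      rw [map_add, map_add, map_mul, map_mul, zero_mul, zero_mul, zero_mul, zero_mul, map_zero]

theorem LL.ofO_algebraMap (r : 𝓞 K) :
    LL.ofO D (algebraMap (𝓞 K) (QR D (-1 : 𝓞 K)) r) = algebraMap K (LL D K) (r : K) := by
  refine QuadraticAlgebra.ext ?_ ?_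
  · exact PR.map_algebraMap D (algebraMap (𝓞 K) K) r
  · exact map_zero (PR.map D (algebraMap (𝓞 K) K))

theorem LL.ofO_injective : Function.Injective (LL.ofO D (K := K)) := by
  intro x y hxy
  have h1 := congrArg QuadraticAlgebra.re hxy
  have h2 := congrArg QuadraticAlgebra.im hxy
  refine QuadraticAlgebra.ext ?_ ?_
  · ext c
    exact congrFun h1 c
  · ext c
    exact congrFun h2 c

/-- the order as a module -/
def QR.linO : QR D (-1 : 𝓞 K) ≃ₗ[𝓞 K] (ZMod h → 𝓞 K) × (ZMod h → 𝓞 K) where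
  toFun x := (x.re, x.im)
  invFun x := ⟨x.1, x.2⟩
  left_inv _ := rfl
  right_inv _ := rfl
  map_add' _ _ := rfl
  map_smul' _ _ := rfl

instance QR.finiteO : Module.Finite (𝓞 K) (QR D (-1 : 𝓞 K)) :=
  Module.Finite.equiv (QR.linO D).symm

variable {L : Type} [Field L] [NumberField L] [Algebra K L] (e : LL D K ≃ₐ[K] L)

/-- The order `QR D (-1 : 𝓞 K)` in `L`. -/
def LL.ofOL : QR D (-1 : 𝓞 K) →ₐ[𝓞 K] L :=
  { (e : LL D K →+* L).comp (LL.ofO D) with
    commutes' := fun r => by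
      change e (LL.ofO D (algebraMap (𝓞 K) (QR D (-1 : 𝓞 K)) r)) = algebraMap (𝓞 K) L r
      rw [LL.ofO_algebraMap, e.commutes]
      rfl }

theorem LL.isIntegral_ofOL (y : QR D (-1 : 𝓞 K)) : IsIntegral ℤ (LL.ofOL D e y) := by
  have h1 : IsIntegral (𝓞 K) y := Algebra.IsIntegral.isIntegral y
  have h2 : IsIntegral (𝓞 K) (LL.ofOL D e y) := h1.map (LL.ofOL D e)
  exact isIntegral_trans (A := 𝓞 K) _ h2

/-- The order in the ring of integers. -/
def LL.toOL : QR D (-1 : 𝓞 K) →+* 𝓞 L where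
  toFun y := ⟨LL.ofOL D e y, LL.isIntegral_ofOL D e y⟩
  map_one' := RingOfIntegers.ext (map_one (LL.ofOL D e))
  map_zero' := RingOfIntegers.ext (map_zero (LL.ofOL D e))
  map_add' x y := RingOfIntegers.ext (map_add (LL.ofOL D e) x y)
  map_mul' x y := RingOfIntegers.ext (map_mul (LL.ofOL D e) x y)

theorem LL.toOL_coe (y : QR D (-1 : 𝓞 K)) : ((LL.toOL D e y : 𝓞 L) : L) = e (LL.ofO D y) := rfl

theorem LL.toOL_algebraMap (r : 𝓞 K) :
    LL.toOL D e (algebraMap (𝓞 K) (QR D (-1 : 𝓞 K)) r) = algebraMap (𝓞 K) (𝓞 L) r := by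
  apply RingOfIntegers.ext
  rw [LL.toOL_coe, LL.ofO_algebraMap, e.commutes]
  rfl

theorem LL.toOL_injective : Function.Injective (LL.toOL D e) := by
  intro x y hxy
  have h1 := congrArg (fun z : 𝓞 L => (z : L)) hxy
  simp only [LL.toOL_coe] at h1
  exact LL.ofO_injective D (e.injective h1)

/-- A homomorphism of the order to the residue field of `v` gives a prime over `v`. -/
theorem exists_prime_of_hom (v : HeightOneSpectrum (𝓞 K))
    (Θ : QR D (-1 : 𝓞 K) →+* 𝓞 K ⧸ v.asIdeal)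
    (hΘ : ∀ r, Θ (algebraMap (𝓞 K) (QR D (-1 : 𝓞 K)) r) = Ideal.Quotient.mk v.asIdeal r) :
    ∃ w ∈ abv L v, ∀ y : QR D (-1 : 𝓞 K), LL.toOL D e y ∈ w.asIdeal ↔ Θ y = 0 := by
  let _ : Algebra (QR D (-1 : 𝓞 K)) (𝓞 L) := (LL.toOL D e).toAlgebra
  have hmap : ∀ p : QR D (-1 : 𝓞 K), algebraMap (QR D (-1 : 𝓞 K)) (𝓞 L) p = LL.toOL D e p :=
    fun p => rfl
  have : IsScalarTower (𝓞 K) (QR D (-1 : 𝓞 K)) (𝓞 L) := IsScalarTower.of_algebraMap_eq fun a => by
    rw [hmap, LL.toOL_algebraMap]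
  have : Algebra.IsIntegral (QR D (-1 : 𝓞 K)) (𝓞 L) := ⟨fun y =>
    (Algebra.IsIntegral.isIntegral (R := 𝓞 K) y).tower_top⟩
  have : IsDomain (𝓞 K ⧸ v.asIdeal) := Ideal.Quotient.isDomain _
  have : (RingHom.ker Θ).IsPrime := RingHom.ker_isPrime Θ
  have hker : RingHom.ker (algebraMap (QR D (-1 : 𝓞 K)) (𝓞 L)) ≤ RingHom.ker Θ := by
    intro p hp
    rw [RingHom.mem_ker, hmap] at hp
    have h1 : p = 0 := LL.toOL_injective D e (by rw [hp, map_zero])
    rw [h1]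
    exact Ideal.zero_mem _
  obtain ⟨Q, hQ, hQ2⟩ := Ideal.exists_ideal_over_prime_of_isIntegral_of_isDomain
    (RingHom.ker Θ) hker
  have hmem : ∀ p : QR D (-1 : 𝓞 K), LL.toOL D e p ∈ Q ↔ Θ p = 0 := fun p => by
    rw [← RingHom.mem_ker, ← hQ2, Ideal.mem_comap, hmap]
  have hcomap : Q.comap (algebraMap (𝓞 K) (𝓞 L)) = v.asIdeal := by
    ext a
    rw [Ideal.mem_comap]
    have := hmem (algebraMap (𝓞 K) (QR D (-1 : 𝓞 K)) a)
    rwa [LL.toOL_algebraMap, hΘ, Ideal.Quotient.eq_zero_iff_mem] at this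
  have hne : Q ≠ ⊥ := by
    rintro rfl
    apply v.ne_bot
    rw [← hcomap, eq_bot_iff]
    intro a ha
    rw [Ideal.mem_comap, Ideal.mem_bot] at ha
    rw [Ideal.mem_bot]
    exact (FaithfulSMul.algebraMap_injective (𝓞 K) (𝓞 L)) (by rw [ha, map_zero])
  exact ⟨⟨Q, hQ, hne⟩, mem_abv.2 hcomap, hmem⟩

include e in
/-- **Complete splitting.** -/
theorem mem_Spl_of_ind (v : HeightOneSpectrum (𝓞 K)) (hf : ((f : ℕ) : 𝓞 K) ∉ v.asIdeal)
    (h2 : ((2 : ℕ) : 𝓞 K) ∉ v.asIdeal) (h0 : D.ind (nm v) = 0)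
    (hs : ∃ s : 𝓞 K, s * s + 1 ∈ v.asIdeal) : v ∈ Spl K L := by
  classical
  have hmax : v.asIdeal.IsMaximal := v.isMaximal
  let _ : Field (𝓞 K ⧸ v.asIdeal) := Ideal.Quotient.field v.asIdeal
  have hfin := finite_residue v
  let _ := Fintype.ofFinite (𝓞 K ⧸ v.asIdeal)
  have hcard : Fintype.card (𝓞 K ⧸ v.asIdeal) = nm v := by
    rw [← Nat.card_eq_fintype_card, card_residue]
  have hN : (Fintype.card (𝓞 K ⧸ v.asIdeal)).Coprime f := by
    rw [hcard]
    exact coprime_nm D.hf hf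
  have h0' : D.ind (Fintype.card (𝓞 K ⧸ v.asIdeal)) = 0 := by rw [hcard, h0]
  obtain ⟨ψ, hψ⟩ := PR.exists_hom D hN h0'
  obtain ⟨s0, hs0⟩ := hs
  let s : 𝓞 K ⧸ v.asIdeal := Ideal.Quotient.mk v.asIdeal s0
  have hs : s * s = -1 := by
    have h1 : Ideal.Quotient.mk v.asIdeal (s0 * s0 + 1) = 0 := Ideal.Quotient.eq_zero_iff_mem.2 hs0
    rw [map_add, map_mul, map_one] at h1
    exact eq_neg_of_add_eq_zero_left h1
  have hs' : (-s) * (-s) = -1 := by rw [neg_mul_neg, hs]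
  have hss : s ≠ -s := by
    intro h1
    have h3 : s * ((2 : ℕ) : 𝓞 K ⧸ v.asIdeal) = 0 := by
      push_cast
      linear_combination h1
    have hs00 : s ≠ 0 := by
      intro h4
      rw [h4, zero_mul] at hs
      exact one_ne_zero (neg_eq_zero.1 hs.symm)
    have h4 := (mul_eq_zero.1 h3).resolve_left hs00
    apply h2
    rw [← Ideal.Quotient.eq_zero_iff_mem, map_natCast]
    exact h4
  let φ : 𝓞 K →+* 𝓞 K ⧸ v.asIdeal := Ideal.Quotient.mk v.asIdeal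
  let Θ : Fin h × Bool → (QR D (-1 : 𝓞 K) →+* 𝓞 K ⧸ v.asIdeal) := fun x =>
    if x.2 then QR.pt D φ ψ hψ s hs x.1 else QR.pt D φ ψ hψ (-s) hs' x.1
  have hΘ1 : ∀ (t : 𝓞 K ⧸ v.asIdeal) (ht : t * t = -1) (i : ℕ) (r : 𝓞 K),
      QR.pt D φ ψ hψ t ht i (algebraMap (𝓞 K) (QR D (-1 : 𝓞 K)) r) = φ r := by
    intro t ht i r
    change ψ ((PR.sh D)^[i] (PR.map D φ (algebraMap (𝓞 K) (PR D (𝓞 K)) r))) +
      t * ψ ((PR.sh D)^[i] (PR.map D φ 0)) = φ r
    have h1 : ∀ a : 𝓞 K ⧸ v.asIdeal, (PR.sh D)^[i] (algebraMap _ (PR D (𝓞 K ⧸ v.asIdeal)) a) =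
        algebraMap _ (PR D (𝓞 K ⧸ v.asIdeal)) a := by
      intro a
      ext c
      rw [PR.sh_iterate, PR.algebraMap_apply, PR.algebraMap_apply]
    have h3 : (PR.sh D)^[i] (0 : PR D (𝓞 K ⧸ v.asIdeal)) = 0 := by
      ext c
      rw [PR.sh_iterate]
      rfl
    rw [PR.map_algebraMap, h1, hψ, map_zero, h3, map_zero, mul_zero, add_zero]
  have hΘ : ∀ x r, Θ x (algebraMap (𝓞 K) (QR D (-1 : 𝓞 K)) r) = φ r := by
    rintro ⟨i, b⟩ r
    cases b
    · exact hΘ1 _ hs' _ _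
    · exact hΘ1 _ hs _ _
  have hre : ∀ x (y : PR D (𝓞 K)), Θ x ⟨y, 0⟩ = ψ ((PR.sh D)^[(x.1 : ℕ)] (PR.map D φ y)) := by
    rintro ⟨i, b⟩ y
    have h3 : (PR.sh D)^[(i : ℕ)] (0 : PR D (𝓞 K ⧸ v.asIdeal)) = 0 := by
      ext c
      rw [PR.sh_iterate]
      rfl
    cases b
    · change ψ ((PR.sh D)^[(i : ℕ)] (PR.map D φ y)) +
        (-s) * ψ ((PR.sh D)^[(i : ℕ)] (PR.map D φ 0)) = _
      rw [map_zero, h3, map_zero, mul_zero, add_zero]
    · change ψ ((PR.sh D)^[(i : ℕ)] (PR.map D φ y)) +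
        s * ψ ((PR.sh D)^[(i : ℕ)] (PR.map D φ 0)) = _
      rw [map_zero, h3, map_zero, mul_zero, add_zero]
  have him : ∀ x, Θ x ⟨0, 1⟩ = if x.2 then s else -s := by
    rintro ⟨i, b⟩
    have h3 : (PR.sh D)^[(i : ℕ)] (0 : PR D (𝓞 K ⧸ v.asIdeal)) = 0 := by
      ext c
      rw [PR.sh_iterate]
      rfl
    have h4 : (PR.sh D)^[(i : ℕ)] (1 : PR D (𝓞 K ⧸ v.asIdeal)) = 1 := by
      ext c
      rw [PR.sh_iterate]
      rfl
    cases b
    · change ψ ((PR.sh D)^[(i : ℕ)] (PR.map D φ 0)) +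
        (-s) * ψ ((PR.sh D)^[(i : ℕ)] (PR.map D φ 1)) = _
      rw [map_zero, map_one, h3, h4, map_zero, map_one, mul_one, zero_add]
      rfl
    · change ψ ((PR.sh D)^[(i : ℕ)] (PR.map D φ 0)) +
        s * ψ ((PR.sh D)^[(i : ℕ)] (PR.map D φ 1)) = _
      rw [map_zero, map_one, h3, h4, map_zero, map_one, mul_one, zero_add]
      rfl
  have hsurj : ∀ z : PR D (𝓞 K ⧸ v.asIdeal), ∃ y, PR.map D φ y = z := by
    intro z
    choose y hy using fun c : ZMod h => Ideal.Quotient.mk_surjective (z c)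
    exact ⟨y, funext hy⟩
  have hΘinj : ∀ x x' : Fin h × Bool, (∀ y, Θ x y = Θ x' y) → x = x' := by
    rintro ⟨i, b⟩ ⟨j, b'⟩ hxx
    have h3 := hxx ⟨0, 1⟩
    rw [him, him] at h3
    have h4 : b = b' := by
      cases b <;> cases b'
      · rfl
      · exact absurd h3.symm hss
      · exact absurd h3 hss
      · rfl
    have h5 : (i : ℕ) = j := by
      refine PR.hom_iter_inj D hN h0' ψ hψ i j i.2 j.2 fun z => ?_
      obtain ⟨y, rfl⟩ := hsurj z
      have := hxx ⟨y, 0⟩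
      rwa [hre, hre] at this
    rw [h4, Fin.ext h5]
  choose w hw hw2 using fun x => exists_prime_of_hom D e v (Θ x) (hΘ x)
  have hinj : Function.Injective w := by
    intro x x' hxx
    apply hΘinj
    intro y
    obtain ⟨r, hr⟩ := Ideal.Quotient.mk_surjective (Θ x y)
    have h3 : Θ x (y - algebraMap (𝓞 K) (QR D (-1 : 𝓞 K)) r) = 0 := by
      rw [map_sub, hΘ, sub_eq_zero]
      exact hr.symm
    rw [← hw2, hxx, hw2, map_sub, hΘ, sub_eq_zero] at h3
    rw [h3]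
    exact hr.symm
  show (abv L v).ncard = _
  refine le_antisymm (sum_formula v).1 ?_
  rw [finrank_of_equiv D e]
  have h3 : (Set.range w).ncard = 2 * h := by
    rw [← Set.image_univ, Set.ncard_image_of_injective _ hinj, Set.ncard_univ,
      Nat.card_eq_fintype_card, Fintype.card_prod, Fintype.card_fin, Fintype.card_bool, mul_comm]
  rw [← h3]
  refine Set.ncard_le_ncard ?_ (finite_abv v)
  rintro _ ⟨r, rfl⟩
  exact hw r

include e in
/-- **Complete splitting**, in the form of `S_TR`. -/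
theorem mem_Spl_of_deg1 (v : HeightOneSpectrum (𝓞 K)) (hf : ((f : ℕ) : 𝓞 K) ∉ v.asIdeal)
    (hp : (nm v).Prime) (h4 : nm v % 4 = 1) (h0 : D.ind (nm v) = 0) : v ∈ Spl K L := by
  refine mem_Spl_of_ind D e v hf ?_ h0 ?_
  · intro h2
    have h3 := coprime_nm (v := v) Nat.prime_two
    by_contra
    have h5 : IsCoprime ((nm v : ℕ) : ℤ) ((2 : ℕ) : ℤ) := by
      rw [Nat.isCoprime_iff_coprime]
      exact (Nat.coprime_primes hp Nat.prime_two).2 (by omega)
    obtain ⟨a, b, hab⟩ := h5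
    apply v.isPrime.ne_top
    rw [Ideal.eq_top_iff_one]
    have h6 : (1 : 𝓞 K) = (a : 𝓞 K) * ((nm v : ℕ) : 𝓞 K) + (b : 𝓞 K) * ((2 : ℕ) : 𝓞 K) := by
      have := congrArg (Int.cast : ℤ → 𝓞 K) hab
      push_cast at this
      exact this.symm
    rw [h6]
    exact v.asIdeal.add_mem (v.asIdeal.mul_mem_left _ (nm_mem v)) (v.asIdeal.mul_mem_left _ h2)
  · have hpF : Fact (nm v).Prime := ⟨hp⟩
    have h5 : IsSquare (-1 : ZMod (nm v)) := by
      rw [ZMod.exists_sq_eq_neg_one_iff]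
      omega
    obtain ⟨t, ht⟩ := h5
    refine ⟨((t.val : ℕ) : 𝓞 K), ?_⟩
    have h6 : nm v ∣ t.val * t.val + 1 := by
      rw [← ZMod.natCast_eq_zero_iff]
      push_cast
      rw [ZMod.natCast_val, ZMod.cast_id, ← ht]
      ring
    obtain ⟨m, hm⟩ := h6
    have h7 : ((t.val : ℕ) : 𝓞 K) * ((t.val : ℕ) : 𝓞 K) + 1 = (m : 𝓞 K) * ((nm v : ℕ) : 𝓞 K) := by
      have := congrArg (Nat.cast : ℕ → 𝓞 K) hm
      push_cast at this
      rw [this, mul_comm]
    rw [h7]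
    exact v.asIdeal.mul_mem_left _ (nm_mem v)

end Pool.Agent.Lib.MP_673eb1_lc
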