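import Pool.Agent.Lib.MP_673eb1_lc.DefsHF

/-!
MP_673eb1_lc, module HFa: elementary facts on `PR.nrm` and `Df`, complex values.
-/

set_option autoImplicit false

open NumberField IsDedekindDomain Pool.Agent.ZD

namespace Pool.Agent.Lib.MP_673eb1_lc.HF

variable {h f : ℕ} [Fact h.Prime] (D : PerData h f) {S : Type*} [CommRing S]

private theorem hfa_iter (i : ℕ) (x : PR D S) (c : ZMod h) :
    ((PR.sh D)^[i] x) c = x (c - i) := by
  induction i generalizing c with
  | zero => simp
  | succ n ih =>
    rw [Function.iterate_succ_apply', PR.sh_apply, ih]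
    congr 1
    push_cast
    ring

/-- `σ^h = 1`. -/
theorem sh_pow_h (x : PR D S) : (PR.sh D)^[h] x = x := by
  ext c
  rw [hfa_iter]
  congr 1
  simp

theorem PR.nrm_mul (x y : PR D S) : PR.nrm D (x * y) = PR.nrm D x * PR.nrm D y := by
  unfold PR.nrm
  rw [← Finset.prod_mul_distrib]
  exact Finset.prod_congr rfl fun i _ => iterate_map_mul (PR.sh D) i x y

theorem PR.nrm_one : PR.nrm D (1 : PR D S) = 1 := by
  unfold PR.nrm
  exact Finset.prod_eq_one fun i _ => iterate_map_one (PR.sh D) i

theorem PR.sh_nrm (x : PR D S) : PR.sh D (PR.nrm D x) = PR.nrm D x := by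
  unfold PR.nrm
  rw [map_prod]
  have e1 : ∀ i : ℕ, PR.sh D ((PR.sh D)^[i] x) = (PR.sh D)^[i + 1] x := fun i =>
    (Function.iterate_succ_apply' _ i x).symm
  simp only [e1]
  obtain ⟨n, hn⟩ : ∃ n, h = n + 1 := ⟨h - 1, by have := (Fact.out : h.Prime).pos; omega⟩
  have e2 : ∏ i ∈ Finset.range (n + 1), (PR.sh D)^[i + 1] x =
      ∏ i ∈ Finset.range (n + 1), (PR.sh D)^[i] x := by
    rw [Finset.prod_range_succ, Finset.prod_range_succ']
    congr 1
    have e3 := sh_pow_h D x
    have e4 : (PR.sh D)^[n + 1] x = (PR.sh D)^[h] x :=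
      congrArg (fun m : ℕ => (PR.sh D)^[m] x) hn.symm
    rw [e4, e3]
    rfl
  have e5 : Finset.range h = Finset.range (n + 1) := congrArg Finset.range hn
  rw [e5]
  exact e2

/-- A `σ`-invariant element has equal coordinates, so it is `algebraMap` of `-` its coordinate. -/
theorem PR.nrm_eq (x : PR D S) : PR.nrm D x = algebraMap S (PR D S) (-(PR.nrm D x) 0) := by
  have h1 : ∀ i : ℕ, (PR.sh D)^[i] (PR.nrm D x) = PR.nrm D x := by
    intro i
    induction i with
    | zero => rfl
    | succ n ih => rw [Function.iterate_succ_apply', ih, PR.sh_nrm]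
  ext c
  rw [PR.algebraMap_apply, neg_neg]
  have h2 := hfa_iter D c.val (PR.nrm D x) c
  rw [h1, ZMod.natCast_zmod_val, sub_self] at h2
  exact h2

theorem PR.nrm_algebraMap (s : S) :
    PR.nrm D (algebraMap S (PR D S) s) = algebraMap S (PR D S) (s ^ h) := by
  have h1 : ∀ i : ℕ, (PR.sh D)^[i] (algebraMap S (PR D S) s) = algebraMap S (PR D S) s := by
    intro i
    ext c
    rw [hfa_iter, PR.algebraMap_apply, PR.algebraMap_apply]
  unfold PR.nrm
  rw [Finset.prod_congr rfl fun i _ => h1 i, Finset.prod_const, Finset.card_range, map_pow]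

theorem PR.map_nrm {S' : Type*} [CommRing S'] (φ : S →+* S') (x : PR D S) :
    PR.map D φ (PR.nrm D x) = PR.nrm D (PR.map D φ x) := by
  unfold PR.nrm
  rw [map_prod]
  refine Finset.prod_congr rfl fun i _ => ?_
  ext c
  rw [PR.map_apply, hfa_iter, hfa_iter, PR.map_apply]

theorem Df_spec (g : ℕ) (x : S) : algebraMap S (PR D S) (Df D g x) =
    PR.nrm D ((algebraMap S (PR D S) x - PR.e D 0) ^ 2 + (g : PR D S)) := by
  unfold Df
  exact (PR.nrm_eq D _).symm

theorem Df_map {S' : Type*} [CommRing S'] (φ : S →+* S') (g : ℕ) (x : S) :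
    φ (Df D g x) = Df D g (φ x) := by
  have e1 : PR.map D φ (algebraMap S (PR D S) x) = algebraMap S' (PR D S') (φ x) := by
    ext c
    rw [PR.map_apply, PR.algebraMap_apply, PR.algebraMap_apply, map_neg]
  have e2 : PR.map D φ (PR.e D 0) = PR.e D 0 := by
    ext c
    rw [PR.map_apply, PR.e_apply, PR.e_apply]
    split_ifs
    · exact map_one φ
    · exact map_zero φ
  have e3 : PR.map D φ ((algebraMap S (PR D S) x - PR.e D 0) ^ 2 + (g : PR D S)) =
      (algebraMap S' (PR D S') (φ x) - PR.e D 0) ^ 2 + (g : PR D S') := by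
    rw [map_add, map_pow, map_sub, e1, e2, map_natCast]
  unfold Df
  rw [map_neg, ← PR.map_apply, PR.map_nrm, e3]

private theorem hfa_shift (n : ℕ) (c c' l : ZMod h) :
    D.m (c + n) (c' + n) (l + n) = D.m c c' l := by
  induction n with
  | zero => simp
  | succ n ih =>
    have h1 := D.shift (c + n) (c' + n) (l + n)
    rw [ih] at h1
    rw [← h1]
    push_cast
    rw [add_assoc, add_assoc, add_assoc]

private theorem hfa_sum (k : ZMod h) : ∑ c, (D.η (c + k) : ℂ) = -1 := by
  have h1 : ∑ c, D.η (c + k) = -1 := by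
    rw [← D.sum_η]
    exact Equiv.sum_comp (Equiv.addRight k) D.η
  have h2 := congrArg (fun r : ℝ => (r : ℂ)) h1
  push_cast at h2
  exact h2

private theorem hfa_mul (c c' k : ZMod h) :
    ∑ l, (D.m c c' l : ℂ) * (D.η (l + k) : ℂ) = (D.η (c + k) : ℂ) * (D.η (c' + k) : ℂ) := by
  have h1 : ∑ l, (D.m c c' l : ℝ) * D.η (l + k) = D.η (c + k) * D.η (c' + k) := by
    rw [D.mul_η]
    have h2 : ∀ l, (D.m c c' l : ℝ) * D.η (l + k) =
        (D.m (c + k) (c' + k) (l + k) : ℝ) * D.η (l + k) := by
      intro l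
      have h3 := hfa_shift D k.val c c' l
      rw [ZMod.natCast_zmod_val] at h3
      rw [h3]
    simp only [h2]
    exact Equiv.sum_comp (Equiv.addRight k) fun l => (D.m (c + k) (c' + k) l : ℝ) * D.η l
  have h2 := congrArg (fun r : ℝ => (r : ℂ)) h1
  push_cast at h2
  exact h2

/-- The ring homomorphism `PR D S → ℂ` given by `φ : S → ℂ` and `e_c ↦ η (c + k)` (from `mul_η` and the
invariance `shift` of the structure constants). -/
noncomputable def evC (φ : S →+* ℂ) (k : ZMod h) : PR D S →+* ℂ where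
  toFun x := ∑ c, φ (x c) * (D.η (c + k) : ℂ)
  map_one' := by
    simp only [PR.one_apply, map_neg, map_one, neg_mul, one_mul, Finset.sum_neg_distrib]
    rw [hfa_sum, neg_neg]
  map_zero' := by
    simp
  map_add' x y := by
    simp only [PR.add_apply, map_add, add_mul, Finset.sum_add_distrib]
  map_mul' x y := by
    have e1 : ∀ l, φ ((x * y) l) * (D.η (l + k) : ℂ) =
        ∑ c, ∑ c', φ (x c) * φ (y c') * ((D.m c c' l : ℂ) * (D.η (l + k) : ℂ)) := by
      intro l
      rw [PR.mul_apply, map_sum, Finset.sum_mul]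
      refine Finset.sum_congr rfl fun c _ => ?_
      rw [map_sum, Finset.sum_mul]
      refine Finset.sum_congr rfl fun c' _ => ?_
      rw [map_mul, map_mul, map_intCast]
      ring
    simp only [e1]
    rw [Finset.sum_comm, Finset.sum_mul_sum]
    refine Finset.sum_congr rfl fun c _ => ?_
    rw [Finset.sum_comm]
    refine Finset.sum_congr rfl fun c' _ => ?_
    rw [← Finset.mul_sum, hfa_mul]
    ring

theorem evC_apply (φ : S →+* ℂ) (k : ZMod h) (x : PR D S) :
    evC D φ k x = ∑ c, φ (x c) * (D.η (c + k) : ℂ) := rfl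

theorem evC_sh (φ : S →+* ℂ) (k : ZMod h) (x : PR D S) :
    evC D φ k (PR.sh D x) = evC D φ (k + 1) x := by
  rw [evC_apply, evC_apply, ← Equiv.sum_comp (Equiv.addRight (1 : ZMod h))]
  refine Finset.sum_congr rfl fun c _ => ?_
  rw [Equiv.coe_addRight, PR.sh_apply, add_sub_cancel_right]
  congr 3
  ring

theorem evC_algebraMap (φ : S →+* ℂ) (k : ZMod h) (s : S) :
    evC D φ k (algebraMap S (PR D S) s) = φ s := by
  rw [evC_apply]
  simp only [PR.algebraMap_apply]
  rw [← Finset.mul_sum, hfa_sum, map_neg]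
  ring

theorem evC_e (φ : S →+* ℂ) (k c : ZMod h) : evC D φ k (PR.e D c) = (D.η (c + k) : ℂ) := by
  rw [evC_apply, Finset.sum_eq_single c]
  · rw [PR.e_apply, if_pos rfl, map_one, one_mul]
  · intro b _ hb
    rw [PR.e_apply, if_neg hb, map_zero, zero_mul]
  · intro hc
    exact absurd (Finset.mem_univ c) hc

theorem evC_nrm (φ : S →+* ℂ) (k : ZMod h) (x : PR D S) :
    evC D φ k (PR.nrm D x) = ∏ c : ZMod h, evC D φ c x := by
  have e1 : ∀ (i : ℕ) (k : ZMod h), evC D φ k ((PR.sh D)^[i] x) = evC D φ (k + i) x := by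
    intro i
    induction i with
    | zero => intro k; simp
    | succ n ih =>
      intro k
      rw [Function.iterate_succ_apply', evC_sh, ih]
      congr 2
      push_cast
      ring
  unfold PR.nrm
  rw [map_prod]
  simp only [e1]
  refine Finset.prod_nbij' (fun i : ℕ => k + (i : ZMod h)) (fun c : ZMod h => (c - k).val)
    (fun _ _ => Finset.mem_univ _) (fun c _ => Finset.mem_range.2 (ZMod.val_lt _)) ?_ ?_
    (fun _ _ => rfl)
  · intro i hi
    simp only [add_sub_cancel_left]
    exact ZMod.val_cast_of_lt (Finset.mem_range.1 hi)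
  · intro c _
    simp only [ZMod.natCast_zmod_val]
    ring

theorem phi_Df (φ : S →+* ℂ) (g : ℕ) (x : S) :
    φ (Df D g x) = ∏ c : ZMod h, ((φ x - D.η c) ^ 2 + g) := by
  rw [← evC_algebraMap D φ 0 (Df D g x), Df_spec, evC_nrm]
  refine Finset.prod_congr rfl fun c _ => ?_
  rw [map_add, map_pow, map_sub, evC_algebraMap, evC_e, map_natCast, zero_add]

/-- The periods are distinct. -/
theorem eta_inj : Function.Injective D.η := D.indep.injective

/-- `η c + j = η c' + j'` with `j, j'` integers only if `c = c'` and `j = j'`: if `c ≠ c'` then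
`η c - η c' = (j' - j) = (j - j') ∑ η` contradicts the linear independence (`h ≥ 3`). -/
theorem eta_add_inj (c c' : ZMod h) (j j' : ℤ) (hj : D.η c + j = D.η c' + j') : c = c' ∧ j = j' := by
  by_cases hc : c = c'
  · subst hc
    refine ⟨rfl, ?_⟩
    have h1 : (j : ℝ) = j' := by linarith
    exact_mod_cast h1
  · exfalso
    have h1 := Fintype.linearIndependent_iff.1 D.indep
      (fun k => (if k = c then (1 : ℚ) else 0) - (if k = c' then 1 else 0) + ((j' : ℚ) - j)) (by
        have e1 : ∀ k, ((if k = c then (1 : ℚ) else 0) - (if k = c' then 1 else 0) +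
            ((j' : ℚ) - j)) • D.η k = (if k = c then D.η k else 0) - (if k = c' then D.η k else 0) +
            ((j' : ℝ) - j) * D.η k := by
          intro k
          rw [Rat.smul_def]
          split_ifs <;> push_cast <;> ring
        simp only [e1]
        rw [Finset.sum_add_distrib, Finset.sum_sub_distrib, Finset.sum_ite_eq', Finset.sum_ite_eq',
          if_pos (Finset.mem_univ _), if_pos (Finset.mem_univ _), ← Finset.mul_sum, D.sum_η]
        linarith)
    have h2 := h1 c
    have h3 := h1 c'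
    rw [if_pos rfl, if_neg hc] at h2
    rw [if_pos rfl, if_neg (Ne.symm hc)] at h3
    linarith

end Pool.Agent.Lib.MP_673eb1_lc.HF
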