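import Pool.Agent.Lib.MP_673eb1_lc.DefsCM
import Pool.Agent.Lib.MP_673eb1_lc.HFa

/-!
MP_673eb1_lc, module CMComp: the integers are in the set `V` of the CM step.
-/

set_option autoImplicit false

open NumberField IsDedekindDomain Pool.Agent.ZD

namespace Pool.Agent.Lib.MP_673eb1_lc.HF

variable {h f : ℕ} [Fact h.Prime] (D : PerData h f) {K : Type} [Field K] [NumberField K]

/-- `β² ∣ x^m - 1 - m β` for a unit `x = 1 + β`. -/
theorem CMComp_dvd {A : Type*} [CommRing A] (x : Aˣ) (β : A) (hx : (x : A) = 1 + β) (m : ℤ) :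
    β ^ 2 ∣ ((x ^ m : Aˣ) : A) - 1 - (m : A) * β := by
  induction m using Int.induction_on with
  | zero => simp
  | succ i ih =>
    obtain ⟨s, hs⟩ := ih
    refine ⟨s * (1 + β) + (i : A), ?_⟩
    rw [zpow_add_one, Units.val_mul, hx]
    push_cast at hs ⊢
    linear_combination (1 + β) * hs
  | pred i ih =>
    obtain ⟨s, hs⟩ := ih
    have h1 : ((x ^ (-(i : ℤ)) : Aˣ) : A) = ((x ^ (-(i : ℤ) - 1) : Aˣ) : A) * (1 + β) := by
      rw [← hx, ← Units.val_mul, ← zpow_add_one]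
      congr 2
      ring
    have h2 : ((x⁻¹ : Aˣ) : A) * (1 + β) = 1 := by
      rw [← hx, Units.inv_mul]
    refine ⟨((x⁻¹ : Aˣ) : A) * (s + (i : A) + 1), ?_⟩
    rw [h1] at hs
    push_cast at hs ⊢
    linear_combination ((x⁻¹ : Aˣ) : A) * hs + (-(((x ^ (-(i : ℤ) - 1) : Aˣ) : A)) + 1 +
      (-(i : A) - 1) * β) * h2

omit [NumberField K] in
theorem CMComp_inj [CharZero K] : Function.Injective (PR.map D (Int.castRingHom K)) := by
  intro x y hxy
  ext c
  have := congrFun hxy c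
  change ((x c : ℤ) : K) = ((y c : ℤ) : K) at this
  exact_mod_cast this

omit [NumberField K] in
theorem CMComp_smul (n : ℤ) (x : PR D ℤ) :
    PR.map D (Int.castRingHom K) (algebraMap ℤ (PR D ℤ) n * x) =
      (n : K) • PR.map D (Int.castRingHom K) x := by
  ext c
  rw [← Algebra.smul_def]
  simp

omit [NumberField K] in
theorem CMComp_algebraMap (n : ℤ) : PR.map D (Int.castRingHom K) (algebraMap ℤ (PR D ℤ) n) =
    algebraMap K (PR D K) (n : K) := by
  ext c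
  rw [PR.map_apply, PR.algebraMap_apply, PR.algebraMap_apply]
  simp

/-- The monoid homomorphism `PR.nrm`. -/
def CMComp_nrm : PR D ℤ →* PR D ℤ where
  toFun := PR.nrm D
  map_one' := PR.nrm_one D
  map_mul' := PR.nrm_mul D

theorem CMComp_unit (ε : PR D ℤ) (hε : PR.nrm D ε = 1) : IsUnit ε := by
  have hh : 0 < h := (Fact.out : h.Prime).pos
  refine IsUnit.of_mul_eq_one (∏ i ∈ (Finset.range h).erase 0, (PR.sh D)^[i] ε) ?_
  rw [← hε]
  exact Finset.mul_prod_erase (Finset.range h) (fun i => (PR.sh D)^[i] ε) (Finset.mem_range.2 hh)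

/-- Some power is `1` modulo `M`. -/
theorem CMComp_pow (ε : PR D ℤ) (hε : PR.nrm D ε = 1) (M : ℤ) (hM : M ≠ 0) :
    ∃ k : ℕ, 0 < k ∧ ∀ c : ℕ, ∃ y : PR D ℤ, (ε ^ k) ^ c - 1 = algebraMap ℤ (PR D ℤ) M * y := by
  have hM' : NeZero M.natAbs := ⟨Int.natAbs_ne_zero.2 hM⟩
  set φ := PR.map D (Int.castRingHom (ZMod M.natAbs)) with hφ
  have hfin : Finite (PR D (ZMod M.natAbs)) := by
    unfold PR
    infer_instance
  obtain ⟨u, hu⟩ := (CMComp_unit D ε hε).map φ
  have hu' : IsOfFinOrder u := isOfFinOrder_of_finite u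
  obtain ⟨k, hk, hk1⟩ := isOfFinOrder_iff_pow_eq_one.1 hu'
  refine ⟨k, hk, fun c => ?_⟩
  have h1 : φ ((ε ^ k) ^ c - 1) = 0 := by
    rw [map_sub, map_pow, map_pow, ← hu, ← Units.val_pow_eq_pow_val, hk1, Units.val_one, one_pow,
      map_one, sub_self]
  have h2 : ∀ j, M ∣ ((ε ^ k) ^ c - 1) j := by
    intro j
    have h3 := congrFun h1 j
    have h4 : ((((ε ^ k) ^ c - 1) j : ℤ) : ZMod M.natAbs) = 0 := h3
    rw [ZMod.intCast_zmod_eq_zero_iff_dvd] at h4
    exact (Int.natAbs_dvd (a := M)).1 (by exact_mod_cast h4)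
  have h5 : ∃ y : PR D ℤ, ∀ j, ((ε ^ k) ^ c - 1) j = M * y j :=
    ⟨fun j => (h2 j).choose, fun j => (h2 j).choose_spec⟩
  obtain ⟨y, hy⟩ := h5
  refine ⟨y, ?_⟩
  ext j
  rw [← Algebra.smul_def, PR.smul_apply]
  exact hy j

omit [NumberField K] in
theorem CMComp_UT {K : Type} [Field K] [NumberField K] (R : Subring K)
    (Tp : Set (HeightOneSpectrum (𝓞 K))) (x : PR D ℤ) (hx : PR.nrm D x = 1) :
    UT D R Tp (PR.map D (Int.castRingHom K) x) := by
  refine ⟨?_, ?_, ?_⟩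
  · intro k
    exact intCast_mem R (x k)
  · rw [← PR.map_nrm, hx, map_one]
  · intro v _ k
    change v.valuation K ((x k : ℤ) : K) ≤ 1
    rw [← map_intCast (algebraMap (𝓞 K) K)]
    exact v.valuation_le_one _

theorem CMComp_Df_ne (g : ℕ) (hg : 0 < g) (x : ℤ) : Df D g x ≠ 0 := by
  intro h0
  have h1 := phi_Df D (Int.castRingHom ℂ) g x
  rw [h0, map_zero] at h1
  have h2 : (∏ c : ZMod h, (((x : ℝ) - D.η c) ^ 2 + g) : ℝ) = 0 := by
    have : ((∏ c : ZMod h, (((x : ℝ) - D.η c) ^ 2 + g) : ℝ) : ℂ) = 0 := by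
      push_cast
      rw [h1]
      simp
    exact_mod_cast this
  rw [Finset.prod_eq_zero_iff] at h2
  obtain ⟨c, _, hc⟩ := h2
  have hg' : (0 : ℝ) < g := by exact_mod_cast hg
  nlinarith [sq_nonneg ((x : ℝ) - D.η c)]

/-- PROOF. Everything is done in `A = PR D ℤ` and then mapped to `PR D K` (the map `PR.map D
(Int.castRingHom K)` is injective, and all coordinates are integers, so in `R` and integral at all
primes). Let `M = p₀^C ∏_j Df (m - j)^4 ∈ ℤ`, `M ≠ 0` (`Df (x)` for an integer `x` is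
`∏_c ((x - η_c)² + g) > 0`, `phi_Df`). `A/M` is a finite ring, so some power `(ε^c)^k`, `k > 0`, is
`≡ 1 mod M`: `u = ε^k`, `u^c - 1 = M y`. `D₀` = the value of `PR.nrm (u^c - 1) = M^h nrm y`, an integer
divisible by `M`, so by `p₀^C` and by every `Df (m-j)^4` in `ℤ`. `D₀ ≠ 0`: `PR D ℚ` is a field and
`u^c ≠ 1`. Again `b = ε^k'` with `b^c ≡ 1 mod D₀`, `k' > 0`, `b^c - 1 = β = D₀ y'`. `w = b^m` (for `m < 0` use the
inverse `∏_{0<i<h} σ^i b` of `b` in `A`). With `x = b^c = 1 + β` a unit: `x^m - 1 - m β = β² s''` with `s'' ∈ A`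
(binomial theorem for `m ≥ 0`; for `m = -n`: `x^(-n) - 1 + n β = x^(-n) (1 - x^n + n β x^n) ≡ x^(-n)(- n β + n β) = 0
mod β²`). So `w^c - 1 - m (b^c - 1) = D₀ β (y' s'')`. -/
theorem cm_comp (hfield : IsField (PR D ℚ)) (ε : PR D ℤ) (hε : PR.nrm D ε = 1)
    (hinf : ∀ n : ℕ, 0 < n → ε ^ n ≠ 1) (R : Subring K) (Tp : Set (HeightOneSpectrum (𝓞 K)))
    (g c C p₀ : ℕ) (hg : 0 < g) (hc : 0 < c) (hp₀ : 0 < p₀) (m : ℤ) :
    (m : K) ∈ SetV D R Tp g c C p₀ := by
  classical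
  set n := Module.finrank ℚ K with hn
  set N : ℤ := (p₀ : ℤ) ^ C * ∏ j ∈ Finset.range (n + 1), (Df D g (m - (j : ℤ))) ^ 4 with hN
  have hN0 : N ≠ 0 := by
    refine mul_ne_zero (pow_ne_zero _ (by exact_mod_cast hp₀.ne')) ?_
    rw [Finset.prod_ne_zero_iff]
    intro j _
    exact pow_ne_zero _ (CMComp_Df_ne D g hg _)
  obtain ⟨k, hk, hky⟩ := CMComp_pow D ε hε N hN0
  obtain ⟨y, hy⟩ := hky c
  set u : PR D ℤ := ε ^ k with hu
  have hnu : PR.nrm D u = 1 := by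
    have := map_pow (CMComp_nrm D) ε k
    change PR.nrm D (ε ^ k) = PR.nrm D ε ^ k at this
    rw [hu, this, hε, one_pow]
  have huc : u ^ c ≠ 1 := by
    rw [hu, ← pow_mul]
    exact hinf _ (Nat.mul_pos hk hc)
  -- `D₀`
  set D0 : ℤ := -(PR.nrm D (u ^ c - 1)) 0 with hD0
  have hD0eq : algebraMap ℤ (PR D ℤ) D0 = PR.nrm D (u ^ c - 1) := (PR.nrm_eq D _).symm
  have hD0N : N ∣ D0 := by
    have h1 : PR.nrm D (u ^ c - 1) = algebraMap ℤ (PR D ℤ) (N ^ h) * PR.nrm D y := by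
      rw [hy, PR.nrm_mul, PR.nrm_algebraMap]
    rw [hD0, h1, ← Algebra.smul_def, PR.smul_apply]
    exact (Dvd.dvd.mul_right (dvd_pow_self N (Fact.out : h.Prime).ne_zero) _).neg_right
  have hD0ne : D0 ≠ 0 := by
    intro h0
    rw [h0, map_zero] at hD0eq
    let ψ := PR.map D (Int.castRingHom ℚ)
    let _ := hfield.toField
    have h1 : PR.nrm D (ψ (u ^ c - 1)) = 0 := by
      rw [← PR.map_nrm, ← hD0eq, map_zero]
    unfold PR.nrm at h1
    rw [Finset.prod_eq_zero_iff] at h1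
    obtain ⟨i, _, hi⟩ := h1
    have h2 : ψ (u ^ c - 1) = 0 := by
      have hinj : Function.Injective ((PR.sh D (S := ℚ))^[i]) := (PR.sh D).injective.iterate i
      have h00 : ∀ i : ℕ, ((PR.sh D (S := ℚ))^[i]) 0 = 0 := by
        intro i
        induction i with
        | zero => rfl
        | succ i ih => rw [Function.iterate_succ_apply', ih, map_zero]
      exact hinj (hi.trans (h00 i).symm)
    have h3 : u ^ c - 1 = 0 := CMComp_inj D (K := ℚ) (h2.trans (map_zero _).symm)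
    exact huc (sub_eq_zero.1 h3)
  obtain ⟨r, hr⟩ := hD0N
  -- `b`
  obtain ⟨k', hk', hky'⟩ := CMComp_pow D ε hε D0 hD0ne
  obtain ⟨y', hy'⟩ := hky' c
  set b : PR D ℤ := ε ^ k' with hb
  have hnb : PR.nrm D b = 1 := by
    have := map_pow (CMComp_nrm D) ε k'
    change PR.nrm D (ε ^ k') = PR.nrm D ε ^ k' at this
    rw [hb, this, hε, one_pow]
  have hbc : b ^ c ≠ 1 := by
    rw [hb, ← pow_mul]
    exact hinf _ (Nat.mul_pos hk' hc)
  obtain ⟨B, hB⟩ := CMComp_unit D b hnb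
  set w : PR D ℤ := ((B ^ m : (PR D ℤ)ˣ) : PR D ℤ) with hw
  have hnw : PR.nrm D w = 1 := by
    have h1 : Units.map (CMComp_nrm D) B = 1 := by
      ext1
      change PR.nrm D (B : PR D ℤ) = 1
      rw [hB, hnb]
    have h2 : Units.map (CMComp_nrm D) (B ^ m) = 1 := by
      rw [map_zpow, h1, one_zpow]
    have h3 := congrArg Units.val h2
    exact h3
  have hx : ((B ^ c : (PR D ℤ)ˣ) : PR D ℤ) = 1 + (b ^ c - 1) := by
    rw [Units.val_pow_eq_pow_val, hB]
    ring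
  obtain ⟨s, hs⟩ := CMComp_dvd (B ^ c) (b ^ c - 1) hx m
  have hwc : ((((B ^ c) ^ m : (PR D ℤ)ˣ)) : PR D ℤ) = w ^ c := by
    rw [hw, ← Units.val_pow_eq_pow_val]
    congr 1
    rw [← zpow_natCast, ← zpow_natCast, ← zpow_mul, ← zpow_mul, mul_comm]
  rw [hwc] at hs
  have hmain : w ^ c - 1 - algebraMap ℤ (PR D ℤ) m * (b ^ c - 1) =
      algebraMap ℤ (PR D ℤ) D0 * ((b ^ c - 1) * (y' * s)) := by
    have h1 : algebraMap ℤ (PR D ℤ) m = (m : PR D ℤ) := by
      simp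
    rw [h1, hs]
    have h2 : (b ^ c - 1) ^ 2 * s = (b ^ c - 1) * (b ^ c - 1) * s := by ring
    rw [h2]
    nth_rewrite 2 [hy']
    ring
  refine ⟨intCast_mem R m, PR.map D (Int.castRingHom K) u, PR.map D (Int.castRingHom K) b,
    PR.map D (Int.castRingHom K) w, CMComp_UT D R Tp u hnu, CMComp_UT D R Tp b hnb,
    CMComp_UT D R Tp w hnw, ?_, ?_, (D0 : K), ?_, ?_, ?_, ?_⟩
  · rw [← map_pow]
    intro h1
    exact huc (CMComp_inj D (K := K) (h1.trans (map_one _).symm))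
  · rw [← map_pow]
    intro h1
    exact hbc (CMComp_inj D (K := K) (h1.trans (map_one _).symm))
  · rw [← CMComp_algebraMap, hD0eq, PR.map_nrm, map_sub, map_pow, map_one]
  · refine ⟨(((∏ j ∈ Finset.range (n + 1), (Df D g (m - (j : ℤ))) ^ 4) * r : ℤ) : K),
      intCast_mem R _, ?_⟩
    rw [hr, hN]
    push_cast
    ring
  · intro j hj
    have h1 : (Df D g (m - (j : ℤ))) ^ 4 ∣ D0 := by
      rw [hr, hN]
      exact Dvd.dvd.mul_right (Dvd.dvd.mul_left (Finset.dvd_prod_of_mem _ hj) _) _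
    obtain ⟨r', hr'⟩ := h1
    refine ⟨(r' : K), intCast_mem R _, ?_⟩
    have h2 : Df D g ((m : K) - (j : K)) = ((Df D g (m - (j : ℤ)) : ℤ) : K) := by
      have := Df_map D (Int.castRingHom K) g (m - (j : ℤ))
      simp only [eq_intCast, Int.cast_sub, Int.cast_natCast] at this
      exact this.symm
    rw [h2, hr']
    push_cast
    ring
  · refine ⟨PR.map D (Int.castRingHom K) (y' * s), fun k => intCast_mem R _, ?_⟩
    have h1 := congrArg (PR.map D (Int.castRingHom K)) hmain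
    rw [map_sub, CMComp_smul, CMComp_smul] at h1
    simp only [map_sub, map_pow, map_one, map_mul] at h1
    rw [h1, map_mul]

end Pool.Agent.Lib.MP_673eb1_lc.HF
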