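import Pool.Agent.Lib.MP_673eb1_lc.DefsCM
import Pool.Agent.Lib.MP_673eb1_lc.HFa
import Pool.Agent.Lib.MP_673eb1_lc.DioC

/-!
MP_673eb1_lc, module CMDio: the set `V` of the CM step is Diophantine.
-/

set_option autoImplicit false

open NumberField IsDedekindDomain Pool.Agent.ZD

namespace Pool.Agent.Lib.MP_673eb1_lc.HF

variable {h f : ℕ} [Fact h.Prime] (D : PerData h f) {K : Type} [Field K] [NumberField K]

/-- the standard basis of `PR D K` -/
private noncomputable def cmd_basis : Module.Basis (ZMod h) K (PR D K) :=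
  show Module.Basis (ZMod h) K (ZMod h → K) from Pi.basisFun K (ZMod h)

omit [NumberField K] in
private theorem cmd_basis_repr (x : PR D K) (i : ZMod h) : (cmd_basis D).repr x i = x i :=
  Pi.basisFun_repr K (ZMod h) x i

omit [NumberField K] in
private theorem cmd_fin : FiniteDimensional K (PR D K) :=
  Module.Finite.of_basis (cmd_basis D)

section

variable {E : Type*} [AddCommGroup E] [Module K E]

omit [NumberField K] in
private theorem cmd_apply {φ : E → PR D K} (hφ : IsPol K φ) (k : ZMod h) :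
    IsPol K (fun v => φ v k) := by
  have h1 : (fun v => φ v k) = fun v => (cmd_basis D).coord k (φ v) := by
    funext v
    exact (cmd_basis_repr D (φ v) k).symm
  rw [h1]
  exact (IsPol.linear ((cmd_basis D (K := K)).coord k)).comp hφ

/-- `σ` as a linear map -/
private def cmd_sh : PR D K →ₗ[K] PR D K where
  toFun x := PR.sh D x
  map_add' _ _ := rfl
  map_smul' _ _ := rfl

omit [NumberField K] in
private theorem cmd_iter {φ : E → PR D K} (hφ : IsPol K φ) (i : ℕ) :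
    IsPol K (fun v => (PR.sh D)^[i] (φ v)) := by
  induction i with
  | zero => exact hφ
  | succ n ih =>
    have h1 : (fun v => (PR.sh D)^[n + 1] (φ v)) = fun v => cmd_sh D ((PR.sh D)^[n] (φ v)) := by
      funext v
      exact Function.iterate_succ_apply' _ n (φ v)
    rw [h1]
    exact (IsPol.linear (cmd_sh D (K := K))).comp ih

omit [NumberField K] in
private theorem cmd_nrm {φ : E → PR D K} (hφ : IsPol K φ) :
    IsPol K (fun v => PR.nrm D (φ v)) := by
  have := cmd_fin D (K := K)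
  unfold PR.nrm
  exact IsPol.prod _ fun i _ => cmd_iter D hφ i

omit [NumberField K] in
private theorem cmd_alg {φ : E → K} (hφ : IsPol K φ) :
    IsPol K (fun v => algebraMap K (PR D K) (φ v)) :=
  (IsPol.linear (Algebra.linearMap K (PR D K))).comp hφ

omit [NumberField K] in
private theorem cmd_pow {φ : E → PR D K} (hφ : IsPol K φ) (n : ℕ) :
    IsPol K (fun v => φ v ^ n) := by
  have := cmd_fin D (K := K)
  exact hφ.pow n

omit [NumberField K] in
private theorem cmd_mul {φ ψ : E → PR D K} (hφ : IsPol K φ) (hψ : IsPol K ψ) :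
    IsPol K (fun v => φ v * ψ v) := by
  have := cmd_fin D (K := K)
  exact hφ.mul hψ

omit [NumberField K] in
private theorem cmd_Df {φ : E → K} (hφ : IsPol K φ) (g : ℕ) :
    IsPol K (fun v => Df D g (φ v)) := by
  unfold Df
  refine (cmd_apply D (cmd_nrm D ?_) 0).neg
  exact (cmd_pow D ((cmd_alg D hφ).sub (IsPol.const _)) 2).add (IsPol.const _)

private theorem cmd_UT (R : Subring K) (Tp : Set (HeightOneSpectrum (𝓞 K))) (hfin : Tp.Finite)
    (hT : ∀ v ∈ Tp, Dio R {x : K | v.valuation K x ≤ 1}) {φ : E → PR D K} (hφ : IsPol K φ) :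
    Dio R {x | UT D R Tp (φ x)} := by
  have i1 := cmd_fin D (K := K)
  have i2 : Finite Tp := hfin
  have h1 : Dio R {x | ∀ k, φ x k ∈ R} :=
    Dio.iInter (S := fun k => {x | φ x k ∈ R}) fun k => Dio.memR (cmd_apply D hφ k)
  have h2 : Dio R {x | PR.nrm D (φ x) = 1} := Dio.eq (cmd_nrm D hφ) (IsPol.const 1)
  have h3 : Dio R {x | ∀ v : Tp, ∀ k, v.1.valuation K (φ x k) ≤ 1} :=
    Dio.iInter (S := fun v : Tp => {x | ∀ k, v.1.valuation K (φ x k) ≤ 1}) fun v =>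
      Dio.iInter (S := fun k => {x | v.1.valuation K (φ x k) ≤ 1}) fun k =>
        (hT v.1 v.2).preimage (cmd_apply D hφ k)
  have h4 : {x | UT D R Tp (φ x)} = {x | ∀ k, φ x k ∈ R} ∩ ({x | PR.nrm D (φ x) = 1} ∩
      {x | ∀ v : Tp, ∀ k, v.1.valuation K (φ x k) ≤ 1}) := by
    ext x
    constructor
    · rintro ⟨a, b, c⟩
      exact ⟨a, b, fun v => c v.1 v.2⟩
    · rintro ⟨a, b, c⟩
      exact ⟨a, b, fun v hv => c ⟨v, hv⟩⟩
  rw [h4]
  exact h1.inter (h2.inter h3)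

end

/-- PROOF. `PR D K` is a finite dimensional `K`-algebra with the basis `e_c` (`Pi.basisFun`); `PR.nrm`,
`Df`, powers, `•` are polynomial maps (`IsPol.mul`, `IsPol.prod`, `IsPol.pow`, `IsPol.linear`: `PR.sh D` is
`K`-linear, `algebraMap` is linear). Quantifiers over elements with coordinates in `R`: `Dio.exRb`,
`Dio.exR`; over `D₀ : K`: `Dio.exK`; `≠`: `Dio.ne`; the conditions at the primes of `Tp`: `hT` and
`Dio.preimage`, finite intersections `Dio.iInter`. -/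
theorem cm_dio (R : Subring K) (hR : GoodR R) (Tp : Set (HeightOneSpectrum (𝓞 K)))
    (hfin : Tp.Finite) (hT : ∀ v ∈ Tp, Dio R {x : K | v.valuation K x ≤ 1}) (g c C p₀ : ℕ) :
    Dio R (SetV D R Tp g c C p₀) := by
  have i1 := cmd_fin D (K := K)
  let P := PR D K
  -- the space of `(t, u, b, w, D₀)`
  let E := ((((K × P) × P) × P) × K)
  have pt : IsPol K (fun x : E => x.1.1.1.1) :=
    IsPol.fst.comp (IsPol.fst.comp (IsPol.fst.comp IsPol.fst))
  have pu : IsPol K (fun x : E => x.1.1.1.2) :=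
    IsPol.snd.comp (IsPol.fst.comp (IsPol.fst.comp IsPol.fst))
  have pb : IsPol K (fun x : E => x.1.1.2) := IsPol.snd.comp (IsPol.fst.comp IsPol.fst)
  have pw : IsPol K (fun x : E => x.1.2) := IsPol.snd.comp IsPol.fst
  have pd : IsPol K (fun x : E => x.2) := IsPol.snd
  have s1 : Dio R {x : E | x.1.1.1.1 ∈ R} := Dio.memR pt
  have s2 : Dio R {x : E | UT D R Tp x.1.1.1.2} := cmd_UT D R Tp hfin hT pu
  have s3 : Dio R {x : E | UT D R Tp x.1.1.2} := cmd_UT D R Tp hfin hT pb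
  have s4 : Dio R {x : E | UT D R Tp x.1.2} := cmd_UT D R Tp hfin hT pw
  have s5 : Dio R {x : E | x.1.1.1.2 ^ c - 1 ≠ 0} :=
    Dio.ne hR ((cmd_pow D pu c).sub (IsPol.const 1))
  have s6 : Dio R {x : E | x.1.1.2 ^ c - 1 ≠ 0} :=
    Dio.ne hR ((cmd_pow D pb c).sub (IsPol.const 1))
  have s7 : Dio R {x : E | algebraMap K (PR D K) x.2 = PR.nrm D (x.1.1.1.2 ^ c - 1)} :=
    Dio.eq (cmd_alg D pd) (cmd_nrm D ((cmd_pow D pu c).sub (IsPol.const 1)))
  have s8 : Dio R {x : E | ∃ r : Unit → K, (∀ i, r i ∈ R) ∧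
      (x, r) ∈ {y : E × (Unit → K) | y.1.2 = (p₀ : K) ^ C * y.2 ()}} :=
    Dio.exR (Dio.eq (pd.comp IsPol.fst) ((IsPol.const _).mul (IsPol.snd.apply ())))
  have s9 : Dio R {x : E | ∀ j : Fin (Module.finrank ℚ K + 1), ∃ r : Unit → K, (∀ i, r i ∈ R) ∧
      (x, r) ∈ {y : E × (Unit → K) | y.1.2 = Df D g (y.1.1.1.1.1 - ((j : ℕ) : K)) ^ 4 * y.2 ()}} :=
    Dio.iInter (S := fun j : Fin (Module.finrank ℚ K + 1) => {x : E | ∃ r : Unit → K,
      (∀ i, r i ∈ R) ∧ (x, r) ∈ {y : E × (Unit → K) |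
        y.1.2 = Df D g (y.1.1.1.1.1 - ((j : ℕ) : K)) ^ 4 * y.2 ()}}) fun j =>
      Dio.exR (Dio.eq (pd.comp IsPol.fst)
        ((((cmd_Df D ((pt.comp IsPol.fst).sub (IsPol.const _)) g).pow 4)).mul
          (IsPol.snd.apply ())))
  have s10 : Dio R {x : E | ∃ s : P, (∀ i, (cmd_basis D (K := K)).repr s i ∈ R) ∧
      (x, s) ∈ {y : E × P | y.1.1.2 ^ c - 1 - y.1.1.1.1.1 • (y.1.1.1.2 ^ c - 1) =
        y.1.2 • ((y.1.1.1.2 ^ c - 1) * y.2)}} := by
    refine Dio.exRb (cmd_basis D (K := K)) (Dio.eq ?_ ?_)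
    · exact ((cmd_pow D (pw.comp IsPol.fst) c).sub (IsPol.const 1)).sub
        ((pt.comp IsPol.fst).smul ((cmd_pow D (pb.comp IsPol.fst) c).sub (IsPol.const 1)))
    · exact (pd.comp IsPol.fst).smul
        (cmd_mul D ((cmd_pow D (pb.comp IsPol.fst) c).sub (IsPol.const 1)) IsPol.snd)
  have sA := s1.inter (s2.inter (s3.inter (s4.inter (s5.inter (s6.inter (s7.inter
    (s8.inter (s9.inter s10))))))))
  have sB := Dio.exK (V := ((K × P) × P) × P) (W := K) hR sA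
  have sC := Dio.exK (V := (K × P) × P) (W := P) hR sB
  have sD := Dio.exK (V := K × P) (W := P) hR sC
  have sE := Dio.exK (V := K) (W := P) hR sD
  have key : SetV D R Tp g c C p₀ = {v : K | ∃ w : P, (v, w) ∈ {v : K × P | ∃ w : P, (v, w) ∈ {v : (K × P) × P |
        ∃ w : P, (v, w) ∈ {v : ((K × P) × P) × P | ∃ w : K, (v, w) ∈
        {x : E | x.1.1.1.1 ∈ R} ∩ ({x : E | UT D R Tp x.1.1.1.2} ∩ ({x : E | UT D R Tp x.1.1.2} ∩
        ({x : E | UT D R Tp x.1.2} ∩ ({x : E | x.1.1.1.2 ^ c - 1 ≠ 0} ∩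
        ({x : E | x.1.1.2 ^ c - 1 ≠ 0} ∩
        ({x : E | algebraMap K (PR D K) x.2 = PR.nrm D (x.1.1.1.2 ^ c - 1)} ∩
        ({x : E | ∃ r : Unit → K, (∀ i, r i ∈ R) ∧
          (x, r) ∈ {y : E × (Unit → K) | y.1.2 = (p₀ : K) ^ C * y.2 ()}} ∩
        ({x : E | ∀ j : Fin (Module.finrank ℚ K + 1), ∃ r : Unit → K, (∀ i, r i ∈ R) ∧
          (x, r) ∈ {y : E × (Unit → K) |
            y.1.2 = Df D g (y.1.1.1.1.1 - ((j : ℕ) : K)) ^ 4 * y.2 ()}} ∩
        {x : E | ∃ s : P, (∀ i, (cmd_basis D (K := K)).repr s i ∈ R) ∧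
          (x, s) ∈ {y : E × P | y.1.1.2 ^ c - 1 - y.1.1.1.1.1 • (y.1.1.1.2 ^ c - 1) =
            y.1.2 • ((y.1.1.1.2 ^ c - 1) * y.2)}}))))))))}}}} := by
    ext t
    constructor
    · rintro ⟨ht, u, b, w, hu, hb, hw, hu1, hb1, D₀, hD, ⟨r, hr, hr'⟩, hj, s, hs, he⟩
      refine ⟨u, b, w, D₀, ht, hu, hb, hw, sub_ne_zero.2 hu1, sub_ne_zero.2 hb1, hD,
        ⟨fun _ => r, fun _ => hr, hr'⟩, ?_, s, fun i => ?_, he⟩
      · intro j
        obtain ⟨r, hr, hr'⟩ := hj j (Finset.mem_range.2 j.2)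
        exact ⟨fun _ => r, fun _ => hr, hr'⟩
      · rw [cmd_basis_repr]
        exact hs i
    · rintro ⟨u, b, w, D₀, ht, hu, hb, hw, hu1, hb1, hD, ⟨r, hr, hr'⟩, hj, s, hs, he⟩
      refine ⟨ht, u, b, w, hu, hb, hw, sub_ne_zero.1 hu1, sub_ne_zero.1 hb1, D₀, hD,
        ⟨r (), hr _, hr'⟩, ?_, s, fun k => ?_, he⟩
      · intro j hjr
        obtain ⟨r, hr, hr'⟩ := hj ⟨j, Finset.mem_range.1 hjr⟩
        exact ⟨r (), hr _, hr'⟩
      · have h1 := hs k
        rw [cmd_basis_repr] at h1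
        exact h1
  rw [key]
  exact sE

end Pool.Agent.Lib.MP_673eb1_lc.HF
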