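import Pool.Agent.Lib.MP_673eb1_lc.DefsCM
import Pool.Agent.Lib.MP_673eb1_lc.HFa

/-!
MP_673eb1_lc, module CMReal: powers of norm one units of `K(periods)`, `K` CM, are real.
-/

set_option autoImplicit false

open NumberField IsDedekindDomain Pool.Agent.ZD

namespace Pool.Agent.Lib.MP_673eb1_lc.HF

variable {h f : ℕ} [Fact h.Prime] (D : PerData h f) {F K : Type} [Field F] [NumberField F] [Field K]
  [NumberField K] [Algebra F K]

/-- Elements of `PR D K` with integral coordinates are integral. -/
private theorem cmr_int (u : PR D K) (hu : ∀ k, IsIntegral ℤ (u k)) : IsIntegral ℤ u := by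
  have hfin : @Module.Finite ℤ (PR D ℤ) _ _ (PR.instAlgebra D).toModule :=
    inferInstanceAs (Module.Finite ℤ (ZMod h → ℤ))
  have he : ∀ c, IsIntegral ℤ (PR.e D c : PR D K) := by
    intro c
    have h1 : @IsIntegral ℤ (PR D ℤ) _ _ (PR.instAlgebra D) (PR.e D c) :=
      @IsIntegral.of_finite ℤ (PR D ℤ) _ _ (PR.instAlgebra D) hfin _
    have heq : (PR.instAlgebra D : Algebra ℤ (PR D ℤ)) = Ring.toIntAlgebra (PR D ℤ) :=
      Subsingleton.elim _ _
    rw [heq] at h1
    have h2 := map_isIntegral_int (PR.map D (Int.castRingHom K)) h1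
    have h3 : PR.map D (Int.castRingHom K) (PR.e D c) = PR.e D c := by
      ext k
      rw [PR.map_apply, PR.e_apply, PR.e_apply]
      split_ifs <;> simp
    rwa [h3] at h2
  have h4 : u = ∑ k, algebraMap K (PR D K) (u k) * PR.e D k := by
    ext c
    have h5 : ∀ s : Finset (ZMod h), (∑ k ∈ s, algebraMap K (PR D K) (u k) * PR.e D k : PR D K) c =
        ∑ k ∈ s, u k * (PR.e D k : PR D K) c := by
      intro s
      induction s using Finset.induction_on with
      | empty => simp
      | insert a s ha ih =>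
        rw [Finset.sum_insert ha, Finset.sum_insert ha, PR.add_apply, ih, ← Algebra.smul_def,
          PR.smul_apply]
    rw [h5]
    simp
  rw [h4]
  refine IsIntegral.sum _ fun k _ => IsIntegral.mul ?_ (he k)
  exact map_isIntegral_int (algebraMap K (PR D K)) (hu k)

/-- The inverse of an element of norm one. -/
private theorem cmr_inv (u : PR D K) (hu : ∀ k, IsIntegral ℤ (u k)) (h1 : PR.nrm D u = 1) :
    ∃ w : PR D K, u * w = 1 ∧ IsIntegral ℤ w := by
  have hi : ∀ i, IsIntegral ℤ ((PR.sh D)^[i] u) := by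
    intro i
    induction i with
    | zero => exact cmr_int D u hu
    | succ i ih =>
      rw [Function.iterate_succ_apply']
      exact map_isIntegral_int (PR.sh D (S := K)).toRingHom ih
  refine ⟨∏ i ∈ Finset.range (h - 1), (PR.sh D)^[i + 1] u, ?_, IsIntegral.prod _ fun i _ => hi _⟩
  rw [← h1, PR.nrm]
  have h2 : h = (h - 1) + 1 := by
    have := (Fact.out : h.Prime).pos
    omega
  have h3 : Finset.range h = Finset.range ((h - 1) + 1) := congrArg Finset.range h2
  rw [h3, Finset.prod_range_succ', mul_comm]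
  rfl

/-- All the embeddings. -/
private theorem cmr_emb {L : Type} [Field L] [NumberField L] [Algebra K L] (θ : PR D K ≃ₐ[K] L)
    (ψ : L →+* ℂ) : ∃ (φ : K →+* ℂ) (k : ZMod h), ∀ x, ψ (θ x) = evC D φ k x := by
  classical
  have hfr : Module.finrank ℚ L = Module.finrank ℚ K * h := by
    rw [← Module.finrank_mul_finrank ℚ K L, ← θ.toLinearEquiv.finrank_eq]
    congr 1
    have h1 : Module.finrank K (PR D K) = Module.finrank K (ZMod h → K) := rfl
    rw [h1, Module.finrank_fintype_fun_eq_card, ZMod.card]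
  let G : (K →+* ℂ) × ZMod h → (L →+* ℂ) := fun p =>
    (evC D p.1 p.2).comp (θ.symm : L →+* PR D K)
  have hG : Function.Injective G := by
    rintro ⟨φ, k⟩ ⟨φ', k'⟩ hh
    have h1 : ∀ x : PR D K, evC D φ k x = evC D φ' k' x := by
      intro x
      have h2 := RingHom.congr_fun hh (θ x)
      change evC D φ k (θ.symm (θ x)) = evC D φ' k' (θ.symm (θ x)) at h2
      rwa [AlgEquiv.symm_apply_apply] at h2
    have h2 : φ = φ' := by
      ext x
      have h3 := h1 (algebraMap K _ x)
      rwa [evC_algebraMap, evC_algebraMap] at h3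
    have h3 : k = k' := by
      have h4 := h1 (PR.e D 0)
      rw [evC_e, evC_e, zero_add, zero_add] at h4
      exact eta_inj D (Complex.ofReal_injective h4)
    rw [h2, h3]
  have hbij : Function.Bijective G := by
    rw [Fintype.bijective_iff_injective_and_card]
    refine ⟨hG, ?_⟩
    rw [Fintype.card_prod, Embeddings.card, Embeddings.card, hfr, ZMod.card]
  obtain ⟨⟨φ, k⟩, hφ⟩ := hbij.2 ψ
  refine ⟨φ, k, fun x => ?_⟩
  rw [← hφ]
  change evC D φ k (θ.symm (θ x)) = _
  rw [AlgEquiv.symm_apply_apply]

omit [NumberField F] in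
/-- The argument for an abstract field `L`. -/
private theorem cmr_main {L : Type} [Field L] [NumberField L] [Algebra K L] (θ : PR D K ≃ₐ[K] L)
    (τ : K ≃ₐ[F] K)
    (hconj : ∀ (φ : K →+* ℂ) (x : K), φ (τ x) = (starRingEnd ℂ) (φ x)) :
    ∃ c : ℕ, 0 < c ∧ ∀ u : PR D K, PR.nrm D u = 1 → (∀ k, IsIntegral ℤ (u k)) →
      ∀ k, τ ((u ^ c) k) = (u ^ c) k := by
  refine ⟨Units.torsionOrder L, Units.torsionOrder_pos L, fun u hu1 hu k => ?_⟩
  obtain ⟨w, huw, hw⟩ := cmr_inv D u hu hu1
  set T : PR D K →+* PR D K := PR.map D ((τ : K →ₐ[F] K) : K →+* K) with hT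
  have huint := cmr_int D u hu
  have hev : ∀ (φ : K →+* ℂ) (k : ZMod h) (x : PR D K),
      evC D φ k (T x) = (starRingEnd ℂ) (evC D φ k x) := by
    intro φ k x
    rw [evC_apply, evC_apply, map_sum]
    refine Finset.sum_congr rfl fun c _ => ?_
    rw [map_mul, Complex.conj_ofReal, ← hconj]
    rfl
  have hTT : T u * T w = 1 := by rw [← map_mul, huw, map_one]
  have hy1 : IsIntegral ℤ (θ (u * T w)) :=
    map_isIntegral_int (θ : PR D K →+* L) (huint.mul (map_isIntegral_int T hw))
  have hy2 : IsIntegral ℤ (θ (w * T u)) :=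
    map_isIntegral_int (θ : PR D K →+* L) (hw.mul (map_isIntegral_int T huint))
  have hyy : (u * T w) * (w * T u) = 1 := by
    calc (u * T w) * (w * T u) = (u * w) * (T u * T w) := by ring
      _ = 1 := by rw [huw, hTT, one_mul]
  let e : (𝓞 L)ˣ := ⟨⟨_, hy1⟩, ⟨_, hy2⟩, by
    apply RingOfIntegers.ext
    change θ (u * T w) * θ (w * T u) = 1
    rw [← map_mul, hyy, map_one], by
    apply RingOfIntegers.ext
    change θ (w * T u) * θ (u * T w) = 1
    rw [← map_mul, mul_comm, hyy, map_one]⟩
  have hnorm : ∀ ψ : L →+* ℂ, ‖ψ (θ (u * T w))‖ = 1 := by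
    intro ψ
    obtain ⟨φ, k, hφ⟩ := cmr_emb D θ ψ
    rw [hφ, map_mul, hev, norm_mul, RCLike.norm_conj, ← norm_mul, ← map_mul, huw, map_one,
      norm_one]
  obtain ⟨n, hn, hyn⟩ := Embeddings.pow_eq_one_of_norm_eq_one L ℂ hy1 hnorm
  have htor : e ∈ Units.torsion L := by
    rw [Units.torsion, CommGroup.mem_torsion, isOfFinOrder_iff_pow_eq_one]
    refine ⟨n, hn, ?_⟩
    apply Units.ext
    apply RingOfIntegers.ext
    rw [Units.val_pow_eq_pow_val]
    push_cast
    exact hyn
  have hpow : e ^ Units.torsionOrder L = 1 := by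
    have h1 : (⟨e, htor⟩ : Units.torsion L) ^ Nat.card (Units.torsion L) = 1 := pow_card_eq_one'
    exact congrArg Subtype.val h1
  have h2 : (u * T w) ^ Units.torsionOrder L = 1 := by
    apply θ.injective
    rw [map_pow, map_one]
    have h3 := congrArg (fun z : (𝓞 L)ˣ => ((z : 𝓞 L) : L)) hpow
    simp only [Units.val_pow_eq_pow_val] at h3
    push_cast at h3
    exact h3
  have h3 : T (u ^ Units.torsionOrder L) = u ^ Units.torsionOrder L := by
    rw [mul_pow] at h2
    have h4 : T u ^ Units.torsionOrder L * T w ^ Units.torsionOrder L = 1 := by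
      rw [← mul_pow, hTT, one_pow]
    rw [map_pow]
    calc T u ^ Units.torsionOrder L
        = T u ^ Units.torsionOrder L *
          (u ^ Units.torsionOrder L * T w ^ Units.torsionOrder L) := by rw [h2, mul_one]
      _ = u ^ Units.torsionOrder L *
          (T u ^ Units.torsionOrder L * T w ^ Units.torsionOrder L) := by ring
      _ = _ := by rw [h4, mul_one]
  exact congrFun h3 k

/-- PROOF. `L = PR D K` is a field (`hfield.toField`), finite over `K`, so a number field. Every ring
homomorphism `ψ : L → ℂ` is `evC D (ψ ∘ algebraMap) k` for some `k` (its values on the `e_c` are a root of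
`∏ (X - η_c)`...; or: the `[K:ℚ] h` maps `evC D φ k` are distinct, so they are all the embeddings; or
argue with the finite set of the maps `evC D φ k` only: an integral element all of whose values under
all `evC D φ k` have absolute value `1` is a root of unity, since the `evC D φ k` are all embeddings).
The map `τ' = PR.map D τ` satisfies `evC D φ k (τ' x) = conj (evC D φ k x)` (`hconj`, the `η` are real).
For `u` with integral coordinates and `PR.nrm D u = 1`: `u` is a unit, `u⁻¹ = ∏_{0<i<h} σ^i u` is
integral, so `y = u / τ' u` is integral with all absolute values `1`: `y` is a root of unity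
(`NumberField.Embeddings.pow_eq_one_of_norm_eq_one`), so `y^c = 1` with `c` the number of roots of
unity of `L` (`NumberField.Units.torsionOrder`), and `u^c = τ' (u^c)`. -/
theorem cm_real (hfield : IsField (PR D K)) (τ : K ≃ₐ[F] K)
    (hconj : ∀ (φ : K →+* ℂ) (x : K), φ (τ x) = (starRingEnd ℂ) (φ x)) :
    ∃ c : ℕ, 0 < c ∧ ∀ u : PR D K, PR.nrm D u = 1 → (∀ k, IsIntegral ℤ (u k)) →
      ∀ k, τ ((u ^ c) k) = (u ^ c) k := by
  have hdom : IsDomain (PR D K) := hfield.isDomain
  have hfd : Module.Finite K (PR D K) := inferInstanceAs (Module.Finite K (ZMod h → K))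
  let θ : PR D K ≃ₐ[K] FractionRing (PR D K) :=
    AlgEquiv.ofBijective (IsScalarTower.toAlgHom K (PR D K) (FractionRing (PR D K)))
      ⟨IsFractionRing.injective _ _, IsFractionRing.surjective_iff_isField.2 hfield⟩
  have hfd2 : Module.Finite K (FractionRing (PR D K)) := Module.Finite.equiv θ.toLinearEquiv
  have hnf : NumberField (FractionRing (PR D K)) := NumberField.of_module_finite K _
  exact cmr_main D θ τ hconj

end Pool.Agent.Lib.MP_673eb1_lc.HF
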