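import Pool.Agent.Lib.MP_673eb1_lc.HFb

/-!
MP_673eb1_lc, module HFc: the height form bounds the height.
-/

set_option autoImplicit false

open NumberField IsDedekindDomain Pool.Agent.ZD

namespace Pool.Agent.Lib.MP_673eb1_lc.HF

variable {h f : ℕ} [Fact h.Prime] (D : PerData h f) {K : Type} [Field K] [NumberField K]

private theorem HFc_fin {x : K} : (fun w : FinitePlace K => max (w x) 1).HasFiniteMulSupport := by
  by_cases hx : x = 0
  · have h1 : (fun w : FinitePlace K => max (w x) 1) = fun _ => 1 := by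
      funext w
      rw [hx, map_zero]
      exact max_eq_right zero_le_one
    rw [h1]
    exact Function.hasFiniteMulSupport_one
  · refine (FinitePlace.hasFiniteMulSupport hx).subset ?_
    intro w hw h1
    apply hw
    show max (w x) 1 = 1
    have h2 : w x = 1 := h1
    rw [h2, max_self]

private theorem HFc_fin' {x : K} (hx : x ≠ 0) :
    (fun w : FinitePlace K => min (w x) 1).HasFiniteMulSupport := by
  refine (FinitePlace.hasFiniteMulSupport hx).subset ?_
  intro w hw h1
  apply hw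
  show min (w x) 1 = 1
  have h2 : w x = 1 := h1
  rw [h2, min_self]

private theorem HFc_one_le (x : K) : 1 ≤ ∏ᶠ w : FinitePlace K, max (w x) 1 :=
  finprod_induction (fun y : ℝ => 1 ≤ y) le_rfl (fun _ _ h1 h2 => one_le_mul_of_one_le_of_one_le h1 h2)
    fun _ => le_max_right _ _

/-- By the product formula (`NumberField.prod_abs_eq_one`): `numH y * ∏ᶠ min 1 |y|_v = 1`. -/
theorem numH_mul_min {y : K} (hy : y ≠ 0) : numH y * ∏ᶠ v : FinitePlace K, min (v y) 1 = 1 := by
  unfold numH
  rw [mul_assoc, ← finprod_mul_distrib HFc_fin (HFc_fin' hy)]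
  refine Eq.trans ?_ (prod_abs_eq_one hy)
  congr 1
  refine finprod_congr fun w => ?_
  rw [max_mul_min, mul_one]

theorem numH_pos {y : K} (hy : y ≠ 0) : 0 < numH y := by
  unfold numH
  refine mul_pos (Finset.prod_pos fun v _ => pow_pos ?_ _)
    (lt_of_lt_of_le zero_lt_one (HFc_one_le y))
  exact InfinitePlace.pos_iff.2 hy

/-- `numH y ≤ H(y)`. -/
theorem numH_le (y : K) : numH y ≤ Height.mulHeight₁ y := by
  rw [NumberField.mulHeight₁_eq]
  unfold numH
  refine mul_le_mul_of_nonneg_right ?_ (zero_le_one.trans (HFc_one_le y))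
  refine Finset.prod_le_prod (fun v _ => pow_nonneg (apply_nonneg v y) _) fun v _ => ?_
  exact pow_le_pow_left₀ (apply_nonneg v y) (le_max_left _ _) _

private theorem HFc_place (w : FinitePlace K) : ∃ F : WithZero (Multiplicative ℤ) →*₀ NNReal,
    StrictMono F ∧ ∀ y : K, w y = F ((FinitePlace.maximalIdeal w).valuation K y) := by
  have he := NumberField.HeightOneSpectrum.one_lt_absNorm_nnreal (FinitePlace.maximalIdeal w)
  refine ⟨WithZeroMulInt.toNNReal he.ne_zero, WithZeroMulInt.toNNReal_strictMono he,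
    fun y => ?_⟩
  rw [← FinitePlace.norm_embedding_eq w y, FinitePlace.norm_embedding']

private theorem HFc_max (w : FinitePlace K) {x y : K} {n : ℕ}
    (hxy : max 1 ((FinitePlace.maximalIdeal w).valuation K y) =
      max 1 ((FinitePlace.maximalIdeal w).valuation K x) ^ n) :
    max (w y) 1 = (max (w x) 1) ^ n := by
  obtain ⟨F, hF, hw⟩ := HFc_place w
  have h1 : ∀ z : K, max (w z) 1 =
      ((F (max 1 ((FinitePlace.maximalIdeal w).valuation K z)) : NNReal) : ℝ) := by
    intro z
    rw [hF.monotone.map_max, map_one, hw, max_comm]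
    push_cast
    rfl
  rw [h1, h1, hxy, map_pow]
  push_cast
  rfl

private theorem HFc_B {x y : K} {n : ℕ} (hxy : ∀ v : HeightOneSpectrum (𝓞 K),
    max 1 (v.valuation K y) = max 1 (v.valuation K x) ^ n) :
    ∏ᶠ w : FinitePlace K, max (w y) 1 = (∏ᶠ w : FinitePlace K, max (w x) 1) ^ n := by
  rw [finprod_pow HFc_fin]
  exact finprod_congr fun w => HFc_max w (hxy _)

private theorem HFc_main {x y : K} {n : ℕ} {c : ℝ} (hc : 0 < c)
    (hxy : ∀ v : HeightOneSpectrum (𝓞 K),
      max 1 (v.valuation K y) = max 1 (v.valuation K x) ^ n)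
    (hinf : ∀ v : InfinitePlace K, max (v x) 1 ^ n ≤ c * v y) :
    Height.mulHeight₁ x ^ n ≤ (∏ v : InfinitePlace K, c ^ v.mult) * numH y := by
  rw [NumberField.mulHeight₁_eq, mul_pow, ← HFc_B hxy]
  unfold numH
  rw [← mul_assoc]
  refine mul_le_mul_of_nonneg_right ?_ (zero_le_one.trans (HFc_one_le y))
  rw [← Finset.prod_pow, ← Finset.prod_mul_distrib]
  refine Finset.prod_le_prod (fun v _ => ?_) fun v _ => ?_
  · exact pow_nonneg (pow_nonneg (zero_le_one.trans (le_max_right _ _)) _) _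
  · rw [← mul_pow, ← pow_mul, mul_comm v.mult n, pow_mul]
    exact pow_le_pow_left₀ (pow_nonneg (zero_le_one.trans (le_max_right _ _)) _) (hinf v) _

private theorem HFc_prodc {c : ℝ} (hc : 0 < c) : 0 < ∏ v : InfinitePlace K, c ^ v.mult :=
  Finset.prod_pos fun _ _ => pow_pos hc _

private theorem HFc_abs (g : ℕ) (v : InfinitePlace K) (x : K) :
    v (Df D g x) = ∏ c : ZMod h, ‖(v.embedding x - D.η c) ^ 2 + (g : ℂ)‖ := by
  rw [← InfinitePlace.norm_embedding_eq, phi_Df, norm_prod]

/-- `K` totally real, `g > 0`. PROOF. `∏ᶠ max 1 |Df x|_v = (∏ᶠ max 1 |x|_v)^(2h)` by `val_Df_le` (finite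
places are the valuations of `HeightOneSpectrum`: `NumberField.FinitePlace`), and at an infinite
place `v` of the totally real field `K`, `x_v` is real and `|Df x|_v = ∏_c ((x_v - η_c)² + g) ≥
c₀ max(1, |x_v|)^(2h)` (`phi_Df`; the function `((x-η)²+g)/max(1,x²)` is bounded below by a positive
constant on the real line). -/
theorem height_real [IsTotallyReal K] (g : ℕ) (hg : 0 < g) :
    ∃ C : ℝ, 0 < C ∧ ∀ x : K, Height.mulHeight₁ x ^ (2 * h) ≤ C * numH (Df D g x) := by
  obtain ⟨c, hcd⟩ : ∃ c : ℝ, c = ∏ k : ZMod h, (3 + 2 * D.η k ^ 2) := ⟨_, rfl⟩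
  have hc : 0 < c := by
    rw [hcd]
    exact Finset.prod_pos fun k _ => by positivity
  refine ⟨∏ v : InfinitePlace K, c ^ v.mult, HFc_prodc hc, fun x => ?_⟩
  refine HFc_main hc (fun v => val_Df_le D g v x) fun v => ?_
  rw [HFc_abs, hcd, ← Finset.prod_mul_distrib]
  have hcard : (Finset.univ : Finset (ZMod h)).card = h := by
    rw [Finset.card_univ, ZMod.card]
  have e1 : max (v x) 1 ^ (2 * h) = ∏ k : ZMod h, max (v x) 1 ^ 2 := by
    rw [Finset.prod_const, hcard, pow_mul]
  rw [e1]
  refine Finset.prod_le_prod (fun k _ => by positivity) fun k _ => ?_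
  have hr : v.IsReal := IsTotallyReal.isReal v
  obtain ⟨t, ht⟩ : ∃ t : ℝ, t = InfinitePlace.embedding_of_isReal hr x := ⟨_, rfl⟩
  have e2 : v.embedding x = (t : ℂ) := by
    rw [ht]
    exact (InfinitePlace.embedding_of_isReal_apply hr x).symm
  have e3 : v x = |t| := by
    rw [← InfinitePlace.norm_embedding_eq, e2, Complex.norm_real, Real.norm_eq_abs]
  have e4 : (v.embedding x - D.η k) ^ 2 + (g : ℂ) = (((t - D.η k) ^ 2 + g : ℝ) : ℂ) := by
    rw [e2]
    push_cast
    ring
  have hg1 : (1 : ℝ) ≤ g := by exact_mod_cast hg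
  have h0 : 0 ≤ (t - D.η k) ^ 2 + (g : ℝ) := by positivity
  rw [e4, Complex.norm_real, Real.norm_eq_abs, abs_of_nonneg h0, e3]
  have e5 : max |t| 1 ^ 2 ≤ t ^ 2 + 1 := by
    rcases max_cases |t| 1 with ⟨h1, -⟩ | ⟨h1, -⟩
    · rw [h1, sq_abs]
      linarith
    · rw [h1]
      have := sq_nonneg t
      linarith
  refine e5.trans ?_
  nlinarith [sq_nonneg (t - D.η k), sq_nonneg (D.η k), sq_nonneg (t - 2 * D.η k),
    mul_nonneg (sq_nonneg (D.η k)) (sq_nonneg (t - D.η k))]

private theorem HFc_sep {ι : Type} [Finite ι] (z : ι → ℂ) (hz : Function.Injective z) :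
    ∃ δ : ℝ, 0 < δ ∧ ∀ i i', i ≠ i' → 2 * δ ≤ ‖z i - z i'‖ := by
  classical
  have h1 : ∃ δ : ℝ, 0 < δ ∧ ∀ q : {q : ι × ι // q.1 ≠ q.2}, δ ≤ ‖z q.1.1 - z q.1.2‖ := by
    by_cases hne : Nonempty {q : ι × ι // q.1 ≠ q.2}
    · obtain ⟨q₀, hq₀⟩ := Finite.exists_min fun q : {q : ι × ι // q.1 ≠ q.2} =>
        ‖z q.1.1 - z q.1.2‖
      refine ⟨‖z q₀.1.1 - z q₀.1.2‖, ?_, hq₀⟩
      rw [norm_pos_iff, sub_ne_zero]
      exact fun h => q₀.2 (hz h)
    · exact ⟨1, one_pos, fun q => absurd ⟨q⟩ hne⟩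
  obtain ⟨δ, hδ, h2⟩ := h1
  refine ⟨δ / 2, by positivity, fun i i' hi => ?_⟩
  have := h2 ⟨(i, i'), hi⟩
  linarith

private theorem HFc_card : Fintype.card (InfinitePlace K) ≤ Module.finrank ℚ K := by
  rw [InfinitePlace.card_eq_nrRealPlaces_add_nrComplexPlaces,
    ← InfinitePlace.card_add_two_mul_card_eq_rank K]
  omega

/-- The points `η_c + j ± i √g`. -/
private noncomputable def HFc_z (g n : ℕ) (q : ZMod h × Fin n × Bool) : ℂ :=
  D.η q.1 + (q.2.1 : ℕ) + (if q.2.2 then 1 else -1) * (Real.sqrt g : ℂ) * Complex.I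

private theorem HFc_z_inj (g n : ℕ) (hg : 0 < g) : Function.Injective (HFc_z D g n) := by
  rintro ⟨c, j, s⟩ ⟨c', j', s'⟩ heq
  unfold HFc_z at heq
  simp only at heq
  have hs : (0 : ℝ) < Real.sqrt g := Real.sqrt_pos.2 (by exact_mod_cast hg)
  have hre := congrArg Complex.re heq
  have him := congrArg Complex.im heq
  have hre' : D.η c + (j : ℕ) = D.η c' + (j' : ℕ) := by
    cases s <;> cases s' <;> simpa using hre
  have him' : (if s then (1 : ℝ) else -1) * Real.sqrt g = (if s' then (1 : ℝ) else -1) * Real.sqrt g := by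
    cases s <;> cases s' <;> simpa using him
  have h1 := eta_add_inj D c c' ((j : ℕ) : ℤ) ((j' : ℕ) : ℤ) (by push_cast; exact hre')
  have h2 : s = s' := by
    have h3 := mul_right_cancel₀ hs.ne' him'
    cases s <;> cases s' <;> first | rfl | (exfalso; norm_num at h3)
  obtain ⟨rfl, h3⟩ := h1
  have h4 : j = j' := by
    apply Fin.ext
    exact_mod_cast h3
  rw [h2, h4]

private theorem HFc_shift (v : HeightOneSpectrum (𝓞 K)) (x : K) (j : ℕ) :
    max 1 (v.valuation K (x - (j : K))) = max 1 (v.valuation K x) := by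
  have hj : v.valuation K (j : K) ≤ 1 := by
    have h1 := v.valuation_le_one (K := K) (j : 𝓞 K)
    rwa [Algebra.cast, map_natCast] at h1
  refine le_antisymm ?_ ?_
  · refine max_le (le_max_left _ _) ((Valuation.map_sub _ _ _).trans (max_le (le_max_right _ _) ?_))
    exact hj.trans (le_max_left _ _)
  · refine max_le (le_max_left _ _) ?_
    have h1 : x = (x - (j : K)) + j := by ring
    calc v.valuation K x = v.valuation K ((x - (j : K)) + j) := by rw [← h1]
      _ ≤ max (v.valuation K (x - (j : K))) (v.valuation K (j : K)) := Valuation.map_add _ _ _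
      _ ≤ max 1 (v.valuation K (x - (j : K))) :=
        max_le (le_max_right _ _) (hj.trans (le_max_left _ _))

/-- `K` arbitrary, `g > 0`. PROOF. The complex numbers `η_c + j ± i √g` (`c : ZMod h`, `j ∈ ℤ`) are distinct
(`eta_add_inj`). Let `n = [K:ℚ]` and `4 δ` be less than the smallest distance between two of them
with `0 ≤ j ≤ n`, and `δ ≤ 1`. For every infinite place `v` the number `x_v` (`v.embedding x`) is at
distance `< δ` of at most one of them, so there is a `j ≤ n` (there are at most `n` infinite places)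
such that `|x_v - (η_c + j ± i √g)| ≥ δ` for all `v`, `c`, `±`. For this `j`, `|Df (x - j)|_v ≥
c₀ max(1, |x_v|)^(2h)` with `c₀ > 0` depending only on the data. The finite part: `val_Df_le` and
`max 1 |x - j|_v = max 1 |x|_v`. -/
theorem height_shift (g : ℕ) (hg : 0 < g) :
    ∃ C : ℝ, 0 < C ∧ ∀ x : K, ∃ j ∈ Finset.range (Module.finrank ℚ K + 1),
      Height.mulHeight₁ x ^ (2 * h) ≤ C * numH (Df D g (x - (j : K))) ∧ Df D g (x - (j : K)) ≠ 0 := by
  classical
  obtain ⟨n, hn⟩ : ∃ n : ℕ, n = Module.finrank ℚ K + 1 := ⟨_, rfl⟩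
  obtain ⟨δ, hδ, hsep⟩ := HFc_sep (HFc_z D g n) (HFc_z_inj D g n hg)
  obtain ⟨R, hR0, hR⟩ : ∃ R : ℝ, 0 ≤ R ∧ ∀ q, ‖HFc_z D g n q‖ ≤ R := by
    refine ⟨∑ q, ‖HFc_z D g n q‖, Finset.sum_nonneg fun _ _ => norm_nonneg _, fun q => ?_⟩
    exact Finset.single_le_sum (f := fun q => ‖HFc_z D g n q‖) (fun _ _ => norm_nonneg _)
      (Finset.mem_univ q)
  obtain ⟨M, hM⟩ : ∃ M : ℝ, M = 1 + R / δ + 1 / δ := ⟨_, rfl⟩
  have hM0 : 0 < M := by
    rw [hM]
    positivity
  have hc : 0 < M ^ (2 * h) := pow_pos hM0 _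
  refine ⟨∏ v : InfinitePlace K, (M ^ (2 * h)) ^ v.mult, HFc_prodc hc, fun x => ?_⟩
  -- the good `j`
  obtain ⟨j, hj⟩ : ∃ j : Fin n, ∀ (v : InfinitePlace K) (c : ZMod h) (s : Bool),
      δ ≤ ‖v.embedding x - HFc_z D g n (c, j, s)‖ := by
    by_contra hno
    push Not at hno
    choose V cc ss hV using hno
    have hinj : Function.Injective V := by
      intro j j' hjj
      by_contra hne
      have h1 := hsep (cc j, j, ss j) (cc j', j', ss j') (by
        intro h2
        rw [Prod.mk.injEq, Prod.mk.injEq] at h2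
        exact hne h2.2.1)
      have h2 := hV j
      have h3 := hV j'
      rw [← hjj] at h3
      have h4 : ‖HFc_z D g n (cc j, j, ss j) - HFc_z D g n (cc j', j', ss j')‖ ≤
          ‖(V j).embedding x - HFc_z D g n (cc j', j', ss j')‖ +
          ‖(V j).embedding x - HFc_z D g n (cc j, j, ss j)‖ := by
        have e1 : HFc_z D g n (cc j, j, ss j) - HFc_z D g n (cc j', j', ss j') =
            ((V j).embedding x - HFc_z D g n (cc j', j', ss j')) -
            ((V j).embedding x - HFc_z D g n (cc j, j, ss j)) := by ring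
        rw [e1]
        exact norm_sub_le _ _
      linarith
    have h1 := Fintype.card_le_of_injective V hinj
    have h2 := HFc_card (K := K)
    rw [Fintype.card_fin] at h1
    omega
  have hplace : ∀ v : InfinitePlace K,
      max (v x) 1 ^ (2 * h) ≤ M ^ (2 * h) * v (Df D g (x - ((j : ℕ) : K))) := by
    intro v
    rw [HFc_abs]
    have hcard : (Finset.univ : Finset (ZMod h)).card = h := by
      rw [Finset.card_univ, ZMod.card]
    have e1 : max (v x) 1 ^ (2 * h) = ∏ k : ZMod h, max (v x) 1 ^ 2 := by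
      rw [Finset.prod_const, hcard, pow_mul]
    have e2 : M ^ (2 * h) = ∏ k : ZMod h, M ^ 2 := by
      rw [Finset.prod_const, hcard, pow_mul]
    rw [e1, e2, ← Finset.prod_mul_distrib]
    refine Finset.prod_le_prod (fun k _ => by positivity) fun k _ => ?_
    have hb : ∀ s : Bool, max (v x) 1 ≤ M * ‖v.embedding x - HFc_z D g n (k, j, s)‖ := by
      intro s
      have h1 := hj v k s
      have h2 := hR (k, j, s)
      obtain ⟨a, ha⟩ : ∃ a, a = ‖v.embedding x - HFc_z D g n (k, j, s)‖ := ⟨_, rfl⟩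
      have h3 : v x ≤ a + R := by
        rw [← InfinitePlace.norm_embedding_eq]
        have e3 : v.embedding x = (v.embedding x - HFc_z D g n (k, j, s)) +
            HFc_z D g n (k, j, s) := by ring
        calc ‖v.embedding x‖ = ‖(v.embedding x - HFc_z D g n (k, j, s)) +
            HFc_z D g n (k, j, s)‖ := by rw [← e3]
          _ ≤ ‖v.embedding x - HFc_z D g n (k, j, s)‖ + ‖HFc_z D g n (k, j, s)‖ :=
            norm_add_le _ _
          _ ≤ a + R := by rw [ha]; linarith
      rw [← ha] at h1 ⊢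
      have h4 : 1 ≤ a / δ := by
        rw [le_div_iff₀ hδ, one_mul]
        exact h1
      have h5 : M * a = a + R * (a / δ) + a / δ := by
        rw [hM]
        field_simp
      have h6 : R ≤ R * (a / δ) := le_mul_of_one_le_right hR0 h4
      have ha0 : 0 ≤ a := hδ.le.trans h1
      rw [h5]
      refine max_le ?_ ?_
      · linarith [div_nonneg ha0 hδ.le]
      · linarith [mul_nonneg hR0 (div_nonneg ha0 hδ.le)]
    have hfac : (v.embedding (x - ((j : ℕ) : K)) - D.η k) ^ 2 + (g : ℂ) =
        (v.embedding x - HFc_z D g n (k, j, true)) *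
        (v.embedding x - HFc_z D g n (k, j, false)) := by
      have hsq : (Real.sqrt g : ℂ) ^ 2 = g := by
        rw [← Complex.ofReal_pow, Real.sq_sqrt (Nat.cast_nonneg g)]
        push_cast
        rfl
      unfold HFc_z
      rw [map_sub, map_natCast]
      simp only [if_true, Bool.false_eq_true, if_false]
      linear_combination (-1 : ℂ) * hsq + (Real.sqrt g : ℂ) ^ 2 * Complex.I_sq
    rw [hfac, norm_mul]
    calc max (v x) 1 ^ 2 = max (v x) 1 * max (v x) 1 := pow_two _
      _ ≤ (M * ‖v.embedding x - HFc_z D g n (k, j, true)‖) *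
          (M * ‖v.embedding x - HFc_z D g n (k, j, false)‖) := by
        exact mul_le_mul (hb true) (hb false) (by positivity) (by positivity)
      _ = _ := by ring
  refine ⟨j, ?_, ?_, ?_⟩
  · rw [Finset.mem_range, ← hn]
    exact j.2
  · exact HFc_main hc (fun v => (val_Df_le D g v _).trans (by rw [HFc_shift])) hplace
  · intro h0
    obtain ⟨v⟩ : Nonempty (InfinitePlace K) := inferInstance
    have h1 := hplace v
    rw [h0, map_zero, mul_zero] at h1
    have h2 : 0 < max (v x) 1 ^ (2 * h) := by positivity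
    linarith

end Pool.Agent.Lib.MP_673eb1_lc.HF
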