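import Pool.Agent.Lib.MP_673eb1_lc.DefsCM
import Pool.Agent.Lib.MP_673eb1_lc.HFc

/-!
MP_673eb1_lc, module CMSound: the set `V` of the CM step consists of real elements.
-/

set_option autoImplicit false

open NumberField IsDedekindDomain Pool.Agent.ZD Pool.Agent.ZT

namespace Pool.Agent.Lib.MP_673eb1_lc.HF

variable {h f : ℕ} [Fact h.Prime] (D : PerData h f) {F K : Type} [Field F] [NumberField F] [Field K]
  [NumberField K] [Algebra F K]

private theorem cms_fmax (x : K) : (fun w : FinitePlace K => max (w x) 1).HasFiniteMulSupport := by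
  by_cases hx : x = 0
  · have h1 : (fun w : FinitePlace K => max (w x) 1) = fun _ => 1 := by
      funext w
      rw [hx, map_zero]
      exact max_eq_right zero_le_one
    rw [h1]
    exact Function.hasFiniteMulSupport_one
  · refine (FinitePlace.hasFiniteMulSupport hx).subset ?_
    intro w hw h1
    apply hw
    show max (w x) 1 = 1
    have h2 : w x = 1 := h1
    rw [h2, max_self]

private theorem cms_fmin {x : K} (hx : x ≠ 0) :
    (fun w : FinitePlace K => min (w x) 1).HasFiniteMulSupport := by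
  refine (FinitePlace.hasFiniteMulSupport hx).subset ?_
  intro w hw h1
  apply hw
  show min (w x) 1 = 1
  have h2 : w x = 1 := h1
  rw [h2, min_self]

/-- the local inequality with a minimum -/
private theorem cms_min {a M m : ℝ} (n : ℕ) (ha : 0 ≤ a) (hM : 1 ≤ M) (haM : a ≤ M)
    (h : m < 1 → a ≤ m ^ n) : a ≤ min m 1 ^ n * M := by
  rcases lt_or_ge m 1 with hm | hm
  · rw [min_eq_left hm.le]
    have h1 := h hm
    have h2 : 0 ≤ m ^ n := ha.trans h1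
    calc a ≤ m ^ n := h1
      _ ≤ m ^ n * M := le_mul_of_one_le_right h2 hM
  · rw [min_eq_right hm, one_pow, one_mul]
    exact haM

private theorem cms_nat_place {p₀ : ℕ} (hp : 0 < p₀) :
    (p₀ : ℝ) ^ Module.finrank ℚ K * ∏ᶠ w : FinitePlace K, w (p₀ : K) = 1 := by
  have hp0 : (p₀ : K) ≠ 0 := Nat.cast_ne_zero.2 hp.ne'
  have h1 := prod_abs_eq_one hp0
  rw [← h1]
  congr 1
  rw [← InfinitePlace.sum_mult_eq, ← Finset.prod_pow_eq_pow_sum]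
  refine Finset.prod_congr rfl fun v _ => ?_
  congr 1
  exact (InfinitePlace.map_natCast v p₀).symm

/-- The global inequality. -/
private theorem cms_global {t₁ t₂ d₁ d₂ : K} {p₀ C : ℕ} (hx : t₁ - t₂ ≠ 0) (hd₁ : d₁ ≠ 0)
    (hd₂ : d₂ ≠ 0) (hp : 0 < p₀)
    (h1 : ∀ w : FinitePlace K, w d₁ < 1 → w (t₁ - t₂) ≤ w d₁ ^ 4)
    (h2 : ∀ w : FinitePlace K, w d₂ < 1 → w (t₁ - t₂) ≤ w d₂ ^ 4)
    (h3 : ∀ w : FinitePlace K, w (p₀ : K) < 1 → w (t₁ - t₂) ≤ w (p₀ : K) ^ C) :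
    numH d₁ ^ 4 * numH d₂ ^ 4 * ((p₀ : ℝ) ^ Module.finrank ℚ K) ^ C ≤
      (2 ^ Module.finrank ℚ K * (Height.mulHeight₁ t₁ * Height.mulHeight₁ t₂)) ^ 3 := by
  have hp0 : (p₀ : K) ≠ 0 := Nat.cast_ne_zero.2 hp.ne'
  -- finite places
  obtain ⟨Pa, hPa⟩ : ∃ y : ℝ, y = ∏ᶠ w : FinitePlace K, w (t₁ - t₂) := ⟨_, rfl⟩
  obtain ⟨P₁, hP₁⟩ : ∃ y : ℝ, y = ∏ᶠ w : FinitePlace K, min (w d₁) 1 := ⟨_, rfl⟩
  obtain ⟨P₂, hP₂⟩ : ∃ y : ℝ, y = ∏ᶠ w : FinitePlace K, min (w d₂) 1 := ⟨_, rfl⟩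
  obtain ⟨Pq, hPq⟩ : ∃ y : ℝ, y = ∏ᶠ w : FinitePlace K, w (p₀ : K) := ⟨_, rfl⟩
  obtain ⟨F₁, hF₁⟩ : ∃ y : ℝ, y = ∏ᶠ w : FinitePlace K, max (w t₁) 1 := ⟨_, rfl⟩
  obtain ⟨F₂, hF₂⟩ : ∃ y : ℝ, y = ∏ᶠ w : FinitePlace K, max (w t₂) 1 := ⟨_, rfl⟩
  obtain ⟨Ia, hIa⟩ : ∃ y : ℝ, y = ∏ v : InfinitePlace K, v (t₁ - t₂) ^ v.mult := ⟨_, rfl⟩
  obtain ⟨I₁, hI₁⟩ : ∃ y : ℝ, y = ∏ v : InfinitePlace K, max (v t₁) 1 ^ v.mult := ⟨_, rfl⟩
  obtain ⟨I₂, hI₂⟩ : ∃ y : ℝ, y = ∏ v : InfinitePlace K, max (v t₂) 1 ^ v.mult := ⟨_, rfl⟩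
  have hH₁ : Height.mulHeight₁ t₁ = I₁ * F₁ := by rw [NumberField.mulHeight₁_eq, hI₁, hF₁]
  have hH₂ : Height.mulHeight₁ t₂ = I₂ * F₂ := by rw [NumberField.mulHeight₁_eq, hI₂, hF₂]
  have e1 : numH d₁ * P₁ = 1 := by rw [hP₁]; exact numH_mul_min hd₁
  have e2 : numH d₂ * P₂ = 1 := by rw [hP₂]; exact numH_mul_min hd₂
  have e3 : (p₀ : ℝ) ^ Module.finrank ℚ K * Pq = 1 := by rw [hPq]; exact cms_nat_place hp
  have e4 : Ia * Pa = 1 := by rw [hIa, hPa]; exact prod_abs_eq_one hx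
  have hsa : (fun w : FinitePlace K => w (t₁ - t₂)).HasFiniteMulSupport :=
    FinitePlace.hasFiniteMulSupport hx
  have hsq : (fun w : FinitePlace K => w (p₀ : K)).HasFiniteMulSupport :=
    FinitePlace.hasFiniteMulSupport hp0
  have hs1 := cms_fmin hd₁
  have hs2 := cms_fmin hd₂
  have hs3 := cms_fmax t₁
  have hs4 := cms_fmax t₂
  have g1 : (fun w : FinitePlace K => min (w d₁) 1 ^ 4).HasFiniteMulSupport := hs1.pow 4
  have g2 : (fun w : FinitePlace K => min (w d₂) 1 ^ 4).HasFiniteMulSupport := hs2.pow 4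
  have g3 : (fun w : FinitePlace K => w (p₀ : K) ^ C).HasFiniteMulSupport := hsq.pow C
  have g4 : (fun w : FinitePlace K => max (w t₁) 1 * max (w t₂) 1).HasFiniteMulSupport :=
    hs3.mul hs4
  have g5 : (fun w : FinitePlace K => (max (w t₁) 1 * max (w t₂) 1) ^ 3).HasFiniteMulSupport :=
    g4.pow 3
  have g6 : (fun w : FinitePlace K => min (w d₁) 1 ^ 4 * min (w d₂) 1 ^ 4).HasFiniteMulSupport :=
    g1.mul g2
  have g7 : (fun w : FinitePlace K => min (w d₁) 1 ^ 4 * min (w d₂) 1 ^ 4 *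
    w (p₀ : K) ^ C).HasFiniteMulSupport := g6.mul g3
  have g8 : (fun w : FinitePlace K => min (w d₁) 1 ^ 4 * min (w d₂) 1 ^ 4 *
    w (p₀ : K) ^ C * (max (w t₁) 1 * max (w t₂) 1) ^ 3).HasFiniteMulSupport := g7.mul g5
  have hfin : Pa ^ 3 ≤ P₁ ^ 4 * P₂ ^ 4 * Pq ^ C * (F₁ * F₂) ^ 3 := by
    rw [hPa, hP₁, hP₂, hPq, hF₁, hF₂, ← finprod_mul_distrib hs3 hs4, finprod_pow hsa,
      finprod_pow hs1, finprod_pow hs2, finprod_pow hsq, finprod_pow g4,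
      ← finprod_mul_distrib g1 g2, ← finprod_mul_distrib g6 g3, ← finprod_mul_distrib g7 g5]
    refine finprod_le_finprod (hsa.pow 3) (fun w => pow_nonneg (apply_nonneg w _) 3) g8 ?_
    intro w
    change w (t₁ - t₂) ^ 3 ≤ min (w d₁) 1 ^ 4 * min (w d₂) 1 ^ 4 * w (p₀ : K) ^ C *
      (max (w t₁) 1 * max (w t₂) 1) ^ 3
    have a0 : 0 ≤ w (t₁ - t₂) := apply_nonneg w _
    have m1 : (1 : ℝ) ≤ max (w t₁) 1 := le_max_right _ _
    have m2 : (1 : ℝ) ≤ max (w t₂) 1 := le_max_right _ _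
    have m3 : 1 ≤ max (w t₁) 1 * max (w t₂) 1 := one_le_mul_of_one_le_of_one_le m1 m2
    have m4 : w (t₁ - t₂) ≤ max (w t₁) 1 * max (w t₂) 1 := by
      have h5 : w (t₁ - t₂) ≤ max (w t₁) (w t₂) := by
        have h6 := FinitePlace.add_le w t₁ (-t₂)
        have h7 : w (-t₂) = w t₂ := w.1.map_neg t₂
        rw [h7, ← sub_eq_add_neg] at h6
        exact h6
      refine h5.trans (max_le ?_ ?_)
      · exact (le_max_left _ _).trans (le_mul_of_one_le_right (zero_le_one.trans m1) m2)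
      · exact (le_max_left _ _).trans (le_mul_of_one_le_left (zero_le_one.trans m2) m1)
    have k1 := cms_min 4 a0 m3 m4 (h1 w)
    have k2 := cms_min 4 a0 m3 m4 (h2 w)
    have k3 := cms_min C a0 m3 m4 (h3 w)
    have k4 : min (w (p₀ : K)) 1 = w (p₀ : K) := by
      refine min_eq_left ?_
      rw [← FinitePlace.norm_embedding_eq, ← map_natCast (algebraMap (𝓞 K) K)]
      exact FinitePlace.norm_le_one K (FinitePlace.maximalIdeal w) ((p₀ : ℕ) : 𝓞 K)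
    rw [k4] at k3
    have k5 : w (t₁ - t₂) ^ 3 = w (t₁ - t₂) * w (t₁ - t₂) * w (t₁ - t₂) := by ring
    rw [k5]
    calc w (t₁ - t₂) * w (t₁ - t₂) * w (t₁ - t₂) ≤
        (min (w d₁) 1 ^ 4 * (max (w t₁) 1 * max (w t₂) 1)) *
        (min (w d₂) 1 ^ 4 * (max (w t₁) 1 * max (w t₂) 1)) *
        (w (p₀ : K) ^ C * (max (w t₁) 1 * max (w t₂) 1)) := by
          refine mul_le_mul (mul_le_mul k1 k2 a0 (a0.trans k1)) k3 a0
            (mul_nonneg (a0.trans k1) (a0.trans k2))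
      _ = _ := by ring
  -- infinite places
  have hinf : Ia ≤ 2 ^ Module.finrank ℚ K * (I₁ * I₂) := by
    rw [hIa, hI₁, hI₂, ← InfinitePlace.sum_mult_eq, ← Finset.prod_pow_eq_pow_sum,
      ← Finset.prod_mul_distrib, ← Finset.prod_mul_distrib]
    refine Finset.prod_le_prod (fun v _ => pow_nonneg (apply_nonneg v _) _) fun v _ => ?_
    rw [← mul_pow, ← mul_pow]
    refine pow_le_pow_left₀ (apply_nonneg v _) ?_ _
    have m1 : (1 : ℝ) ≤ max (v t₁) 1 := le_max_right _ _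
    have m2 : (1 : ℝ) ≤ max (v t₂) 1 := le_max_right _ _
    have h5 : v (t₁ - t₂) ≤ v t₁ + v t₂ := by
      have h6 : v.1 (t₁ - t₂) ≤ v.1 t₁ + v.1 t₂ := by
        simpa using v.1.sub_le t₁ 0 t₂
      exact h6
    have h6 : v t₁ ≤ max (v t₁) 1 * max (v t₂) 1 :=
      (le_max_left _ _).trans (le_mul_of_one_le_right (zero_le_one.trans m1) m2)
    have h7 : v t₂ ≤ max (v t₁) 1 * max (v t₂) 1 :=
      (le_max_left _ _).trans (le_mul_of_one_le_left (zero_le_one.trans m2) m1)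
    linarith
  have hIa0 : 0 ≤ Ia := by
    rw [hIa]
    exact Finset.prod_nonneg fun v _ => pow_nonneg (apply_nonneg v _) _
  have hPa0 : 0 ≤ Pa := by
    rw [hPa]
    exact finprod_induction (fun y : ℝ => 0 ≤ y) zero_le_one (fun _ _ => mul_nonneg)
      fun w => apply_nonneg w _
  have hn1 : 0 < numH d₁ := numH_pos hd₁
  have hn2 : 0 < numH d₂ := numH_pos hd₂
  have hq : (0 : ℝ) < (p₀ : ℝ) ^ Module.finrank ℚ K := pow_pos (by exact_mod_cast hp) _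
  have hone : 1 ≤ (2 ^ Module.finrank ℚ K * (I₁ * I₂)) ^ 3 *
      (P₁ ^ 4 * P₂ ^ 4 * Pq ^ C * (F₁ * F₂) ^ 3) := by
    calc (1 : ℝ) = Ia ^ 3 * Pa ^ 3 := by rw [← mul_pow, e4, one_pow]
      _ ≤ _ := by
        refine mul_le_mul (pow_le_pow_left₀ hIa0 hinf 3) hfin (pow_nonneg hPa0 3) ?_
        exact pow_nonneg (hIa0.trans hinf) 3
  have hpos : 0 ≤ numH d₁ ^ 4 * numH d₂ ^ 4 * ((p₀ : ℝ) ^ Module.finrank ℚ K) ^ C := by positivity
  have hmul := mul_le_mul_of_nonneg_left hone hpos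
  rw [mul_one] at hmul
  refine hmul.trans (le_of_eq ?_)
  rw [hH₁, hH₂]
  calc numH d₁ ^ 4 * numH d₂ ^ 4 * ((p₀ : ℝ) ^ Module.finrank ℚ K) ^ C *
      ((2 ^ Module.finrank ℚ K * (I₁ * I₂)) ^ 3 *
      (P₁ ^ 4 * P₂ ^ 4 * Pq ^ C * (F₁ * F₂) ^ 3)) =
      (numH d₁ * P₁) ^ 4 * (numH d₂ * P₂) ^ 4 * ((p₀ : ℝ) ^ Module.finrank ℚ K * Pq) ^ C *
      (2 ^ Module.finrank ℚ K * (I₁ * F₁ * (I₂ * F₂))) ^ 3 := by ring
    _ = _ := by rw [e1, e2, e3]; ring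

/-- From valuations to absolute values. -/
private theorem cms_place (w : FinitePlace K) (x y : K) (n : ℕ)
    (hxy : (FinitePlace.maximalIdeal w).valuation K y < 1 →
      (FinitePlace.maximalIdeal w).valuation K x ≤ (FinitePlace.maximalIdeal w).valuation K y ^ n)
    (hy : w y < 1) : w x ≤ w y ^ n := by
  have he := NumberField.HeightOneSpectrum.one_lt_absNorm_nnreal (FinitePlace.maximalIdeal w)
  have hF := WithZeroMulInt.toNNReal_strictMono he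
  have hw : ∀ z : K, w z = WithZeroMulInt.toNNReal he.ne_zero
      ((FinitePlace.maximalIdeal w).valuation K z) := by
    intro z
    rw [← FinitePlace.norm_embedding_eq w z, FinitePlace.norm_embedding']
  rw [hw] at hy
  have h1 : (FinitePlace.maximalIdeal w).valuation K y < 1 := by
    have h2 : WithZeroMulInt.toNNReal he.ne_zero ((FinitePlace.maximalIdeal w).valuation K y) <
        WithZeroMulInt.toNNReal he.ne_zero 1 := by
      rw [map_one]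
      exact_mod_cast hy
    exact hF.lt_iff_lt.1 h2
  have h3 := hF.monotone (hxy h1)
  rw [map_pow] at h3
  rw [hw, hw]
  exact_mod_cast h3

/-- `cj τ v` applied to `x` is `v (τ x)`. -/
private theorem cms_cj (τ : K ≃ₐ[F] K) (hτ : ∀ x, τ (τ x) = x) (v : HeightOneSpectrum (𝓞 K))
    (x : K) : (cj τ v).valuation K x = v.valuation K (τ x) := by
  rw [← cj_val τ v (τ x), hτ]

/-- Steps (1), (2), (3) of the proof. -/
private theorem cms_div (hfield : IsField (PR D K)) (τ : K ≃ₐ[F] K) (hτ : ∀ x, τ (τ x) = x)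
    (c : ℕ)
    (hc : ∀ u : PR D K, PR.nrm D u = 1 → (∀ k, IsIntegral ℤ (u k)) →
      ∀ k, τ ((u ^ c) k) = (u ^ c) k)
    (Tp : Set (HeightOneSpectrum (𝓞 K))) (W : Set (HeightOneSpectrum (𝓞 K)))
    (hW : ∀ v ∈ W, v ∈ Tp ∨ Inert D v) {t : K} {u b w : PR D K}
    (hu : UT D (Wring K W) Tp u) (hb : UT D (Wring K W) Tp b) (hw : UT D (Wring K W) Tp w)
    (hb1 : b ^ c ≠ 1) {D₀ : K} (hD : algebraMap K (PR D K) D₀ = PR.nrm D (u ^ c - 1))
    {s : PR D K} (hs : ∀ k, s k ∈ Wring K W)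
    (he : w ^ c - 1 - t • (b ^ c - 1) = D₀ • ((b ^ c - 1) * s))
    (v : HeightOneSpectrum (𝓞 K)) (hv : v ∉ W) (hv' : cj τ v ∉ W) :
    τ D₀ = D₀ ∧ v.valuation K (t - τ t) ≤ v.valuation K D₀ := by
  have hint : ∀ x : PR D K, UT D (Wring K W) Tp x → ∀ k, IsIntegral ℤ (x k) := by
    intro x hx k
    have h1 : ∀ v : HeightOneSpectrum (𝓞 K), v.valuation K (x k) ≤ 1 := by
      intro v
      by_cases hvW : v ∈ W
      · rcases hW v hvW with h2 | h2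
        · exact hx.2.2 v h2 k
        · exact int_of_nrm_one D v h2 x hx.2.1 k
      · exact hx.1 k v hvW
    obtain ⟨y, hy⟩ := HeightOneSpectrum.mem_integers_of_valuation_le_one K (x k) h1
    rw [← hy]
    exact y.isIntegral_coe
  obtain ⟨T, hT⟩ : ∃ T : PR D K →+* PR D K, T = PR.map D (τ : K →+* K) := ⟨_, rfl⟩
  have hTa : ∀ (x : PR D K) (k : ZMod h), (T x) k = τ (x k) := by
    intro x k
    rw [hT]
    rfl
  have hfix : ∀ x : PR D K, UT D (Wring K W) Tp x → T (x ^ c) = x ^ c := by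
    intro x hx
    ext k
    rw [hTa]
    exact hc x hx.2.1 (hint x hx) k
  have hTD : τ D₀ = D₀ := by
    have h1 : T (PR.nrm D (u ^ c - 1)) = PR.nrm D (u ^ c - 1) := by
      rw [hT, PR.map_nrm, ← hT, map_sub, hfix u hu, map_one]
    rw [← hD] at h1
    have h2 : (T (algebraMap K (PR D K) D₀)) 0 = (algebraMap K (PR D K) D₀) 0 := by rw [h1]
    rw [hTa, PR.algebraMap_apply, map_neg, neg_inj] at h2
    exact h2
  refine ⟨hTD, ?_⟩
  obtain ⟨β, hβ⟩ : ∃ β : PR D K, β = b ^ c - 1 := ⟨_, rfl⟩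
  have hβ0 : β ≠ 0 := by
    rw [hβ]
    exact sub_ne_zero.2 hb1
  have hTβ : T β = β := by
    rw [hβ, map_sub, hfix b hb, map_one]
  obtain ⟨β', hββ⟩ := hfield.mul_inv_cancel hβ0
  have hTβ' : T β' = β' := by
    have h1 : β * T β' = 1 := by
      rw [← hTβ, ← map_mul, hββ, map_one]
    calc T β' = (β * β') * T β' := by rw [hββ, one_mul]
      _ = (β * T β') * β' := by ring
      _ = β' := by rw [h1, one_mul]
  obtain ⟨ρ, hρ⟩ : ∃ ρ : PR D K, ρ = (w ^ c - 1) * β' := ⟨_, rfl⟩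
  have hTρ : T ρ = ρ := by
    rw [hρ, map_mul, hTβ', map_sub, hfix w hw, map_one]
  have he1 : ρ - t • (1 : PR D K) = D₀ • s := by
    rw [← hβ] at he
    have h1 : (w ^ c - 1 - t • β) * β' = (D₀ • (β * s)) * β' := by rw [he]
    rw [sub_mul, smul_mul_assoc, hββ, ← hρ, smul_mul_assoc] at h1
    rw [h1]
    congr 1
    calc β * s * β' = (β * β') * s := by ring
      _ = s := by rw [hββ, one_mul]
  have he2 : ρ 0 + t = D₀ * s 0 := by
    have h1 : (ρ - t • (1 : PR D K)) 0 = (D₀ • s) 0 := by rw [he1]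
    rw [PR.sub_apply, PR.smul_apply, PR.smul_apply, PR.one_apply] at h1
    rw [← h1]
    ring
  have hτρ : τ (ρ 0) = ρ 0 := by
    rw [← hTa, hTρ]
  have he3 : ρ 0 + τ t = D₀ * τ (s 0) := by
    have h1 := congrArg τ he2
    rw [map_add, map_mul, hτρ, hTD] at h1
    exact h1
  have he4 : t - τ t = D₀ * (s 0 - τ (s 0)) := by
    linear_combination he2 - he3
  rw [he4, map_mul]
  have h1 : v.valuation K (s 0) ≤ 1 := hs 0 v hv
  have h2 : v.valuation K (τ (s 0)) ≤ 1 := by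
    rw [← cms_cj τ hτ]
    exact hs 0 (cj τ v) hv'
  have h3 : v.valuation K (s 0 - τ (s 0)) ≤ 1 :=
    ((v.valuation K).map_sub _ _).trans (max_le h1 h2)
  exact mul_le_of_le_one_right' h3

private theorem cms_card (v : HeightOneSpectrum (𝓞 K)) : Nat.card (𝓞 K ⧸ v.asIdeal) = nm v := by
  unfold nm
  rw [Ideal.absNorm_apply, Submodule.cardQuot_apply]

omit [NumberField F] in
private theorem cms_nm (τ : K ≃ₐ[F] K) (v : HeightOneSpectrum (𝓞 K)) : nm (cj τ v) = nm v := by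
  rw [← cms_card, ← cms_card]
  exact (Nat.card_congr (Ideal.quotientEquiv v.asIdeal (cj τ v).asIdeal (gO τ) rfl).toEquiv).symm

private theorem cms_mem (τ : K ≃ₐ[F] K) (v : HeightOneSpectrum (𝓞 K)) (n : ℕ) :
    ((n : ℕ) : 𝓞 K) ∈ (cj τ v).asIdeal ↔ ((n : ℕ) : 𝓞 K) ∈ v.asIdeal := by
  have h1 := mem_cj_pow τ v 1 ((n : ℕ) : 𝓞 K)
  rw [pow_one, pow_one, map_natCast] at h1
  exact h1

/-- PROOF. `R = Wring K W`, `n = [K:ℚ]`. Let `t ∈ V` with `u, b, w, D₀, s`, and suppose `t ≠ τ t`.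
(1) `u, b, w` have integral coordinates: at `v ∉ W` they are in `R`; at `v ∈ W`: `v ∈ Tp` (definition of
`UT`) or `v` inert (`int_of_nrm_one`). By `hc` the coordinates of `u^c`, `b^c`, `w^c` are fixed by `τ`; so is
`D₀` (its value is `-` a coordinate of `nrm (u^c - 1)`, and `PR.map D τ` commutes with `nrm`).
(2) `β = b^c - 1 ≠ 0` is invertible in the field `PR D K`; `ρ = (w^c - 1)/β` is fixed by `PR.map D τ`.
Dividing the last equation by `β`: `ρ - t = D₀ s` in `PR D K`; take the coordinate at `0`: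
`ρ 0 + t = D₀ s 0`, so `t - τ t = D₀ (s 0 - τ (s 0))`.
(3) Let `v` be a prime with `v ∉ W` and `cj τ v ∉ W`. Then `v(t - τ t) ≤ v(D₀)`.
(4) Choose `j₁`, `j₂` by `height_shift` for `t` and for `τ t`; `d₁ = Df D g (t - j₁)`,
`d₂ = Df D g (τ t - j₂) = τ (Df D g (t - j₂))`. If `v(d₁) < 1` then `v` is not inert
(`val_Df_inert`), `v ∉ Tp` (`val_Df_deg1`, `hT1`), and the same for `cj τ v`, so (3) applies:
`v(t - τ t) ≤ v(D₀) ≤ v(d₁)^4`; similarly for `d₂` (apply this at `cj τ v`). If `p₀ ∈ v` then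
`v(t - τ t) ≤ v(D₀) ≤ v(p₀)^C`.
(5) The product formula (`cms_global`): `N(d₁)^4 N(d₂)^4 p₀^(n C) ≤ 8^n (H(t) H(τ t))^3`. -/
theorem cm_sound (hfield : IsField (PR D K)) (τ : K ≃ₐ[F] K) (hτ : ∀ x, τ (τ x) = x) (g c : ℕ)
    (hg : 0 < g) (hc : ∀ u : PR D K, PR.nrm D u = 1 → (∀ k, IsIntegral ℤ (u k)) →
      ∀ k, τ ((u ^ c) k) = (u ^ c) k)
    (Tp : Set (HeightOneSpectrum (𝓞 K)))
    (hT1 : ∀ v ∈ Tp, (nm v).Prime ∧ ((f : ℕ) : 𝓞 K) ∉ v.asIdeal ∧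
      ¬ IsSquare (((-(g : ℤ)) : ℤ) : ZMod (nm v)))
    (hTτ : ∀ v ∈ Tp, cj τ v ∈ Tp) (p₀ : ℕ) (hp₀ : p₀.Prime) :
    ∃ C : ℕ, ∀ W : Set (HeightOneSpectrum (𝓞 K)), (∀ v ∈ W, v ∈ Tp ∨ Inert D v) →
      (∀ v : HeightOneSpectrum (𝓞 K), ((p₀ : ℕ) : 𝓞 K) ∈ v.asIdeal → v ∉ W) →
      ∀ t ∈ SetV D (Wring K W) Tp g c C p₀, τ t = t := by
  obtain ⟨C₁, hC₁, hht⟩ := height_shift D (K := K) g hg
  obtain ⟨C, hC⟩ : ∃ C : ℕ, ((2 : ℝ) ^ Module.finrank ℚ K) ^ 3 * C₁ ^ 8 < 2 ^ C :=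
    pow_unbounded_of_one_lt _ one_lt_two
  refine ⟨C, fun W hW hpW t ht => ?_⟩
  obtain ⟨-, u, b, w, hu, hb, hw, -, hb1, D₀, hD, ⟨r, hr, hr'⟩, hj, s, hs, he⟩ := ht
  by_contra hne
  have hx : t - τ t ≠ 0 := sub_ne_zero.2 (Ne.symm hne)
  have key := cms_div D hfield τ hτ c hc Tp W hW hu hb hw hb1 hD hs he
  have hcc : ∀ v : HeightOneSpectrum (𝓞 K), cj τ (cj τ v) = v := by
    intro v
    have h1 : τ * τ = 1 := by
      ext x
      exact hτ x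
    rw [← cj_mul, h1, cj_one]
  -- the height form is a unit or large at the inverted primes
  have nTp : ∀ v ∈ Tp, ∀ y : K, 1 ≤ v.valuation K (Df D g y) := by
    intro v hv y
    rw [val_Df_deg1 D g v (hT1 v hv).1 (hT1 v hv).2.1 (hT1 v hv).2.2 y]
    exact one_le_pow₀ (le_max_left _ _)
  have nIn : ∀ v : HeightOneSpectrum (𝓞 K), Inert D v → ∀ y : K,
      1 ≤ v.valuation K (Df D g y) := by
    intro v hv y
    rw [val_Df_inert D g v hv y]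
    exact one_le_pow₀ (le_max_left _ _)
  have hloc : ∀ j ∈ Finset.range (Module.finrank ℚ K + 1), ∀ v : HeightOneSpectrum (𝓞 K),
      v.valuation K (Df D g (t - (j : K))) < 1 →
      v.valuation K (t - τ t) ≤ v.valuation K (Df D g (t - (j : K))) ^ 4 := by
    intro j hjr v hlt
    have h1 : v ∉ W := by
      intro hvW
      rcases hW v hvW with h2 | h2
      · exact absurd hlt (not_lt.2 (nTp v h2 _))
      · exact absurd hlt (not_lt.2 (nIn v h2 _))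
    have h2 : cj τ v ∉ W := by
      intro hvW
      rcases hW _ hvW with h2 | h2
      · have h3 := hTτ _ h2
        rw [hcc] at h3
        exact absurd hlt (not_lt.2 (nTp v h3 _))
      · have h3 : Inert D v := by
          refine ⟨fun h4 => h2.1 ((cms_mem τ v f).2 h4), ?_⟩
          rw [← cms_nm τ v]
          exact h2.2
        exact absurd hlt (not_lt.2 (nIn v h3 _))
    obtain ⟨r, hr, hr'⟩ := hj j hjr
    refine (key v h1 h2).2.trans ?_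
    rw [hr', map_mul, map_pow]
    exact mul_le_of_le_one_right' (hr v h1)
  obtain ⟨j₁, hj₁, hH₁, hd₁⟩ := hht t
  obtain ⟨j₂, hj₂, hH₂, hd₂⟩ := hht (τ t)
  have hDτ : Df D g (τ t - (j₂ : K)) = τ (Df D g (t - (j₂ : K))) := by
    have h1 := Df_map D (τ : K →+* K) g (t - (j₂ : K))
    have h2 : (τ : K →+* K) (t - (j₂ : K)) = τ t - (j₂ : K) := by
      rw [map_sub, map_natCast]
      rfl
    rw [h2] at h1
    exact h1.symm
  have hg1 := cms_global (t₁ := t) (t₂ := τ t) (d₁ := Df D g (t - (j₁ : K)))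
    (d₂ := Df D g (τ t - (j₂ : K))) (p₀ := p₀) (C := C) hx hd₁ hd₂ hp₀.pos
    (fun w' hw' => cms_place w' _ _ 4 (hloc j₁ hj₁ _) hw')
    (fun w' hw' => cms_place w' _ _ 4 (fun hlt => by
      rw [hDτ, ← cms_cj τ hτ] at hlt ⊢
      have h1 := hloc j₂ hj₂ _ hlt
      refine le_trans (le_of_eq ?_) h1
      have hs1 : τ (t - τ t) = -(t - τ t) := by
        rw [map_sub, hτ]
        ring
      rw [cms_cj τ hτ, hs1, Valuation.map_neg]) hw')
    (fun w' hw' => cms_place w' _ _ C (fun hlt => by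
      have h1 : ((p₀ : ℕ) : 𝓞 K) ∈ (FinitePlace.maximalIdeal w').asIdeal := by
        have h0 : algebraMap (𝓞 K) K ((p₀ : ℕ) : 𝓞 K) = (p₀ : K) := map_natCast _ _
        rw [← h0] at hlt
        exact ((FinitePlace.maximalIdeal w').valuation_lt_one_iff_mem (K := K) _).1 hlt
      have h2 := hpW _ h1
      have h3 := hpW _ ((cms_mem τ _ p₀).2 h1)
      refine (key _ h2 h3).2.trans ?_
      rw [hr', map_mul, map_pow]
      exact mul_le_of_le_one_right' (hr _ h2)) hw')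
  obtain ⟨N₁, hN₁⟩ : ∃ y : ℝ, y = numH (Df D g (t - (j₁ : K))) := ⟨_, rfl⟩
  obtain ⟨N₂, hN₂⟩ : ∃ y : ℝ, y = numH (Df D g (τ t - (j₂ : K))) := ⟨_, rfl⟩
  obtain ⟨H₁, hHH₁⟩ : ∃ y : ℝ, y = Height.mulHeight₁ t := ⟨_, rfl⟩
  obtain ⟨H₂, hHH₂⟩ : ∃ y : ℝ, y = Height.mulHeight₁ (τ t) := ⟨_, rfl⟩
  have p1 : 0 < N₁ := by rw [hN₁]; exact numH_pos hd₁
  have p2 : 0 < N₂ := by rw [hN₂]; exact numH_pos hd₂
  have q1 : 1 ≤ H₁ := by rw [hHH₁]; exact Height.one_le_mulHeight₁ _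
  have q2 : 1 ≤ H₂ := by rw [hHH₂]; exact Height.one_le_mulHeight₁ _
  rw [← hN₁, ← hN₂, ← hHH₁, ← hHH₂] at hg1
  rw [← hN₁, ← hHH₁] at hH₁
  rw [← hN₂, ← hHH₂] at hH₂
  have hh : 2 * h ≠ 0 := by
    have := (Fact.out : h.Prime).pos
    omega
  have r1 : H₁ ≤ C₁ * N₁ := (le_self_pow₀ q1 hh).trans hH₁
  have r2 : H₂ ≤ C₁ * N₂ := (le_self_pow₀ q2 hh).trans hH₂
  have r3 : 1 ≤ H₁ * H₂ := one_le_mul_of_one_le_of_one_le q1 q2
  have r4 : (H₁ * H₂) ^ 3 ≤ C₁ ^ 8 * (N₁ ^ 4 * N₂ ^ 4) := by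
    calc (H₁ * H₂) ^ 3 ≤ (H₁ * H₂) ^ 4 := pow_le_pow_right₀ r3 (by norm_num)
      _ ≤ ((C₁ * N₁) * (C₁ * N₂)) ^ 4 :=
        pow_le_pow_left₀ (zero_le_one.trans r3)
          (mul_le_mul r1 r2 (zero_le_one.trans q2) (by positivity)) 4
      _ = C₁ ^ 8 * (N₁ ^ 4 * N₂ ^ 4) := by ring
  have hn : Module.finrank ℚ K ≠ 0 := (Module.finrank_pos (R := ℚ) (M := K)).ne'
  have hp2 : (2 : ℝ) ≤ (p₀ : ℝ) ^ Module.finrank ℚ K := by
    have h1 : (2 : ℝ) ≤ p₀ := by exact_mod_cast hp₀.two_le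
    exact h1.trans (le_self_pow₀ (by linarith) hn)
  have r5 : (2 : ℝ) ^ C ≤ ((p₀ : ℝ) ^ Module.finrank ℚ K) ^ C :=
    pow_le_pow_left₀ (by norm_num) hp2 C
  have hNN : 0 < N₁ ^ 4 * N₂ ^ 4 := by positivity
  have r6 : (N₁ ^ 4 * N₂ ^ 4) * 2 ^ C ≤
      (N₁ ^ 4 * N₂ ^ 4) * (((2 : ℝ) ^ Module.finrank ℚ K) ^ 3 * C₁ ^ 8) := by
    calc (N₁ ^ 4 * N₂ ^ 4) * 2 ^ C ≤ (N₁ ^ 4 * N₂ ^ 4) * ((p₀ : ℝ) ^ Module.finrank ℚ K) ^ C :=
          mul_le_mul_of_nonneg_left r5 hNN.le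
      _ ≤ (2 ^ Module.finrank ℚ K * (H₁ * H₂)) ^ 3 := hg1
      _ = ((2 : ℝ) ^ Module.finrank ℚ K) ^ 3 * (H₁ * H₂) ^ 3 := mul_pow _ _ _
      _ ≤ ((2 : ℝ) ^ Module.finrank ℚ K) ^ 3 * (C₁ ^ 8 * (N₁ ^ 4 * N₂ ^ 4)) :=
        mul_le_mul_of_nonneg_left r4 (by positivity)
      _ = _ := by ring
  have r7 := le_of_mul_le_mul_left r6 hNN
  exact absurd hC (not_lt.2 r7)

end Pool.Agent.Lib.MP_673eb1_lc.HF
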