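import Pool.Agent.Lib.MP_673eb1_lc.TRDef
import Pool.Agent.Lib.MP_673eb1_lc.DioC

/-!
MP_673eb1_lc, module CMTr: the transfer from `K` to its subfield `F`.
-/

set_option autoImplicit false

open NumberField IsDedekindDomain Pool.Agent.ZD

namespace Pool.Agent.Lib.MP_673eb1_lc.HF

variable {F K : Type} [Field F] [NumberField F] [Field K] [NumberField K] [Algebra F K]

private theorem cmt_val (v : HeightOneSpectrum (𝓞 K)) (u : HeightOneSpectrum (𝓞 F))
    (hv : v ∈ abv K u) (y : F) :
    v.valuation K (algebraMap F K y) ≤ 1 ↔ u.valuation F y ≤ 1 := by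
  have hl : v.asIdeal.LiesOver u.asIdeal := liesOver hv
  have h1 := HeightOneSpectrum.valuation_liesOver K u v y
  have he := Ideal.IsDedekindDomain.ramificationIdx'_ne_zero_of_liesOver v.asIdeal u.ne_bot
  rw [← h1]
  exact pow_le_one_iff_of_nonneg zero_le he

/-- `v` over `u`: `v(y) = u(y)^e`, `e ≥ 1`, for `y ∈ F` (Mathlib: `HeightOneSpectrum.valuation_comap` or
`valuation_liesOver`), so `v(y) ≤ 1` iff `u(y) ≤ 1`; every `u` has some `v` over it (`abv_nonempty`). -/
theorem wring_comap (W : Set (HeightOneSpectrum (𝓞 K))) (y : F) :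
    y ∈ Wring F {u | ∀ v ∈ abv K u, v ∈ W} ↔ algebraMap F K y ∈ Wring K W := by
  constructor
  · intro hy v hv
    have hvu : v ∈ abv K (v.under (𝓞 F)) := rfl
    refine (cmt_val v _ hvu y).2 (hy _ ?_)
    intro h1
    exact hv (h1 v hvu)
  · intro hy u hu
    have h1 : ¬ ∀ v ∈ abv K u, v ∈ W := hu
    push Not at h1
    obtain ⟨v, hv, hvW⟩ := h1
    exact (cmt_val v u hv y).1 (hy v hvW)

/-- PROOF. Let `ω_i` be a `ℤ`-basis of `𝓞 F`. The set is
`{r ∈ R : ∃ s' ∈ V, s' ≠ 0, ∃ s_i ∈ V, r s' = ∑ s_i ω_i}`: if `r` is in the set on the left, `r = y ∈ F`, then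
`y = (∑ n_i ω_i)/n'` with integers; conversely such an `r` is in the image of `F` and in `R`, so it is in
the image of `Wring F W₀` by `wring_comap`. Diophantine by `Dio.exK` (over `s', s_i ∈ K`), `Dio.ne`,
`Dio.memR`. -/
theorem cm_transfer (W : Set (HeightOneSpectrum (𝓞 K))) (hR : GoodR (Wring K W)) (V : Set K)
    (hV : Dio (Wring K W) V) (hZ : ∀ m : ℤ, (m : K) ∈ V) (hVF : ∀ x ∈ V, ∃ y : F, algebraMap F K y = x) :
    Dio (Wring K W) {x : K | ∃ y ∈ Wring F {u | ∀ v ∈ abv K u, v ∈ W}, algebraMap F K y = x} := by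
  let b := Module.finBasis ℚ F
  let ι := Fin (Module.finrank ℚ F)
  -- the space of `(r, (s', s))`
  let E := K × (K × (ι → K))
  have pr : IsPol K (fun x : E => x.1) := IsPol.fst
  have ps' : IsPol K (fun x : E => x.2.1) := IsPol.fst.comp IsPol.snd
  have ps : IsPol K (fun x : E => x.2.2) := IsPol.snd.comp IsPol.snd
  have s1 : Dio (Wring K W) {x : E | x.1 ∈ Wring K W} := Dio.memR pr
  have s2 : Dio (Wring K W) {x : E | x.2.1 ∈ V} := hV.preimage ps'
  have s3 : Dio (Wring K W) {x : E | x.2.1 ≠ 0} := Dio.ne hR ps'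
  have s4 : Dio (Wring K W) {x : E | ∀ i : ι, x.2.2 i ∈ V} :=
    Dio.iInter (S := fun i : ι => {x : E | x.2.2 i ∈ V}) fun i => hV.preimage (ps.apply i)
  have s5 : Dio (Wring K W) {x : E | x.1 * x.2.1 = ∑ i, x.2.2 i * algebraMap F K (b i)} :=
    Dio.eq (pr.mul ps') (IsPol.sum _ fun i _ => (ps.apply i).mul (IsPol.const _))
  have sA := s1.inter (s2.inter (s3.inter (s4.inter s5)))
  have sB := Dio.exK (V := K) (W := K × (ι → K)) hR sA
  have key : {x : K | ∃ y ∈ Wring F {u | ∀ v ∈ abv K u, v ∈ W}, algebraMap F K y = x} =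
      {v : K | ∃ w : K × (ι → K), (v, w) ∈ {x : E | x.1 ∈ Wring K W} ∩ ({x : E | x.2.1 ∈ V} ∩
        ({x : E | x.2.1 ≠ 0} ∩ ({x : E | ∀ i : ι, x.2.2 i ∈ V} ∩
        {x : E | x.1 * x.2.1 = ∑ i, x.2.2 i * algebraMap F K (b i)})))} := by
    ext x
    constructor
    · rintro ⟨y, hy, rfl⟩
      obtain ⟨D, hD⟩ := IsLocalization.exist_integer_multiples_of_finite (nonZeroDivisors ℤ)
        (fun i => b.repr y i)
      have hD0 : (D : ℤ) ≠ 0 := nonZeroDivisors.ne_zero D.2
      choose m hm using hD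
      refine ⟨((D : ℤ), fun i => (m i : K)), (wring_comap W y).1 hy, hZ _, ?_, fun i => hZ _, ?_⟩
      · exact Int.cast_ne_zero.2 hD0
      · change algebraMap F K y * ((D : ℤ) : K) = ∑ i, (m i : K) * algebraMap F K (b i)
        have h1 : y * ((D : ℤ) : F) = ∑ i, (m i : F) * b i := by
          have h2 : ∑ i, b.repr y i • b i = y := b.sum_repr y
          conv_lhs => rw [← h2]
          rw [Finset.sum_mul]
          refine Finset.sum_congr rfl fun i _ => ?_
          have h3 : (m i : ℚ) = ((D : ℤ) : ℚ) * b.repr y i := by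
            have h4 := hm i
            simp only [zsmul_eq_mul, eq_intCast] at h4
            exact h4
          have h5 : ((m i : ℚ) : F) = (((D : ℤ) : ℚ) : F) * ((b.repr y i : ℚ) : F) := by
            rw [h3]
            push_cast
            rfl
          push_cast at h5
          rw [h5, Algebra.smul_def]
          simp only [eq_ratCast]
          ring
        have h6 := congrArg (algebraMap F K) h1
        rw [map_mul, map_sum, map_intCast] at h6
        rw [h6]
        refine Finset.sum_congr rfl fun i _ => ?_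
        rw [map_mul, map_intCast]
    · rintro ⟨⟨s', s⟩, hx, hs', hs0, hs, he⟩
      obtain ⟨y', hy'⟩ := hVF _ hs'
      choose z hz using fun i => hVF _ (hs i)
      change x * s' = ∑ i, s i * algebraMap F K (b i) at he
      change algebraMap F K y' = s' at hy'
      change s' ≠ 0 at hs0
      change ∀ i, algebraMap F K (z i) = s i at hz
      have hxy : algebraMap F K ((∑ i, z i * b i) / y') = x := by
        rw [map_div₀, hy', div_eq_iff hs0, he, map_sum]
        refine Finset.sum_congr rfl fun i _ => ?_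
        rw [map_mul, hz]
      refine ⟨_, (wring_comap W _).2 ?_, hxy⟩
      rw [hxy]
      exact hx
  rw [key]
  exact sB

/-- The norm of a prime `v` over `u` is a power of the norm of `u`. -/
theorem nm_pow (u : HeightOneSpectrum (𝓞 F)) (v : HeightOneSpectrum (𝓞 K)) (hv : v ∈ abv K u) :
    ∃ k : ℕ, nm v = nm u ^ k := by
  have hl : v.asIdeal.LiesOver u.asIdeal := liesOver hv
  exact ⟨_, Ideal.absNorm_eq_pow_inertiaDeg'_of_liesOver v.asIdeal u.asIdeal u.isPrime u.ne_bot⟩

/-- the norm is prime to `f` -/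
private theorem cmt_coprime {f : ℕ} (hf : f.Prime) (u : HeightOneSpectrum (𝓞 F))
    (hu : ((f : ℕ) : 𝓞 F) ∉ u.asIdeal) : (nm u).Coprime f := by
  rw [Nat.coprime_comm, Nat.Prime.coprime_iff_not_dvd hf]
  intro hdvd
  have hp := u.isPrime
  have h0 : Finite (𝓞 F ⧸ u.asIdeal) := Ideal.finiteQuotientOfFreeOfNeBot _ u.ne_bot
  have hcard : Nat.card (𝓞 F ⧸ u.asIdeal) = nm u := by
    unfold nm
    rw [Ideal.absNorm_apply, Submodule.cardQuot_apply]
  have hfac : Fact f.Prime := ⟨hf⟩
  obtain ⟨x, hx⟩ := exists_prime_addOrderOf_dvd_card' (G := 𝓞 F ⧸ u.asIdeal) f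
    (by rw [hcard]; exact hdvd)
  have h1 : (f : 𝓞 F ⧸ u.asIdeal) * x = 0 := by
    rw [← nsmul_eq_mul, ← hx]
    exact addOrderOf_nsmul_eq_zero x
  rcases mul_eq_zero.1 h1 with h2 | h2
  · apply hu
    rw [← Ideal.Quotient.eq_zero_iff_mem, map_natCast]
    exact h2
  · rw [h2, addOrderOf_zero] at hx
    exact hf.one_lt.ne hx

/-- If `v` over `u` is inert for `D` then so is `u` (`ind (N^k) = k ind N`, `f ∈ u → f ∈ v`). -/
theorem inert_down {h f : ℕ} [Fact h.Prime] (D : PerData h f) (u : HeightOneSpectrum (𝓞 F))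
    (v : HeightOneSpectrum (𝓞 K)) (hv : v ∈ abv K u) (hi : Inert D v) : Inert D u := by
  obtain ⟨k, hk⟩ := nm_pow u v hv
  have hfu : ((f : ℕ) : 𝓞 F) ∉ u.asIdeal := by
    intro h1
    apply hi.1
    have h2 := mem_abv.1 hv
    rw [← h2, Ideal.mem_comap, map_natCast] at h1
    exact h1
  refine ⟨hfu, fun h0 => hi.2 ?_⟩
  have hco := cmt_coprime D.hf u hfu
  rw [hk]
  have h1 : ∀ k : ℕ, D.ind (nm u ^ k) = 0 := by
    intro k
    induction k with
    | zero =>
      have h2 := D.ind_mul 1 1 (Nat.coprime_one_left f) (Nat.coprime_one_left f)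
      rw [mul_one] at h2
      rw [pow_zero]
      have h3 : D.ind 1 + 0 = D.ind 1 + D.ind 1 := by
        rw [add_zero]
        exact h2
      exact (add_left_cancel h3).symm
    | succ n ih =>
      rw [pow_succ, D.ind_mul _ _ (Nat.Coprime.pow_left n hco) hco, ih, h0, add_zero]
  exact h1 k

/-- `g > 0` such that `-g` is not a square modulo any of finitely many primes `≡ 1 mod 4` (CRT; `-1` is a
square modulo them). -/
theorem exists_g (s : Finset ℕ) (hs : ∀ l ∈ s, l.Prime ∧ l % 4 = 1) :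
    ∃ g : ℕ, 0 < g ∧ ∀ l ∈ s, ¬ IsSquare (((-(g : ℤ)) : ℤ) : ZMod l) := by
  classical
  induction s using Finset.induction_on with
  | empty => exact ⟨1, one_pos, fun l hl => absurd hl (Finset.notMem_empty l)⟩
  | insert l s hls ih =>
    obtain ⟨g', -, hg'⟩ := ih fun k hk => hs k (Finset.mem_insert_of_mem hk)
    obtain ⟨hl, hl4⟩ := hs l (Finset.mem_insert_self l s)
    have hfac : Fact l.Prime := ⟨hl⟩
    obtain ⟨a, ha⟩ := FiniteField.exists_nonsquare (F := ZMod l) (by
      rw [ZMod.ringChar_zmod_n]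
      rintro rfl
      omega)
    have hco : Nat.Coprime (∏ k ∈ s, k) l := by
      refine Nat.Coprime.prod_left fun k hk => ?_
      refine (Nat.coprime_primes (hs k (Finset.mem_insert_of_mem hk)).1 hl).2 ?_
      rintro rfl
      exact hls hk
    obtain ⟨z, hz1, hz2⟩ := Nat.chineseRemainder hco g' (-a).val
    refine ⟨z + (∏ k ∈ s, k) * l, ?_, ?_⟩
    · have h1 : 0 < ∏ k ∈ s, k :=
        Finset.prod_pos fun k hk => (hs k (Finset.mem_insert_of_mem hk)).1.pos
      have h2 := hl.pos
      positivity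
    · intro k hk
      rcases Finset.mem_insert.1 hk with rfl | hk
      · have h1 : (((-((z + (∏ k ∈ s, k) * k : ℕ) : ℤ)) : ℤ) : ZMod k) = a := by
          have h2 : (z : ZMod k) = -a := by
            have h3 := (ZMod.natCast_eq_natCast_iff _ _ _).2 hz2
            rw [h3, ZMod.natCast_val, ZMod.cast_id', id_eq]
          push_cast
          rw [h2, ZMod.natCast_self]
          ring
        rw [h1]
        exact ha
      · have h1 : (((-((z + (∏ k ∈ s, k) * l : ℕ) : ℤ)) : ℤ) : ZMod k) =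
            (((-(g' : ℤ)) : ℤ) : ZMod k) := by
          have hd : k ∣ ∏ k ∈ s, k := Finset.dvd_prod_of_mem _ hk
          have h2 : (z : ZMod k) = g' :=
            (ZMod.natCast_eq_natCast_iff _ _ _).2 (Nat.ModEq.of_dvd hd hz1)
          have h3 : ((∏ k ∈ s, k : ℕ) : ZMod k) = 0 := (ZMod.natCast_eq_zero_iff _ _).2 hd
          push_cast at h3 ⊢
          rw [h2, h3]
          ring
        rw [h1]
        exact hg' k hk

/-- The complex conjugation of a CM field. PROOF. `K/F` is quadratic, so Galois; `τ` its nontrivial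
automorphism. For `φ : K → ℂ`, `conj ∘ φ` agrees with `φ` on `F` and is different from `φ` (`K` has no
real embedding), and `φ ∘ τ` is the only other extension of `φ|F`. -/
theorem exists_conj (h2 : Module.finrank F K = 2) (hF : ∀ (φ : K →+* ℂ) (y : F),
    (φ (algebraMap F K y)).im = 0) (hK : IsTotallyComplex K) :
    ∃ τ : K ≃ₐ[F] K, (∀ x, τ (τ x) = x) ∧
      (∀ (φ : K →+* ℂ) (x : K), φ (τ x) = (starRingEnd ℂ) (φ x)) ∧
      ∀ x, τ x = x → ∃ y : F, algebraMap F K y = x := by
  have hq : Algebra.IsQuadraticExtension F K := ⟨h2⟩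
  have hgal : IsGalois F K := inferInstance
  have hcard : Nat.card (K ≃ₐ[F] K) = 2 := by rw [IsGalois.card_aut_eq_finrank, h2]
  obtain ⟨τ, hτ1, hτu⟩ : ∃ τ : K ≃ₐ[F] K, τ ≠ 1 ∧ ∀ σ : K ≃ₐ[F] K, σ = 1 ∨ σ = τ := by
    obtain ⟨x, y, hxy, huniv⟩ := Nat.card_eq_two_iff.1 hcard
    have h1 : ∀ σ : K ≃ₐ[F] K, σ = x ∨ σ = y := by
      intro σ
      have h2 : σ ∈ ({x, y} : Set (K ≃ₐ[F] K)) := by
        rw [huniv]
        exact Set.mem_univ _
      simpa using h2
    rcases h1 1 with h3 | h3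
    · exact ⟨y, by rw [h3]; exact hxy.symm, fun σ => by rw [h3]; exact h1 σ⟩
    · exact ⟨x, by rw [h3]; exact hxy, fun σ => by rw [h3]; exact (h1 σ).symm⟩
  have hττ : τ * τ = 1 := by
    rcases hτu (τ * τ) with h3 | h3
    · exact h3
    · exact absurd (mul_eq_left.1 h3) hτ1
  refine ⟨τ, fun x => ?_, fun φ x => ?_, fun x hx => ?_⟩
  · have h3 := congrArg (fun σ : K ≃ₐ[F] K => σ x) hττ
    exact h3
  · have h3 : φ.comp (algebraMap F K) = (ComplexEmbedding.conjugate φ).comp (algebraMap F K) := by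
      ext y
      have h4 := hF φ y
      change φ (algebraMap F K y) = (starRingEnd ℂ) (φ (algebraMap F K y))
      exact (Complex.conj_eq_iff_im.2 h4).symm
    obtain ⟨σ, hσ⟩ := ComplexEmbedding.exists_comp_symm_eq_of_comp_eq φ _ h3
    have hσ' : ∀ z, φ (σ.symm z) = (starRingEnd ℂ) (φ z) := fun z =>
      congrArg (fun ψ : K →+* ℂ => ψ z) hσ
    rcases hτu σ with h4 | h4
    · exfalso
      have h5 : ComplexEmbedding.IsReal φ := by
        rw [ComplexEmbedding.isReal_iff]
        ext z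
        have h6 := hσ' z
        rw [h4] at h6
        exact h6.symm
      exact IsTotallyComplex.complexEmbedding_not_isReal φ h5
    · rw [← hσ' x, h4]
      congr 1
      have h5 : τ (τ x) = x := congrArg (fun σ : K ≃ₐ[F] K => σ x) hττ
      rw [AlgEquiv.eq_symm_apply]
      exact h5
  · have h3 : x ∈ Set.range (algebraMap F K) := by
      rw [IsGalois.mem_range_algebraMap_iff_fixed]
      intro σ
      rcases hτu σ with h4 | h4
      · rw [h4]
        rfl
      · rw [h4]
        exact hx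
    exact h3

end Pool.Agent.Lib.MP_673eb1_lc.HF
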