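import Mathlib

/-!
MP_673eb1_lc, module CMTrB: the complex conjugation of a CM field, choice of `g`.
-/

set_option autoImplicit false

open NumberField IsDedekindDomain

namespace Pool.Agent.Lib.MP_673eb1_lc.HF

/-- `g > 0` such that `-g` is not a square modulo any of finitely many primes `≡ 1 mod 4` (CRT; `-1` is a
square modulo them). -/
theorem exists_g (s : Finset ℕ) (hs : ∀ l ∈ s, l.Prime ∧ l % 4 = 1) :
    ∃ g : ℕ, 0 < g ∧ ∀ l ∈ s, ¬ IsSquare (((-(g : ℤ)) : ℤ) : ZMod l) := by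
  -- a nonsquare modulo every `l`
  have h1 : ∀ l ∈ s, ∃ c : ℕ, ¬ IsSquare ((c : ℕ) : ZMod l) := by
    intro l hl
    have hp : Fact l.Prime := ⟨(hs l hl).1⟩
    have hl2 : ringChar (ZMod l) ≠ 2 := by
      rw [ZMod.ringChar_zmod_n]
      have := (hs l hl).2
      omega
    obtain ⟨a, ha⟩ := FiniteField.exists_nonsquare hl2
    exact ⟨a.val, by rwa [ZMod.natCast_zmod_val]⟩
  choose! c hc using h1
  have hcop : (s : Set ℕ).Pairwise (Function.onFun Nat.Coprime (fun l : ℕ => l)) := by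
    intro a ha b hb hab
    exact (Nat.coprime_primes (hs a ha).1 (hs b hb).1).2 hab
  obtain ⟨k, hk⟩ := Nat.chineseRemainderOfFinset c (fun l => l) s
    (fun l hl => (hs l hl).1.ne_zero) hcop
  have hkP : 0 < k + ∏ l ∈ s, l :=
    Nat.add_pos_right _ (Finset.prod_pos fun l hl => (hs l hl).1.pos)
  refine ⟨k + ∏ l ∈ s, l, hkP, fun l hl => ?_⟩
  have hp : Fact l.Prime := ⟨(hs l hl).1⟩
  have h2 : (((-((k + ∏ l ∈ s, l : ℕ) : ℤ)) : ℤ) : ZMod l) = (-1) * ((c l : ℕ) : ZMod l) := by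
    have h3 : ((k : ℕ) : ZMod l) = ((c l : ℕ) : ZMod l) := (ZMod.natCast_eq_natCast_iff _ _ _).2 (hk l hl)
    have h4 : ((∏ l ∈ s, l : ℕ) : ZMod l) = 0 :=
      (ZMod.natCast_eq_zero_iff _ _).2 (Finset.dvd_prod_of_mem _ hl)
    push_cast at h4 ⊢
    rw [h4, add_zero, h3]
    ring
  rw [h2]
  have h5 : IsSquare (-1 : ZMod l) := ZMod.exists_sq_eq_neg_one_iff.2 (by have := (hs l hl).2; omega)
  intro h6
  apply hc l hl
  have h7 := h5.mul h6
  rwa [← mul_assoc, neg_one_mul, neg_neg, one_mul] at h7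

variable {F K : Type} [Field F] [NumberField F] [Field K] [NumberField K] [Algebra F K]

/-- The complex conjugation of a CM field. PROOF. `K/F` is quadratic, so Galois; `τ` its nontrivial
automorphism. For `φ : K → ℂ`, `conj ∘ φ` agrees with `φ` on `F` and is different from `φ` (`K` has no
real embedding), and `φ ∘ τ` is the only other extension of `φ|F`. -/
theorem exists_conj (h2 : Module.finrank F K = 2) (hF : ∀ (φ : K →+* ℂ) (y : F),
    (φ (algebraMap F K y)).im = 0) (hK : IsTotallyComplex K) :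
    ∃ τ : K ≃ₐ[F] K, (∀ x, τ (τ x) = x) ∧
      (∀ (φ : K →+* ℂ) (x : K), φ (τ x) = (starRingEnd ℂ) (φ x)) ∧
      ∀ x, τ x = x → ∃ y : F, algebraMap F K y = x := by
  have hq : Algebra.IsQuadraticExtension F K := ⟨h2⟩
  have hcard : Nat.card (K ≃ₐ[F] K) = 2 := h2 ▸ IsGalois.card_aut_eq_finrank F K
  have hex : ∀ φ : K →+* ℂ, ∃ σ : K ≃ₐ[F] K, ComplexEmbedding.IsConj φ σ := by
    intro φ
    refine InfinitePlace.exists_isConj_of_isRamified (k := F) (φ := φ) ?_
    rw [InfinitePlace.isRamified_iff]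
    refine ⟨hK.isComplex _, ?_⟩
    rw [InfinitePlace.comap_mk, InfinitePlace.isReal_mk_iff, ComplexEmbedding.isReal_iff]
    refine RingHom.ext fun y => ?_
    exact Complex.conj_eq_iff_im.2 (hF φ y)
  have huniq := (Nat.card_eq_two_iff' (1 : K ≃ₐ[F] K)).1 hcard
  obtain ⟨τ, hτ1, hτ⟩ := huniq
  have hconj : ∀ φ : K →+* ℂ, ComplexEmbedding.IsConj φ τ := by
    intro φ
    obtain ⟨σ, hσ⟩ := hex φ
    have h3 : σ ≠ 1 := (ComplexEmbedding.isConj_ne_one_iff hσ).2
      (IsTotallyComplex.complexEmbedding_not_isReal φ)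
    rw [← hτ σ h3]
    exact hσ
  refine ⟨τ, fun x => ?_, fun φ x => (hconj φ).eq x, fun x hx => ?_⟩
  · have h3 : τ * τ = 1 := by
      by_contra h4
      have h5 := hτ _ h4
      exact hτ1 (mul_eq_left.1 h5)
    exact AlgEquiv.congr_fun h3 x
  · have h3 := (IsGalois.mem_range_algebraMap_iff_fixed (F := F) x).2 (fun σ => by
      by_cases h4 : σ = 1
      · rw [h4, AlgEquiv.one_apply]
      · rw [hτ σ h4, hx])
    exact h3

end Pool.Agent.Lib.MP_673eb1_lc.HF
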