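import Pool.Agent.Lib.MP_673eb1_lc.HFa

/-!
MP_673eb1_lc, module CMUnit: a unit of infinite order and norm one in `PR D ℤ`.
-/

set_option autoImplicit false

open NumberField

namespace Pool.Agent.Lib.MP_673eb1_lc.HF

variable {h f : ℕ} [Fact h.Prime] (D : PerData h f)

/-- There are two different infinite places. -/
private theorem cmu_places {L : Type} [Field L] [NumberField L] (θ : PR D ℚ ≃+* L) :
    ∃ w₁ w₂ : InfinitePlace L, w₂ ≠ w₁ := by
  let ψ : ZMod h → (L →+* ℂ) := fun k =>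
    (evC D (Rat.castHom ℂ) k).comp (θ.symm : L →+* PR D ℚ)
  have hψ : ∀ k, ψ k (θ (PR.e D 0)) = (D.η k : ℂ) := by
    intro k
    change evC D _ k (θ.symm (θ _)) = _
    rw [RingEquiv.symm_apply_apply, evC_e, zero_add]
  refine ⟨InfinitePlace.mk (ψ 0), InfinitePlace.mk (ψ 1), fun h1 => ?_⟩
  rw [InfinitePlace.mk_eq_iff] at h1
  have h2 : (D.η 1 : ℂ) = D.η 0 := by
    rcases h1 with h1 | h1
    · rw [← hψ, ← hψ, h1]
    · rw [← hψ 0, ← h1]
      change _ = (starRingEnd ℂ) (ψ 1 _)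
      rw [hψ, Complex.conj_ofReal]
  have h3 := eta_inj D (Complex.ofReal_injective h2)
  have : Fact (1 < h) := ⟨(Fact.out : h.Prime).one_lt⟩
  exact one_ne_zero h3

/-- A unit of infinite order. -/
private theorem cmu_eps {L : Type} [Field L] [NumberField L] (θ : PR D ℚ ≃+* L) :
    ∃ ε : (𝓞 L)ˣ, ∀ n : ℕ, 0 < n → ε ^ n ≠ 1 := by
  obtain ⟨w₁, w₂, hw⟩ := cmu_places D θ
  obtain ⟨ε, hε⟩ := Units.dirichletUnitTheorem.exists_unit L w₁
  refine ⟨ε, fun n hn h1 => ?_⟩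
  have h2 := hε w₂ hw
  have h3 : w₂ ((ε : 𝓞 L) : L) ^ n = 1 := by
    rw [← map_pow, ← Units.coe_pow, h1]
    simp
  have h4 := congrArg Real.log h3
  rw [Real.log_pow, Real.log_one] at h4
  have h5 : (n : ℝ) ≠ 0 := by exact_mod_cast hn.ne'
  rcases mul_eq_zero.1 h4 with h6 | h6
  · exact h5 h6
  · rw [h6] at h2
    exact lt_irrefl _ h2

private theorem cmu_intmul (r : ℤ) (x : PR D ℚ) (c : ZMod h) :
    ((r : PR D ℚ) * x) c = r * x c := by
  have h1 : (r : PR D ℚ) = algebraMap ℚ (PR D ℚ) r := (map_intCast _ r).symm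
  rw [h1, ← Algebra.smul_def, PR.smul_apply]

/-- A common denominator. -/
private theorem cmu_den {L : Type} [Field L] [NumberField L] (θ : PR D ℚ ≃+* L) :
    ∃ m : ℕ, 0 < m ∧ ∀ x : 𝓞 L, ∀ c, ∃ z : ℤ, (z : ℚ) = m * (θ.symm (x : L)) c := by
  obtain ⟨S, hS⟩ := (Module.Finite.fg_top : (⊤ : Submodule ℤ (𝓞 L)).FG)
  refine ⟨∏ x ∈ S, ∏ c, ((θ.symm ((x : 𝓞 L) : L)) c).den,
    Finset.prod_pos fun x _ => Finset.prod_pos fun c _ => Rat.den_pos _, fun x => ?_⟩
  set m := ∏ x ∈ S, ∏ c, ((θ.symm ((x : 𝓞 L) : L)) c).den with hm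
  have hx : x ∈ Submodule.span ℤ (S : Set (𝓞 L)) := by
    rw [hS]
    exact Submodule.mem_top
  induction hx using Submodule.span_induction with
  | mem x hx =>
    intro c
    have h1 : ((θ.symm (x : L)) c).den ∣ m := by
      rw [hm]
      exact (Finset.dvd_prod_of_mem (fun c => ((θ.symm (x : L)) c).den)
        (Finset.mem_univ c)).trans
          (Finset.dvd_prod_of_mem (fun x : 𝓞 L => ∏ c, ((θ.symm (x : L)) c).den) hx)
    obtain ⟨k, hk⟩ := h1
    refine ⟨k * ((θ.symm (x : L)) c).num, ?_⟩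
    rw [hk]
    push_cast
    have h2 := Rat.mul_den_eq_num ((θ.symm (x : L)) c)
    rw [← h2]
    ring
  | zero =>
    intro c
    refine ⟨0, ?_⟩
    simp
  | add x y _ _ hx hy =>
    intro c
    obtain ⟨a, ha⟩ := hx c
    obtain ⟨b, hb⟩ := hy c
    refine ⟨a + b, ?_⟩
    push_cast
    rw [map_add, PR.add_apply, ha, hb]
    ring
  | smul r x _ hx =>
    intro c
    obtain ⟨a, ha⟩ := hx c
    refine ⟨r * a, ?_⟩
    rw [Int.cast_mul, ha]
    have h1 : ((r • x : 𝓞 L) : L) = (r : L) * (x : L) := by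
      rw [zsmul_eq_mul]
      push_cast
      rfl
    rw [h1, map_mul, map_intCast, cmu_intmul]
    ring

private theorem cmu_map_inj : Function.Injective (PR.map D (Int.castRingHom ℚ)) := by
  intro x y hxy
  ext c
  have := congrFun hxy c
  have h1 : ((x c : ℤ) : ℚ) = (y c : ℤ) := this
  exact_mod_cast h1

/-- The main argument. -/
private theorem cmu_main {L : Type} [Field L] [NumberField L] (θ : PR D ℚ ≃+* L) :
    ∃ u : PR D ℤ, PR.nrm D u = 1 ∧ ∀ n : ℕ, 0 < n → u ^ n ≠ 1 := by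
  obtain ⟨ε, hε⟩ := cmu_eps D θ
  obtain ⟨m, hm, hden⟩ := cmu_den D θ
  have hrep : ∀ x : 𝓞 L, x - 1 ∈ Ideal.span {(m : 𝓞 L)} →
      ∃ a : PR D ℤ, PR.map D (Int.castRingHom ℚ) a = θ.symm (x : L) := by
    intro x hx
    rw [Ideal.mem_span_singleton'] at hx
    obtain ⟨y, hy⟩ := hx
    choose z hz using hden y
    let z' : PR D ℤ := fun c => z c
    refine ⟨1 + z', ?_⟩
    rw [map_add, map_one]
    have h1 : (x : L) = 1 + (y : L) * (m : L) := by
      have := congrArg (fun t : 𝓞 L => (t : L)) hy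
      push_cast at this
      rw [this]
      ring
    rw [h1, map_add, map_one, map_mul, map_natCast]
    congr 1
    ext c
    change ((z c : ℤ) : ℚ) = _
    rw [hz, mul_comm (θ.symm (y : L))]
    have h2 := cmu_intmul D m (θ.symm (y : L)) c
    push_cast at h2
    exact h2.symm
  have hI : Ideal.span {(m : 𝓞 L)} ≠ ⊥ := by
    rw [Ne, Ideal.span_singleton_eq_bot]
    exact_mod_cast hm.ne'
  have hfin : Finite (𝓞 L ⧸ Ideal.span {(m : 𝓞 L)}) := Ideal.finiteQuotientOfFreeOfNeBot _ hI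
  obtain ⟨k, hk, hk1⟩ := (isOfFinOrder_of_finite
    (Units.map (Ideal.Quotient.mk (Ideal.span {(m : 𝓞 L)})).toMonoidHom ε)).exists_pow_eq_one
  have h1 : ∀ e : (𝓞 L)ˣ, Units.map (Ideal.Quotient.mk (Ideal.span {(m : 𝓞 L)})).toMonoidHom e = 1 →
      ∃ a : PR D ℤ, PR.map D (Int.castRingHom ℚ) a = θ.symm ((e : 𝓞 L) : L) := by
    intro e he
    apply hrep
    rw [← Ideal.Quotient.eq_zero_iff_mem, map_sub, map_one, sub_eq_zero]
    exact congrArg Units.val he
  obtain ⟨a, ha⟩ := h1 (ε ^ k) (by rw [map_pow, hk1])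
  obtain ⟨b, hb⟩ := h1 (ε ^ k)⁻¹ (by rw [map_inv, map_pow, hk1, inv_one])
  have hab : a * b = 1 := by
    apply cmu_map_inj D
    rw [map_mul, ha, hb, ← map_mul, map_one]
    have h2 : (((ε ^ k : (𝓞 L)ˣ) : 𝓞 L) : L) * ((((ε ^ k)⁻¹ : (𝓞 L)ˣ) : 𝓞 L) : L) = 1 := by
      have h3 : ((ε ^ k : (𝓞 L)ˣ) : 𝓞 L) * (((ε ^ k)⁻¹ : (𝓞 L)ˣ) : 𝓞 L) = 1 := Units.mul_inv _
      exact congrArg (fun t : 𝓞 L => (t : L)) h3
    rw [h2, map_one]
  have hs := PR.nrm_eq D a
  have ht := PR.nrm_eq D b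
  set s := -(PR.nrm D a) 0
  set t := -(PR.nrm D b) 0
  have hst : s * t = 1 := by
    have h2 : PR.nrm D (a * b) = 1 := by rw [hab, PR.nrm_one]
    rw [PR.nrm_mul, hs, ht, ← map_mul] at h2
    have h3 := congrFun h2 0
    have h4 : -(s * t) = -1 := by
      rw [← PR.algebraMap_apply D (s * t) 0]
      exact h3
    omega
  have hss : s * s = 1 := by
    rcases Int.eq_one_or_neg_one_of_mul_eq_one hst with h2 | h2 <;> rw [h2] <;> norm_num
  refine ⟨a * a, ?_, fun n hn h2 => ?_⟩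
  · rw [PR.nrm_mul, hs, ← map_mul, hss, map_one]
  · have h3 := congrArg (PR.map D (Int.castRingHom ℚ)) h2
    rw [map_pow, map_mul, ha, map_one, ← map_mul, ← map_pow] at h3
    have h4 : (((ε ^ k : (𝓞 L)ˣ) : 𝓞 L) : L) * (((ε ^ k : (𝓞 L)ˣ) : 𝓞 L) : L) = 
        (((ε ^ (k + k) : (𝓞 L)ˣ) : 𝓞 L) : L) := by
      rw [pow_add]
      push_cast
      rfl
    rw [h4] at h3
    have h5 : (((ε ^ (k + k) : (𝓞 L)ˣ) : 𝓞 L) : L) ^ n = 1 := by
      apply θ.symm.injective
      rw [h3, map_one]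
    have h6 : ε ^ ((k + k) * n) = 1 := by
      apply Units.ext
      apply RingOfIntegers.ext
      rw [pow_mul]
      push_cast at h5 ⊢
      exact h5
    exact hε _ (Nat.mul_pos (by omega) hn) h6

private theorem cmu_nf {L : Type} [Field L] (θ : PR D ℚ ≃+* L) : NumberField L := by
  have hfd : Module.Finite ℚ (PR D ℚ) := inferInstanceAs (Module.Finite ℚ (ZMod h → ℚ))
  have hch : CharZero L :=
    charZero_of_injective_ringHom (f := (θ : PR D ℚ →+* L).comp
      (algebraMap ℚ (PR D ℚ))) (RingHom.injective _)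
  have hfd2 : FiniteDimensional ℚ L :=
    Module.Finite.of_surjective
      ((θ : PR D ℚ →+* L).toRatAlgHom.toLinearMap) θ.surjective
  exact ⟨⟩

/-- PROOF. `L = PR D ℚ` is a field (`hfield`), a number field of degree `h`, which has a real embedding
and at least `2` infinite places (all the `h ≥ 3` embeddings `evC D _ k` are real: `x ↦ ∑ x_c η_(c+k)`),
so its unit rank is `≥ 1` and there is a unit `ε` of `𝓞 L` of infinite order (Dirichlet:
`NumberField.Units.rank`, `NumberField.Units.fundSystem`, or `dirichletUnitTheorem.exists_unit`). The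
order `A = PR D ℤ` (elements with integral coordinates) satisfies `m 𝓞 L ⊆ A` for some `m > 0` (clear the
denominators of the coordinates of a `ℤ`-basis of `𝓞 L`); `(𝓞 L / m)` is finite, so `ε^k ≡ 1 mod m` for some
`k > 0` and `ε^k ∈ A`, `ε^(-k) ∈ A`. The norm `PR.nrm (ε^k) = ± 1` (an integer, unit), so `u = ε^(2k)`. -/
theorem exists_unit (hfield : IsField (PR D ℚ)) :
    ∃ u : PR D ℤ, PR.nrm D u = 1 ∧ ∀ n : ℕ, 0 < n → u ^ n ≠ 1 := by
  have hdom : IsDomain (PR D ℚ) := hfield.isDomain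
  let θ : PR D ℚ ≃+* FractionRing (PR D ℚ) :=
    RingEquiv.ofBijective (algebraMap (PR D ℚ) (FractionRing (PR D ℚ)))
      ⟨IsFractionRing.injective _ _, IsFractionRing.surjective_iff_isField.2 hfield⟩
  have hnf : NumberField (FractionRing (PR D ℚ)) := cmu_nf D θ
  exact cmu_main D θ

end Pool.Agent.Lib.MP_673eb1_lc.HF
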