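import Mathlib

/-!
MP_673eb1_lc (Diophantine definition of the integers over rings of W-integers): definitions.

The complete mathematical text is the note `[R2] [PROOF]` of helper83 on MP_673eb1_lc.

* `PerData h f`: the Gaussian periods `e_c`, `c : ZMod h`, of degree `h` for a prime `f = 1 mod h`.
* `PR D S`: the ring `S ⊗ ℤ[e_c]`, as functions `ZMod h → S` (coordinates in the `e_c`).
* `QR D S a`: the ring `(PR D S)[√a]`.
-/

set_option autoImplicit false

open NumberField IsDedekindDomain
open scoped BigOperators

namespace Pool.Agent.Lib.MP_673eb1_lc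

variable {h f : ℕ}

/-- Gaussian periods: `η c` (`c : ZMod h`) are the `h` Gaussian periods of degree `h` of the prime `f`
(real numbers); `m` are the structure constants of the ring they span; `ind n` is the index modulo `h`
of `n` modulo `f` (so `ind n = 0` iff `n` is an `h`-th power modulo `f`). -/
structure PerData (h f : ℕ) [Fact h.Prime] where
  /-- `h` is odd -/
  hodd : h ≠ 2
  /-- `f` is a prime -/
  hf : f.Prime
  /-- `f = 1 mod h` -/
  hfh : f % h = 1
  /-- the structure constants -/
  m : ZMod h → ZMod h → ZMod h → ℤ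
  /-- the periods -/
  η : ZMod h → ℝ
  indep : LinearIndependent ℚ η
  sum_η : ∑ c, η c = -1
  mul_η : ∀ c c', η c * η c' = ∑ k, (m c c' k : ℝ) * η k
  shift : ∀ c c' k, m (c + 1) (c' + 1) (k + 1) = m c c' k
  /-- the index -/
  ind : ℕ → ZMod h
  ind_mul : ∀ a b : ℕ, a.Coprime f → b.Coprime f → ind (a * b) = ind a + ind b
  ind_mod : ∀ a b : ℕ, a % f = b % f → ind a = ind b
  ind_zero : ∀ a : ℕ, a.Coprime f → (ind a = 0 ↔ ∃ b : ℕ, b ^ h % f = a % f)
  ind_surj : ∃ a : ℕ, a.Coprime f ∧ ind a = 1
  /-- Frobenius -/
  frob : ∀ p : ℕ, p.Prime → p ≠ f → ∀ c, ∃ d : ZMod h → ℤ,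
    η c ^ p = η (c + ind p) + p * ∑ k, (d k : ℝ) * η k

/-- The ring `S ⊗ ℤ[e_c : c]`: functions `ZMod h → S`, the coordinates in the basis `e_c`. -/
def PR [Fact h.Prime] (_D : PerData h f) (S : Type*) : Type _ := ZMod h → S

namespace PR

variable [Fact h.Prime] (D : PerData h f) {S : Type*} [CommRing S]

omit [CommRing S] in
@[ext] theorem ext {x y : PR D S} (hxy : ∀ c, x c = y c) : x = y := funext hxy

instance : AddCommGroup (PR D S) := inferInstanceAs (AddCommGroup (ZMod h → S))

instance : Module S (PR D S) := inferInstanceAs (Module S (ZMod h → S))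

instance : One (PR D S) := ⟨fun _ => -1⟩

instance : Mul (PR D S) := ⟨fun x y k => ∑ c, ∑ c', (D.m c c' k : S) * x c * y c'⟩

@[simp] theorem add_apply (x y : PR D S) (c : ZMod h) : (x + y) c = x c + y c := rfl
@[simp] theorem zero_apply (c : ZMod h) : (0 : PR D S) c = 0 := rfl
@[simp] theorem neg_apply (x : PR D S) (c : ZMod h) : (-x) c = -x c := rfl
@[simp] theorem sub_apply (x y : PR D S) (c : ZMod h) : (x - y) c = x c - y c := rfl
@[simp] theorem smul_apply (s : S) (x : PR D S) (c : ZMod h) : (s • x) c = s * x c := rfl
@[simp] theorem one_apply (c : ZMod h) : (1 : PR D S) c = -1 := rfl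
theorem mul_apply (x y : PR D S) (k : ZMod h) :
    (x * y) k = ∑ c, ∑ c', (D.m c c' k : S) * x c * y c' := rfl

omit [CommRing S] in
theorem int_eq_of_sum (u v : ZMod h → ℤ)
    (huv : ∑ k, (u k : ℝ) * D.η k = ∑ k, (v k : ℝ) * D.η k) : u = v := by
  have h1 : ∑ k, ((u k : ℚ) - (v k : ℚ)) • D.η k = 0 := by
    have : ∑ k, ((u k : ℚ) - (v k : ℚ)) • D.η k
        = ∑ k, (u k : ℝ) * D.η k - ∑ k, (v k : ℝ) * D.η k := by
      rw [← Finset.sum_sub_distrib]
      refine Finset.sum_congr rfl fun k _ => ?_
      rw [Rat.smul_def]
      push_cast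
      ring
    rw [this, huv, sub_self]
  have h2 := Fintype.linearIndependent_iff.1 D.indep _ h1
  funext k
  have := h2 k
  have h3 : (u k : ℚ) = (v k : ℚ) := by linarith
  exact_mod_cast h3

theorem m_comm (c c' k : ZMod h) : D.m c c' k = D.m c' c k := by
  have := int_eq_of_sum D (D.m c c') (D.m c' c) (by rw [← D.mul_η, ← D.mul_η, mul_comm])
  exact congrFun this k

theorem m_assoc (a b c k : ZMod h) :
    ∑ j, D.m a b j * D.m j c k = ∑ j, D.m b c j * D.m a j k := by
  have := int_eq_of_sum D (fun k => ∑ j, D.m a b j * D.m j c k)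
    (fun k => ∑ j, D.m b c j * D.m a j k) (by
      have e1 : ∑ k, ((∑ j, D.m a b j * D.m j c k : ℤ) : ℝ) * D.η k = (D.η a * D.η b) * D.η c := by
        rw [D.mul_η a b, Finset.sum_mul]
        have : ∀ j, (D.m a b j : ℝ) * D.η j * D.η c
            = ∑ k, (D.m a b j : ℝ) * ((D.m j c k : ℝ) * D.η k) := by
          intro j
          rw [mul_assoc, D.mul_η j c, Finset.mul_sum]
        simp_rw [this]
        rw [Finset.sum_comm]
        refine Finset.sum_congr rfl fun k _ => ?_
        push_cast
        rw [Finset.sum_mul]
        refine Finset.sum_congr rfl fun j _ => ?_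
        ring
      have e2 : ∑ k, ((∑ j, D.m b c j * D.m a j k : ℤ) : ℝ) * D.η k = D.η a * (D.η b * D.η c) := by
        rw [D.mul_η b c, Finset.mul_sum]
        have : ∀ j, D.η a * ((D.m b c j : ℝ) * D.η j)
            = ∑ k, (D.m b c j : ℝ) * ((D.m a j k : ℝ) * D.η k) := by
          intro j
          rw [← Finset.mul_sum, ← D.mul_η a j]
          ring
        simp_rw [this]
        rw [Finset.sum_comm]
        refine Finset.sum_congr rfl fun k _ => ?_
        push_cast
        rw [Finset.sum_mul]
        refine Finset.sum_congr rfl fun j _ => ?_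
        ring
      rw [e1, e2, mul_assoc])
  exact congrFun this k

theorem m_one (c' k : ZMod h) : ∑ c, D.m c c' k = if c' = k then -1 else 0 := by
  have := int_eq_of_sum D (fun k => ∑ c, D.m c c' k) (fun k => if c' = k then -1 else 0) (by
    have e1 : ∑ k, ((∑ c, D.m c c' k : ℤ) : ℝ) * D.η k = (∑ c, D.η c) * D.η c' := by
      rw [Finset.sum_mul]
      simp_rw [D.mul_η _ c']
      rw [Finset.sum_comm]
      refine Finset.sum_congr rfl fun k _ => ?_
      push_cast
      rw [Finset.sum_mul]
    rw [e1, D.sum_η]
    simp)
  exact congrFun this k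

theorem sum_swap3 (F : ZMod h → ZMod h → ZMod h → S) :
    ∑ a, ∑ b, ∑ c, F a b c = ∑ b, ∑ c, ∑ a, F a b c := by
  rw [Finset.sum_comm]
  exact Finset.sum_congr rfl fun b _ => Finset.sum_comm

instance : CommRing (PR D S) :=
  { (inferInstance : AddCommGroup (PR D S)) with
    mul := (· * ·)
    one := 1
    left_distrib := fun x y z => by
      ext k
      simp only [mul_apply, add_apply, mul_add, Finset.sum_add_distrib]
    right_distrib := fun x y z => by
      ext k
      simp only [mul_apply, add_apply, mul_add, add_mul, Finset.sum_add_distrib]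
    zero_mul := fun x => by
      ext k
      simp [mul_apply]
    mul_zero := fun x => by
      ext k
      simp [mul_apply]
    mul_assoc := fun x y z => by
      ext k
      have e1 : (x * y * z) k = ∑ a, ∑ b, ∑ c, ((∑ j, D.m a b j * D.m j c k : ℤ) : S)
          * (x a * y b * z c) := by
        rw [mul_apply]
        have : ∀ j c, (D.m j c k : S) * (x * y) j * z c
            = ∑ a, ∑ b, ((D.m a b j * D.m j c k : ℤ) : S) * (x a * y b * z c) := by
          intro j c
          rw [mul_apply, Finset.mul_sum, Finset.sum_mul]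
          refine Finset.sum_congr rfl fun a _ => ?_
          rw [Finset.mul_sum, Finset.sum_mul]
          refine Finset.sum_congr rfl fun b _ => ?_
          push_cast
          ring
        simp_rw [this]
        have e2 : ∀ a b c, ((∑ j, D.m a b j * D.m j c k : ℤ) : S) * (x a * y b * z c)
            = ∑ j, ((D.m a b j * D.m j c k : ℤ) : S) * (x a * y b * z c) := by
          intro a b c
          rw [← Finset.sum_mul]
          push_cast
          rfl
        simp_rw [e2]
        -- move the sums
        calc _ = ∑ c, ∑ j, ∑ a, ∑ b, ((D.m a b j * D.m j c k : ℤ) : S) * (x a * y b * z c) :=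
              Finset.sum_comm
          _ = ∑ c, ∑ a, ∑ j, ∑ b, ((D.m a b j * D.m j c k : ℤ) : S) * (x a * y b * z c) :=
              Finset.sum_congr rfl fun c _ => Finset.sum_comm
          _ = ∑ c, ∑ a, ∑ b, ∑ j, ((D.m a b j * D.m j c k : ℤ) : S) * (x a * y b * z c) :=
              Finset.sum_congr rfl fun c _ => Finset.sum_congr rfl fun a _ => Finset.sum_comm
          _ = ∑ a, ∑ c, ∑ b, ∑ j, ((D.m a b j * D.m j c k : ℤ) : S) * (x a * y b * z c) :=
              Finset.sum_comm
          _ = _ := Finset.sum_congr rfl fun a _ => Finset.sum_comm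
      have e3 : (x * (y * z)) k = ∑ a, ∑ b, ∑ c, ((∑ j, D.m b c j * D.m a j k : ℤ) : S)
          * (x a * y b * z c) := by
        rw [mul_apply]
        have : ∀ a j, (D.m a j k : S) * x a * (y * z) j
            = ∑ b, ∑ c, ((D.m b c j * D.m a j k : ℤ) : S) * (x a * y b * z c) := by
          intro a j
          rw [mul_apply, Finset.mul_sum]
          refine Finset.sum_congr rfl fun b _ => ?_
          rw [Finset.mul_sum]
          refine Finset.sum_congr rfl fun c _ => ?_
          push_cast
          ring
        simp_rw [this]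
        have e2 : ∀ a b c, ((∑ j, D.m b c j * D.m a j k : ℤ) : S) * (x a * y b * z c)
            = ∑ j, ((D.m b c j * D.m a j k : ℤ) : S) * (x a * y b * z c) := by
          intro a b c
          rw [← Finset.sum_mul]
          push_cast
          rfl
        simp_rw [e2]
        calc _ = ∑ a, ∑ b, ∑ j, ∑ c, ((D.m b c j * D.m a j k : ℤ) : S) * (x a * y b * z c) :=
              Finset.sum_congr rfl fun a _ => Finset.sum_comm
          _ = _ := Finset.sum_congr rfl fun a _ => Finset.sum_congr rfl fun b _ => Finset.sum_comm
      rw [e1, e3]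
      simp_rw [m_assoc]
    one_mul := fun x => by
      ext k
      rw [mul_apply, Finset.sum_comm]
      have : ∀ c', ∑ c, (D.m c c' k : S) * (1 : PR D S) c * x c'
          = (if c' = k then (1 : S) else 0) * x c' := by
        intro c'
        rw [← Finset.sum_mul]
        congr 1
        simp only [one_apply, mul_neg, mul_one, Finset.sum_neg_distrib]
        have h1 := m_one D c' k
        have h2 : (∑ c, (D.m c c' k : S)) = ((if c' = k then -1 else 0 : ℤ) : S) := by
          rw [← h1]
          push_cast
          rfl
        rw [h2]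
        split_ifs <;> simp
      simp_rw [this]
      simp
    mul_one := fun x => by
      ext k
      rw [mul_apply]
      have : ∀ c, ∑ c', (D.m c c' k : S) * x c * (1 : PR D S) c'
          = (if c = k then (1 : S) else 0) * x c := by
        intro c
        simp only [one_apply, mul_neg, mul_one, Finset.sum_neg_distrib]
        rw [← Finset.sum_mul]
        have h1 := m_one D c k
        have h2 : (∑ c', (D.m c c' k : S)) = ((if c = k then -1 else 0 : ℤ) : S) := by
          rw [← h1]
          push_cast
          exact Finset.sum_congr rfl fun c' _ => by rw [m_comm]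
        rw [h2]
        split_ifs <;> simp
      simp_rw [this]
      simp
    mul_comm := fun x y => by
      ext k
      rw [mul_apply, mul_apply, Finset.sum_comm]
      refine Finset.sum_congr rfl fun c _ => Finset.sum_congr rfl fun c' _ => ?_
      rw [m_comm]
      ring }

instance : Algebra S (PR D S) :=
  Algebra.ofModule
    (fun r x y => by
      ext k
      rw [smul_apply, mul_apply, mul_apply, Finset.mul_sum]
      refine Finset.sum_congr rfl fun c _ => ?_
      rw [Finset.mul_sum]
      refine Finset.sum_congr rfl fun c' _ => ?_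
      rw [smul_apply]
      ring)
    (fun r x y => by
      ext k
      rw [smul_apply, mul_apply, mul_apply, Finset.mul_sum]
      refine Finset.sum_congr rfl fun c _ => ?_
      rw [Finset.mul_sum]
      refine Finset.sum_congr rfl fun c' _ => ?_
      rw [smul_apply]
      ring)

@[simp] theorem algebraMap_apply (r : S) (c : ZMod h) : (algebraMap S (PR D S) r) c = -r := by
  rw [Algebra.algebraMap_eq_smul_one, smul_apply, one_apply, mul_neg, mul_one]

/-- The basis element `e_c`. -/
def e (c : ZMod h) : PR D S := fun k => if k = c then 1 else 0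

@[simp] theorem e_apply (c k : ZMod h) : (e D c : PR D S) k = if k = c then 1 else 0 := rfl

/-- Base change. -/
def map {S' : Type*} [CommRing S'] (φ : S →+* S') : PR D S →+* PR D S' where
  toFun x := fun c => φ (x c)
  map_one' := by
    ext c
    change φ ((1 : PR D S) c) = (1 : PR D S') c
    simp
  map_zero' := by
    ext c
    change φ ((0 : PR D S) c) = (0 : PR D S') c
    simp
  map_add' x y := by
    ext c
    change φ ((x + y) c) = φ (x c) + φ (y c)
    simp
  map_mul' x y := by
    ext k
    change φ ((x * y) k) = _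
    rw [mul_apply, mul_apply, map_sum]
    refine Finset.sum_congr rfl fun c _ => ?_
    rw [map_sum]
    refine Finset.sum_congr rfl fun c' _ => ?_
    simp

@[simp] theorem map_apply {S' : Type*} [CommRing S'] (φ : S →+* S') (x : PR D S) (c : ZMod h) :
    map D φ x c = φ (x c) := rfl

/-- The automorphism `σ`, `σ e_c = e_{c+1}`. -/
def sh : PR D S ≃+* PR D S where
  toFun x := fun c => x (c - 1)
  invFun x := fun c => x (c + 1)
  left_inv x := by
    ext c
    change x (c + 1 - 1) = x c
    rw [add_sub_cancel_right]
  right_inv x := by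
    ext c
    change x (c - 1 + 1) = x c
    rw [sub_add_cancel]
  map_add' x y := rfl
  map_mul' x y := by
    ext k
    rw [mul_apply, mul_apply, ← (Equiv.subRight (1 : ZMod h)).sum_comp]
    refine Finset.sum_congr rfl fun c _ => ?_
    rw [← (Equiv.subRight (1 : ZMod h)).sum_comp]
    refine Finset.sum_congr rfl fun c' _ => ?_
    have := D.shift (c - 1) (c' - 1) (k - 1)
    rw [sub_add_cancel, sub_add_cancel, sub_add_cancel] at this
    rw [this]
    rfl

@[simp] theorem sh_apply (x : PR D S) (c : ZMod h) : sh D x c = x (c - 1) := rfl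

@[simp] theorem sh_symm_apply (x : PR D S) (c : ZMod h) : (sh D).symm x c = x (c + 1) := rfl

end PR

section QR

variable [Fact h.Prime] (D : PerData h f) {S : Type*} [CommRing S]

/-- The ring `(PR D S)[√a]`: pairs `re + im √a`. -/
abbrev QR (a : S) : Type _ := QuadraticAlgebra (PR D S) (algebraMap S (PR D S) a) 0

namespace QR

variable (a : S)

/-- `σ` on `QR`: `σ e_c = e_{c+1}`, `σ √a = √a`. -/
def sg : QR D a ≃+* QR D a where
  toFun y := ⟨PR.sh D y.re, PR.sh D y.im⟩
  invFun y := ⟨(PR.sh D).symm y.re, (PR.sh D).symm y.im⟩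
  left_inv y := by ext <;> simp
  right_inv y := by ext <;> simp
  map_add' x y := by ext <;> simp
  map_mul' x y := by
    have ha : PR.sh D (algebraMap S (PR D S) a) = algebraMap S (PR D S) a := by
      ext c
      simp
    ext : 1 <;> simp [ha]

/-- Base change. -/
def map {S' : Type*} [CommRing S'] (φ : S →+* S') : QR D a →+* QR D (φ a) where
  toFun y := ⟨PR.map D φ y.re, PR.map D φ y.im⟩
  map_one' := by
    refine QuadraticAlgebra.ext ?_ ?_
    · change PR.map D φ 1 = 1
      exact map_one _
    · change PR.map D φ 0 = 0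
      exact map_zero _
  map_zero' := by
    refine QuadraticAlgebra.ext ?_ ?_
    · change PR.map D φ 0 = 0
      exact map_zero _
    · change PR.map D φ 0 = 0
      exact map_zero _
  map_add' x y := by ext : 1 <;> simp
  map_mul' x y := by
    have ha : PR.map D φ (algebraMap S (PR D S) a) = algebraMap S' (PR D S') (φ a) := by
      ext c
      simp
    ext : 1 <;> simp [ha]

/-- The two torus equations: `y * star y = 1` (`star` is `ι : √a ↦ -√a`) and
`∏_{i<h} σ^i y = 1`. -/
def IsT (y : QR D a) : Prop := y * star y = 1 ∧ ∏ i ∈ Finset.range h, (sg D a)^[i] y = 1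

end QR

end QR

end Pool.Agent.Lib.MP_673eb1_lc
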