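import Pool.Agent.Lib.MP_673eb1_lc.DefsHF
import Pool.Agent.Lib.ZT.Defs

/-!
MP_673eb1_lc: definitions for the CM step. `K` is a CM field, `F` its totally real subfield.
-/

set_option autoImplicit false

open NumberField IsDedekindDomain Pool.Agent.ZD

namespace Pool.Agent.Lib.MP_673eb1_lc.HF

variable {h f : ℕ} [Fact h.Prime] (D : PerData h f) {K : Type} [Field K] [NumberField K]

/-- Points over `R` of the norm one torus of `K(periods)/K` which are integral at the primes of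
`Tp`. -/
def UT (R : Subring K) (Tp : Set (HeightOneSpectrum (𝓞 K))) (u : PR D K) : Prop :=
  (∀ k, u k ∈ R) ∧ PR.nrm D u = 1 ∧ ∀ v ∈ Tp, ∀ k, v.valuation K (u k) ≤ 1

/-- The set `V` of the CM step: `ℤ ⊆ V ⊆ F`. -/
def SetV (R : Subring K) (Tp : Set (HeightOneSpectrum (𝓞 K))) (g c C p₀ : ℕ) : Set K :=
  {t | t ∈ R ∧ ∃ u b w : PR D K, UT D R Tp u ∧ UT D R Tp b ∧ UT D R Tp w ∧ u ^ c ≠ 1 ∧ b ^ c ≠ 1 ∧
    ∃ D₀ : K, algebraMap K (PR D K) D₀ = PR.nrm D (u ^ c - 1) ∧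
      (∃ r ∈ R, D₀ = (p₀ : K) ^ C * r) ∧
      (∀ j ∈ Finset.range (Module.finrank ℚ K + 1), ∃ r ∈ R, D₀ = Df D g (t - (j : K)) ^ 4 * r) ∧
      ∃ s : PR D K, (∀ k, s k ∈ R) ∧
        w ^ c - 1 - t • (b ^ c - 1) = D₀ • ((b ^ c - 1) * s)}

end Pool.Agent.Lib.MP_673eb1_lc.HF
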