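import Pool.Agent.Lib.MP_673eb1_lc.TRDef

/-!
MP_673eb1_lc: the norm `PR.nrm`, the height form `Df`, the size `numH`.
-/

set_option autoImplicit false

open NumberField IsDedekindDomain Pool.Agent.ZD

namespace Pool.Agent.Lib.MP_673eb1_lc.HF

variable {h f : ℕ} [Fact h.Prime] (D : PerData h f)

/-- The product of the conjugates. -/
def PR.nrm {S : Type*} [CommRing S] (x : PR D S) : PR D S :=
  ∏ i ∈ Finset.range h, (PR.sh D)^[i] x

/-- The height form: the value in `S` of `∏ σ^i ((x - e_0)² + g)` (an element of `S`, its coordinates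
in the `e_c` are all equal to `-` its value). -/
def Df {S : Type*} [CommRing S] (g : ℕ) (x : S) : S :=
  -(PR.nrm D ((algebraMap S (PR D S) x - PR.e D 0) ^ 2 + (g : PR D S))) 0

/-- `∏_{v | ∞} |y|_v * ∏_{v finite} max 1 |y|_v`; for `y ≠ 0` this is the norm of the numerator ideal
of `y`, by the product formula. -/
noncomputable def numH {K : Type} [Field K] [NumberField K] (y : K) : ℝ :=
  (∏ v : InfinitePlace K, v y ^ v.mult) * ∏ᶠ v : FinitePlace K, max (v y) 1

end Pool.Agent.Lib.MP_673eb1_lc.HF
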