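import Pool.Agent.Lib.MP_673eb1_lc.PDC

/-!
MP_673eb1_lc, block PD, file D (helper31): existence of inert primes, the field structures.
-/

set_option autoImplicit false

open scoped BigOperators
open NumberField IsDedekindDomain Pool.Agent.ZD

namespace Pool.Agent.Lib.MP_673eb1_lc

variable {h f : ℕ} [Fact h.Prime] (D : PerData h f)

/-- Arbitrarily large prime numbers of index `1`. -/
theorem exists_prime_ind (n : ℕ) : ∃ r : ℕ, n < r ∧ r.Prime ∧ D.ind r = 1 := by
  obtain ⟨a, ha, ha1⟩ := D.ind_surj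
  have : NeZero f := ⟨D.hf.ne_zero⟩
  have hu : IsUnit (a : ZMod f) := (ZMod.isUnit_iff_coprime a f).2 ha
  obtain ⟨r, hr1, hr2, hr3⟩ := Nat.forall_exists_prime_gt_and_eq_mod hu n
  refine ⟨r, hr1, hr2, ?_⟩
  rw [D.ind_mod r a ((ZMod.natCast_eq_natCast_iff' r a f).1 hr3), ha1]

section exist

variable (K : Type) [Field K] [NumberField K]

/-- A prime above a rational prime. -/
theorem exists_above (r : ℕ) (hr : r.Prime) :
    ∃ v : HeightOneSpectrum (𝓞 K), ((r : ℕ) : 𝓞 K) ∈ v.asIdeal := by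
  have h1 : ¬ IsUnit ((r : ℕ) : 𝓞 K) := by
    intro hu
    have h2 := (hu.map (Algebra.norm ℤ))
    have h3 : Algebra.norm ℤ ((r : ℕ) : 𝓞 K) = (r : ℤ) ^ Module.finrank ℤ (𝓞 K) := by
      have := Algebra.norm_algebraMap (S := 𝓞 K) (r : ℤ)
      simpa using this
    rw [h3] at h2
    have h4 : Module.finrank ℤ (𝓞 K) ≠ 0 := by
      rw [RingOfIntegers.rank]
      exact Module.finrank_pos.ne'
    have h5 := (isUnit_pow_iff h4).1 h2
    rw [Int.isUnit_iff] at h5
    have := hr.two_le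
    omega
  obtain ⟨M, hM, hrM⟩ := exists_max_ideal_of_mem_nonunits (mem_nonunits_iff.2 h1)
  refine ⟨⟨M, hM.isPrime, ?_⟩, hrM⟩
  intro hbot
  rw [hbot, Ideal.mem_bot] at hrM
  exact hr.ne_zero (by exact_mod_cast hrM)

/-- The norm of a prime above the prime number `r`. -/
theorem nm_above (r : ℕ) (hr : r.Prime) (v : HeightOneSpectrum (𝓞 K))
    (hv : ((r : ℕ) : 𝓞 K) ∈ v.asIdeal) : ∃ n, 0 < n ∧ n ≤ Module.finrank ℚ K ∧ nm v = r ^ n := by
  obtain ⟨p, n, hp, hn, hpn, -⟩ := nm_eq v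
  have hpr : p = r := by
    by_contra hne
    have h1 : r.Coprime p := (Nat.coprime_primes hr hp).2 (Ne.symm hne)
    have h2 : ((p : ℕ) : 𝓞 K) ∈ v.asIdeal := by
      have h2 := nm_mem v
      rw [hpn] at h2
      push_cast at h2
      exact v.isPrime.mem_of_pow_mem _ h2
    have h3 : IsCoprime (r : ℤ) (p : ℤ) := Nat.isCoprime_iff_coprime.2 h1
    obtain ⟨a, b, hab⟩ := h3
    apply v.isPrime.ne_top
    rw [Ideal.eq_top_iff_one]
    have h4 : (1 : 𝓞 K) = (a : 𝓞 K) * ((r : ℕ) : 𝓞 K) + (b : 𝓞 K) * ((p : ℕ) : 𝓞 K) := by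
      have := congrArg (Int.cast : ℤ → 𝓞 K) hab
      push_cast at this
      exact this.symm
    rw [h4]
    exact v.asIdeal.add_mem (v.asIdeal.mul_mem_left _ hv) (v.asIdeal.mul_mem_left _ h2)
  subst hpr
  refine ⟨n, hn, ?_, hpn⟩
  have h1 := Ideal.absNorm_dvd_norm_of_mem hv
  have h3 : Algebra.norm ℤ ((p : ℕ) : 𝓞 K) = (p : ℤ) ^ Module.finrank ℤ (𝓞 K) := by
    have := Algebra.norm_algebraMap (S := 𝓞 K) (p : ℤ)
    simpa using this
  rw [h3, RingOfIntegers.rank] at h1
  change ((nm v : ℕ) : ℤ) ∣ _ at h1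
  rw [hpn] at h1
  have h4 : p ^ n ∣ p ^ Module.finrank ℚ K := by exact_mod_cast h1
  exact (Nat.pow_dvd_pow_iff_le_right hp.one_lt).1 h4

variable {K}

/-- The primes above a prime number of nonzero index are inert, if `[K : ℚ] < h`. -/
theorem inert_of_above (hK : Module.finrank ℚ K < h) (r : ℕ) (hr : r.Prime) (hrf : r ≠ f)
    (hi : D.ind r ≠ 0) (v : HeightOneSpectrum (𝓞 K)) (hv : ((r : ℕ) : 𝓞 K) ∈ v.asIdeal) :
    Inert D v := by
  obtain ⟨n, hn, hnK, hnm⟩ := nm_above K r hr v hv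
  refine ⟨?_, ?_⟩
  · intro hfv
    obtain ⟨n', hn', -, hnm'⟩ := nm_above K f D.hf v hfv
    rw [hnm] at hnm'
    have h1 : r ∣ f ^ n' := by
      rw [← hnm']
      exact dvd_pow_self r hn.ne'
    exact hrf ((Nat.prime_dvd_prime_iff_eq hr D.hf).1 (hr.dvd_of_dvd_pow h1))
  · rw [hnm, ind_pow D r ((Nat.coprime_primes hr D.hf).2 hrf)]
    refine mul_ne_zero ?_ hi
    rw [Ne, ZMod.natCast_eq_zero_iff]
    intro hd
    have := Nat.le_of_dvd hn hd
    omega

variable (K)

/-- There are inert primes which are not above a given nonzero integer. -/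
theorem exists_inert (hK : Module.finrank ℚ K < h) (N : ℕ) (hN : N ≠ 0) :
    ∃ v : HeightOneSpectrum (𝓞 K), Inert D v ∧ ((N : ℕ) : 𝓞 K) ∉ v.asIdeal := by
  obtain ⟨r, hr1, hr2, hr3⟩ := exists_prime_ind D (max f N)
  obtain ⟨v, hv⟩ := exists_above K r hr2
  have hrf : r ≠ f := by
    have := lt_of_le_of_lt (le_max_left f N) hr1
    omega
  refine ⟨v, inert_of_above D hK r hr2 hrf ?_ v hv, ?_⟩
  · rw [hr3]
    exact one_ne_zero
  · intro hNv
    have h1 : r.Coprime N := by
      refine (Nat.Prime.coprime_iff_not_dvd hr2).2 fun hd => ?_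
      have h2 := Nat.le_of_dvd (Nat.pos_of_ne_zero hN) hd
      have h3 := lt_of_le_of_lt (le_max_right f N) hr1
      omega
    have h3 : IsCoprime (r : ℤ) (N : ℤ) := Nat.isCoprime_iff_coprime.2 h1
    obtain ⟨a, b, hab⟩ := h3
    apply v.isPrime.ne_top
    rw [Ideal.eq_top_iff_one]
    have h4 : (1 : 𝓞 K) = (a : 𝓞 K) * ((r : ℕ) : 𝓞 K) + (b : 𝓞 K) * ((N : ℕ) : 𝓞 K) := by
      have := congrArg (Int.cast : ℤ → 𝓞 K) hab
      push_cast at this
      exact this.symm
    rw [h4]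
    exact v.asIdeal.add_mem (v.asIdeal.mul_mem_left _ hv) (v.asIdeal.mul_mem_left _ hNv)

end exist

section field

variable (K : Type) [Field K] [NumberField K]

/-- A nonzero element of `PR D K` is a unit, if there is an inert prime. -/
theorem PR.exists_inv (hK : Module.finrank ℚ K < h) (x : PR D K) (hx : x ≠ 0) :
    ∃ y : PR D K, x * y = 1 := by
  obtain ⟨v, hv, -⟩ := exists_inert D K hK 1 one_ne_zero
  have h1 := PR.nm0_ne_zero D hv x hx
  obtain ⟨y, hy⟩ := PR.dvd_nm0 D x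
  refine ⟨y * algebraMap K (PR D K) (PR.nm0 D x)⁻¹, ?_⟩
  rw [← mul_assoc, ← hy, ← map_mul, mul_inv_cancel₀ h1, map_one]

open Classical in
/-- The field structure on `PR D K`. -/
noncomputable abbrev PR.field (hK : Module.finrank ℚ K < h) : Field (PR D K) :=
  { (inferInstance : CommRing (PR D K)) with
    inv := fun x => if hx : x = 0 then 0 else Classical.choose (PR.exists_inv D K hK x hx)
    exists_pair_ne := ⟨0, 1, zero_ne_one⟩
    mul_inv_cancel := fun x hx => by
      change x * (if hx : x = 0 then 0 else Classical.choose (PR.exists_inv D K hK x hx)) = 1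
      rw [dif_neg hx]
      exact Classical.choose_spec (PR.exists_inv D K hK x hx)
    inv_zero := by
      change (if hx : (0 : PR D K) = 0 then 0 else
        Classical.choose (PR.exists_inv D K hK 0 hx)) = 0
      rw [dif_pos rfl]
    nnqsmul := _
    nnqsmul_def := fun _ _ => rfl
    qsmul := _
    qsmul_def := fun _ _ => rfl }

end field

end Pool.Agent.Lib.MP_673eb1_lc
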