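import Pool.Agent.Lib.MP_673eb1_lc.TRDef
import Pool.Agent.Lib.ZD.CycG
import Pool.Agent.Lib.ZD.Sel

/-!
MP_673eb1_lc: the primes which are not inert for `D : PerData h f` have density `1/h`.
-/

set_option autoImplicit false

open NumberField IsDedekindDomain Pool.Agent.ZD

namespace Pool.Agent.Lib.MP_673eb1_lc

theorem nm_coprime {K : Type} [Field K] [NumberField K] {v : HeightOneSpectrum (𝓞 K)} {f : ℕ}
    (hf : f.Prime) (hv : ((f : ℕ) : 𝓞 K) ∉ v.asIdeal) : (nm v).Coprime f := by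
  rw [Nat.coprime_comm, Nat.Prime.coprime_iff_not_dvd hf]
  intro h
  obtain ⟨p, k, hp, _, hk, _⟩ := nm_eq v
  rw [hk] at h
  have h1 : f = p := (Nat.prime_dvd_prime_iff_eq hf hp).1 (hf.dvd_of_dvd_pow h)
  apply hv
  have h2 := nm_mem v
  rw [hk, ← h1] at h2
  push_cast at h2
  exact v.isPrime.mem_of_pow_mem _ h2

/-- **Density of the non-inert primes.** -/
theorem Dn_not_inert {h f : ℕ} [hh : Fact h.Prime] (D : PerData h f) (K : Type) [Field K]
    [NumberField K] (hK : ¬ h ∣ Module.finrank ℚ K) :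
    Dn K {v | ¬ Inert D v} (1 / (h : ℝ)) := by
  have hfF : Fact f.Prime := ⟨D.hf⟩
  have hf0 : NeZero f := ⟨D.hf.ne_zero⟩
  let S : Subgroup (ZMod f)ˣ := (powMonoidHom h : (ZMod f)ˣ →* (ZMod f)ˣ).range
  have hdvd : h ∣ f - 1 := by
    have h1 := D.hfh
    have h2 := Nat.div_add_mod f h
    rw [h1] at h2
    exact ⟨f / h, by omega⟩
  have hidx : S.index = h := by
    have h1 := IsCyclic.index_powMonoidHom_range (ZMod f)ˣ h
    rw [Nat.card_eq_fintype_card, ZMod.card_units] at h1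
    rw [Nat.gcd_eq_right hdvd] at h1
    exact h1
  obtain ⟨m, h1, h2, h3⟩ := Dn_cyc_gen (L := K) f S
  rw [hidx] at h1 h2
  have hm : m = h := by
    rcases (Nat.dvd_prime hh.out).1 h1 with h4 | h4
    · rw [h4, mul_one] at h2
      exact absurd h2 hK
    · exact h4
  rw [hm] at h3
  have key : ∀ v : HeightOneSpectrum (𝓞 K), ((f : ℕ) : 𝓞 K) ∉ v.asIdeal →
      (v ∈ NS K f (S : Set (ZMod f)ˣ) ↔ D.ind (nm v) = 0) := by
    intro v hv
    have hco := nm_coprime D.hf hv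
    rw [D.ind_zero _ hco]
    constructor
    · rintro ⟨u, ⟨w, hw⟩, hu⟩
      refine ⟨(w : ZMod f).val, ?_⟩
      have h4 : (((w : ZMod f).val ^ h : ℕ) : ZMod f) = ((nm v : ℕ) : ZMod f) := by
        rw [← hu, ← hw, Nat.cast_pow, ZMod.natCast_val, ZMod.cast_id]
        rfl
      exact (ZMod.natCast_eq_natCast_iff _ _ _).1 h4
    · rintro ⟨b, hb⟩
      have h4 : ((b ^ h : ℕ) : ZMod f) = ((nm v : ℕ) : ZMod f) :=
        (ZMod.natCast_eq_natCast_iff _ _ _).2 hb
      have hbc : b.Coprime f := by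
        have h5 : (b ^ h).Coprime f := by
          have h6 : (b ^ h).gcd f = (nm v).gcd f := Nat.ModEq.gcd_eq hb
          show (b ^ h).gcd f = 1
          rw [h6]
          exact hco
        exact Nat.Coprime.coprime_dvd_left (dvd_pow_self b hh.out.ne_zero) h5
      refine ⟨ZMod.unitOfCoprime b hbc ^ h, ⟨ZMod.unitOfCoprime b hbc, rfl⟩, ?_⟩
      rw [← h4]
      push_cast
      rw [ZMod.coe_unitOfCoprime]
  refine h3.congr (Dn_finite (finite_dvd_n (L := K) f D.hf.ne_zero)) ?_ ?_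
  · intro v hv
    by_cases hvf : ((f : ℕ) : 𝓞 K) ∈ v.asIdeal
    · exact Or.inr hvf
    · exact Or.inl fun hI => hI.2 ((key v hvf).1 hv)
  · intro v hv
    by_cases hvf : ((f : ℕ) : 𝓞 K) ∈ v.asIdeal
    · exact Or.inr hvf
    · left
      refine (key v hvf).2 ?_
      by_contra hne
      exact hv ⟨hvf, hne⟩

end Pool.Agent.Lib.MP_673eb1_lc
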