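import Pool.Agent.Lib.MP_673eb1_lc.DioF
import Pool.Agent.Lib.MP_673eb1_lc.LInt
import Pool.Agent.Lib.MP_673eb1_lc.CMReal
import Pool.Agent.Lib.MP_673eb1_lc.CMUnit
import Pool.Agent.Lib.MP_673eb1_lc.CMComp
import Pool.Agent.Lib.MP_673eb1_lc.CMSound
import Pool.Agent.Lib.MP_673eb1_lc.CMDio
import Pool.Agent.Lib.MP_673eb1_lc.CMTr
import Pool.Agent.Lib.ZD.CycIrr
import Pool.Agent.Lib.MP_673eb1_lc.PDDens
import Pool.Agent.Lib.MP_673eb1_lc.PDD

/-!
MP_673eb1_lc: the final assembly. `fin_main`: S14829 from the main theorem `S_TR` for totally real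
fields, the fact that `K(periods)` is a field and the density of the primes which are not inert.
-/

set_option autoImplicit false

open NumberField IsDedekindDomain Pool.Agent.ZD Pool.Agent.ZT

namespace Pool.Agent.Lib.MP_673eb1_lc.HF

/-- `K(periods)` is a field. -/
theorem fld {K : Type} [Field K] [NumberField K] {h f : ℕ} [Fact h.Prime] (D : PerData h f)
    (hK : Module.finrank ℚ K < h) : IsField (PR D K) := by
  refine ⟨⟨0, 1, fun h01 => ?_⟩, mul_comm, fun hx => PR.exists_inv D K hK _ hx⟩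
  have h1 := congrArg (fun x : PR D K => x 0) h01
  simp at h1

/-- The density of the primes which are not inert. -/
theorem dnI {K : Type} [Field K] [NumberField K] {h f : ℕ} [Fact h.Prime] (D : PerData h f)
    (hK : Module.finrank ℚ K < h) : Dn K {v : HeightOneSpectrum (𝓞 K) | ¬ Inert D v} (1 / (h : ℝ)) :=
  Dn_not_inert D K fun hd => (Nat.le_of_dvd Module.finrank_pos hd).not_gt hK

/-- The conclusion of S14829. -/
def Concl (K : Type) [Field K] [NumberField K] (W : Set (HeightOneSpectrum (𝓞 K))) (ε : ℝ) : Prop :=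
  ∃ Wbar : Set (HeightOneSpectrum (𝓞 K)),
    (∃ B : Set (HeightOneSpectrum (𝓞 K)), ∃ d : ℝ, d < ε ∧
       Filter.Tendsto (fun s : ℝ =>
         (∑' v : HeightOneSpectrum (𝓞 K),
            B.indicator (fun w => ((Ideal.absNorm w.asIdeal : ℕ) : ℝ) ^ (-s)) v) /
         (∑' v : HeightOneSpectrum (𝓞 K), ((Ideal.absNorm v.asIdeal : ℕ) : ℝ) ^ (-s)))
         (nhdsWithin 1 (Set.Ioi 1)) (nhds d) ∧
       symmDiff Wbar W ⊆ B) ∧
    ∃ n : ℕ, ∃ f : MvPolynomial (Fin (n+1)) (𝓞 K),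
      ∀ x : K, (∀ v ∉ Wbar, v.valuation K x ≤ 1) →
        ((∃ m : ℤ, (m : K) = x) ↔
          ∃ z : Fin (n+1) → K, z 0 = x ∧
            (∀ i, ∀ v ∉ Wbar, v.valuation K (z i) ≤ 1) ∧
            MvPolynomial.eval₂ (algebraMap (𝓞 K) K) z f = 0)

theorem concl_of {K : Type} [Field K] [NumberField K] {W Wb E N : Set (HeightOneSpectrum (𝓞 K))}
    {ε d : ℝ} (hd : d < ε) (hN : Dn K N d) (hE : E.Finite)
    (h1 : ∀ v ∈ Wb, v ∉ W → v ∈ E) (h2 : ∀ v ∈ W, v ∉ Wb → v ∈ N ∪ E)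
    (hZ : Dio (Wring K Wb) {x : K | ∃ m : ℤ, (m : K) = x}) : Concl K W ε := by
  refine ⟨Wb, ⟨N ∪ E, d, hd, (hN.union_zero (Dn_finite hE)).tendsto, ?_⟩, ?_⟩
  · rintro v (⟨hv1, hv2⟩ | ⟨hv1, hv2⟩)
    · exact Or.inr (h1 v hv1 hv2)
    · exact h2 v hv1 hv2
  · exact Dio.final Wb _ hZ

/-- The totally real case. -/
theorem fin_real (hTR : S_TR) (K : Type) [Field K] [NumberField K]
    [IsTotallyReal K] (W : Set (HeightOneSpectrum (𝓞 K))) (ε : ℝ) (hε : 0 < ε) : Concl K W ε := by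
  obtain ⟨h, f, hh, D, B, p, h1, h2, hB, -, h3, -, h5⟩ := hTR K K ε hε
  refine concl_of (Wb := {v | v ∈ W ∧ v ∉ B ∧ Inert D v} ∪ Set.range p) h1 (dnI D h2)
    (hB.union (Set.finite_range p)) ?_ ?_ (h5 _ ?_ ?_)
  · rintro v (⟨hv, -⟩ | hv) hvW
    · exact absurd hv hvW
    · exact Or.inr hv
  · intro v hv hvb
    by_cases hi : Inert D v
    · by_cases hvB : v ∈ B
      · exact Or.inr (Or.inl hvB)
      · exact absurd (Or.inl ⟨hv, hvB, hi⟩) hvb
    · exact Or.inl hi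
  · exact fun i => Or.inr ⟨i, rfl⟩
  · rintro v (⟨-, hv⟩ | ⟨i, hi⟩)
    · exact Or.inr hv
    · exact Or.inl ⟨i, hi.symm⟩

/-- The CM case. -/
theorem fin_cm (hTR : S_TR) (F K : Type) [Field F] [NumberField F]
    [IsTotallyReal F] [Field K] [NumberField K] [Algebra F K] (h2 : Module.finrank F K = 2)
    (hK : IsTotallyComplex K) (W : Set (HeightOneSpectrum (𝓞 K))) (ε : ℝ) (hε : 0 < ε) :
    Concl K W ε := by
  classical
  have hF : ∀ (φ : K →+* ℂ) (y : F), (φ (algebraMap F K y)).im = 0 := by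
    intro φ y
    have h3 : ComplexEmbedding.IsReal (φ.comp (algebraMap F K)) :=
      InfinitePlace.isReal_mk_iff.1 (IsTotallyReal.isReal (InfinitePlace.mk (φ.comp (algebraMap F K))))
    have h4 := RingHom.congr_fun (ComplexEmbedding.isReal_iff.1 h3) y
    exact Complex.conj_eq_iff_im.1 h4
  have hq : Algebra.IsQuadraticExtension F K := ⟨h2⟩
  obtain ⟨τ, hτ, hconj, hfix⟩ := exists_conj h2 hF hK
  obtain ⟨h, f, hh, D, B, p, h3, h4, hB, -, h5, h6, h7⟩ := hTR F K ε hε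
  have hfield : IsField (PR D K) := fld D h4
  have hfield' : IsField (PR D ℚ) := by
    refine fld D ?_
    rw [Module.finrank_self]
    exact hh.out.one_lt
  -- the primes above the `p i`
  obtain ⟨Tp, hTp⟩ : ∃ Tp : Set (HeightOneSpectrum (𝓞 K)), Tp = {v | ∃ i, v ∈ abv K (p i)} :=
    ⟨_, rfl⟩
  have hTfin : Tp.Finite := by
    have : Tp = ⋃ i, abv K (p i) := by
      rw [hTp]
      ext v
      simp
    rw [this]
    exact Set.finite_iUnion fun i => finite_abv (p i)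
  have hTd : ∀ v ∈ Tp, Deg1 v := by
    rw [hTp]
    rintro v ⟨i, hi⟩
    exact (h5 i).2.2.2 v hi
  have hund : ∀ (n : ℕ) (v : HeightOneSpectrum (𝓞 K)) (u : HeightOneSpectrum (𝓞 F)),
      v ∈ abv K u → ((n : 𝓞 K) ∈ v.asIdeal ↔ (n : 𝓞 F) ∈ u.asIdeal) := by
    intro n v u hv
    rw [← mem_abv.1 hv, Ideal.mem_comap, map_natCast]
  have hTf : ∀ v ∈ Tp, ((f : ℕ) : 𝓞 K) ∉ v.asIdeal := by
    rw [hTp]
    rintro v ⟨i, hi⟩ hv
    exact (h5 i).2.2.1 ((hund f v (p i) hi).1 hv)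
  have hTτ : ∀ v ∈ Tp, cj τ v ∈ Tp := by
    rw [hTp]
    rintro v ⟨i, hi⟩
    exact ⟨i, cj_mem_abv τ hi⟩
  -- the set `Wb`
  obtain ⟨Wb, hWb⟩ : ∃ Wb : Set (HeightOneSpectrum (𝓞 K)),
    Wb = {v | v ∈ W ∧ v.under (𝓞 F) ∉ B ∧ Inert D v} ∪ Tp := ⟨_, rfl⟩
  have hWb1 : ∀ v ∈ Wb, v ∈ Tp ∨ Inert D v := by
    rw [hWb]
    rintro v (⟨-, -, hv⟩ | hv)
    · exact Or.inr hv
    · exact Or.inl hv
  have h2not : ∀ v : HeightOneSpectrum (𝓞 K), ((2 : ℕ) : 𝓞 K) ∈ v.asIdeal → v ∉ Wb := by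
    intro v hv hvW
    rw [hWb] at hvW
    rcases hvW with ⟨-, hv2, -⟩ | hv2
    · exact hv2 (h6 _ ((hund 2 v (v.under (𝓞 F)) rfl).1 hv))
    · have h8 := hTd v hv2
      have h9 : ((nm v : ℕ) : 𝓞 K) ∈ v.asIdeal := Ideal.absNorm_mem v.asIdeal
      have h10 := Pool.Agent.ZD.prime_unique Nat.prime_two h8.1 hv h9
      have h11 := h8.2.1
      omega
  have hfnot : ∀ v : HeightOneSpectrum (𝓞 K), ((f : ℕ) : 𝓞 K) ∈ v.asIdeal → v ∉ Wb := by
    intro v hv hvW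
    rcases hWb1 v hvW with hv2 | hv2
    · exact hTf v hv2 hv
    · exact hv2.1 hv
  have hf2 : 2 ≠ f := by
    intro hf2
    have h8 := D.hfh
    have h9 := D.hodd
    have h10 := hh.out.two_le
    have h11 : f % h = f := Nat.mod_eq_of_lt (by omega)
    omega
  have hG : GoodR (Wring K Wb) := by
    obtain ⟨v2, hv2⟩ := Pool.Agent.ZD.exists_above K Nat.prime_two
    obtain ⟨vf, hvf⟩ := Pool.Agent.ZD.exists_above K D.hf
    exact goodR_Wring Wb 2 f Nat.prime_two D.hf hf2 ⟨v2, h2not v2 hv2, hv2⟩ ⟨vf, hfnot vf hvf, hvf⟩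
  -- the ring below
  have hZF : Dio (Wring F {u | ∀ v ∈ abv K u, v ∈ Wb}) {x : F | ∃ m : ℤ, (m : F) = x} := by
    refine h7 _ ?_ ?_
    · intro i v hv
      rw [hWb, hTp]
      exact Or.inr ⟨i, hv⟩
    · intro u hu
      obtain ⟨v, hv⟩ := abv_nonempty (L := K) u
      have hvu : v.under (𝓞 F) = u := hv
      have h8 := hu v hv
      rw [hWb] at h8
      rcases h8 with ⟨-, h9, h10⟩ | h9
      · exact Or.inr ⟨hvu ▸ h9, inert_down D u v hv h10⟩
      · rw [hTp] at h9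
        obtain ⟨i, hi⟩ := h9
        exact Or.inl ⟨i, hvu.symm.trans hi⟩
  -- the parameters
  obtain ⟨g, hg, hgs⟩ := exists_g (hTfin.toFinset.image nm) (by
    intro l hl
    obtain ⟨v, hv, rfl⟩ := Finset.mem_image.1 hl
    have := hTd v (hTfin.mem_toFinset.1 hv)
    exact ⟨this.1, this.2.1⟩)
  obtain ⟨c, hc, hcr⟩ := cm_real D hfield τ hconj
  obtain ⟨C, hC⟩ := cm_sound D hfield τ hτ g c hg hcr Tp
    (fun v hv => ⟨(hTd v hv).1, hTf v hv, hgs _ (Finset.mem_image_of_mem nm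
      (hTfin.mem_toFinset.2 hv))⟩) hTτ 2 Nat.prime_two
  obtain ⟨e, he1, he2⟩ := exists_unit D hfield'
  have hV : Dio (Wring K Wb) (SetV D (Wring K Wb) Tp g c C 2) :=
    cm_dio D _ hG Tp hTfin (fun v hv => dio_lint _ hG v (nm v) (hTd v hv).1 rfl (hTd v hv).2.2
      (hTd v hv).2.1) g c C 2
  have hVZ : ∀ m : ℤ, (m : K) ∈ SetV D (Wring K Wb) Tp g c C 2 := fun m =>
    cm_comp D hfield' e he1 he2 _ Tp g c C 2 hg hc two_pos m
  have hVF : ∀ x ∈ SetV D (Wring K Wb) Tp g c C 2, ∃ y : F, algebraMap F K y = x := fun x hx =>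
    hfix x (hC Wb hWb1 h2not x hx)
  have hT := cm_transfer Wb hG _ hV hVZ hVF
  have hZK : Dio (Wring K Wb) {x : K | ∃ m : ℤ, (m : K) = x} := by
    have h8 := Dio.trans (fun y hy => (wring_comap Wb y).1 hy) hT (S := {x : F | ∃ m : ℤ, (m : F) = x})
      (by rintro _ ⟨m, rfl⟩; exact intCast_mem _ m) hZF
    convert h8 using 1
    ext x
    constructor
    · rintro ⟨m, rfl⟩
      exact ⟨(m : F), ⟨m, rfl⟩, map_intCast _ m⟩
    · rintro ⟨_, ⟨m, rfl⟩, rfl⟩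
      exact ⟨m, (map_intCast _ m).symm⟩
  have hfinE : ({v : HeightOneSpectrum (𝓞 K) | v.under (𝓞 F) ∈ B} ∪ Tp).Finite := by
    refine Set.Finite.union ?_ hTfin
    have : {v : HeightOneSpectrum (𝓞 K) | v.under (𝓞 F) ∈ B} = ⋃ u ∈ B, abv K u := by
      ext v
      simp only [Set.mem_ofPred_eq, Set.mem_iUnion, exists_prop]
      constructor
      · intro hv
        exact ⟨_, hv, rfl⟩
      · rintro ⟨u, hu, hv⟩
        have hvu : v.under (𝓞 F) = u := hv
        rwa [hvu]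
    rw [this]
    exact hB.biUnion fun u _ => finite_abv u
  refine concl_of (Wb := Wb) h3 (dnI D h4) hfinE ?_ ?_ hZK
  · intro v hv hvW
    rw [hWb] at hv
    rcases hv with ⟨hv, -⟩ | hv
    · exact absurd hv hvW
    · exact Or.inr hv
  · intro v hv hvb
    by_cases hi : Inert D v
    · by_cases hvB : v.under (𝓞 F) ∈ B
      · exact Or.inr (Or.inl hvB)
      · exact absurd (by rw [hWb]; exact Or.inl ⟨hv, hvB, hi⟩) hvb
    · exact Or.inl hi

/-- A field all of whose embeddings are real. -/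
theorem totallyReal_of {K : Type} [Field K] [NumberField K] (F : IntermediateField ℚ K)
    (hF : ∀ φ : K →+* ℂ, ∀ x ∈ F, (φ x).im = 0) : IsTotallyReal F := by
  refine ⟨fun v => ?_⟩
  rw [← InfinitePlace.mk_embedding v, InfinitePlace.isReal_mk_iff]
  obtain ⟨φ, hφ⟩ : ∃ φ : K →+* ℂ, φ.comp (algebraMap F K) = v.embedding := by
    let _ := v.embedding.toAlgebra
    exact ⟨(IsAlgClosed.lift (R := F) (S := K) (M := ℂ)).toRingHom, RingHom.ext fun x =>
      (IsAlgClosed.lift (R := F) (S := K) (M := ℂ)).commutes x⟩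
  rw [ComplexEmbedding.isReal_iff, ← hφ]
  refine RingHom.ext fun x => ?_
  exact Complex.conj_eq_iff_im.2 (hF φ x x.2)

/-- **S14829** from the main theorem. -/
theorem fin_main (hTR : S_TR) (K : Type) [Field K] [NumberField K]
    (hK : NumberField.IsTotallyReal K ∨
      ∃ F : IntermediateField ℚ K, (∀ φ : K →+* ℂ, ∀ x ∈ F, (φ x).im = 0) ∧
        NumberField.IsTotallyComplex K ∧ Module.finrank F K = 2)
    (W : Set (HeightOneSpectrum (𝓞 K))) (ε : ℝ) (hε : 0 < ε) : Concl K W ε := by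
  rcases hK with hK | ⟨F, hF, hK, h2⟩
  · exact fin_real hTR K W ε hε
  · have := totallyReal_of F hF
    exact fin_cm hTR F K h2 hK W ε hε

end Pool.Agent.Lib.MP_673eb1_lc.HF
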