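import Mathlib

/-!
MP_673eb1_lc, module Leg: Legendre's theorem on ternary quadratic forms.
-/

set_option autoImplicit false

namespace Pool.Agent.Lib.MP_673eb1_lc

private theorem leg_sq {n : ℕ} (hn : Squarefree n) {x : ℤ} (hx : x ^ 2 = n) : n = 1 := by
  have h1 : x.natAbs * x.natAbs = n := by
    have h2 : ((x.natAbs * x.natAbs : ℕ) : ℤ) = n := by
      rw [Int.natCast_mul, Int.natAbs_mul_self', ← hx, sq]
    exact_mod_cast h2
  have h3 : IsUnit x.natAbs := hn _ ⟨1, by rw [h1, mul_one]⟩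
  rw [Nat.isUnit_iff] at h3
  rw [← h1, h3]

/-- the pigeonhole principle -/
private theorem leg_box (a b c : ℕ) (ha : 0 < a) (hb : 0 < b) (hc : 0 < c) (α β γ : ℤ) :
    ∃ x y z : ℤ, (x ≠ 0 ∨ y ≠ 0 ∨ z ≠ 0) ∧ x ^ 2 ≤ b * c ∧ y ^ 2 ≤ a * c ∧ z ^ 2 ≤ a * b ∧
      (a : ℤ) ∣ b * y - α * z ∧ (b : ℤ) ∣ a * x - β * z ∧ (c : ℤ) ∣ a * x - γ * y := by
  classical
  have : NeZero a := ⟨ha.ne'⟩
  have : NeZero b := ⟨hb.ne'⟩
  have : NeZero c := ⟨hc.ne'⟩
  let S : Finset (ℕ × ℕ × ℕ) := Finset.range (Nat.sqrt (b * c) + 1) ×ˢ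
    (Finset.range (Nat.sqrt (a * c) + 1) ×ˢ Finset.range (Nat.sqrt (a * b) + 1))
  let f : ℕ × ℕ × ℕ → ZMod a × ZMod b × ZMod c := fun w =>
    (((b * w.2.1 - α * w.2.2 : ℤ) : ZMod a), ((a * w.1 - β * w.2.2 : ℤ) : ZMod b),
      ((a * w.1 - γ * w.2.1 : ℤ) : ZMod c))
  have hcard : (Finset.univ : Finset (ZMod a × ZMod b × ZMod c)).card < S.card := by
    rw [Finset.card_univ, Fintype.card_prod, Fintype.card_prod, ZMod.card, ZMod.card, ZMod.card,
      Finset.card_product, Finset.card_product, Finset.card_range, Finset.card_range,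
      Finset.card_range]
    refine lt_of_pow_lt_pow_left₀ 2 (Nat.zero_le _) ?_
    have h1 : b * c < (Nat.sqrt (b * c) + 1) ^ 2 := Nat.lt_succ_sqrt' _
    have h2 : a * c < (Nat.sqrt (a * c) + 1) ^ 2 := Nat.lt_succ_sqrt' _
    have h3 : a * b < (Nat.sqrt (a * b) + 1) ^ 2 := Nat.lt_succ_sqrt' _
    calc (a * (b * c)) ^ 2 = (b * c) * ((a * c) * (a * b)) := by ring
      _ < (Nat.sqrt (b * c) + 1) ^ 2 * ((Nat.sqrt (a * c) + 1) ^ 2 * (Nat.sqrt (a * b) + 1) ^ 2) :=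
        mul_lt_mul'' h1 (mul_lt_mul'' h2 h3 (Nat.zero_le _) (Nat.zero_le _)) (Nat.zero_le _)
          (Nat.zero_le _)
      _ = _ := by ring
  obtain ⟨w, hw, w', hw', hne, he⟩ := Finset.exists_ne_map_eq_of_card_lt_of_maps_to hcard
    (f := f) (fun _ _ => Finset.mem_univ _)
  have hS : ∀ w ∈ S, w.1 ≤ Nat.sqrt (b * c) ∧ w.2.1 ≤ Nat.sqrt (a * c) ∧
      w.2.2 ≤ Nat.sqrt (a * b) := by
    intro w hw
    have h1 := Finset.mem_product.1 hw
    have h2 := Finset.mem_product.1 h1.2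
    have h3 := Finset.mem_range.1 h1.1
    have h4 := Finset.mem_range.1 h2.1
    have h5 := Finset.mem_range.1 h2.2
    omega
  obtain ⟨p1, p2, p3⟩ := hS w hw
  obtain ⟨q1, q2, q3⟩ := hS w' hw'
  have hbd : ∀ (m n s : ℕ), m ≤ Nat.sqrt s → n ≤ Nat.sqrt s →
      ((m : ℤ) - n) ^ 2 ≤ (s : ℤ) := by
    intro m n s hm hn
    have h1 : (Nat.sqrt s) ^ 2 ≤ s := Nat.sqrt_le' s
    have h2 : ((Nat.sqrt s : ℕ) : ℤ) ^ 2 ≤ s := by exact_mod_cast h1
    have h3 : (m : ℤ) ≤ (Nat.sqrt s : ℕ) := by exact_mod_cast hm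
    have h4 : (n : ℤ) ≤ (Nat.sqrt s : ℕ) := by exact_mod_cast hn
    have h5 : (0 : ℤ) ≤ m := Nat.cast_nonneg m
    have h6 : (0 : ℤ) ≤ n := Nat.cast_nonneg n
    refine le_trans ?_ h2
    rw [sq_le_sq, abs_le, abs_of_nonneg (Nat.cast_nonneg _)]
    constructor <;> linarith
  refine ⟨(w.1 : ℤ) - w'.1, (w.2.1 : ℤ) - w'.2.1, (w.2.2 : ℤ) - w'.2.2, ?_, ?_, ?_, ?_, ?_, ?_, ?_⟩
  · by_contra hcon
    push Not at hcon
    obtain ⟨h1, h2, h3⟩ := hcon
    refine hne (Prod.ext ?_ (Prod.ext ?_ ?_))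
    · have := sub_eq_zero.1 h1
      exact_mod_cast this
    · have := sub_eq_zero.1 h2
      exact_mod_cast this
    · have := sub_eq_zero.1 h3
      exact_mod_cast this
  · have h := hbd w.1 w'.1 (b * c) p1 q1
    push_cast at h
    exact h
  · have h := hbd w.2.1 w'.2.1 (a * c) p2 q2
    push_cast at h
    exact h
  · have h := hbd w.2.2 w'.2.2 (a * b) p3 q3
    push_cast at h
    exact h
  · have h1 : ((b * w.2.1 - α * w.2.2 : ℤ) : ZMod a) = ((b * w'.2.1 - α * w'.2.2 : ℤ) : ZMod a) :=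
      congrArg Prod.fst he
    rw [ZMod.intCast_eq_intCast_iff_dvd_sub] at h1
    have h2 := (dvd_neg.2 h1)
    have h3 : (b : ℤ) * ((w.2.1 : ℤ) - w'.2.1) - α * ((w.2.2 : ℤ) - w'.2.2) =
        -((b * w'.2.1 - α * w'.2.2) - (b * w.2.1 - α * w.2.2)) := by ring
    rw [h3]
    exact h2
  · have h1 : ((a * w.1 - β * w.2.2 : ℤ) : ZMod b) = ((a * w'.1 - β * w'.2.2 : ℤ) : ZMod b) :=
      congrArg (fun q : ZMod a × ZMod b × ZMod c => q.2.1) he
    rw [ZMod.intCast_eq_intCast_iff_dvd_sub] at h1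
    have h2 := (dvd_neg.2 h1)
    have h3 : (a : ℤ) * ((w.1 : ℤ) - w'.1) - β * ((w.2.2 : ℤ) - w'.2.2) =
        -((a * w'.1 - β * w'.2.2) - (a * w.1 - β * w.2.2)) := by ring
    rw [h3]
    exact h2
  · have h1 : ((a * w.1 - γ * w.2.1 : ℤ) : ZMod c) = ((a * w'.1 - γ * w'.2.1 : ℤ) : ZMod c) :=
      congrArg (fun q : ZMod a × ZMod b × ZMod c => q.2.2) he
    rw [ZMod.intCast_eq_intCast_iff_dvd_sub] at h1
    have h2 := (dvd_neg.2 h1)
    have h3 : (a : ℤ) * ((w.1 : ℤ) - w'.1) - γ * ((w.2.1 : ℤ) - w'.2.1) =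
        -((a * w'.1 - γ * w'.2.1) - (a * w.1 - γ * w.2.1)) := by ring
    rw [h3]
    exact h2

/-- **Legendre's theorem** for `a x² + b y² = c z²`.

PROOF. If `a = b = 1`: by `h3`, `-1` is a square modulo `c`, so `c` is a sum of two squares
(`Nat.eq_sq_add_sq_of_isSquare_mod_neg_one`), `z = 1`. If `a = b = c = 1` take `1, 0, 1`.
Otherwise let `α² ≡ b c mod a`, `β² ≡ a c mod b`, `γ² ≡ - a b mod c`, `F = a x² + b y² - c z²`.
Modulo `a`: `b F ≡ (b y - α z)(b y + α z)`; modulo `b`: `a F ≡ (a x - β z)(a x + β z)`; modulo `c`: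
`a F ≡ (a x - γ y)(a x + γ y)`; `b` is a unit mod `a`, `a` is a unit mod `b` and mod `c`. Pigeonhole on
the box `0 ≤ x ≤ √(bc)`, `0 ≤ y ≤ √(ac)`, `0 ≤ z ≤ √(ab)`
(`Nat.sqrt`): it has `(⌊√bc⌋+1)(⌊√ac⌋+1)(⌊√ab⌋+1) > a b c` points (each factor is `> √(..)`; compare the
squares), so there is a nonzero difference `(x,y,z)` with `x² ≤ b c`, `y² ≤ a c`, `z² ≤ a b`,
`a b c ∣ F`. So `-abc ≤ F ≤ 2abc`. `F = -abc` forces `z² = a b`, so (coprime squarefree) `a = b = 1`,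
excluded; `F = 2abc` forces `x² = b c`, `y² = a c`, so `a = b = c = 1`, excluded. So `F = 0`, done, or
`F = abc`: then `a (x z + b y)² + b (y z - a x)² = (a x² + b y²)(z² + a b) = c (z² + a b)²` and
`z² + a b > 0`. -/
theorem legendre (a b c : ℕ) (ha : 0 < a) (hb : 0 < b) (hc : 0 < c) (hab : a.Coprime b)
    (hac : a.Coprime c) (hbc : b.Coprime c) (sa : Squarefree a) (sb : Squarefree b)
    (sc : Squarefree c) (h1 : ∃ x : ℤ, (a : ℤ) ∣ x ^ 2 - b * c) (h2 : ∃ x : ℤ, (b : ℤ) ∣ x ^ 2 - a * c)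
    (h3 : ∃ x : ℤ, (c : ℤ) ∣ x ^ 2 + a * b) :
    ∃ x y z : ℤ, (x ≠ 0 ∨ y ≠ 0 ∨ z ≠ 0) ∧ a * x ^ 2 + b * y ^ 2 = c * z ^ 2 := by
  by_cases h11 : a = 1 ∧ b = 1
  · obtain ⟨rfl, rfl⟩ := h11
    obtain ⟨x, hx⟩ := h3
    have hsq : IsSquare (-1 : ZMod c) := by
      refine ⟨(x : ZMod c), ?_⟩
      have h4 : ((x ^ 2 + (1 : ℕ) * (1 : ℕ) : ℤ) : ZMod c) = 0 :=
        (ZMod.intCast_zmod_eq_zero_iff_dvd _ _).2 hx
      push_cast at h4
      linear_combination -h4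
    obtain ⟨u, v, huv⟩ := Nat.eq_sq_add_sq_of_isSquare_mod_neg_one hsq
    refine ⟨u, v, 1, Or.inr (Or.inr one_ne_zero), ?_⟩
    have h5 : (c : ℤ) = (u : ℤ) ^ 2 + (v : ℤ) ^ 2 := by exact_mod_cast huv
    rw [h5]
    push_cast
    ring
  · obtain ⟨α, hα⟩ := h1
    obtain ⟨β, hβ⟩ := h2
    obtain ⟨γ, hγ⟩ := h3
    obtain ⟨x, y, z, hne, hx, hy, hz, d1, d2, d3⟩ := leg_box a b c ha hb hc α β γ
    have iab : IsCoprime (a : ℤ) b := Nat.isCoprime_iff_coprime.2 hab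
    have iac : IsCoprime (a : ℤ) c := Nat.isCoprime_iff_coprime.2 hac
    have ibc : IsCoprime (b : ℤ) c := Nat.isCoprime_iff_coprime.2 hbc
    obtain ⟨F, hF⟩ : ∃ F : ℤ, F = a * x ^ 2 + b * y ^ 2 - c * z ^ 2 := ⟨_, rfl⟩
    have e1 : (a : ℤ) ∣ F := by
      refine iab.dvd_of_dvd_mul_left ?_
      have h4 : (b : ℤ) * F = a * (b * x ^ 2) + (b * y - α * z) * (b * y + α * z) +
          (α ^ 2 - b * c) * z ^ 2 := by rw [hF]; ring
      rw [h4]
      exact dvd_add (dvd_add (dvd_mul_right _ _) (d1.mul_right _)) (hα.mul_right _)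
    have e2 : (b : ℤ) ∣ F := by
      refine iab.symm.dvd_of_dvd_mul_left ?_
      have h4 : (a : ℤ) * F = b * (a * y ^ 2) + (a * x - β * z) * (a * x + β * z) +
          (β ^ 2 - a * c) * z ^ 2 := by rw [hF]; ring
      rw [h4]
      exact dvd_add (dvd_add (dvd_mul_right _ _) (d2.mul_right _)) (hβ.mul_right _)
    have e3 : (c : ℤ) ∣ F := by
      refine iac.symm.dvd_of_dvd_mul_left ?_
      have h4 : (a : ℤ) * F = c * (-(a * z ^ 2)) + (a * x - γ * y) * (a * x + γ * y) +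
          (γ ^ 2 + a * b) * y ^ 2 := by rw [hF]; ring
      rw [h4]
      exact dvd_add (dvd_add (dvd_mul_right _ _) (d3.mul_right _)) (hγ.mul_right _)
    have e4 : (a : ℤ) * b * c ∣ F := by
      have h4 : (a : ℤ) * b ∣ F := iab.mul_dvd e1 e2
      exact (iac.mul_left ibc).mul_dvd h4 e3
    obtain ⟨t, ht⟩ := e4
    have ha' : (0 : ℤ) < a := by exact_mod_cast ha
    have hb' : (0 : ℤ) < b := by exact_mod_cast hb
    have hc' : (0 : ℤ) < c := by exact_mod_cast hc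
    have hN : (0 : ℤ) < a * b * c := by positivity
    have b1 : (a : ℤ) * x ^ 2 ≤ a * (b * c) := mul_le_mul_of_nonneg_left hx ha'.le
    have b2 : (b : ℤ) * y ^ 2 ≤ b * (a * c) := mul_le_mul_of_nonneg_left hy hb'.le
    have b3 : (c : ℤ) * z ^ 2 ≤ c * (a * b) := mul_le_mul_of_nonneg_left hz hc'.le
    have n1 : (0 : ℤ) ≤ a * x ^ 2 := by positivity
    have n2 : (0 : ℤ) ≤ b * y ^ 2 := by positivity
    have n3 : (0 : ℤ) ≤ c * z ^ 2 := by positivity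
    have k1 : (a : ℤ) * (b * c) = a * b * c := by ring
    have k2 : (b : ℤ) * (a * c) = a * b * c := by ring
    have k3 : (c : ℤ) * (a * b) = a * b * c := by ring
    rw [k1] at b1
    rw [k2] at b2
    rw [k3] at b3
    have t1 : -1 ≤ t := by
      by_contra hcon
      have h4 : t ≤ -2 := by omega
      have h5 : (a : ℤ) * b * c * t ≤ a * b * c * (-2) := mul_le_mul_of_nonneg_left h4 hN.le
      linarith
    have t2 : t ≤ 2 := by
      by_contra hcon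
      have h4 : 3 ≤ t := by omega
      have h5 : (a : ℤ) * b * c * 3 ≤ a * b * c * t := mul_le_mul_of_nonneg_left h4 hN.le
      linarith
    have hcases : t = -1 ∨ t = 0 ∨ t = 1 ∨ t = 2 := by omega
    rcases hcases with rfl | rfl | rfl | rfl
    · exfalso
      have h5 : (c : ℤ) * z ^ 2 = c * (a * b) := by rw [k3]; linarith
      have h6 : z ^ 2 = ((a * b : ℕ) : ℤ) := by
        have := mul_left_cancel₀ hc'.ne' h5
        push_cast
        exact this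
      have h7 := leg_sq ((Nat.squarefree_mul hab).2 ⟨sa, sb⟩) h6
      exact h11 ⟨Nat.eq_one_of_mul_eq_one_right h7, Nat.eq_one_of_mul_eq_one_left h7⟩
    · refine ⟨x, y, z, hne, ?_⟩
      rw [mul_zero] at ht
      linarith
    · refine ⟨x * z + b * y, y * z - a * x, z ^ 2 + a * b, Or.inr (Or.inr ?_), ?_⟩
      · have : (0 : ℤ) < z ^ 2 + a * b := by positivity
        exact this.ne'
      · have h5 : (a : ℤ) * x ^ 2 + b * y ^ 2 = c * (z ^ 2 + a * b) := by linarith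
        linear_combination (z ^ 2 + (a : ℤ) * b) * h5
    · exfalso
      have h5 : (a : ℤ) * x ^ 2 = a * (b * c) := by rw [k1]; linarith
      have h6 : (b : ℤ) * y ^ 2 = b * (a * c) := by rw [k2]; linarith
      have h7 : x ^ 2 = ((b * c : ℕ) : ℤ) := by
        have := mul_left_cancel₀ ha'.ne' h5
        push_cast
        exact this
      have h8 : y ^ 2 = ((a * c : ℕ) : ℤ) := by
        have := mul_left_cancel₀ hb'.ne' h6
        push_cast
        exact this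
      have h9 := leg_sq ((Nat.squarefree_mul hbc).2 ⟨sb, sc⟩) h7
      have h10 := leg_sq ((Nat.squarefree_mul hac).2 ⟨sa, sc⟩) h8
      exact h11 ⟨Nat.eq_one_of_mul_eq_one_right h10, Nat.eq_one_of_mul_eq_one_right h9⟩

end Pool.Agent.Lib.MP_673eb1_lc
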