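import Pool.Agent.Lib.MP_673eb1_lc.PDA

/-!
MP_673eb1_lc, block PD, file B (helper31): anisotropy of the norm forms over finite fields.
-/

set_option autoImplicit false

open scoped BigOperators

namespace Pool.Agent.Lib.MP_673eb1_lc

section abstract

variable {h : ℕ} {R : Type*} [CommRing R] (σ : R ≃+* R)

theorem iter_h_mul (hσ : ∀ x, σ^[h] x = x) (n i : ℕ) (x : R) : σ^[i + h * n] x = σ^[i] x := by
  induction n with
  | zero => rfl
  | succ n ih =>
    rw [mul_add, mul_one, ← add_assoc, Function.iterate_add_apply, hσ, ih]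

theorem iter_mod (hσ : ∀ x, σ^[h] x = x) (i : ℕ) (x : R) : σ^[i % h] x = σ^[i] x := by
  conv_rhs => rw [← Nat.mod_add_div i h]
  rw [iter_h_mul σ hσ]

theorem iter_congr (hσ : ∀ x, σ^[h] x = x) (i j : ℕ) (hij : (i : ZMod h) = j) (x : R) :
    σ^[i] x = σ^[j] x := by
  have h1 : i % h = j % h := (ZMod.natCast_eq_natCast_iff' i j h).1 hij
  rw [← iter_mod σ hσ i, ← iter_mod σ hσ j, h1]

theorem prod_range_zmod [Fact h.Prime] (hσ : ∀ x, σ^[h] x = x) (x : R) :
    ∏ i ∈ Finset.range h, σ^[i] x = ∏ c : ZMod h, σ^[c.val] x := by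
  have hh : 0 < h := (Fact.out : h.Prime).pos
  have : NeZero h := ⟨hh.ne'⟩
  refine Finset.prod_bij (fun i _ => (i : ZMod h)) (fun i _ => Finset.mem_univ _) ?_ ?_ ?_
  · intro i hi j hj hij
    have h1 : i % h = j % h := (ZMod.natCast_eq_natCast_iff' i j h).1 hij
    rwa [Nat.mod_eq_of_lt (Finset.mem_range.1 hi), Nat.mod_eq_of_lt (Finset.mem_range.1 hj)] at h1
  · intro c _
    exact ⟨c.val, Finset.mem_range.2 (ZMod.val_lt c), ZMod.natCast_zmod_val c⟩
  · intro i hi
    refine iter_congr σ hσ _ _ ?_ x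
    rw [ZMod.natCast_zmod_val]

theorem prod_range_mul [Fact h.Prime] (hσ : ∀ x, σ^[h] x = x) (j : ℕ) (hj : ¬ h ∣ j) (x : R) :
    ∏ i ∈ Finset.range h, σ^[i] x = ∏ i ∈ Finset.range h, σ^[i * j] x := by
  have hh : 0 < h := (Fact.out : h.Prime).pos
  have : NeZero h := ⟨hh.ne'⟩
  have hj0 : (j : ZMod h) ≠ 0 := by
    rw [Ne, ZMod.natCast_eq_zero_iff]
    exact hj
  have e1 : ∏ i ∈ Finset.range h, σ^[i * j] x = ∏ c : ZMod h, σ^[(c * j).val] x := by
    refine Finset.prod_bij (fun i _ => (i : ZMod h)) (fun i _ => Finset.mem_univ _) ?_ ?_ ?_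
    · intro i hi j hj hij
      have h1 : i % h = j % h := (ZMod.natCast_eq_natCast_iff' i j h).1 hij
      rwa [Nat.mod_eq_of_lt (Finset.mem_range.1 hi), Nat.mod_eq_of_lt (Finset.mem_range.1 hj)] at h1
    · intro c _
      exact ⟨c.val, Finset.mem_range.2 (ZMod.val_lt c), ZMod.natCast_zmod_val c⟩
    · intro i hi
      refine iter_congr σ hσ _ _ ?_ x
      rw [ZMod.natCast_zmod_val]
      push_cast
      ring
  rw [prod_range_zmod σ hσ, e1]
  exact (Fintype.prod_equiv (Equiv.mulRight₀ (j : ZMod h) hj0)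
    (fun c : ZMod h => σ^[(c * j).val] x) (fun c : ZMod h => σ^[c.val] x) (fun c => rfl)).symm

/-- If a power map is a nontrivial power of `σ`, the norm form of `σ` is anisotropic. -/
theorem aniso_aux [Fact h.Prime] (hσ : ∀ x, σ^[h] x = x) (N j : ℕ) (hN : 1 < N) (hj : ¬ h ∣ j)
    (hF : ∀ x : R, x ^ N = σ^[j] x) (x : R) (hx : ∏ i ∈ Finset.range h, σ^[i] x = 0) : x = 0 := by
  have h1 : ∀ (t : ℕ) (y : R), y ^ N ^ t = σ^[t * j] y := by
    intro t
    induction t with
    | zero =>
      intro y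
      simp
    | succ t ih =>
      intro y
      rw [pow_succ, pow_mul, ih, hF, ← Function.iterate_add_apply]
      congr 2
      ring
  rw [prod_range_mul σ hσ j hj] at hx
  have h2 : x ^ (∑ t ∈ Finset.range h, N ^ t) = 0 := by
    rw [← Finset.prod_pow_eq_pow_sum, ← hx]
    exact Finset.prod_congr rfl fun t _ => h1 t x
  obtain ⟨t, ht⟩ : ∃ t, ∑ t ∈ Finset.range h, N ^ t < N ^ t :=
    ⟨_, Nat.lt_pow_self hN⟩
  have h3 : x ^ N ^ t = 0 := pow_eq_zero_of_le ht.le h2
  rw [h1] at h3
  have h4 : Function.Injective (σ^[t * j]) := σ.injective.iterate _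
  apply h4
  rw [h3]
  have h5 : ∀ n : ℕ, σ^[n] (0 : R) = 0 := by
    intro n
    induction n with
    | zero => rfl
    | succ n ih => rw [Function.iterate_succ_apply, map_zero, ih]
  rw [h5]

end abstract

variable {h f : ℕ} [Fact h.Prime] (D : PerData h f)

section iter

variable {S : Type*} [CommRing S] (a : S)

theorem QR.sg_iterate (i : ℕ) (y : QR D a) :
    (QR.sg D a)^[i] y = ⟨(PR.sh D)^[i] y.re, (PR.sh D)^[i] y.im⟩ := by
  induction i generalizing y with
  | zero => rfl
  | succ i ih =>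
    rw [Function.iterate_succ_apply, ih]
    rfl

theorem QR.sg_iterate_h (y : QR D a) : (QR.sg D a)^[h] y = y := by
  rw [QR.sg_iterate, PR.sh_iterate_h, PR.sh_iterate_h]

end iter

section finite

variable {k : Type*} [Field k] [Fintype k]

/-- Anisotropy of the norm form of the periods over a finite field in which `f` is inert. -/
theorem PR.aniso (hN : (Fintype.card k).Coprime f) (hi : D.ind (Fintype.card k) ≠ 0) (x : PR D k)
    (hx : ∏ i ∈ Finset.range h, (PR.sh D)^[i] x = 0) : x = 0 := by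
  have hh : 0 < h := (Fact.out : h.Prime).pos
  have : NeZero h := ⟨hh.ne'⟩
  refine aniso_aux (PR.sh D) (PR.sh_iterate_h D) (Fintype.card k) (D.ind (Fintype.card k)).val
    Fintype.one_lt_card ?_ (fun x => PR.pow_card D k hN x) x hx
  rw [← ZMod.natCast_eq_zero_iff, ZMod.natCast_zmod_val]
  exact hi

theorem QR.pow_card (hN : (Fintype.card k).Coprime f) (hodd : Odd (Fintype.card k)) (a : k)
    (y : QR D a) : y ^ Fintype.card k =
      ⟨(PR.sh D)^[(D.ind (Fintype.card k)).val] y.re,
        a ^ (Fintype.card k / 2) • (PR.sh D)^[(D.ind (Fintype.card k)).val] y.im⟩ := by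
  obtain ⟨p, hp⟩ := CharP.exists k
  obtain ⟨n, hpp, hn⟩ := FiniteField.card k p
  have : Fact p.Prime := ⟨hpp⟩
  have hcP : CharP (PR D k) p := PR.charP D p
  have hcQ : CharP (QR D a) p := by
    constructor
    intro n
    rw [← CharP.cast_eq_zero_iff (PR D k) p n]
    constructor
    · intro h0
      have := congrArg QuadraticAlgebra.re h0
      simpa using this
    · intro h0
      refine QuadraticAlgebra.ext ?_ ?_
      · simpa using h0
      · simp
  set N := Fintype.card k with hNdef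
  have hy : y = algebraMap (PR D k) (QR D a) y.re +
      algebraMap (PR D k) (QR D a) y.im * QuadraticAlgebra.omega := by
    refine QuadraticAlgebra.ext ?_ ?_ <;> simp
  have hom : (QuadraticAlgebra.omega : QR D a) ^ N =
      algebraMap (PR D k) (QR D a) (algebraMap k (PR D k) (a ^ (N / 2))) *
        QuadraticAlgebra.omega := by
    have h2 : (QuadraticAlgebra.omega : QR D a) ^ 2 =
        algebraMap (PR D k) (QR D a) (algebraMap k (PR D k) a) := by
      rw [pow_two, QuadraticAlgebra.omega_mul_omega_eq_mk]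
      rfl
    obtain ⟨r, hr⟩ := hodd
    have hr2 : N / 2 = r := by omega
    rw [hr2, hr, pow_succ, pow_mul, h2, map_pow, map_pow]
  conv_lhs => rw [hy, hn, add_pow_char_pow, ← hn, mul_pow, hom, ← map_pow, ← map_pow,
    PR.pow_card D k hN, PR.pow_card D k hN]
  rw [Algebra.smul_def (a ^ (N / 2))]
  rw [← mul_assoc, ← map_mul]
  refine QuadraticAlgebra.ext ?_ ?_
  · rw [QuadraticAlgebra.re_add, QuadraticAlgebra.re_mul, QuadraticAlgebra.algebraMap_re,
      QuadraticAlgebra.algebraMap_re, QuadraticAlgebra.algebraMap_im, QuadraticAlgebra.omega_re]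
    simp [hNdef]
  · rw [QuadraticAlgebra.im_add, QuadraticAlgebra.im_mul, QuadraticAlgebra.algebraMap_re,
      QuadraticAlgebra.algebraMap_im, QuadraticAlgebra.algebraMap_im, QuadraticAlgebra.omega_re,
      QuadraticAlgebra.omega_im, mul_comm (algebraMap k (PR D k) _)]
    simp [hNdef]

theorem QR.pow_card_sq (hN : (Fintype.card k).Coprime f) (hodd : Odd (Fintype.card k)) (a : k)
    (ha : a ≠ 0) (y : QR D a) : y ^ (Fintype.card k ^ 2) =
      (QR.sg D a)^[2 * (D.ind (Fintype.card k)).val] y := by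
  have hsm : ∀ (n : ℕ) (r : k) (x : PR D k), (PR.sh D)^[n] (r • x) = r • (PR.sh D)^[n] x := by
    intro n r x
    ext c
    simp [PR.sh_iterate]
  have h1 : (a ^ (Fintype.card k / 2)) * (a ^ (Fintype.card k / 2)) = 1 := by
    rw [← pow_add]
    obtain ⟨r, hr⟩ := hodd
    have : Fintype.card k / 2 + Fintype.card k / 2 = Fintype.card k - 1 := by omega
    rw [this]
    exact FiniteField.pow_card_sub_one_eq_one a ha
  rw [pow_two, pow_mul, QR.pow_card D hN hodd, QR.pow_card D hN hodd, QR.sg_iterate]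
  refine QuadraticAlgebra.ext ?_ ?_
  · change (PR.sh D)^[_] ((PR.sh D)^[_] y.re) = _
    rw [← Function.iterate_add_apply, ← two_mul]
  · change _ • (PR.sh D)^[_] (_ • (PR.sh D)^[_] y.im) = _
    rw [hsm, smul_smul, h1, one_smul, ← Function.iterate_add_apply, ← two_mul]

/-- Anisotropy of the norm form of the periods on `QR` over a finite field. -/
theorem QR.aniso (hN : (Fintype.card k).Coprime f) (hi : D.ind (Fintype.card k) ≠ 0)
    (hodd : Odd (Fintype.card k)) (a : k) (ha : a ≠ 0) (y : QR D a)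
    (hy : ∏ i ∈ Finset.range h, (QR.sg D a)^[i] y = 0) : y = 0 := by
  have hh : 0 < h := (Fact.out : h.Prime).pos
  have : NeZero h := ⟨hh.ne'⟩
  refine aniso_aux (QR.sg D a) (QR.sg_iterate_h D a) (Fintype.card k ^ 2)
    (2 * (D.ind (Fintype.card k)).val) ?_ ?_ (fun x => QR.pow_card_sq D hN hodd a ha x) y hy
  · exact Nat.one_lt_pow (by norm_num) Fintype.one_lt_card
  · intro h2
    rcases ((Fact.out : h.Prime).dvd_mul).1 h2 with h3 | h3
    · exact D.hodd ((Nat.prime_dvd_prime_iff_eq Fact.out Nat.prime_two).1 h3)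
    · rw [← ZMod.natCast_eq_zero_iff, ZMod.natCast_zmod_val] at h3
      exact hi h3

end finite

end Pool.Agent.Lib.MP_673eb1_lc
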