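import Pool.Agent.Lib.MP_673eb1_lc.PDB
import Pool.Agent.Lib.MP_673eb1_lc.TRDef
import Pool.Agent.Lib.ZD.Deg

/-!
MP_673eb1_lc, block PD, file C (helper31): anisotropy at the inert primes of a number field,
integrality of the points of the tori, the norm form at inert primes.
-/

set_option autoImplicit false

open scoped BigOperators
open NumberField IsDedekindDomain Pool.Agent.ZD

namespace Pool.Agent.Lib.MP_673eb1_lc

section prim

variable {K : Type} [Field K] [NumberField K] (v : HeightOneSpectrum (𝓞 K))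

/-- A nonzero vector is proportional to a primitive vector with entries in `𝓞 K`. -/
theorem exists_prim {ι : Type} [Finite ι] (x : ι → K) (i₁ : ι) (hx : x i₁ ≠ 0) :
    ∃ (c : K) (X : ι → 𝓞 K) (i₀ : ι), c ≠ 0 ∧ (∀ i, c * x i = (X i : K)) ∧ X i₀ ∉ v.asIdeal ∧
      (∀ i, v.valuation K (x i) ≤ v.valuation K (x i₀)) ∧
      v.valuation K c * v.valuation K (x i₀) = 1 := by
  classical
  have := Fintype.ofFinite ι
  obtain ⟨i₀, -, hi₀⟩ := Finset.exists_max_image Finset.univ (fun i => v.valuation K (x i))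
    ⟨i₁, Finset.mem_univ _⟩
  have h0 : x i₀ ≠ 0 := by
    intro h0
    have h1 := hi₀ i₁ (Finset.mem_univ _)
    rw [h0, map_zero, le_zero_iff, (v.valuation K).zero_iff] at h1
    exact hx h1
  have hv0 : v.valuation K (x i₀) ≠ 0 := by
    rw [Ne, (v.valuation K).zero_iff]
    exact h0
  have h1 : ∀ i, v.valuation K (x i / x i₀) ≤ 1 := by
    intro i
    rw [map_div₀]
    exact div_le_one_of_le₀ (hi₀ i (Finset.mem_univ _)) zero_le
  have h2 := fun i => v.exists_primeCompl_mul_eq_of_integer (K := K) (x i / x i₀) (h1 i)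
  choose n d hnd using h2
  have hd : ∀ i, ((d i : 𝓞 K)) ∉ v.asIdeal := fun i => (d i).2
  have hprod : (∏ i, (d i : 𝓞 K)) ∉ v.asIdeal := by
    intro hp
    obtain ⟨i, -, hi⟩ := (v.isPrime.prod_mem_iff).1 hp
    exact hd i hi
  refine ⟨((∏ i, (d i : 𝓞 K) : 𝓞 K) : K) / x i₀,
    fun i => n i * ∏ j ∈ Finset.univ.erase i, (d j : 𝓞 K), i₀, ?_, ?_, ?_, ?_, ?_⟩
  · refine div_ne_zero ?_ h0
    intro h3
    apply hprod
    have : (∏ i, (d i : 𝓞 K)) = 0 := RingOfIntegers.ext h3
    rw [this]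
    exact v.asIdeal.zero_mem
  · intro i
    have h3 : (∏ i, (d i : 𝓞 K)) = d i * ∏ j ∈ Finset.univ.erase i, (d j : 𝓞 K) :=
      (Finset.mul_prod_erase Finset.univ (fun j => (d j : 𝓞 K)) (Finset.mem_univ i)).symm
    rw [h3]
    have h4 := hnd i
    have h5 : (((d i : 𝓞 K) * ∏ j ∈ Finset.univ.erase i, (d j : 𝓞 K) : 𝓞 K) : K) =
        ((d i : 𝓞 K) : K) * ((∏ j ∈ Finset.univ.erase i, (d j : 𝓞 K) : 𝓞 K) : K) := map_mul _ _ _
    have h6 : ((n i * ∏ j ∈ Finset.univ.erase i, (d j : 𝓞 K) : 𝓞 K) : K) =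
        (n i : K) * ((∏ j ∈ Finset.univ.erase i, (d j : 𝓞 K) : 𝓞 K) : K) := map_mul _ _ _
    rw [h5, h6]
    change x i / x i₀ * ((d i : 𝓞 K) : K) = (n i : K) at h4
    rw [← h4]
    ring
  · have h3 : n i₀ = (d i₀ : 𝓞 K) := by
      apply RingOfIntegers.ext
      have h4 := hnd i₀
      change x i₀ / x i₀ * ((d i₀ : 𝓞 K) : K) = (n i₀ : K) at h4
      rw [div_self h0, one_mul] at h4
      exact h4.symm
    change n i₀ * ∏ j ∈ Finset.univ.erase i₀, (d j : 𝓞 K) ∉ v.asIdeal
    rw [h3, Finset.mul_prod_erase Finset.univ (fun j => (d j : 𝓞 K)) (Finset.mem_univ i₀)]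
    exact hprod
  · exact fun i => hi₀ i (Finset.mem_univ _)
  · rw [map_div₀, div_mul_cancel₀ _ hv0]
    have : v.valuation K (algebraMap (𝓞 K) K (∏ i, (d i : 𝓞 K))) = 1 := by
      rw [v.valuation_eq_one_iff_notMem]
      exact hprod
    exact this

end prim

variable {h f : ℕ} [Fact h.Prime] (D : PerData h f)

/-- The norm form of the periods, with values in `S`. -/
def PR.nm0 {S : Type*} [CommRing S] (x : PR D S) : S :=
  -((∏ i ∈ Finset.range h, (PR.sh D)^[i] x : PR D S) 0)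

section nrm

variable {S : Type*} [CommRing S]

theorem PR.sh_prod (x : PR D S) :
    PR.sh D (∏ i ∈ Finset.range h, (PR.sh D)^[i] x) = ∏ i ∈ Finset.range h, (PR.sh D)^[i] x := by
  have hh : 0 < h := (Fact.out : h.Prime).pos
  obtain ⟨n, rfl⟩ : ∃ n, h = n + 1 := ⟨h - 1, by omega⟩
  rw [map_prod]
  have h1 : ∀ i, PR.sh D ((PR.sh D)^[i] x) = (PR.sh D)^[i + 1] x := fun i =>
    (Function.iterate_succ_apply' _ _ _).symm
  simp_rw [h1]
  rw [Finset.prod_range_succ, Finset.prod_range_succ', PR.sh_iterate_h]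
  rfl

theorem PR.algebraMap_nm0 (x : PR D S) :
    algebraMap S (PR D S) (PR.nm0 D x) = ∏ i ∈ Finset.range h, (PR.sh D)^[i] x :=
  (PR.fixed D _ (PR.sh_prod D x)).symm

theorem PR.nm0_mul (x y : PR D S) : PR.nm0 D (x * y) = PR.nm0 D x * PR.nm0 D y := by
  apply PR.algebraMap_inj D
  rw [map_mul, PR.algebraMap_nm0, PR.algebraMap_nm0, PR.algebraMap_nm0, ← Finset.prod_mul_distrib]
  exact Finset.prod_congr rfl fun i _ => PR.sh_iterate_mul D i x y

theorem PR.nm0_algebraMap (r : S) : PR.nm0 D (algebraMap S (PR D S) r) = r ^ h := by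
  apply PR.algebraMap_inj D
  rw [PR.algebraMap_nm0, map_pow]
  have h1 : ∀ i : ℕ, (PR.sh D)^[i] (algebraMap S (PR D S) r) = algebraMap S (PR D S) r := by
    intro i
    ext c
    rw [PR.sh_iterate]
    simp
  simp_rw [h1]
  rw [Finset.prod_const, Finset.card_range]

theorem PR.nm0_smul (r : S) (x : PR D S) : PR.nm0 D (r • x) = r ^ h * PR.nm0 D x := by
  rw [Algebra.smul_def, PR.nm0_mul, PR.nm0_algebraMap]

theorem PR.nm0_one : PR.nm0 D (1 : PR D S) = 1 := by
  have := PR.nm0_algebraMap D (1 : S)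
  rwa [map_one, one_pow] at this

theorem PR.map_iterate {S' : Type*} [CommRing S'] (φ : S →+* S') (i : ℕ) (x : PR D S) :
    PR.map D φ ((PR.sh D)^[i] x) = (PR.sh D)^[i] (PR.map D φ x) := by
  ext c
  rw [PR.sh_iterate, PR.map_apply, PR.map_apply, PR.sh_iterate]

theorem PR.map_nm0 {S' : Type*} [CommRing S'] (φ : S →+* S') (x : PR D S) :
    φ (PR.nm0 D x) = PR.nm0 D (PR.map D φ x) := by
  apply PR.algebraMap_inj D
  rw [← PR.map_algebraMap, PR.algebraMap_nm0, PR.algebraMap_nm0, map_prod]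
  exact Finset.prod_congr rfl fun i _ => PR.map_iterate D φ i x

/-- `x` divides its norm. -/
theorem PR.dvd_nm0 (x : PR D S) : x ∣ algebraMap S (PR D S) (PR.nm0 D x) := by
  have hh : 0 < h := (Fact.out : h.Prime).pos
  rw [PR.algebraMap_nm0]
  exact Finset.dvd_prod_of_mem (fun i => (PR.sh D)^[i] x) (Finset.mem_range.2 hh)

end nrm

section residue

variable {K : Type} [Field K] [NumberField K] {v : HeightOneSpectrum (𝓞 K)}

/-- The residue field as a finite field of cardinality `nm v`. -/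
theorem card_residue (v : HeightOneSpectrum (𝓞 K)) : Nat.card (𝓞 K ⧸ v.asIdeal) = nm v := rfl

theorem finite_residue (v : HeightOneSpectrum (𝓞 K)) : Finite (𝓞 K ⧸ v.asIdeal) := by
  have h1 := nm_pos v
  rw [← card_residue] at h1
  exact Nat.finite_of_card_ne_zero h1.ne'

theorem nm_mem (v : HeightOneSpectrum (𝓞 K)) : ((nm v : ℕ) : 𝓞 K) ∈ v.asIdeal :=
  Ideal.absNorm_mem v.asIdeal

/-- a rational prime not in `v` is prime to the norm of `v` -/
theorem coprime_nm {r : ℕ} (hr : r.Prime) (hv : ((r : ℕ) : 𝓞 K) ∉ v.asIdeal) :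
    (nm v).Coprime r := by
  rw [Nat.coprime_comm]
  refine (Nat.Prime.coprime_iff_not_dvd hr).2 ?_
  intro hd
  obtain ⟨p, n, hp, hn, hpn, -⟩ := nm_eq v
  rw [hpn] at hd
  have h1 : r = p := (Nat.prime_dvd_prime_iff_eq hr hp).1 (hr.dvd_of_dvd_pow hd)
  apply hv
  have h2 := nm_mem v
  rw [hpn] at h2
  push_cast at h2
  rw [h1]
  exact v.isPrime.mem_of_pow_mem _ h2

theorem PR.nm0_notMem (hv : Inert D v) (X : PR D (𝓞 K)) (c : ZMod h) (hc : X c ∉ v.asIdeal) :
    PR.nm0 D X ∉ v.asIdeal := by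
  intro hmem
  have := finite_residue v
  let _ : Fintype (𝓞 K ⧸ v.asIdeal) := Fintype.ofFinite _
  have : v.asIdeal.IsMaximal := v.isMaximal
  let _ : Field (𝓞 K ⧸ v.asIdeal) := Ideal.Quotient.field v.asIdeal
  have hcard : Fintype.card (𝓞 K ⧸ v.asIdeal) = nm v := by
    rw [← Nat.card_eq_fintype_card, card_residue]
  have h1 : PR.nm0 D (PR.map D (Ideal.Quotient.mk v.asIdeal) X) = 0 := by
    rw [← PR.map_nm0]
    exact Ideal.Quotient.eq_zero_iff_mem.2 hmem
  have h2 : PR.map D (Ideal.Quotient.mk v.asIdeal) X = 0 := by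
    refine PR.aniso D (k := 𝓞 K ⧸ v.asIdeal) ?_ ?_ _ ?_
    · rw [hcard]
      exact coprime_nm D.hf hv.1
    · rw [hcard]
      exact hv.2
    · rw [← PR.algebraMap_nm0, h1, map_zero]
  have h3 := congrFun h2 c
  exact hc (Ideal.Quotient.eq_zero_iff_mem.1 h3)

/-- **The norm form at an inert prime** (AN): the valuation of the norm is `h` times the minimal
valuation of the coordinates. -/
theorem PR.valuation_nm0 (hv : Inert D v) (x : PR D K) :
    ∃ c₀, (∀ c, v.valuation K (x c) ≤ v.valuation K (x c₀)) ∧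
      v.valuation K (PR.nm0 D x) = v.valuation K (x c₀) ^ h := by
  by_cases hx : x = 0
  · refine ⟨0, fun c => ?_, ?_⟩
    · rw [hx, PR.zero_apply, PR.zero_apply]
    · have hh : h ≠ 0 := (Fact.out : h.Prime).ne_zero
      have h1 : PR.nm0 D (0 : PR D K) = 0 := by
        have := PR.nm0_smul D (0 : K) (0 : PR D K)
        rwa [zero_pow hh, zero_mul, smul_zero] at this
      rw [hx, h1]
      simp [hh]
  · obtain ⟨c₁, hc₁⟩ : ∃ c, x c ≠ 0 := by
      by_contra hcon
      push Not at hcon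
      exact hx (PR.ext D hcon)
    obtain ⟨c, X, c₀, hc0, hX, hmem, hmax, hval⟩ := exists_prim v (ι := ZMod h) x c₁ hc₁
    refine ⟨c₀, hmax, ?_⟩
    have h1 : c • x = PR.map D (algebraMap (𝓞 K) K) X := by
      ext i
      rw [PR.smul_apply, hX]
      rfl
    have h2 := PR.nm0_smul D c x
    rw [h1, ← PR.map_nm0] at h2
    have h3 : v.valuation K (algebraMap (𝓞 K) K (PR.nm0 D X)) = 1 := by
      rw [v.valuation_eq_one_iff_notMem]
      exact PR.nm0_notMem D hv X c₀ hmem
    rw [h2, map_mul, map_pow] at h3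
    have h4 : v.valuation K c ≠ 0 := by
      rw [Ne, (v.valuation K).zero_iff]
      exact hc0
    have h5 : v.valuation K c ^ h * v.valuation K (x c₀) ^ h = 1 := by
      rw [← mul_pow, hval, one_pow]
    exact mul_left_cancel₀ (pow_ne_zero h h4) (h3.trans h5.symm)

/-- **AN for `PR`**: the norm is `v`-integral only if the coordinates are. -/
theorem PR.coord_le (hv : Inert D v) (x : PR D K) (hx : v.valuation K (PR.nm0 D x) ≤ 1)
    (c : ZMod h) : v.valuation K (x c) ≤ 1 := by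
  obtain ⟨c₀, hmax, hval⟩ := PR.valuation_nm0 D hv x
  refine (hmax c).trans ?_
  rw [hval] at hx
  exact (pow_le_one_iff (Fact.out : h.Prime).ne_zero).1 hx

theorem PR.coord_le_of_prod (hv : Inert D v) (x : PR D K)
    (hx : ∏ i ∈ Finset.range h, (PR.sh D)^[i] x = 1) (c : ZMod h) : v.valuation K (x c) ≤ 1 := by
  refine PR.coord_le D hv x ?_ c
  have h1 : PR.nm0 D x = 1 := by
    apply PR.algebraMap_inj D
    rw [PR.algebraMap_nm0, hx, map_one]
  rw [h1, map_one]

theorem PR.nm0_ne_zero (hv : Inert D v) (x : PR D K) (hx : x ≠ 0) : PR.nm0 D x ≠ 0 := by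
  obtain ⟨c₀, hmax, hval⟩ := PR.valuation_nm0 D hv x
  intro h0
  rw [h0, map_zero] at hval
  have h1 : v.valuation K (x c₀) = 0 := eq_zero_of_pow_eq_zero hval.symm
  apply hx
  ext c
  have h2 := hmax c
  rw [h1, le_zero_iff, (v.valuation K).zero_iff] at h2
  exact h2

end residue

end Pool.Agent.Lib.MP_673eb1_lc
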