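import Pool.Agent.Lib.MP_673eb1_lc.PDD
import Mathlib.NumberTheory.NumberField.InfinitePlace.TotallyRealComplex

/-!
MP_673eb1_lc, block PD, file E (helper31): embeddings of the period rings into the complex numbers.
-/

set_option autoImplicit false

open scoped BigOperators
open NumberField IsDedekindDomain Pool.Agent.ZD Polynomial

namespace Pool.Agent.Lib.MP_673eb1_lc

variable {h f : ℕ} [Fact h.Prime] (D : PerData h f)

/-- The minimal polynomial of the periods. -/
theorem PR.exists_poly : ∃ P : ℤ[X], P.map (algebraMap ℤ (PR D ℤ)) = ∏ c, (X - C (PR.e D c)) ∧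
    P.map (Int.castRingHom ℝ) = ∏ c, (X - C (D.η c)) := by
  set Q : (PR D ℤ)[X] := ∏ c, (X - C (PR.e D c)) with hQ
  let sh' : PR D ℤ →+* PR D ℤ := (PR.sh D (S := ℤ)).toRingHom
  have h1 : Q.map sh' = Q := by
    rw [hQ, Polynomial.map_prod]
    have h2 : ∀ c, (X - C (PR.e D c) : (PR D ℤ)[X]).map sh' =
        X - C (PR.e D (c + 1)) := by
      intro c
      rw [Polynomial.map_sub, map_X, map_C]
      congr 2
      exact PR.sh_e D c
    simp_rw [h2]
    exact Fintype.prod_equiv (Equiv.addRight (1 : ZMod h))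
      (fun c => (X - C (PR.e D (c + 1)) : (PR D ℤ)[X]))
      (fun c => (X - C (PR.e D c) : (PR D ℤ)[X])) (fun c => rfl)
  have h2 : ∀ n, Q.coeff n = algebraMap ℤ (PR D ℤ) (-(Q.coeff n) 0) := by
    intro n
    apply PR.fixed
    have h3 := congrArg (fun P => P.coeff n) h1
    simp only [coeff_map] at h3
    exact h3
  let P : ℤ[X] := ∑ n ∈ Finset.range (Q.natDegree + 1), monomial n (-(Q.coeff n) 0)
  have hP : P.map (algebraMap ℤ (PR D ℤ)) = Q := by
    conv_rhs => rw [Q.as_sum_range]
    simp only [P, Polynomial.map_sum, map_monomial]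
    refine Finset.sum_congr rfl fun n _ => ?_
    rw [← h2]
  refine ⟨P, hP, ?_⟩
  have h4 : (PR.toReal D).comp (algebraMap ℤ (PR D ℤ)) = Int.castRingHom ℝ :=
    RingHom.ext_int _ _
  rw [← h4, ← Polynomial.map_map, hP, hQ, Polynomial.map_prod]
  refine Finset.prod_congr rfl fun c _ => ?_
  rw [Polynomial.map_sub, map_X, map_C, PR.toReal_e]

/-- The images of the periods under a ring homomorphism to `ℂ` are periods. -/
theorem PR.image_e (φ : PR D ℤ →+* ℂ) (c : ZMod h) : ∃ c' : ZMod h, φ (PR.e D c) = (D.η c' : ℂ) := by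
  obtain ⟨P, hP1, hP2⟩ := PR.exists_poly D
  have h1 : (P.map (algebraMap ℤ (PR D ℤ))).eval (PR.e D c) = 0 := by
    rw [hP1, eval_prod]
    apply Finset.prod_eq_zero (Finset.mem_univ c)
    rw [eval_sub, eval_X, eval_C, sub_self]
  have h2 : (P.map (Int.castRingHom ℂ)).eval (φ (PR.e D c)) = 0 := by
    have h3 : φ.comp (algebraMap ℤ (PR D ℤ)) = Int.castRingHom ℂ := RingHom.ext_int _ _
    rw [← h3, ← Polynomial.map_map, eval_map_apply, h1, map_zero]
  have h4 : P.map (Int.castRingHom ℂ) = ∏ c, (X - C ((D.η c : ℝ) : ℂ)) := by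
    have h3 : Complex.ofRealHom.comp (Int.castRingHom ℝ) = Int.castRingHom ℂ := RingHom.ext_int _ _
    rw [← h3, ← Polynomial.map_map, hP2, Polynomial.map_prod]
    refine Finset.prod_congr rfl fun c _ => ?_
    rw [Polynomial.map_sub, map_X, map_C]
    rfl
  rw [h4, eval_prod, Finset.prod_eq_zero_iff] at h2
  obtain ⟨c', -, hc'⟩ := h2
  refine ⟨c', ?_⟩
  rw [eval_sub, eval_X, eval_C, sub_eq_zero] at hc'
  exact hc'

section toC

variable {S : Type*} [CommRing S]

/-- The extension of `φ : S → ℂ` to `PR D S`, `e_c ↦ η_c`. -/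
noncomputable def PR.toC (φ : S →+* ℂ) : PR D S →+* ℂ where
  toFun x := ∑ c, φ (x c) * (D.η c : ℂ)
  map_zero' := by simp
  map_one' := by
    have : ∑ c, φ ((1 : PR D S) c) * (D.η c : ℂ) = - ((∑ c, D.η c : ℝ) : ℂ) := by
      push_cast
      rw [← Finset.sum_neg_distrib]
      refine Finset.sum_congr rfl fun c _ => ?_
      simp
    rw [this, D.sum_η]
    push_cast
    ring
  map_add' x y := by
    rw [← Finset.sum_add_distrib]
    refine Finset.sum_congr rfl fun c _ => ?_
    rw [PR.add_apply, map_add]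
    ring
  map_mul' x y := by
    rw [Finset.sum_mul_sum]
    have h1 : ∀ c c' : ZMod h, φ (x c) * (D.η c : ℂ) * (φ (y c') * (D.η c' : ℂ))
        = ∑ k, φ (x c) * φ (y c') * ((D.m c c' k : ℂ) * (D.η k : ℂ)) := by
      intro c c'
      have h2 : (D.η c : ℂ) * (D.η c' : ℂ) = ∑ k, (D.m c c' k : ℂ) * (D.η k : ℂ) := by
        rw [← Complex.ofReal_mul, D.mul_η]
        push_cast
        rfl
      rw [← Finset.mul_sum, ← h2]
      ring
    simp_rw [h1]
    have h2 : ∀ k, φ ((x * y) k) * (D.η k : ℂ)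
        = ∑ c, ∑ c', φ (x c) * φ (y c') * ((D.m c c' k : ℂ) * (D.η k : ℂ)) := by
      intro k
      rw [PR.mul_apply, map_sum, Finset.sum_mul]
      refine Finset.sum_congr rfl fun c _ => ?_
      rw [map_sum, Finset.sum_mul]
      refine Finset.sum_congr rfl fun c' _ => ?_
      rw [map_mul, map_mul, map_intCast]
      ring
    simp_rw [h2]
    rw [Finset.sum_comm]
    refine Finset.sum_congr rfl fun c _ => ?_
    rw [Finset.sum_comm]

theorem PR.toC_apply (φ : S →+* ℂ) (x : PR D S) :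
    PR.toC D φ x = ∑ c, φ (x c) * (D.η c : ℂ) := rfl

theorem PR.toC_algebraMap (φ : S →+* ℂ) (r : S) : PR.toC D φ (algebraMap S (PR D S) r) = φ r := by
  have h1 : PR.toC D φ (algebraMap S (PR D S) r) = - φ r * ((∑ c, D.η c : ℝ) : ℂ) := by
    rw [PR.toC_apply]
    push_cast
    rw [Finset.mul_sum]
    refine Finset.sum_congr rfl fun c _ => ?_
    simp
  rw [h1, D.sum_η]
  push_cast
  ring

end toC

section real

variable {K : Type} [Field K]

/-- If all embeddings of `K` are real, `PR D K` has only real values in `ℂ`. -/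
theorem PR.real_of_real [IsTotallyReal K] (φ : PR D K →+* ℂ) (x : PR D K) :
    (starRingEnd ℂ) (φ x) = φ x := by
  have hK : ∀ r : K, (starRingEnd ℂ) (φ (algebraMap K (PR D K) r)) =
      φ (algebraMap K (PR D K) r) := by
    intro r
    have h1 := IsTotallyReal.complexEmbedding_isReal (K := K) (φ.comp (algebraMap K (PR D K)))
    have h2 := RingHom.congr_fun (ComplexEmbedding.isReal_iff.1 h1) r
    rwa [ComplexEmbedding.conjugate_coe_eq] at h2
  have he : ∀ c, (starRingEnd ℂ) (φ (PR.e D c)) = φ (PR.e D c) := by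
    intro c
    obtain ⟨c', hc'⟩ := PR.image_e D (φ.comp (PR.map D (Int.castRingHom K))) c
    rw [RingHom.comp_apply, PR.map_e] at hc'
    rw [hc', Complex.conj_ofReal]
  conv_lhs => rw [PR.eq_sum D x]
  conv_rhs => rw [PR.eq_sum D x]
  rw [map_sum, map_sum]
  refine Finset.sum_congr rfl fun c _ => ?_
  rw [Algebra.smul_def, map_mul, map_mul, hK, he]

/-- `-1` is not a square in `PR D K`, `K` totally real. -/
theorem PR.not_sq [NumberField K] [IsTotallyReal K] (r : PR D K) :
    r ^ 2 ≠ algebraMap K (PR D K) (-1) + 0 * r := by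
  intro h1
  obtain ⟨φ⟩ : Nonempty (K →+* ℂ) := inferInstance
  have h2 := congrArg (PR.toC D φ) h1
  rw [zero_mul, add_zero, PR.toC_algebraMap, map_pow, map_neg, map_one] at h2
  have h3 := PR.real_of_real D (PR.toC D φ) r
  rw [Complex.conj_eq_iff_real] at h3
  obtain ⟨s, hs⟩ := h3
  rw [hs] at h2
  have h4 : s ^ 2 = -1 := by exact_mod_cast h2
  nlinarith [sq_nonneg s]

end real

end Pool.Agent.Lib.MP_673eb1_lc
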