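import Pool.Agent.Lib.MP_673eb1_lc.PDE
import Pool.Agent.Lib.MP_673eb1_lc.C50.CompSpec

/-!
MP_673eb1_lc, block PD (helper31): the frame `L = QR D (-1 : K)` for a totally real field `K`.
-/

set_option autoImplicit false

open scoped BigOperators
open NumberField IsDedekindDomain Pool.Agent.ZD Pool.Agent.ZT Pool.Agent.C50

namespace Pool.Agent.Lib.MP_673eb1_lc

variable {h f : ℕ} [Fact h.Prime] (D : PerData h f) (K : Type) [Field K] [NumberField K]

/-- `σ` as an automorphism of the `K`-algebra `LL D K`. -/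
noncomputable def LL.sig : LL D K ≃ₐ[K] LL D K :=
  AlgEquiv.ofRingEquiv (f := QR.sg D (-1 : K)) (fun r => by
    refine QuadraticAlgebra.ext ?_ ?_
    · exact PR.sh_algebraMap D r
    · exact map_zero (PR.sh D))

/-- `τ` as an automorphism of the `K`-algebra `LL D K`. -/
noncomputable def LL.ta : LL D K ≃ₐ[K] LL D K where
  toFun := star
  invFun := star
  left_inv := star_star
  right_inv := star_star
  map_mul' x y := by rw [star_mul, mul_comm]
  map_add' := star_add
  commutes' r := by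
    refine QuadraticAlgebra.ext ?_ ?_
    · rw [QuadraticAlgebra.re_star]
      change algebraMap K (PR D K) r + 0 * 0 = algebraMap K (PR D K) r
      rw [zero_mul, add_zero]
    · rw [QuadraticAlgebra.im_star]
      change -(0 : PR D K) = 0
      rw [neg_zero]

theorem LL.sig_apply (y : LL D K) : LL.sig D K y = QR.sg D (-1 : K) y := rfl
theorem LL.ta_apply (y : LL D K) : LL.ta D K y = star y := rfl

theorem LL.sig_pow (i : ℕ) (y : LL D K) :
    (LL.sig D K ^ i) y = ⟨(PR.sh D)^[i] y.re, (PR.sh D)^[i] y.im⟩ := by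
  induction i with
  | zero => rfl
  | succ i ih =>
    rw [pow_succ', AlgEquiv.mul_apply, ih, LL.sig_apply, Function.iterate_succ_apply',
      Function.iterate_succ_apply']
    rfl

theorem LL.sig_pow_h : LL.sig D K ^ h = 1 := by
  ext y : 1
  rw [LL.sig_pow, PR.sh_iterate_h, PR.sh_iterate_h]
  rfl

theorem LL.ta_ta : LL.ta D K * LL.ta D K = 1 := by
  ext y : 1
  rw [AlgEquiv.mul_apply, LL.ta_apply, LL.ta_apply, star_star]
  rfl

theorem LL.comm : LL.sig D K * LL.ta D K = LL.ta D K * LL.sig D K := by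
  ext y : 1
  rw [AlgEquiv.mul_apply, AlgEquiv.mul_apply, LL.sig_apply, LL.ta_apply, LL.sig_apply, LL.ta_apply]
  refine QuadraticAlgebra.ext ?_ ?_
  · change PR.sh D (star y).re = (star (QR.sg D (-1 : K) y)).re
    rw [QuadraticAlgebra.re_star, QuadraticAlgebra.re_star]
    change PR.sh D (y.re + 0 * y.im) = PR.sh D y.re + 0 * PR.sh D y.im
    rw [zero_mul, zero_mul, add_zero, add_zero]
  · change PR.sh D (star y).im = (star (QR.sg D (-1 : K) y)).im
    rw [QuadraticAlgebra.im_star, QuadraticAlgebra.im_star, map_neg]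
    rfl

/-- The map `(i, j) ↦ σ ^ i τ ^ j`. -/
noncomputable def LL.gal (x : Fin h × Bool) : LL D K ≃ₐ[K] LL D K :=
  if x.2 then LL.sig D K ^ (x.1 : ℕ) * LL.ta D K else LL.sig D K ^ (x.1 : ℕ)

theorem LL.gal_injective : Function.Injective (LL.gal D K) := by
  have h1 : ∀ x : Fin h × Bool, LL.gal D K x ⟨PR.e D 0, 0⟩ = ⟨PR.e D (x.1 : ℕ), 0⟩ := by
    intro x
    have h2 : ∀ i : ℕ, (PR.sh D)^[i] (PR.e D 0 : PR D K) = PR.e D (i : ℕ) := by
      intro i
      ext c
      rw [PR.sh_iterate, PR.e_apply, PR.e_apply]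
      congr 1
      rw [eq_iff_iff, sub_eq_zero]
    have h3 : ∀ i : ℕ, (PR.sh D)^[i] (0 : PR D K) = 0 := by
      intro i
      ext c
      rw [PR.sh_iterate]
      rfl
    unfold LL.gal
    split_ifs with hx
    · rw [AlgEquiv.mul_apply, LL.ta_apply]
      have h4 : star (⟨PR.e D 0, 0⟩ : LL D K) = ⟨PR.e D 0, 0⟩ := by
        refine QuadraticAlgebra.ext ?_ ?_
        · rw [QuadraticAlgebra.re_star, mul_zero, add_zero]
        · rw [QuadraticAlgebra.im_star, neg_zero]
      rw [h4, LL.sig_pow, h2, h3]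
    · rw [LL.sig_pow, h2, h3]
  have h5 : ∀ x : Fin h × Bool, LL.gal D K x ⟨0, 1⟩ = ⟨0, if x.2 then -1 else 1⟩ := by
    intro x
    have h3 : ∀ i : ℕ, (PR.sh D)^[i] (0 : PR D K) = 0 := by
      intro i
      ext c
      rw [PR.sh_iterate]
      rfl
    have h6 : ∀ i : ℕ, (PR.sh D)^[i] (1 : PR D K) = 1 := by
      intro i
      ext c
      rw [PR.sh_iterate]
      rfl
    have h7 : ∀ i : ℕ, (PR.sh D)^[i] (-1 : PR D K) = -1 := by
      intro i
      ext c
      rw [PR.sh_iterate]
      rfl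
    unfold LL.gal
    split_ifs with hx
    · rw [AlgEquiv.mul_apply, LL.ta_apply]
      have h4 : star (⟨0, 1⟩ : LL D K) = ⟨0, -1⟩ := by
        refine QuadraticAlgebra.ext ?_ ?_
        · rw [QuadraticAlgebra.re_star]
          change (0 : PR D K) + 0 * 1 = 0
          rw [zero_mul, add_zero]
        · rw [QuadraticAlgebra.im_star]
      rw [h4, LL.sig_pow, h7, h3]
    · rw [LL.sig_pow, h6, h3]
  have h0 : ∀ i j : ℕ, (PR.e D (i : ZMod h) : PR D K) = PR.e D (j : ZMod h) →
      (i : ZMod h) = (j : ZMod h) := by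
    intro i j hij
    have := congrFun hij (i : ZMod h)
    change (PR.e D (i : ZMod h) : PR D K) (i : ZMod h) = (PR.e D (j : ZMod h) : PR D K) (i : ZMod h)
      at this
    rw [PR.e_apply, PR.e_apply, if_pos rfl] at this
    by_contra hne
    rw [if_neg hne] at this
    exact one_ne_zero this
  rintro ⟨i, b⟩ ⟨j, b'⟩ hij
  have e1 := congrArg (fun g => g (⟨PR.e D 0, 0⟩ : LL D K)) hij
  have e2 := congrArg (fun g => g (⟨0, 1⟩ : LL D K)) hij
  simp only [h1, h5] at e1 e2
  have e3 := h0 _ _ (congrArg QuadraticAlgebra.re e1)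
  have e4 : i = j := by
    apply Fin.ext
    have := (ZMod.natCast_eq_natCast_iff' (i : ℕ) (j : ℕ) h).1 e3
    rwa [Nat.mod_eq_of_lt i.2, Nat.mod_eq_of_lt j.2] at this
  have e5 := congrArg QuadraticAlgebra.im e2
  have hne : (-1 : PR D K) ≠ 1 := by
    intro h8
    have h9 := congrFun h8 0
    change (-1 : PR D K) 0 = (1 : PR D K) 0 at h9
    rw [PR.neg_apply, PR.one_apply, neg_neg] at h9
    have h10 : (2 : K) = 0 := by
      linear_combination h9
    exact two_ne_zero h10
  have e6 : b = b' := by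
    cases b <;> cases b'
    · rfl
    · exact absurd e5.symm hne
    · exact absurd e5 hne
    · rfl
  rw [e4, e6]

end Pool.Agent.Lib.MP_673eb1_lc
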