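import Pool.Agent.Lib.MP_673eb1_lc.PDG
import Pool.Agent.Lib.ZD.Frob

/-!
MP_673eb1_lc, block PD, file H (helper31): homomorphisms of `PR D k`, `QR D (-1 : k)` to the finite field `k`
when `D.ind #k = 0`.
-/

set_option autoImplicit false

open scoped BigOperators
open NumberField IsDedekindDomain Pool.Agent.ZD

namespace Pool.Agent.Lib.MP_673eb1_lc

variable {h f : ℕ} [Fact h.Prime] (D : PerData h f)

section homs

variable {k : Type} [Field k] [Fintype k]

instance PR.fin : Finite (PR D k) := Finite.of_equiv (ZMod h → k) (Equiv.refl _)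

theorem PR.exists_hom (hN : (Fintype.card k).Coprime f) (h0 : D.ind (Fintype.card k) = 0) :
    ∃ ψ : PR D k →+* k, ∀ r, ψ (algebraMap k (PR D k) r) = r := by
  obtain ⟨M, hM⟩ := Ideal.exists_maximal (PR D k)
  let _ : Field (PR D k ⧸ M) := Ideal.Quotient.field M
  let π : PR D k →+* PR D k ⧸ M := Ideal.Quotient.mk M
  let j : k →+* PR D k ⧸ M := π.comp (algebraMap k (PR D k))
  have hj : Function.Injective j := j.injective
  have hpow : ∀ x : PR D k ⧸ M, x ^ Fintype.card k = x := by
    intro x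
    obtain ⟨y, rfl⟩ := Ideal.Quotient.mk_surjective x
    rw [← map_pow, PR.pow_card D k hN, h0, ZMod.val_zero, Function.iterate_zero, id]
  have hfin : Finite (PR D k ⧸ M) := Finite.of_surjective π Ideal.Quotient.mk_surjective
  have hcard : Nat.card (PR D k ⧸ M) ≤ Nat.card k := by
    rw [Nat.card_eq_fintype_card (α := k)]
    exact card_le_of_pow Fintype.one_lt_card hpow
  have hb : Function.Bijective j :=
    (Nat.bijective_iff_injective_and_card _).2 ⟨hj,
      le_antisymm (Nat.card_le_card_of_injective _ hj) hcard⟩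
  let e := RingEquiv.ofBijective j hb
  refine ⟨(e.symm : PR D k ⧸ M →+* k).comp π, fun r => ?_⟩
  exact e.symm_apply_apply r

theorem PR.hom_sh_ne (hN : (Fintype.card k).Coprime f) (h0 : D.ind (Fintype.card k) = 0)
    (ψ : PR D k →+* k) (hψ : ∀ r, ψ (algebraMap k (PR D k) r) = r) :
    ∃ x, ψ (PR.sh D x) ≠ ψ x := by
  classical
  have := Fintype.ofFinite (PR D k)
  by_contra hcon
  push Not at hcon
  have hh := (Fact.out : h.Prime)
  have hN1 : 1 < Fintype.card k := Fintype.one_lt_card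
  set N := Fintype.card k with hNd
  let s : Finset (PR D k) := Finset.univ.filter fun z => ψ z = 0
  let ε : PR D k := ∏ z ∈ s, (1 - z ^ (N - 1))
  have h1 : PR.sh D ε = ε := by
    simp only [ε]
    rw [map_prod]
    refine Finset.prod_equiv (PR.sh D).toEquiv (fun z => ?_) (fun z hz => ?_)
    · simp only [s, Finset.mem_filter, Finset.mem_univ, true_and]
      rw [← hcon z]
      exact Iff.rfl
    · rw [map_sub, map_one, map_pow]
      rfl
  have h2 := PR.fixed D ε h1
  have h3 : ψ ε = 1 := by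
    simp only [ε]
    rw [map_prod]
    refine Finset.prod_eq_one fun z hz => ?_
    have hz0 : ψ z = 0 := (Finset.mem_filter.1 hz).2
    rw [map_sub, map_one, map_pow, hz0, zero_pow (by omega), sub_zero]
  have h4 : ε = 1 := by
    rw [h2, hψ] at h3
    rw [h2, h3, map_one]
  have h5 : ∀ z, ψ z = 0 → z = 0 := by
    intro z hz
    have h6 : z * ε = 0 := by
      have hzs : z ∈ s := Finset.mem_filter.2 ⟨Finset.mem_univ _, hz⟩
      simp only [ε]
      rw [← Finset.mul_prod_erase s _ hzs, ← mul_assoc]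
      have h7 : z * (1 - z ^ (N - 1)) = 0 := by
        rw [mul_sub, mul_one, ← pow_succ', Nat.sub_add_cancel hN1.le, hNd, PR.pow_card D k hN, h0,
          ZMod.val_zero, Function.iterate_zero, id, sub_self]
      rw [h7, zero_mul]
    rwa [h4, mul_one] at h6
  have h6 := h5 (PR.e D 0 - algebraMap k (PR D k) (ψ (PR.e D 0))) (by rw [map_sub, hψ, sub_self])
  rw [sub_eq_zero] at h6
  have e0 := congrFun h6 0
  have e1 := congrFun h6 1
  change (PR.e D 0 : PR D k) 0 = (algebraMap k (PR D k) (ψ (PR.e D 0))) 0 at e0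
  change (PR.e D 0 : PR D k) 1 = (algebraMap k (PR D k) (ψ (PR.e D 0))) 1 at e1
  rw [PR.e_apply, PR.algebraMap_apply, if_pos rfl] at e0
  rw [PR.e_apply, PR.algebraMap_apply, if_neg one_ne_zero] at e1
  rw [← e1] at e0
  exact one_ne_zero e0

theorem PR.hom_iter_inj (hN : (Fintype.card k).Coprime f) (h0 : D.ind (Fintype.card k) = 0)
    (ψ : PR D k →+* k) (hψ : ∀ r, ψ (algebraMap k (PR D k) r) = r) (i j : ℕ) (hi : i < h)
    (hj : j < h) (hij : ∀ x, ψ ((PR.sh D)^[i] x) = ψ ((PR.sh D)^[j] x)) : i = j := by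
  wlog hle : i ≤ j generalizing i j
  · exact (this j i hj hi (fun x => (hij x).symm) (by omega)).symm
  by_contra hne
  have hh := (Fact.out : h.Prime)
  obtain ⟨x, hx⟩ := PR.hom_sh_ne D hN h0 ψ hψ
  apply hx
  set d := j - i with hd
  have h1 : ∀ y, ψ ((PR.sh D)^[d] y) = ψ y := by
    intro y
    obtain ⟨z, rfl⟩ : ∃ z, (PR.sh D)^[i] z = y := by
      refine ⟨(PR.sh D)^[h - i] y, ?_⟩
      rw [← Function.iterate_add_apply, Nat.add_sub_cancel' hi.le, PR.sh_iterate_h]
    rw [hij z, ← Function.iterate_add_apply, hd, Nat.sub_add_cancel hle]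
  have h2 : ∀ n y, ψ ((PR.sh D)^[d * n] y) = ψ y := by
    intro n
    induction n with
    | zero => intro y; rw [mul_zero, Function.iterate_zero, id]
    | succ n ih =>
      intro y
      rw [mul_add, mul_one, Function.iterate_add_apply, ih, h1]
  have hd0 : ((d : ℕ) : ZMod h) ≠ 0 := by
    rw [Ne, ZMod.natCast_eq_zero_iff]
    intro h3
    have := Nat.le_of_dvd (by omega) h3
    omega
  have h3 : ((d * ((d : ZMod h)⁻¹).val : ℕ) : ZMod h) = ((1 : ℕ) : ZMod h) := by
    push_cast
    rw [ZMod.natCast_val, ZMod.cast_id, mul_inv_cancel₀ hd0]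
  have h4 := PR.sh_iterate_mod D _ _ h3 x
  rw [Function.iterate_one] at h4
  rw [← h4, h2]

end homs

section pts

variable {S : Type} [CommRing S] {k : Type} [Field k] [Fintype k] (φ : S →+* k)

/-- The homomorphism `QR D (-1 : S) → k`, `y ↦ ψ (σ ^ i re y) + s ψ (σ ^ i im y)`, `s² = -1`. -/
def QR.pt (ψ : PR D k →+* k) (_hψ : ∀ r, ψ (algebraMap k (PR D k) r) = r) (s : k) (hs : s * s = -1)
    (i : ℕ) : QR D (-1 : S) →+* k where
  toFun y := ψ ((PR.sh D)^[i] (PR.map D φ y.re)) + s * ψ ((PR.sh D)^[i] (PR.map D φ y.im))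
  map_zero' := by
    change ψ ((PR.sh D)^[i] (PR.map D φ 0)) + s * ψ ((PR.sh D)^[i] (PR.map D φ 0)) = 0
    have h1 : (PR.sh D)^[i] (0 : PR D k) = 0 := by
      ext c
      rw [PR.sh_iterate]
      rfl
    rw [map_zero, h1, map_zero, mul_zero, add_zero]
  map_one' := by
    change ψ ((PR.sh D)^[i] (PR.map D φ 1)) + s * ψ ((PR.sh D)^[i] (PR.map D φ 0)) = 1
    have h1 : (PR.sh D)^[i] (0 : PR D k) = 0 := by
      ext c
      rw [PR.sh_iterate]
      rfl
    have h2 : (PR.sh D)^[i] (1 : PR D k) = 1 := by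
      ext c
      rw [PR.sh_iterate]
      rfl
    rw [map_zero, map_one, h1, h2, map_zero, map_one, mul_zero, add_zero]
  map_add' x y := by
    rw [QuadraticAlgebra.re_add, QuadraticAlgebra.im_add, map_add, map_add, PR.sh_iterate_add,
      PR.sh_iterate_add, map_add, map_add]
    ring
  map_mul' x y := by
    obtain ⟨a, b⟩ := x
    obtain ⟨c, d⟩ := y
    have h1 : (⟨a, b⟩ * ⟨c, d⟩ : QR D (-1 : S)) = ⟨a * c - b * d, a * d + b * c⟩ := by
      refine QuadraticAlgebra.ext ?_ ?_
      · rw [QuadraticAlgebra.re_mul]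
        change a * c + algebraMap S (PR D S) (-1) * b * d = a * c - b * d
        rw [map_neg, map_one]
        ring
      · rw [QuadraticAlgebra.im_mul]
        change a * d + b * c + 0 * b * d = a * d + b * c
        ring
    rw [h1]
    change ψ ((PR.sh D)^[i] (PR.map D φ (a * c - b * d))) +
      s * ψ ((PR.sh D)^[i] (PR.map D φ (a * d + b * c))) =
      (ψ ((PR.sh D)^[i] (PR.map D φ a)) + s * ψ ((PR.sh D)^[i] (PR.map D φ b))) *
      (ψ ((PR.sh D)^[i] (PR.map D φ c)) + s * ψ ((PR.sh D)^[i] (PR.map D φ d)))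
    have h2 : ∀ x y : PR D k, (PR.sh D)^[i] (x - y) = (PR.sh D)^[i] x - (PR.sh D)^[i] y := by
      intro x y
      ext c
      simp only [PR.sh_iterate, PR.sub_apply]
    rw [map_sub, h2, map_sub, map_mul, map_mul, map_add, PR.sh_iterate_add, map_add, map_mul,
      map_mul, PR.sh_iterate_mul, PR.sh_iterate_mul, PR.sh_iterate_mul, PR.sh_iterate_mul, map_mul,
      map_mul, map_mul, map_mul]
    linear_combination -(ψ ((PR.sh D)^[i] (PR.map D φ b)) * ψ ((PR.sh D)^[i] (PR.map D φ d))) * hs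

end pts

end Pool.Agent.Lib.MP_673eb1_lc
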