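import Pool.Agent.Lib.MP_673eb1_lc.DefsDio

/-!
MP_673eb1_lc, module Pol: polynomial maps between vector spaces (`polFun`, `IsPol` of DefsDio).
-/

set_option autoImplicit false

namespace Pool.Agent.Lib.MP_673eb1_lc

variable {K : Type*} [Field K] {V W U : Type*} [AddCommGroup V] [Module K V]
  [AddCommGroup W] [Module K W] [AddCommGroup U] [Module K U]

private theorem pol_lin (l : V →ₗ[K] K) : (fun v => l v) ∈ polFun K V :=
  Algebra.subset_adjoin ⟨l, rfl⟩

private theorem pol_const (c : K) : (fun _ : V => c) ∈ polFun K V :=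
  (polFun K V).algebraMap_mem c

private theorem pol_add {p q : V → K} (hp : p ∈ polFun K V) (hq : q ∈ polFun K V) :
    (fun v => p v + q v) ∈ polFun K V := (polFun K V).add_mem hp hq

private theorem pol_mul {p q : V → K} (hp : p ∈ polFun K V) (hq : q ∈ polFun K V) :
    (fun v => p v * q v) ∈ polFun K V := (polFun K V).mul_mem hp hq

private theorem pol_sum {ι : Type*} (s : Finset ι) {p : ι → V → K}
    (hp : ∀ i ∈ s, p i ∈ polFun K V) : (fun v => ∑ i ∈ s, p i v) ∈ polFun K V := by
  have h1 : (fun v => ∑ i ∈ s, p i v) = ∑ i ∈ s, p i := by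
    funext v
    rw [Finset.sum_apply]
  rw [h1]
  exact (polFun K V).sum_mem hp

private theorem pol_ind {P : (V → K) → Prop} (h1 : ∀ l : V →ₗ[K] K, P fun v => l v)
    (h2 : ∀ c : K, P fun _ => c) (h3 : ∀ p q, P p → P q → P fun v => p v + q v)
    (h4 : ∀ p q, P p → P q → P fun v => p v * q v) {p : V → K} (hp : p ∈ polFun K V) : P p := by
  unfold polFun at hp
  induction hp using Algebra.adjoin_induction with
  | mem x hx =>
    obtain ⟨l, rfl⟩ := hx
    exact h1 l
  | algebraMap r => exact h2 r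
  | add x y _ _ hx hy => exact h3 x y hx hy
  | mul x y _ _ hx hy => exact h4 x y hx hy

/-- Composition with a polynomial map preserves polynomial functions
(`Algebra.adjoin_induction`). -/
theorem polFun_comp {φ : V → W} (hφ : IsPol K φ) {p : W → K} (hp : p ∈ polFun K W) :
    (fun v => p (φ v)) ∈ polFun K V := by
  refine pol_ind (P := fun p => (fun v => p (φ v)) ∈ polFun K V) ?_ ?_ ?_ ?_ hp
  · exact fun l => hφ l
  · exact fun c => pol_const c
  · exact fun p q hp hq => pol_add hp hq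
  · exact fun p q hp hq => pol_mul hp hq

theorem isPol_iff {φ : V → K} : IsPol K φ ↔ φ ∈ polFun K V := by
  constructor
  · intro h
    exact h LinearMap.id
  · intro h l
    have h1 : (fun v => l (φ v)) = fun v => φ v * l 1 := by
      funext v
      rw [← smul_eq_mul, ← map_smul, smul_eq_mul, mul_one]
    rw [h1]
    exact pol_mul h (pol_const _)

theorem IsPol.linear (l : V →ₗ[K] W) : IsPol K (fun v => l v) := fun l' => pol_lin (l'.comp l)

theorem IsPol.id : IsPol K (fun v : V => v) := IsPol.linear LinearMap.id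

theorem IsPol.const (w : W) : IsPol K (fun _ : V => w) := fun l => pol_const (l w)

theorem IsPol.comp {ψ : W → U} {φ : V → W} (hψ : IsPol K ψ) (hφ : IsPol K φ) :
    IsPol K (fun v => ψ (φ v)) := fun l => polFun_comp hφ (hψ l)

theorem IsPol.fst : IsPol K (fun v : V × W => v.1) := IsPol.linear (LinearMap.fst K V W)

theorem IsPol.snd : IsPol K (fun v : V × W => v.2) := IsPol.linear (LinearMap.snd K V W)

theorem IsPol.prodMk {φ : U → V} {ψ : U → W} (hφ : IsPol K φ) (hψ : IsPol K ψ) :
    IsPol K (fun u => (φ u, ψ u)) := by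
  intro l
  have h1 : (fun u => l (φ u, ψ u)) =
      fun u => (l.comp (LinearMap.inl K V W)) (φ u) + (l.comp (LinearMap.inr K V W)) (ψ u) := by
    funext u
    rw [LinearMap.comp_apply, LinearMap.comp_apply, ← map_add]
    congr 1
    simp
  rw [h1]
  exact pol_add (hφ _) (hψ _)

theorem IsPol.add {φ ψ : V → W} (hφ : IsPol K φ) (hψ : IsPol K ψ) :
    IsPol K (fun v => φ v + ψ v) := by
  intro l
  have h1 : (fun v => l (φ v + ψ v)) = fun v => l (φ v) + l (ψ v) := by
    funext v
    rw [map_add]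
  rw [h1]
  exact pol_add (hφ l) (hψ l)

theorem IsPol.neg {φ : V → W} (hφ : IsPol K φ) : IsPol K (fun v => -φ v) := by
  intro l
  have h1 : (fun v => l (-φ v)) = fun v => (-1 : K) * l (φ v) := by
    funext v
    rw [map_neg, neg_one_mul]
  rw [h1]
  exact pol_mul (pol_const _) (hφ l)

theorem IsPol.sub {φ ψ : V → W} (hφ : IsPol K φ) (hψ : IsPol K ψ) :
    IsPol K (fun v => φ v - ψ v) := by
  have h1 : (fun v => φ v - ψ v) = fun v => φ v + -ψ v := by
    funext v
    rw [sub_eq_add_neg]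
  rw [h1]
  exact hφ.add hψ.neg

theorem IsPol.sum {ι : Type*} (s : Finset ι) {φ : ι → V → W} (hφ : ∀ i ∈ s, IsPol K (φ i)) :
    IsPol K (fun v => ∑ i ∈ s, φ i v) := by
  intro l
  have h1 : (fun v => l (∑ i ∈ s, φ i v)) = fun v => ∑ i ∈ s, l (φ i v) := by
    funext v
    rw [map_sum]
  rw [h1]
  exact pol_sum s fun i hi => hφ i hi l

theorem IsPol.smul {c : V → K} {φ : V → W} (hc : IsPol K c) (hφ : IsPol K φ) :
    IsPol K (fun v => c v • φ v) := by
  intro l
  have h1 : (fun v => l (c v • φ v)) = fun v => c v * l (φ v) := by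
    funext v
    rw [map_smul, smul_eq_mul]
  rw [h1]
  exact pol_mul (isPol_iff.1 hc) (hφ l)

/-- Product in a finite dimensional algebra: expand in a basis. -/
theorem IsPol.mul {A : Type*} [Ring A] [Algebra K A] [FiniteDimensional K A] {φ ψ : V → A}
    (hφ : IsPol K φ) (hψ : IsPol K ψ) : IsPol K (fun v => φ v * ψ v) := by
  obtain ⟨b, -⟩ : ∃ b : Module.Basis (Fin (Module.finrank K A)) K A, b = b :=
    ⟨Module.finBasis K A, rfl⟩
  have h1 : (fun v => φ v * ψ v) = fun v => ∑ i, ∑ j,
      (b.coord i (φ v) * b.coord j (ψ v)) • (b i * b j) := by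
    funext v
    conv_lhs => rw [← b.sum_repr (φ v), ← b.sum_repr (ψ v)]
    rw [Finset.sum_mul]
    refine Finset.sum_congr rfl fun i _ => ?_
    rw [Finset.mul_sum]
    refine Finset.sum_congr rfl fun j _ => ?_
    rw [smul_mul_smul_comm]
    rfl
  rw [h1]
  refine IsPol.sum _ fun i _ => IsPol.sum _ fun j _ => IsPol.smul ?_ (IsPol.const _)
  exact isPol_iff.2 (pol_mul (hφ _) (hψ _))

theorem IsPol.pow {A : Type*} [Ring A] [Algebra K A] [FiniteDimensional K A] {φ : V → A}
    (hφ : IsPol K φ) (n : ℕ) : IsPol K (fun v => φ v ^ n) := by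
  induction n with
  | zero =>
    have h1 : (fun v => φ v ^ 0) = fun _ : V => (1 : A) := by
      funext v
      rw [pow_zero]
    rw [h1]
    exact IsPol.const 1
  | succ n ih =>
    have h1 : (fun v => φ v ^ (n + 1)) = fun v => φ v ^ n * φ v := by
      funext v
      rw [pow_succ]
    rw [h1]
    exact ih.mul hφ

theorem IsPol.prod {A : Type*} [CommRing A] [Algebra K A] [FiniteDimensional K A] {ι : Type*}
    (s : Finset ι) {φ : ι → V → A} (hφ : ∀ i ∈ s, IsPol K (φ i)) :
    IsPol K (fun v => ∏ i ∈ s, φ i v) := by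
  classical
  induction s using Finset.induction_on with
  | empty =>
    have h1 : (fun v => ∏ i ∈ (∅ : Finset ι), φ i v) = fun _ : V => (1 : A) := by
      funext v
      rw [Finset.prod_empty]
    rw [h1]
    exact IsPol.const 1
  | insert a s ha ih =>
    have h1 : (fun v => ∏ i ∈ insert a s, φ i v) = fun v => φ a v * ∏ i ∈ s, φ i v := by
      funext v
      rw [Finset.prod_insert ha]
    rw [h1]
    exact (hφ a (Finset.mem_insert_self a s)).mul
      (ih fun i hi => hφ i (Finset.mem_insert_of_mem hi))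

theorem IsPol.pi {ι : Type*} [Finite ι] {φ : V → ι → K} (hφ : ∀ i, IsPol K (fun v => φ v i)) :
    IsPol K φ := by
  classical
  have := Fintype.ofFinite ι
  intro l
  have h1 : (fun v => l (φ v)) = fun v => ∑ i, φ v i * l (fun j => if i = j then 1 else 0) := by
    funext v
    rw [LinearMap.pi_apply_eq_sum_univ l (φ v)]
    rfl
  rw [h1]
  exact pol_sum _ fun i _ => pol_mul (isPol_iff.1 (hφ i)) (pol_const _)

theorem IsPol.apply {ι : Type*} {φ : V → ι → K} (hφ : IsPol K φ) (i : ι) :
    IsPol K (fun v => φ v i) := isPol_iff.2 (hφ (LinearMap.proj i))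

/-- Homogenisation of one polynomial function: for `p` polynomial on `V × (ι → K)` there are `N` and a
polynomial function `p'` on `(V × (ι → K)) × K` with `p' ((v, x), b) = b ^ N * p (v, b⁻¹ • x)` for
`b ≠ 0`. Induction in the algebra `polFun` (products: `N + N'`, sums: multiply by powers of `b`). -/
theorem polFun_homog {ι : Type*} [Finite ι] {p : V × (ι → K) → K} (hp : p ∈ polFun K (V × (ι → K))) :
    ∃ (N : ℕ) (p' : (V × (ι → K)) × K → K), p' ∈ polFun K ((V × (ι → K)) × K) ∧
      ∀ (v : V) (x : ι → K) (b : K), b ≠ 0 → p' ((v, x), b) = b ^ N * p (v, b⁻¹ • x) := by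
  have hb : ∀ N : ℕ, (fun w : (V × (ι → K)) × K => w.2 ^ N) ∈ polFun K ((V × (ι → K)) × K) :=
    fun N => isPol_iff.1 (IsPol.snd.pow N)
  refine pol_ind (P := fun p => ∃ (N : ℕ) (p' : (V × (ι → K)) × K → K),
    p' ∈ polFun K ((V × (ι → K)) × K) ∧
      ∀ (v : V) (x : ι → K) (b : K), b ≠ 0 → p' ((v, x), b) = b ^ N * p (v, b⁻¹ • x)) ?_ ?_ ?_ ?_ hp
  · intro l
    have e1 : ∀ (v : V) (x : ι → K), l (v, x) = l (v, 0) + l (0, x) := by
      intro v x
      rw [← map_add]
      congr 1
      simp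
    have p1 : (fun w : (V × (ι → K)) × K => l (w.1.1, 0)) ∈ polFun K ((V × (ι → K)) × K) := by
      have h1 : IsPol K fun w : (V × (ι → K)) × K => ((w.1.1, (0 : ι → K)) : V × (ι → K)) :=
        IsPol.prodMk (IsPol.comp IsPol.fst IsPol.fst) (IsPol.const _)
      exact h1 l
    have p2 : (fun w : (V × (ι → K)) × K => l (0, w.1.2)) ∈ polFun K ((V × (ι → K)) × K) := by
      have h1 : IsPol K fun w : (V × (ι → K)) × K => (((0 : V), w.1.2) : V × (ι → K)) :=
        IsPol.prodMk (IsPol.const _) (IsPol.comp IsPol.snd IsPol.fst)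
      exact h1 l
    refine ⟨1, fun w => w.2 ^ 1 * l (w.1.1, 0) + l (0, w.1.2), pol_add (pol_mul (hb 1) p1) p2, ?_⟩
    intro v x b hb0
    have e2 : l (0, b⁻¹ • x) = b⁻¹ * l (0, x) := by
      rw [← smul_eq_mul, ← map_smul]
      congr 1
      simp
    change b ^ 1 * l (v, 0) + l (0, x) = b ^ 1 * l (v, b⁻¹ • x)
    rw [e1 v (b⁻¹ • x), e2, mul_add, pow_one, mul_inv_cancel_left₀ hb0]
  · intro c
    refine ⟨0, fun _ => c, pol_const c, fun v x b _ => ?_⟩
    rw [pow_zero, one_mul]
  · rintro p q ⟨N, p', hp', h1⟩ ⟨M, q', hq', h2⟩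
    refine ⟨N + M, fun w => w.2 ^ M * p' w + w.2 ^ N * q' w,
      pol_add (pol_mul (hb M) hp') (pol_mul (hb N) hq'), fun v x b hb0 => ?_⟩
    change b ^ M * p' ((v, x), b) + b ^ N * q' ((v, x), b) = _
    rw [h1 v x b hb0, h2 v x b hb0]
    ring
  · rintro p q ⟨N, p', hp', h1⟩ ⟨M, q', hq', h2⟩
    refine ⟨N + M, fun w => p' w * q' w, pol_mul hp' hq', fun v x b hb0 => ?_⟩
    change p' ((v, x), b) * q' ((v, x), b) = _
    rw [h1 v x b hb0, h2 v x b hb0]
    ring

/-- A polynomial function on `K × (Fin m → K)` is given by a polynomial in `m + 1` variables. -/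
theorem polFun_mvPolynomial {m : ℕ} {p : K × (Fin m → K) → K} (hp : p ∈ polFun K (K × (Fin m → K))) :
    ∃ f : MvPolynomial (Fin (m + 1)) K, ∀ (x : K) (z : Fin m → K),
      MvPolynomial.eval (Fin.cons x z) f = p (x, z) := by
  classical
  refine pol_ind (P := fun p => ∃ f : MvPolynomial (Fin (m + 1)) K, ∀ (x : K) (z : Fin m → K),
      MvPolynomial.eval (Fin.cons x z) f = p (x, z)) ?_ ?_ ?_ ?_ hp
  · intro l
    refine ⟨MvPolynomial.C (l (1, 0)) * MvPolynomial.X 0 +
      ∑ i, MvPolynomial.C (l (0, fun j => if i = j then 1 else 0)) * MvPolynomial.X (Fin.succ i),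
      fun x z => ?_⟩
    have e1 : l (x, z) = l (x, 0) + l (0, z) := by
      rw [← map_add]
      congr 1
      simp
    have e2 : l (x, 0) = x * l (1, 0) := by
      rw [← smul_eq_mul, ← map_smul]
      congr 1
      simp
    have e3 : l (0, z) = ∑ i, z i * l (0, fun j => if i = j then 1 else 0) :=
      LinearMap.pi_apply_eq_sum_univ (l.comp (LinearMap.inr K K (Fin m → K))) z
    change _ = l (x, z)
    rw [map_add, map_mul, map_sum, MvPolynomial.eval_C, MvPolynomial.eval_X, Fin.cons_zero, e1, e2,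
      e3, mul_comm]
    congr 1
    refine Finset.sum_congr rfl fun i _ => ?_
    rw [map_mul, MvPolynomial.eval_C, MvPolynomial.eval_X, Fin.cons_succ, mul_comm]
  · intro c
    exact ⟨MvPolynomial.C c, fun x z => MvPolynomial.eval_C c⟩
  · rintro p q ⟨f, hf⟩ ⟨g, hg⟩
    exact ⟨f + g, fun x z => by rw [map_add, hf, hg]⟩
  · rintro p q ⟨f, hf⟩ ⟨g, hg⟩
    exact ⟨f * g, fun x z => by rw [map_mul, hf, hg]⟩

end Pool.Agent.Lib.MP_673eb1_lc
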